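import Pool.Agent.Work.MP_1233f5_ag.Z.Stmts
import Pool.Agent.Work.MP_1233f5_ag.Y.Util
import Pool.Agent.Work.MP_1233f5_ag.Y.Basic

/-! MP_1233f5_ag, block LS (captain helper4): the linear strand of Veronese threefolds.
Paper proof: note 4792.  Here `d = r + 1`. -/

set_option autoImplicit false

namespace Pool.Agent.Work.MP_1233f5_ag.LS

open Finset
open Pool.Agent.Work.MP_1233f5_ag.V (vm ML theta rVan)
open Pool.Agent.Work.MP_1233f5_ag.Y
open Pool.Agent.Work.MP_1233f5_ag.Z
open Pool.Agent.Work.MP_1233f5_ag.Sec (Fk wd ct ee ff hh IsSec IsDeg swd brk)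

/-! ### representations -/

section rep
variable {K : Type} [Field K] {α : Type} [Fintype α] [DecidableEq α] {H : Type}
  [AddCommGroup H] [Module K H]

/-- `V` is stable. -/
def Stb (ρ : Equiv.Perm α →* Module.End K H) (V : Submodule K H) : Prop :=
  ∀ σ, ∀ h ∈ V, ρ σ h ∈ V

/-- a vector of `V` invariant under the permutations of at least `c` points vanishes. -/
def NoSym (ρ : Equiv.Perm α →* Module.End K H) (V : Submodule K H) (c : ℕ) : Prop :=
  ∀ A : Finset α, c ≤ A.card → ∀ h ∈ V, (∀ σ, Sup A σ → ρ σ h = h) → h = 0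

/-- disjoint groups `G j`, `j ∈ J`, outside `P`. -/
structure Grp (J : Finset ℕ) (G : ℕ → Finset α) (P : Finset α) : Prop where
  dis : ∀ i ∈ J, ∀ j ∈ J, i ≠ j → Disjoint (G i) (G j)
  out : ∀ j ∈ J, Disjoint (G j) P

/-- `h` is antisymmetric in each group. -/
def AntG (ρ : Equiv.Perm α →* Module.End K H) (J : Finset ℕ) (G : ℕ → Finset α) (h : H) : Prop :=
  ∀ j ∈ J, ∀ σ, Sup (G j) σ → ρ σ h = ((Equiv.Perm.sign σ : ℤ) : K) • h

/-- the antisymmetrization of `h` over each `G j + y` vanishes. -/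
def ExtG (ρ : Equiv.Perm α →* Module.End K H) (J : Finset ℕ) (G : ℕ → Finset α) (y : α)
    (h : H) : Prop :=
  ∀ j ∈ J, asym ρ (insert y (G j)) h = 0

/-- the extra properties of the functionals: values in `V`, antisymmetric in the groups, and
`ExtG` for the points of the section. -/
structure Exx (ρ : Equiv.Perm α →* Module.End K H) (V : Submodule K H) (J : Finset ℕ)
    (G : ℕ → Finset α) (r k : ℕ) (I : Finset (ℕ × ℕ)) (P : Finset α)
    (Φ : (ℕ × ℕ → Finset α) → ((Finset α → Fk K) →ₗ[K] H)) : Prop where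
  val : ∀ n, Cf r I P n → ∀ s ∈ Sc K r (k + 1) (rest I P n), Φ n s ∈ V
  ant : ∀ n, Cf r I P n → ∀ s ∈ Sc K r (k + 1) (rest I P n), AntG ρ J G (Φ n s)
  ext : ∀ n, Cf r I P n → ∀ s ∈ Sc K r (k + 1) (rest I P n), ∀ y ∈ rest I P n,
    ExtG ρ J G y (Φ n s)

end rep

/-! ### targets -/

section tgt
variable {K : Type} [Field K] {α : Type} [Fintype α] [DecidableEq α]

/-- a target: a stable submodule containing the boundaries. -/
structure Tgt (r p : ℕ) (B : Submodule K (Lx K α)) : Prop where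
  bd : Bd K (r + 1) (univ : Finset α) p ≤ B
  st : ∀ σ, ∀ x ∈ B, act K α σ x ∈ B

/-- the action on the quotient. -/
noncomputable def actB (B : Submodule K (Lx K α)) (hB : ∀ σ, ∀ x ∈ B, act K α σ x ∈ B) :
    Equiv.Perm α →* Module.End K (Lx K α ⧸ B) where
  toFun σ := Submodule.mapQ _ _ (act K α σ) (fun x hx => hB σ x hx)
  map_one' := by
    apply LinearMap.ext
    intro x
    obtain ⟨x, rfl⟩ := Submodule.mkQ_surjective _ x
    rw [Submodule.mkQ_apply, Submodule.mapQ_apply, map_one]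
    rfl
  map_mul' := by
    intro σ τ
    apply LinearMap.ext
    intro x
    obtain ⟨x, rfl⟩ := Submodule.mkQ_surjective _ x
    rw [Submodule.mkQ_apply, Submodule.mapQ_apply, map_mul]
    rfl

omit [Fintype α] [DecidableEq α] in
theorem actB_mk (B : Submodule K (Lx K α)) (hB : ∀ σ, ∀ x ∈ B, act K α σ x ∈ B)
    (σ : Equiv.Perm α) (x : Lx K α) : actB B hB σ (B.mkQ x) = B.mkQ (act K α σ x) := rfl

/-- the classes of the cycles. -/
noncomputable def VB (r p : ℕ) (B : Submodule K (Lx K α)) : Submodule K (Lx K α ⧸ B) :=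
  (Cy K (r + 1) (univ : Finset α) p).map B.mkQ

/-- the statement of the induction, with target `B`. -/
def WdB (r p a : ℕ) (B : Submodule K (Lx K α)) : Prop :=
  ∀ (L : List ℕ) (b : ℕ → ℕ) (η : ℕ → ℕ → α) (n : ℕ × ℕ → Finset α),
    LV r univ L b η n → (L.map b).sum + a = p →
    ∀ κ ∈ Cy K (r + 1) (univ \ ls L b η n) a, pq L b η n * κ ∈ B

/-- boundaries and cycles invariant under the permutations of `c` points. -/
noncomputable def BBs (K : Type) [Field K] (α : Type) [Fintype α] [DecidableEq α] (r p c : ℕ) :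
    Submodule K (Lx K α) :=
  Bd K (r + 1) (univ : Finset α) p ⊔ Submodule.span K {z | z ∈ Cy K (r + 1) (univ : Finset α) p ∧
    ∃ A : Finset α, A.card = c ∧ ∀ σ, Sup A σ → act K α σ z = z}

end tgt

/-! ### at most `m` rows -/

section rows
variable (K : Type) [Field K] {α : Type} [Fintype α] [DecidableEq α]

/-- the span of the cycles antisymmetric in `m + 1` points. -/
noncomputable def Rw (m d : ℕ) (P : Finset α) (p : ℕ) : Submodule K (Lx K α) :=
  Submodule.span K {z | z ∈ Cy K d P p ∧ ∃ Q ⊆ P, Q.card = m + 1 ∧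
    ∀ σ, Sup Q σ → act K α σ z = ((Equiv.Perm.sign σ : ℤ) : K) • z}

/-- some point of `X` is uncovered in every monomial. -/
noncomputable def UncX (d : ℕ) (X P : Finset α) (j : ℕ) : Submodule K (Lx K α) :=
  ⨆ y ∈ X, Mt K d (P.erase y) j

/-- products of disjoint sets covering `X`, each meeting `X`, with a cycle on the other points. -/
noncomputable def CovX (d : ℕ) (X P : Finset α) (j : ℕ) : Submodule K (Lx K α) :=
  Submodule.span K {x | ∃ (s : ℕ) (t : ℕ → Finset α) (κ : Lx K α), s ≤ j ∧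
    (∀ i < s, (t i).card = d ∧ t i ⊆ P ∧ (t i ∩ X).Nonempty) ∧
    (∀ i < s, ∀ i' < s, i ≠ i' → Disjoint (t i) (t i')) ∧ X ⊆ (range s).biUnion t ∧
    κ ∈ Cy K d (P \ (range s).biUnion t) (j - s) ∧ x = mo (fun i : Fin s => t (i : ℕ)) * κ}

/-- vanishing on `C^m`. -/
def VVm (m d T p : ℕ) : Prop :=
  ∀ (α : Type) [Fintype α] [DecidableEq α] (P : Finset α), P.card = p * d + T →
    Cy K d P p ≤ Bd K d P p ⊔ Rw K m d P p

/-- every cycle which is alternating for a colouring with at most `s` colours is a boundary,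
modulo cycles antisymmetric in `m + 1` points. -/
def ZVm (m d T s c : ℕ) : Prop :=
  ∀ (α : Type) [Fintype α] [DecidableEq α] (P : Finset α) (χ : α → ℕ),
    P.card = c * d + T → (P.image χ).card ≤ s → CyA K χ d P c ≤ Bd K d P c ⊔ Rw K m d P c

end rows

/-- the algebra map induced by a map of sets of points. -/
noncomputable def mpS (K : Type) [Field K] {α β : Type} (g : Finset α → Finset β) :
    Lx K α →ₗ[K] Lx K β :=
  (ExteriorAlgebra.map
    (Finsupp.lmapDomain K K g : (Finset α →₀ K) →ₗ[K] (Finset β →₀ K))).toLinearMap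

end Pool.Agent.Work.MP_1233f5_ag.LS
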