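import Pool.Agent.Work.MP_1233f5_ag.LS.Stmts

/-! MP_1233f5_ag, block LS: permutations of a finite family of points; antisymmetry of `qn`. -/

set_option autoImplicit false

namespace Pool.Agent.Work.MP_1233f5_ag.LS

open Finset
open Pool.Agent.Work.MP_1233f5_ag.V (vm ML theta rVan)
open Pool.Agent.Work.MP_1233f5_ag.Y
open Pool.Agent.Work.MP_1233f5_ag.Sec (Fk wd ct ee ff hh IsSec IsDeg swd brk)

namespace Ex

section
variable {α : Type} [Fintype α] [DecidableEq α]

open Classical in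
/-- the permutations of the points `η 0, .., η (N - 1)` are the permutations of `Fin N`. -/
theorem sup_ex (N : ℕ) (η : ℕ → α) (hinj : ∀ i < N, ∀ j < N, η i = η j → i = j) :
    ∃ ex : Equiv.Perm (Fin N) → Equiv.Perm α,
      (∀ τ, Equiv.Perm.sign (ex τ) = Equiv.Perm.sign τ) ∧
      (∀ τ (i : Fin N), ex τ (η (i : ℕ)) = η ((τ i : Fin N) : ℕ)) ∧
      (∀ τ z, z ∉ (range N).image η → ex τ z = z) ∧
      (∀ σ, Sup ((range N).image η) σ → ∃ τ, ex τ = σ) ∧ Function.Injective ex := by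
  set Q : Finset α := (range N).image η with hQ
  have hmem : ∀ i : Fin N, η (i : ℕ) ∈ Q := by
    intro i
    exact mem_image_of_mem _ (mem_range.2 i.2)
  have hcase : ∀ z ∈ Q, ∃ i : Fin N, z = η (i : ℕ) := by
    intro z hz
    obtain ⟨i, hi, rfl⟩ := mem_image.1 hz
    exact ⟨⟨i, mem_range.1 hi⟩, rfl⟩
  have hfin : ∀ i j : Fin N, η (i : ℕ) = η (j : ℕ) → i = j := by
    intro i j h
    exact Fin.ext (hinj _ i.2 _ j.2 h)
  let g : Fin N ≃ {z // z ∈ Q} := Equiv.ofBijective (fun i => ⟨η (i : ℕ), hmem i⟩) (by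
    constructor
    · intro i j h
      exact hfin i j (Subtype.ext_iff.1 h)
    · rintro ⟨z, hz⟩
      obtain ⟨i, rfl⟩ := hcase z hz
      exact ⟨i, rfl⟩)
  have hg : ∀ i : Fin N, ((g i : {z // z ∈ Q}) : α) = η (i : ℕ) := fun i => rfl
  have h1 : ∀ (τ : Equiv.Perm (Fin N)) (i : Fin N),
      τ.extendDomain g (η (i : ℕ)) = η ((τ i : Fin N) : ℕ) := by
    intro τ i
    have h := Equiv.Perm.extendDomain_apply_image τ g i
    rw [hg, hg] at h
    exact h
  have h2 : ∀ (τ : Equiv.Perm (Fin N)) z, z ∉ Q → τ.extendDomain g z = z := by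
    intro τ z hz
    exact Equiv.Perm.extendDomain_apply_not_subtype τ g hz
  refine ⟨fun τ => τ.extendDomain g, fun τ => Equiv.Perm.sign_extendDomain τ g, h1, h2, ?_, ?_⟩
  · intro σ hs
    have hQQ : ∀ z ∈ Q, σ z ∈ Q := by
      intro z hz
      by_contra hc
      have h3 := σ.injective (hs _ hc)
      rw [h3] at hc
      exact hc hz
    let t : Fin N → Fin N := fun i => g.symm ⟨σ (η (i : ℕ)), hQQ _ (hmem i)⟩
    have ht : ∀ i, η ((t i : Fin N) : ℕ) = σ (η (i : ℕ)) := by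
      intro i
      have h4 : g (t i) = ⟨σ (η (i : ℕ)), hQQ _ (hmem i)⟩ := g.apply_symm_apply _
      rw [← hg, h4]
    have hti : Function.Injective t := by
      intro i j h
      apply hfin
      apply σ.injective
      rw [← ht, ← ht, h]
    refine ⟨Equiv.ofBijective t (Finite.injective_iff_bijective.1 hti), ?_⟩
    apply Equiv.ext
    intro z
    by_cases hz : z ∈ Q
    · obtain ⟨i, rfl⟩ := hcase z hz
      rw [h1, ← ht i]
      rfl
    · rw [h2 _ z hz]
      exact (hs z hz).symm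
  · intro τ τ' h
    apply Equiv.ext
    intro i
    apply hfin
    rw [← h1, ← h1]
    exact DFunLike.congr_fun h _

/-- sums over the permutations of the points. -/
theorem sum_ex {M : Type} [AddCommMonoid M] {N : ℕ} {Q : Finset α}
    {ex : Equiv.Perm (Fin N) → Equiv.Perm α} [DecidablePred (fun σ : Equiv.Perm α => Sup Q σ)]
    (h3 : ∀ τ z, z ∉ Q → ex τ z = z)
    (h4 : ∀ σ, Sup Q σ → ∃ τ, ex τ = σ) (h5 : Function.Injective ex) (F : Equiv.Perm α → M) :
    ∑ σ ∈ univ.filter (fun σ : Equiv.Perm α => Sup Q σ), F σ =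
      ∑ τ : Equiv.Perm (Fin N), F (ex τ) := by
  symm
  refine sum_bij (fun τ _ => ex τ) ?_ ?_ ?_ (fun _ _ => rfl)
  · intro τ _
    rw [mem_filter]
    exact ⟨mem_univ _, fun z hz => h3 τ z hz⟩
  · intro τ _ τ' _ h
    exact h5 h
  · intro σ hσ
    obtain ⟨τ, h⟩ := h4 σ (mem_filter.1 hσ).2
    exact ⟨τ, mem_univ _, h⟩

end

section
variable {K : Type} [Field K] {α : Type} [DecidableEq α]

theorem act_qn (σ : Equiv.Perm α) (b : ℕ) (η : ℕ → α) (n : ℕ → Finset α) :
    act K α σ (qn b η n) = qn b (fun i => σ (η i)) (fun i => im σ (n i)) := by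
  unfold qn
  rw [map_sum]
  refine sum_congr rfl fun τ _ => ?_
  rw [map_smul, act_mo]
  congr 2
  funext i
  rw [Y.im_insert]

/-- reordering the points of `qn`. -/
theorem qn_reorder (b : ℕ) (η : ℕ → α) (n : ℕ → Finset α) (τ : Equiv.Perm (Fin (b + 1)))
    (η' : ℕ → α) (h : ∀ i : Fin (b + 1), η' (i : ℕ) = η ((τ i : Fin (b + 1)) : ℕ)) :
    (qn b η' n : Lx K α) = ((Equiv.Perm.sign τ : ℤ) : K) • qn b η n := by
  unfold qn
  rw [smul_sum]
  have h1 : ∀ σ : Equiv.Perm (Fin (b + 1)), ((Equiv.Perm.sign τ : ℤ) : K) •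
      (((Equiv.Perm.sign (τ * σ) : ℤ) : K) •
        (mo (fun i : Fin b => insert (η (((τ * σ) i.castSucc : Fin (b + 1)) : ℕ)) (n (i : ℕ))) :
          Lx K α)) = ((Equiv.Perm.sign σ : ℤ) : K) •
      (mo (fun i : Fin b => insert (η' ((σ i.castSucc : Fin (b + 1)) : ℕ)) (n (i : ℕ))) :
          Lx K α) := by
    intro σ
    rw [smul_smul]
    congr 1
    · rw [Equiv.Perm.sign_mul, Units.val_mul, Int.cast_mul, ← mul_assoc, ← Int.cast_mul,
        ← Units.val_mul, Int.units_mul_self, Units.val_one, Int.cast_one, one_mul]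
    · congr 1
      funext i
      rw [h]
      rfl
  rw [sum_congr rfl fun σ _ => (h1 σ).symm]
  exact Fintype.sum_equiv (Equiv.mulLeft τ) _ _ fun σ => rfl

/-- `qn` is antisymmetric in its points. -/
theorem qn_anti [Fintype α] (b : ℕ) (η : ℕ → α) (n : ℕ → Finset α)
    (hinj : ∀ i ≤ b, ∀ j ≤ b, η i = η j → i = j) (hn : ∀ i ≤ b, ∀ j < b, η i ∉ n j)
    (σ : Equiv.Perm α) (hσ : Sup ((range (b + 1)).image η) σ) :
    act K α σ (qn b η n) = ((Equiv.Perm.sign σ : ℤ) : K) • qn b η n := by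
  obtain ⟨ex, e1, e2, e3, e4, e5⟩ := sup_ex (b + 1) η
    (fun i hi j hj => hinj i (Nat.le_of_lt_succ hi) j (Nat.le_of_lt_succ hj))
  obtain ⟨τ, rfl⟩ := e4 σ hσ
  rw [act_qn, e1]
  rw [qn_congr (η' := fun i => ex τ (η i)) (n' := n) (fun _ _ => rfl) (fun i hi => ?_)]
  · exact qn_reorder b η n τ _ (fun i => e2 τ i)
  · refine im_eq_self fun a ha => hσ a ?_
    intro hc
    obtain ⟨j, hj, rfl⟩ := mem_image.1 hc
    exact hn j (Nat.le_of_lt_succ (mem_range.1 hj)) i hi ha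

end

end Ex

end Pool.Agent.Work.MP_1233f5_ag.LS
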