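import Pool.Agent.Work.MP_1233f5_ag.LS.Stmts

/-! MP_1233f5_ag, block LS, item AsI: expansion of the antisymmetrizer. -/

set_option autoImplicit false

namespace Pool.Agent.Work.MP_1233f5_ag.LS

open Finset
open Pool.Agent.Work.MP_1233f5_ag.V (vm ML theta rVan)
open Pool.Agent.Work.MP_1233f5_ag.Y
open Pool.Agent.Work.MP_1233f5_ag.Z
open Pool.Agent.Work.MP_1233f5_ag.Sec (Fk wd ct ee ff hh IsSec IsDeg swd brk)

namespace IAsI

/-- the number of permutations moving only points of `Q`. -/
theorem card_sup {α : Type} [Fintype α] [DecidableEq α] (Q : Finset α)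
    [DecidablePred (fun σ : Equiv.Perm α => Sup Q σ)] :
    (univ.filter (fun σ : Equiv.Perm α => Sup Q σ)).card = Q.card.factorial := by
  classical
  have e : Equiv.Perm {a // a ∈ Q} ≃ {σ : Equiv.Perm α // Sup Q σ} :=
    Equiv.Perm.subtypeEquivSubtypePerm (fun a => a ∈ Q)
  rw [← Fintype.card_subtype, ← Fintype.card_congr e, Fintype.card_perm, Fintype.card_coe]

end IAsI

theorem pr_AsI : S_AsI := by
  classical
  intro K _ α _ _ H _ _ ρ Q y h hy hanti
  rw [U.asym_apply]
  have h1 : ∑ σ ∈ univ.filter (fun σ : Equiv.Perm α => Sup (insert y Q) σ),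
      ((Equiv.Perm.sign σ : ℤ) : K) • ρ σ h =
      ∑ x ∈ (insert y Q) ×ˢ univ.filter (fun σ : Equiv.Perm α => Sup Q σ),
        ((Equiv.Perm.sign (Equiv.swap x.1 y) : ℤ) : K) • ρ (Equiv.swap x.1 y) h := by
    symm
    refine sum_bij' (fun x _ => Equiv.swap x.1 y * x.2)
      (fun σ _ => (σ y, Equiv.swap (σ y) y * σ)) ?_ ?_ ?_ ?_ ?_
    · rintro ⟨g, τ⟩ hx
      rw [mem_product, mem_filter] at hx
      rw [mem_filter]
      refine ⟨mem_univ _, U.sup_mul (U.sup_swap hx.1 (mem_insert_self y Q))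
        (U.sup_mono (subset_insert y Q) hx.2.2)⟩
    · intro σ hσ
      rw [mem_filter] at hσ
      rw [mem_product, mem_filter]
      refine ⟨U.sup_mem hσ.2 (mem_insert_self y Q), mem_univ _, ?_⟩
      intro a ha
      show Equiv.swap (σ y) y (σ a) = a
      by_cases hay : a = y
      · rw [hay, Equiv.swap_apply_left]
      · have ha' : a ∉ insert y Q := by
          rw [mem_insert, not_or]
          exact ⟨hay, ha⟩
        have h2 := hσ.2 a ha'
        rw [h2]
        refine Equiv.swap_apply_of_ne_of_ne ?_ hay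
        intro e
        rw [e] at h2
        exact hay (e.trans (σ.injective h2))
    · rintro ⟨g, τ⟩ hx
      rw [mem_product, mem_filter] at hx
      have hτy : τ y = y := hx.2.2 y hy
      have e1 : (Equiv.swap g y * τ) y = g := by
        rw [Equiv.Perm.mul_apply, hτy, Equiv.swap_apply_right]
      refine Prod.ext e1 ?_
      show Equiv.swap ((Equiv.swap g y * τ) y) y * (Equiv.swap g y * τ) = τ
      rw [e1, Equiv.swap_mul_self_mul]
    · intro σ hσ
      show Equiv.swap (σ y) y * (Equiv.swap (σ y) y * σ) = σ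
      rw [Equiv.swap_mul_self_mul]
    · rintro ⟨g, τ⟩ hx
      rw [mem_product, mem_filter] at hx
      show ((Equiv.Perm.sign (Equiv.swap g y) : ℤ) : K) • ρ (Equiv.swap g y) h =
        ((Equiv.Perm.sign (Equiv.swap g y * τ) : ℤ) : K) • ρ (Equiv.swap g y * τ) h
      have e1 : ρ (Equiv.swap g y * τ) h = ρ (Equiv.swap g y) (ρ τ h) := by
        rw [map_mul]
        rfl
      have h3 : ((Equiv.Perm.sign τ : ℤ) : K) * ((Equiv.Perm.sign τ : ℤ) : K) = 1 := by
        rw [← Int.cast_mul, Int.units_coe_mul_self, Int.cast_one]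
      rw [e1, hanti τ hx.2.2, map_smul, smul_smul, Equiv.Perm.sign_mul, Units.val_mul,
        Int.cast_mul, mul_assoc, h3, mul_one]
  rw [h1, sum_product, sum_insert hy]
  simp only [sum_const, IAsI.card_sup]
  rw [Equiv.swap_self, smul_sub, smul_sum]
  have e0 : ρ (Equiv.refl α) h = h := by
    have : (Equiv.refl α : Equiv.Perm α) = 1 := rfl
    rw [this, map_one]
    rfl
  rw [e0, Equiv.Perm.sign_refl, Units.val_one, Int.cast_one, one_smul, Nat.cast_smul_eq_nsmul,
    sub_eq_add_neg, ← sum_neg_distrib]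
  congr 1
  refine sum_congr rfl fun g hg => ?_
  have hgy : g ≠ y := by
    rintro rfl
    exact hy hg
  rw [Equiv.Perm.sign_swap hgy, Units.val_neg, Units.val_one, Int.cast_neg, Int.cast_one,
    neg_smul, one_smul, smul_neg, Nat.cast_smul_eq_nsmul]

end Pool.Agent.Work.MP_1233f5_ag.LS
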