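import Pool.Agent.Work.MP_1233f5_ag.LS.StmtsR

/-! MP_1233f5_ag, block LS, item AvM: averaging over the permutations which preserve the colours. -/

set_option autoImplicit false

namespace Pool.Agent.Work.MP_1233f5_ag.LS

open Finset
open Pool.Agent.Work.MP_1233f5_ag.V (vm ML theta rVan Mo vw KV)
open Pool.Agent.Work.MP_1233f5_ag.Y
open Pool.Agent.Work.MP_1233f5_ag.Z

namespace IAvM

section
variable (K : Type) [Field K] {α : Type} [Fintype α] [DecidableEq α]

open Classical in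
/-- The group of the colour preserving permutations of `P`. -/
noncomputable def G (P : Finset α) (χ : α → ℕ) : Finset (Equiv.Perm α) :=
  univ.filter fun σ : Equiv.Perm α => Sup P σ ∧ ∀ a, χ (σ a) = χ a

theorem mem_G {P : Finset α} {χ : α → ℕ} {σ : Equiv.Perm α} :
    σ ∈ G P χ ↔ Sup P σ ∧ ∀ a, χ (σ a) = χ a := by
  classical
  unfold G
  rw [Finset.mem_filter]
  exact ⟨fun h => h.2, fun h => ⟨Finset.mem_univ _, h⟩⟩

/-- The sum over this group. -/
noncomputable def Av (P : Finset α) (χ : α → ℕ) : Lx K α →ₗ[K] Lx K α :=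
  ∑ σ ∈ G P χ, (act K α σ : Lx K α →ₗ[K] Lx K α)

theorem Av_apply (P : Finset α) (χ : α → ℕ) (x : Lx K α) :
    Av K P χ x = ∑ σ ∈ G P χ, act K α σ x := by
  unfold Av
  exact LinearMap.sum_apply _ _ _

theorem one_mem (P : Finset α) (χ : α → ℕ) : (1 : Equiv.Perm α) ∈ G P χ :=
  mem_G.2 ⟨Y.U.sup_one P, fun _ => rfl⟩

/-- A transposition of two points with the same colour which changes the sign kills the sum. -/
theorem Av_zero [CharZero K] (P : Finset α) (χ : α → ℕ) (u v : α) (hu : u ∈ P) (hv : v ∈ P)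
    (hχ : χ u = χ v) (x : Lx K α) (hx : act K α (Equiv.swap u v) x = -x) : Av K P χ x = 0 := by
  have hτ : ∀ σ ∈ G P χ, σ * Equiv.swap u v ∈ G P χ := by
    intro σ hσ
    obtain ⟨h1, h2⟩ := mem_G.1 hσ
    refine mem_G.2 ⟨Y.U.sup_mul h1 (Y.U.sup_swap hu hv), fun a => ?_⟩
    rw [Equiv.Perm.mul_apply, h2]
    by_cases h3 : a = u
    · rw [h3, Equiv.swap_apply_left, hχ]
    · by_cases h4 : a = v
      · rw [h4, Equiv.swap_apply_right, hχ]
      · rw [Equiv.swap_apply_of_ne_of_ne h3 h4]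
  have hττ : ∀ σ : Equiv.Perm α, σ * Equiv.swap u v * Equiv.swap u v = σ := fun σ => by
    rw [mul_assoc, Equiv.swap_mul_self, mul_one]
  have h1 : Av K P χ x = ∑ σ ∈ G P χ, act K α (σ * Equiv.swap u v) x := by
    rw [Av_apply]
    exact Finset.sum_nbij' (fun σ => σ * Equiv.swap u v) (fun σ => σ * Equiv.swap u v) hτ hτ
      (fun σ _ => hττ σ) (fun σ _ => hττ σ) (fun σ _ => by rw [hττ])
  have h2 : Av K P χ x = - Av K P χ x := by
    nth_rewrite 1 [h1]
    rw [Av_apply, ← Finset.sum_neg_distrib]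
    refine Finset.sum_congr rfl fun σ _ => ?_
    rw [map_mul, Module.End.mul_apply, hx, map_neg]
  have h3 : (2 : K) • Av K P χ x = 0 := by
    rw [two_smul]
    nth_rewrite 1 [h2]
    exact neg_add_cancel _
  exact (smul_eq_zero.1 h3).resolve_left two_ne_zero

end

end IAvM

open IAvM in
theorem pr_AvM : S_AvM := by
  intro K _ _ α _ _ m d p P χ hχ z hz hinv
  obtain ⟨b, hb, w, hw, rfl⟩ := Submodule.mem_sup.1 hz
  have h1 : Av K P χ w = 0 := by
    have h2 : Rw K m d P p ≤ LinearMap.ker (Av K P χ) := by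
      unfold Rw
      rw [Submodule.span_le]
      rintro x ⟨-, Q, hQ, hcard, hx⟩
      show Av K P χ x = 0
      obtain ⟨u, hu, v, hv, huv, he⟩ := Finset.exists_ne_map_eq_of_card_lt_of_maps_to
        (s := Q) (t := P.image χ) (f := χ) (by omega)
        (fun a ha => Finset.mem_coe.2 (Finset.mem_image_of_mem χ (hQ ha)))
      refine Av_zero K P χ u v (hQ hu) (hQ hv) he x ?_
      rw [hx _ (Y.U.sup_swap hu hv), Equiv.Perm.sign_swap huv]
      simp
    exact h2 hw
  have h3 : Av K P χ (b + w) = ((G P χ).card : K) • (b + w) := by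
    rw [Av_apply, Finset.sum_congr rfl fun σ hσ => hinv σ (mem_G.1 hσ).1 (mem_G.1 hσ).2,
      Finset.sum_const]
    exact (Nat.cast_smul_eq_nsmul K _ _).symm
  have h4 : Av K P χ b ∈ Bd K d P p := by
    rw [Av_apply]
    exact Submodule.sum_mem _ fun σ hσ => act_Bd_sup (mem_G.1 hσ).1 (Finset.Subset.refl P) hb
  rw [map_add, h1, add_zero] at h3
  have h5 : ((G P χ).card : K) ≠ 0 :=
    Nat.cast_ne_zero.2 (Finset.card_ne_zero_of_mem (one_mem P χ))
  rw [h3] at h4
  exact (Submodule.smul_mem_iff _ h5).1 h4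

end Pool.Agent.Work.MP_1233f5_ag.LS
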