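import Pool.Agent.Work.MP_1233f5_ag.LS.Defs

/-! MP_1233f5_ag, block LS (captain helper4): statements, part R (STAR for a fixed number of rows)
and part T (the theorems).  Same conventions as `LS/Stmts.lean`. -/

set_option autoImplicit false

namespace Pool.Agent.Work.MP_1233f5_ag.LS

open Finset
open Pool.Agent.Work.MP_1233f5_ag.V (vm ML theta rVan Mo vw KV)
open Pool.Agent.Work.MP_1233f5_ag.Y
open Pool.Agent.Work.MP_1233f5_ag.Z

/-! ### part R: STAR for a fixed number of rows -/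

/-- [Inj] Proof: put `v' = symm X v ∈ Mt P`, invariant under `Sup X`.  `symm (insert x0 X) v' = 0`
(`symm` absorbs the `act τ`), and it equals `N • (v' + ∑ y ∈ X, act (swap x0 y) v')` (every `σ` with
`Sup (insert x0 X) σ` is `swap x0 y * τ`, `y = σ x0`, `Sup X τ`).  Compare the coefficients of a
monomial `e` on `P`: `act (swap x0 y) v'` has at `e` the coefficient of `v'` if `y` is not covered by
`e`, and `0` otherwise (its other monomials contain `x0`).  So
`(1 + #{y ∈ X not covered by e}) * coefficient = 0`. -/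
def S_Inj : Prop :=
  ∀ (K : Type) [Field K] [CharZero K] (α : Type) [Fintype α] [DecidableEq α] (d j : ℕ)
    (P X : Finset α) (x0 : α), x0 ∉ P → X ⊆ P → ∀ v ∈ Mt K d P j,
    symm (act K α) (insert x0 X) ∅ v = 0 → symm (act K α) X ∅ v = 0

/-- [Cov] Proof: the monomials `mo t` of `y` not in `UncX` cover `X`; group them by the family `τ` of
their members meeting `X`: `y = u + ∑_τ ± mo τ * κ_τ`, `κ_τ` the contraction (`cf`) of `y` with
`τ` (a monomial containing all members of `τ` has exactly this family, because `τ` covers `X`), in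
`Mt K d (P \ ⋃ τ) (j - s)` (`Y.S_CfM`).  `Dx κ_τ = ± cf τ (Dx y) = 0` (`Y.S_CfD`), because a member of
`UncX` has contraction `0` with a family covering `X`.  (The sum over the unordered families: e.g.
take all injective enumerations and divide by `s !`, or treat `y` by monomials.) -/
def S_Cov : Prop :=
  ∀ (K : Type) [Field K] [CharZero K] (α : Type) [Fintype α] [DecidableEq α] (d j : ℕ)
    (P X : Finset α), 1 ≤ d → X ⊆ P → X.Nonempty → ∀ y ∈ Mt K d P (j + 1),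
    Dx y ∈ UncX K d X P j → y ∈ UncX K d X P (j + 1) ⊔ CovX K d X P (j + 1)

/-- [SymOm] Proof (`x = (y 0, .., y a)`, all in `X`): `symm X (Om a y w * κ) =
(a+1)! • symm X (mo (fun i => insert (y i) (w i)) * κ)`: in the term of `σ` of `Om` reorder the
factors (sign `σ`, `mo_perm`) and permute the points `y` inside `X` (`κ` and the `w i` are
fixed, `symm` absorbs it).  Apply `Dx` (commutes with `act`; `Dx κ = 0`) and `Z.S_OmD`:
`symm X (Dx (mo ..) * κ) = ± (1/(a+1)!) ∑_(k ≤ a) symm X (cx a (skp k y) w * κ)`, and all terms are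
equal to the one with `k = 0`, by the symmetry of `cx` in the points (`Z.S_Cx2`) and the
transposition of `y 0` and `y k`. -/
def S_SymOm : Prop :=
  ∀ (K : Type) [Field K] [CharZero K] (α : Type) [Fintype α] [DecidableEq α] (r a c : ℕ)
    (P X : Finset α) (y : ℕ → α) (w : ℕ → Finset α), EV r P a y w → X ⊆ P → (∀ i ≤ a, y i ∈ X) →
    ∀ κ ∈ Cy K (r + 1) (P \ es a y w) c, Disjoint X (P \ es a y w) → ∃ N : K,
    symm (act K α) X ∅ (Dx (mo (fun i : Fin (a + 1) => insert (y (i : ℕ)) (w (i : ℕ))) * κ)) =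
      N • symm (act K α) X ∅ (cx a (skp 0 y) w * κ)

/-- [XAc] Proof: `X' = insert x0 X`, `P' = insert x0 P`, `S = symm X'`, `S z = Dx y0`,
`y0 ∈ Mt P' (p + 1)`; `S z ∈ UncX X' P' p` (`z` does not contain `x0`, `act σ z` not `σ x0`), so by
`S_Cov` `y0 = u + ∑_τ mo τ * κ_τ`.  `S (Dx u)`: `u = ∑_(y ∈ X') a_y`, `a_y ∈ Mt (P'.erase y)`, and
`S (Dx a_y) = S (Dx (act (swap x0 y) a_y))` with `act (swap x0 y) a_y ∈ Mt P (p + 1)`.
`S (Dx (mo τ * κ))`: order `τ = (t 0, .., t a)` with `x0 ∈ t 0`, choose `y 0 = x0`,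
`y i ∈ t i ∩ X'`, `w i = (t i).erase (y i)`; `S_SymOm`: it is `N • S (cx a (skp 0 y) w * κ)`, and
`cx a (skp 0 y) w * κ ∈ Fx K r P a p` (no `x0` in it; `X'` is covered by `τ`, so disjoint from
`P' \ es`).  Applying `S` to `S z = Dx y0`: `S (M • z - Dx a' - ∑ N_τ • (cx * κ)_τ) = 0`, `M ≠ 0`,
argument in `Mt P p`; by `S_Inj` `symm X` of it is `0`, and `symm X z = M' • z`, `M' ≠ 0`;
`symm X (Dx a') ∈ Bd`, `symm X` maps `Fx K r P a p` to itself (`Z.S_FxA`). -/
def S_XAc : Prop :=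
  ∀ (K : Type) [Field K] [CharZero K] (α : Type) [Fintype α] [DecidableEq α] (r p : ℕ)
    (P X : Finset α) (x0 : α), 1 ≤ r → x0 ∉ P → X ⊆ P → ∀ z ∈ Cy K (r + 1) P p,
    (∀ σ, Sup X σ → act K α σ z = z) →
    symm (act K α) (insert x0 X) ∅ z ∈ Bd K (r + 1) (insert x0 P) p →
    z ∈ Bd K (r + 1) P p ⊔ ⨆ a ∈ range (p + 1), Fx K r P a p

/-- [RepU] the generation theorem for `Perm R` (`Z/I_RepT.lean` without the signs). -/
def S_RepU : Prop :=
  ∀ (K : Type) [Field K] [CharZero K] (α : Type) [Fintype α] [DecidableEq α] (H : Type)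
    [AddCommGroup H] [Module K H] (ρ : Equiv.Perm α →* Module.End K H) (R : Finset α)
    (Z B : Submodule K H) (n : ℕ), (∀ σ, Sup R σ → ∀ z ∈ Z, ρ σ z ∈ Z) →
    (∀ σ, Sup R σ → ∀ z ∈ B, ρ σ z ∈ B) →
    (∀ χ : α → ℕ, (R.image χ).card ≤ n → ∀ z ∈ Z, (∀ σ, Sup R σ → (∀ a, χ (σ a) = χ a) →
      ρ σ z = z) → z ∈ B) →
    (∀ Y ⊆ R, Y.card = n + 1 → ∀ z ∈ Z, (∀ σ, Sup Y σ →
      ρ σ z = ((Equiv.Perm.sign σ : ℤ) : K) • z) → z ∈ B) → Z ≤ B

/-- [AvM] Proof: apply the sum over the colour preserving `σ` with `Sup P σ`: `z ↦ N • z`,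
`Bd` is preserved, a cycle antisymmetric in `m + 1` points of `P` goes to `0` (two of them have the
same colour). -/
def S_AvM : Prop :=
  ∀ (K : Type) [Field K] [CharZero K] (α : Type) [Fintype α] [DecidableEq α] (m d p : ℕ)
    (P : Finset α) (χ : α → ℕ), (P.image χ).card ≤ m → ∀ z ∈ Bd K d P p ⊔ Rw K m d P p,
    (∀ σ, Sup P σ → (∀ a, χ (σ a) = χ a) → act K α σ z = z) → z ∈ Bd K d P p

/-- [XAm] start.  Proof: `S_RepU` with `R = P`, `n = m`, `Z = Cy`, `B` = the right side (stable: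
`act_Bd_sup`, `Z.S_FxA`, clear for `Rw`).  Antisymmetric ones are in `Rw`.  Let `z` be invariant
for `χ`, `(P.image χ).card ≤ m`.  If `P` is empty take `X = ∅`, `k = 0`, else `X` = a class of `χ`,
`k` its colour.  `χ' = update χ x0 k` (on `insert x0 P` at most `m` colours, `m ≥ 1`);
`S z = symm (insert x0 X) ∅ z` is invariant for `χ'`, a cycle on `insert x0 P`, so in `Bd ⊔ Rw`
there, so in `Bd` by `S_AvM`; `S_XAc`. -/
def S_XAm : Prop :=
  ∀ (K : Type) [Field K] [CharZero K] (α : Type) [Fintype α] [DecidableEq α] (r T p m : ℕ)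
    (P : Finset α) (x0 : α), 1 ≤ r → 1 ≤ m → x0 ∉ P → P.card = p * (r + 1) + T →
    VVm K m (r + 1) (T + 1) p →
    Cy K (r + 1) P p ≤
      (Bd K (r + 1) P p ⊔ ⨆ a ∈ range (p + 1), Fx K r P a p) ⊔ Rw K m (r + 1) P p

/-- [XRow] the antisymmetric case.  Proof: `g = cx a x w * κ ∈ Cy P (a + c)`,
`B'` = the right side, stable.  For `y ∈ Y`: `Z.S_Rel` with `x a := y` gives
`g + ∑_(k < a) act (swap y (x k)) g ∈ Bd ⊔ Fx (a + 1)` (the term `k = a` is `g`; the term `k < a`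
is `cx a (x without x k, with y) w * act (swap y (x k)) κ = act (swap y (x k)) g` by `Z.S_Cx2`).
Sum over `y ∈ Y`: `(m + 1) • g + ∑_(k < a) ∑_(y ∈ Y) act (swap y (x k)) g ∈ B'`.  For `k < a`:
`g` is antisymmetric in `Y` (`κ` is, `cx` is fixed), `asym (insert (x k) Y) g ∈ Rw (m + 1)`
(a cycle antisymmetric in `m + 2` points), so by `S_AsI` `∑_(y ∈ Y) act (swap y (x k)) g ≡ g`.
Hence `(m + 1 + a) • g ∈ B'`. -/
def S_XRow : Prop :=
  ∀ (K : Type) [Field K] [CharZero K] (α : Type) [Fintype α] [DecidableEq α] (r a c m : ℕ)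
    (P : Finset α) (x : ℕ → α) (w : ℕ → Finset α), 1 ≤ r → CV r P a x w →
    ∀ κ ∈ Cy K (r + 1) (P \ cp a x w) c, ∀ Y ⊆ P \ cp a x w, Y.card = m + 1 →
    (∀ σ, Sup Y σ → act K α σ κ = ((Equiv.Perm.sign σ : ℤ) : K) • κ) →
    cx a x w * κ ∈ (Bd K (r + 1) P (a + c) ⊔ Fx K r P (a + 1) (a + c)) ⊔
      Rw K (m + 1) (r + 1) P (a + c)

/-- [XFm] the step (`Z/I_XF.lean` with one more case: `κ ∈ Bd ⊔ Rw m` for alternating `κ`, and
`S_XRow` for the generators of `Rw m`). -/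
def S_XFm : Prop :=
  ∀ (K : Type) [Field K] [CharZero K] (α : Type) [Fintype α] [DecidableEq α] (r T a p m : ℕ)
    (P : Finset α), 1 ≤ r → P.card = p * (r + 1) + (T + r) →
    (a ≤ p → ZVm K m (r + 1) T a (p - a)) →
    Fx K r P a p ≤ (Bd K (r + 1) P p ⊔ Fx K r P (a + 1) p) ⊔ Rw K (m + 1) (r + 1) P p

/-- [StarM] STAR for a fixed number of rows.  Proof: given `α`, `P`, use `S_Mp` with
`f : α ↪ Option α`, so that `x0 = none ∉ P.map f`; there `S_XAm` (with `m + 1` for `m`,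
`T + r` for `T`), then `S_XFm` for `a = 0, .., p` and `Fx (p + 1) p = ⊥`.  Transport back with the
second map of `S_Mp` (`Bd` to `Bd`, `Rw` to `Rw`: a cycle antisymmetric in `Q ⊆ P.map f` goes to one
antisymmetric in the preimage of `Q`). -/
def S_StarM : Prop :=
  ∀ (K : Type) [Field K] [CharZero K] (r T p m : ℕ), 1 ≤ r →
    VVm K (m + 1) (r + 1) (T + r + 1) p → (∀ a ≤ p, ZVm K m (r + 1) T a (p - a)) →
    VVm K (m + 1) (r + 1) (T + r) p

/-- [PgH] few points per colour is impossible: pigeonhole gives a colour class with `m + 1` points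
of `P`; an alternating cycle is antisymmetric in them, so it lies in `Rw`. -/
def S_PgH : Prop :=
  ∀ (K : Type) [Field K] (m d T s c : ℕ), m * s < c * d + T → ZVm K m d T s c

/-- [VLm] vanishing on `C^n` from `V.S_LemD`.  Proof: `S_RepU` with `R = P`, `n`: antisymmetric
cycles in `n + 1` points are in `Rw`; a cycle invariant for a colouring `χ` of `P` with at most
`n` colours: transport to `↥P` or relabel (`S_Mp`, `V.S_Tr`), `π : P → Fin n`, `V.S_LemD` for
`w = fib π`, `V.S_TransA` (functions on tuples; see `Z/I_BrG.lean` for the translation of elements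
of `Lx` into functions). -/
def S_VLm : Prop :=
  ∀ (K : Type) [Field K] [CharZero K] (n d p T T' : ℕ), 1 ≤ n → 2 ≤ d → T + T' = n * (d - 1) →
    p + n + (T' + n - 1).choose (n - 1) ≤ (d + n - 1).choose (n - 1) → VVm K n d T p

/-- [KVm] the bridge for a fixed number of variables.  Proof: `V.S_Bridge`: for a weight `w` with
`∑ w = p d + T` choose `α = Fin (p d + T)`, `π` with `fib π = w`, and follow `V/I_TransB.lean`: there
only the vanishing for `π`-invariant cycles is used; such a cycle lies in `Bd ⊔ Rw n`, so in `Bd` by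
`S_AvM` (`χ a = π a`, at most `n` colours). -/
def S_KVm : Prop := ∀ n d p T : ℕ, VVm ℂ n d T p → KV n d p T

/-! ### part T: the theorems -/

/-- [B3] the known bound.  Proof: for `T ≥ 3 d - 2` this is `Z.S_BGr`.  For `T = 2 d - 1`:
`bnd3 = theta = 2 d - 1`.  For `2 d ≤ T ≤ 3 d - 4`: induction, `bnd3 = min (theta) (bnd3 (T - 1) + 3)`,
`theta = C(d+2,2) - C(3 d - 1 - T, 2) - 2 ≥ C(d+2,2) - C(d,2) - 2 = 2 d - 1`.  `T = 3 d - 3`:
`theta = C(d+2,2) - 3`. -/
def S_B3 : Prop := ∀ d T : ℕ, 3 ≤ d → 2 * d - 1 ≤ T → 2 * d - 1 ≤ bnd3 d T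

/-- [ThmA] on `C^4`.  Proof: descending induction on `t` (induction on `d - 2 - t`).  `t = d - 2`:
`S_VLm` with `n = 4`, `T = 3 d - 3`, `T' = d - 1`: `p + 4 + C(d + 2, 3) ≤ C(d + 3, 3)` since
`2 p < d (d - 1) + 4 (d - 1) = 2 (C(d + 2, 2) - 3)`.  `t ≤ d - 3`: `S_StarM` with `m = 3`,
`r = d - 1`, `T = d + t` (so the places are `T + r = 2 d - 1 + t` and `T + r + 1 = 2 d - 1 + (t + 1)`);
`VVm K 4 d (2 d - 1 + (t + 1)) p` is the case `t + 1` (first alternative).
`ZVm K 3 d (d + t) a (p - a)`, `c = p - a`: if `c ≤ 2 t`: `S_Dlt` (`ZV` implies `ZVm`) with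
`s = a` and `δ = r` if `t = d - 3` (`t + 2 = r`), else `δ = 0`.  If `c ≥ 2 t + 1`: `S_PgH`,
`3 a < c d + d + t` (`2 a ≤ (bound) - 1 - 2 c`; for `t = d - 3` this uses `5 ≤ d`, otherwise
`2 ≤ t`: at `c = 2 t + 1` the difference is `t d / 2 - d + 5 t / 2 + ..`, and it grows with `c`). -/
def S_ThmA : Prop :=
  ∀ (K : Type) [Field K] [CharZero K] (d t p : ℕ), 5 ≤ d → 2 ≤ t → t + 2 ≤ d →
    (2 * p < (t + 2) * (d - 1) + 4 * (t + 1) ∨
      (t + 3 = d ∧ 2 * p < (t + 3) * (d - 1) + 4 * (t + 1))) →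
    VVm K 4 d (2 * d - 1 + t) p

/-- [ThmB] on `C^5`.  Proof: first `VVm K 5 d T p` for all `T ≥ 3 d - 2`: for `T ≥ p + d` by
`Z.S_BGr` and `Y.S_Main3` (`ML`, `Z.S_Rlb`); descending by `S_StarM` with `m = 4`, `T' = T + 1 - d`:
`c ≤ 2 d - 2`: `VV` by `S_B3`, `Y.S_Main3`; `c ≥ 2 d - 1`: `S_PgH`, `4 a < c d + T'`.  Then
`T = 3 d - 3`, `T' = 2 d - 2`: `c ≤ 2 d - 4`: `S_Dlt` with `t = d - 2`, `δ = 0`
(`2 p < d (d - 1) + 4 (d - 1) = 2 (C(d + 2, 2) - 3)`); `c ≥ 2 d - 3`: `S_PgH`. -/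
def S_ThmB : Prop :=
  ∀ (K : Type) [Field K] [CharZero K] (d p : ℕ), 3 ≤ d → p + 3 < (d + 2).choose 2 →
    VVm K 5 d (3 * d - 3) p

/-- [Tab] soundness of a table `N` of lower bounds.  Proof: induction on `T`, then on `n`; `s = 0`:
`P.card = n d + T ≥ 1`, so `P.image χ` is nonempty, contradiction.  `n < v T`: `VV`.  The last
alternative: `S_Dlt`.  The two others: `Z.S_Chain` (with `T - 1`, `s - 1`): its first hypothesis by
the induction on `n` (fewer colours: `ZV` is monotone in `s`), its second one by the induction on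
`T` (if `n + 1 < ⌈ ⌉` there is no `m`). -/
def S_Tab : Prop :=
  ∀ (K : Type) [Field K] [CharZero K] (r : ℕ) (v : ℕ → ℕ) (N : ℕ → ℕ → ℕ), 1 ≤ r →
    (∀ T n, n < v T → VV K (r + 1) T n) →
    (∀ T s n, n < N T s → 1 ≤ T ∧ (s = 0 ∨ n < v T ∨
      n + 1 < (n * (r + 1) + T + (s - 1)) / s ∨
      n + 1 - (n * (r + 1) + T + (s - 1)) / s < N (T - 1) (s - 1) ∨
      ∃ t δ, T = r + 1 + t ∧ 1 ≤ t ∧ t + 1 ≤ r ∧ n ≤ 2 * t ∧ (δ = 0 ∨ (δ = r ∧ t + 2 = r)) ∧
        2 * (n + s) < (t + 2) * r + 4 * (t + 1) + δ)) →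
    ∀ T s n, n < N T s → ZV K (r + 1) T s n

/-- [Q78] all of Q1 for `(q, b, d) = (2, 4, 7)` and `(2, 5, 8)`.  Proof: `v = bnd3 d` (`Y.S_Main3`,
`Z.S_Rlb`).  `d = 7`: `bnd3 7 19 = 33`, so `VV K 7 19 p`; `Z.S_Star` with `r = 6`, `T = 12`, and
`S_Tab` with the table of `/team-store/h4_tab.py` (`p - s < N 12 s` for `s ≤ p < 33`).
`d = 8`: `bnd3 8 23 = 42`; `Z.S_Star` with `r = 7` for `T = 15`, then `T = 14`, table for
`T ≤ 15`, `s, n ≤ 42`.  The table is a literal list, its conditions are checked by `decide`. -/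
def S_Q78 : Prop :=
  ∀ (K : Type) [Field K] [CharZero K], (∀ p < 33, VV K 7 18 p) ∧ (∀ p < 42, VV K 8 21 p)

end Pool.Agent.Work.MP_1233f5_ag.LS
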