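import Mathlib
import Pool.Agent.Work.MP_1233f5_ag.LS.StmtsR

/-! MP_1233f5_ag, block LS, item B3 (helper39). -/

set_option autoImplicit false

namespace Pool.Agent.Work.MP_1233f5_ag.LS

open Finset
open Pool.Agent.Work.MP_1233f5_ag.V (theta)
open Pool.Agent.Work.MP_1233f5_ag.Y
open Pool.Agent.Work.MP_1233f5_ag.Z

/-- twice a binomial coefficient -/
theorem B3_two (n : ℕ) : 2 * (n + 1).choose 2 = (n + 1) * n := by
  have h := Nat.choose_two_right (n + 1)
  have h2 : 2 ∣ (n + 1) * n := by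
    have := (Nat.even_mul_succ_self n).two_dvd
    rwa [mul_comm] at this
  rw [h, Nat.add_sub_cancel, Nat.mul_div_cancel' h2]

theorem B3_q2 (d j : ℕ) (hd : 3 ≤ d) (hj : j + 2 < d) : (2 * d - 1 + j) / (d - 1) = 2 := by
  apply Nat.div_eq_of_lt_le
  · omega
  · omega

theorem B3_theta (d j : ℕ) (hd : 3 ≤ d) (hj : j + 2 < d) :
    2 * d - 1 ≤ theta d (2 * d - 1 + j) := by
  unfold theta
  rw [B3_q2 d j hd hj]
  have e1 : (2 + 1) * (d - 1) - (2 * d - 1 + j) + 2 = d - j := by omega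
  rw [e1]
  have h1 := B3_two (d + 1)
  obtain ⟨e, rfl⟩ : ∃ e, d = e + 1 := ⟨d - 1, by omega⟩
  have h2 := B3_two e
  have h3 : (e + 1 - j).choose 2 ≤ (e + 1).choose 2 := Nat.choose_le_choose 2 (by omega)
  have h1' : 2 * (e + 1 + 2).choose 2 = (e + 1 + 2) * (e + 1 + 1) := h1
  have h4 : 2 * (e + 1 + 2).choose 2 = 2 * (e + 1).choose 2 + 2 * (2 * e + 3) := by
    rw [h1', h2]; ring
  omega

theorem B3_theta3 (d : ℕ) (hd : 3 ≤ d) : 2 * d - 1 ≤ theta d (2 * d - 1 + (d - 2)) := by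
  have e0 : 2 * d - 1 + (d - 2) = 3 * (d - 1) := by omega
  rw [e0]
  unfold theta
  have hq : 3 * (d - 1) / (d - 1) = 3 := Nat.mul_div_cancel _ (by omega)
  rw [hq]
  have e1 : (3 + 1) * (d - 1) - 3 * (d - 1) + 3 = d + 2 := by omega
  rw [e1]
  have h1 : (d + 3).choose 3 = (d + 2).choose 2 + (d + 2).choose 3 := Nat.choose_succ_succ _ _
  have h2 := B3_two (d + 1)
  have h3 : 2 * (d + 2).choose 2 = (d + 2) * (d + 1) := h2
  have h4 : 5 * (d + 1) ≤ (d + 2) * (d + 1) := Nat.mul_le_mul_right _ (by omega)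
  omega

/-- [B3] -/
theorem pr_B3 (hB : S_BGr) : S_B3 := by
  intro d T hd hT
  obtain ⟨j, rfl⟩ : ∃ j, T = 2 * d - 1 + j := ⟨T - (2 * d - 1), by omega⟩
  clear hT
  induction j with
  | zero =>
    obtain ⟨T, hT⟩ : ∃ T, 2 * d - 1 = T + 1 := ⟨2 * d - 2, by omega⟩
    have h := B3_theta d 0 hd
    rw [add_zero]
    rw [add_zero] at h
    rcases Nat.lt_or_ge 2 d with h2 | h2
    · have h3 := h (by omega)
      have : bnd3 d (2 * d - 1) = theta d (2 * d - 1) := by
        rw [hT]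
        unfold bnd3
        rw [if_pos hT.symm]
      rw [this]
      exact h3
    · omega
  | succ j ih =>
    rcases Nat.lt_or_ge (d - 2) (j + 1) with h | h
    · have := hB d (2 * d - 1 + (j + 1)) hd
      omega
    · have hth : 2 * d - 1 ≤ theta d (2 * d - 1 + (j + 1)) := by
        rcases Nat.lt_or_ge (j + 1 + 2) d with h1 | h1
        · exact B3_theta d (j + 1) hd h1
        · have : j + 1 = d - 2 := by omega
          rw [this]
          exact B3_theta3 d hd
      have e : 2 * d - 1 + (j + 1) = (2 * d - 1 + j) + 1 := by omega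
      rw [e] at hth ⊢
      unfold bnd3
      split_ifs with h1
      · exact hth
      · refine le_min hth (ih.trans ?_)
        rw [add_assoc]
        exact Nat.le_add_right _ _

end Pool.Agent.Work.MP_1233f5_ag.LS
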