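import Pool.Agent.Work.MP_1233f5_ag.LS.Stmts

/-! MP_1233f5_ag, block LS, item BBs: the target. -/

set_option autoImplicit false

namespace Pool.Agent.Work.MP_1233f5_ag.LS

open Finset
open Pool.Agent.Work.MP_1233f5_ag.V (vm ML theta rVan)
open Pool.Agent.Work.MP_1233f5_ag.Y
open Pool.Agent.Work.MP_1233f5_ag.Z
open Pool.Agent.Work.MP_1233f5_ag.Sec (Fk wd ct ee ff hh IsSec IsDeg swd brk)

namespace IBBs

variable {K : Type} [Field K] {α : Type} [Fintype α] [DecidableEq α]

omit [Fintype α] [DecidableEq α] in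
theorem act_act (σ τ : Equiv.Perm α) (z : Lx K α) :
    act K α (σ * τ) z = act K α σ (act K α τ z) := by
  rw [map_mul (act K α)]
  rfl

end IBBs

open IBBs in
theorem pr_BBs : S_BBs := by
  classical
  intro K _ _ α _ _ r p c
  have hB : Tgt r p (BBs K α r p c) := by
    refine ⟨le_sup_left, ?_⟩
    intro σ x hx
    unfold BBs at hx ⊢
    obtain ⟨y, hy, w, hw, rfl⟩ := Submodule.mem_sup.1 hx
    rw [map_add]
    refine Submodule.add_mem_sup (act_Bd_sup (P := univ) (fun a ha => absurd (mem_univ a) ha)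
      (subset_univ _) hy) ?_
    clear hx
    induction hw using Submodule.span_induction with
    | mem x hx =>
      obtain ⟨h1, A, hA, hinv⟩ := hx
      refine Submodule.subset_span ⟨act_Cy_sup (P := univ) (fun a ha => absurd (mem_univ a) ha)
        (subset_univ _) h1, im σ A, by rw [im, card_map, hA], ?_⟩
      intro τ hτ
      have h2 : Sup A (σ⁻¹ * τ * σ) := by
        intro a ha
        have h3 : σ a ∉ im σ A := by
          rw [mem_im, U.inv_app]
          exact ha
        rw [Equiv.Perm.mul_apply, Equiv.Perm.mul_apply, hτ _ h3, U.inv_app]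
      have h4 := hinv _ h2
      have h5 : act K α (σ * (σ⁻¹ * τ * σ)) x = act K α σ x := by
        rw [act_act, h4]
      rw [show σ * (σ⁻¹ * τ * σ) = τ * σ by group, act_act] at h5
      exact h5
    | zero => rw [map_zero]; exact Submodule.zero_mem _
    | add x y _ _ hx hy => rw [map_add]; exact Submodule.add_mem _ hx hy
    | smul c x _ hx => rw [map_smul]; exact Submodule.smul_mem _ _ hx
  refine ⟨hB, ?_⟩
  intro A hA h hV hinv
  obtain ⟨z, hz, rfl⟩ := hV
  obtain ⟨A', hA', hc⟩ := exists_subset_card_eq hA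
  obtain ⟨N, hN⟩ : ∃ N : ℕ, N = (univ.filter (fun σ : Equiv.Perm α => Sup A' σ)).card := ⟨_, rfl⟩
  have hN0 : (N : K) ≠ 0 := by
    rw [hN]
    refine Nat.cast_ne_zero.2 (Nat.pos_iff_ne_zero.1 (card_pos.2 ⟨1, ?_⟩))
    rw [mem_filter]
    exact ⟨mem_univ _, U.sup_one A'⟩
  obtain ⟨z', hz'⟩ : ∃ z' : Lx K α, z' = ∑ σ ∈ univ.filter (fun σ : Equiv.Perm α => Sup A' σ),
    act K α σ z := ⟨_, rfl⟩
  have h1 : z' ∈ BBs K α r p c := by
    unfold BBs
    refine Submodule.mem_sup_right (Submodule.subset_span ⟨?_, A', hc, ?_⟩)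
    · rw [hz']
      exact Submodule.sum_mem _ fun σ _ => act_Cy_sup (P := univ)
        (fun a ha => absurd (mem_univ a) ha) (subset_univ _) hz
    · intro τ hτ
      rw [hz', map_sum]
      refine sum_nbij' (fun σ => τ * σ) (fun σ => τ⁻¹ * σ) ?_ ?_ ?_ ?_ ?_
      · intro σ hσ
        rw [mem_filter] at hσ ⊢
        exact ⟨mem_univ _, U.sup_mul hτ hσ.2⟩
      · intro σ hσ
        rw [mem_filter] at hσ ⊢
        exact ⟨mem_univ _, U.sup_mul (U.sup_inv hτ) hσ.2⟩
      · intro σ _
        exact inv_mul_cancel_left τ σ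
      · intro σ _
        exact mul_inv_cancel_left τ σ
      · intro σ _
        exact (act_act τ σ z).symm
  have h2 : (BBs K α r p c).mkQ z' = (N : K) • (BBs K α r p c).mkQ z := by
    rw [hz', map_sum]
    have h3 : ∀ σ ∈ univ.filter (fun σ : Equiv.Perm α => Sup A' σ),
        (BBs K α r p c).mkQ (act K α σ z) = (BBs K α r p c).mkQ z := by
      intro σ hσ
      rw [mem_filter] at hσ
      have h4 := hinv σ (U.sup_mono hA' hσ.2)
      rw [actB_mk] at h4
      exact h4
    rw [sum_congr rfl h3, sum_const, ← hN, Nat.cast_smul_eq_nsmul]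
  have h3 : (BBs K α r p c).mkQ z' = 0 := by
    rw [Submodule.mkQ_apply, Submodule.Quotient.mk_eq_zero]
    exact h1
  rw [h3] at h2
  exact (smul_eq_zero.1 h2.symm).resolve_left hN0

end Pool.Agent.Work.MP_1233f5_ag.LS
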