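import Pool.Agent.Work.MP_1233f5_ag.LS.StmtsR

/-! MP_1233f5_ag, block LS, item Cov: the monomials covering `X`. -/

set_option autoImplicit false

namespace Pool.Agent.Work.MP_1233f5_ag.LS

open Finset
open Pool.Agent.Work.MP_1233f5_ag.V (vm ML theta rVan Mo vw KV)
open Pool.Agent.Work.MP_1233f5_ag.Y
open Pool.Agent.Work.MP_1233f5_ag.Z

namespace ICov

section formal
variable {K : Type} [Field K] {α : Type}

theorem ctr_self (e : Finset α) (x : Lx K α) :
    ctr (Finsupp.lapply e) (ed e * x) = x - ed e * ctr (Finsupp.lapply e) x := by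
  classical
  rw [ctr_ed_mul, Finsupp.lapply_apply, Finsupp.single_apply, if_pos rfl, one_smul]

theorem ctr_ne {e e' : Finset α} (h : e ≠ e') (x : Lx K α) :
    ctr (Finsupp.lapply e) (ed e' * x) = -(ed e' * ctr (Finsupp.lapply e) x) := by
  classical
  rw [ctr_ed_mul, Finsupp.lapply_apply, Finsupp.single_apply, if_neg h.symm, zero_smul, zero_sub]

theorem ctr_mo_ne {p : ℕ} (e : Finset α) (u : Fin p → Finset α) (h : ∀ i, e ≠ u i)
    (x : Lx K α) : ctr (Finsupp.lapply e) (mo u * x) =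
      ((-1 : K) ^ p) • (mo u * ctr (Finsupp.lapply e) x) := by
  induction p with
  | zero => rw [mo_zero, one_mul, one_mul, pow_zero, one_smul]
  | succ p ih =>
    rw [mo_succ, mul_assoc, ctr_ne (h 0), ih (Fin.tail u) (fun i => h i.succ), mul_smul_comm,
      ← mul_assoc, pow_succ, mul_neg_one, neg_smul]

theorem ctr_mo_zero {p : ℕ} (e : Finset α) (u : Fin p → Finset α) (h : ∀ i, e ≠ u i) :
    ctr (Finsupp.lapply e) (mo u : Lx K α) = 0 := by
  have h1 := ctr_mo_ne (K := K) e u h 1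
  rw [mul_one, ctr_one, mul_zero, smul_zero] at h1
  exact h1

theorem proj_mo {p : ℕ} (e : Finset α) (u : Fin p → Finset α) (h : ∃ i, e = u i) :
    ed e * ctr (Finsupp.lapply e) (mo u : Lx K α) = mo u := by
  induction p with
  | zero => exact h.choose.elim0
  | succ p ih =>
    rw [mo_succ]
    by_cases h0 : e = u 0
    · rw [← h0, ctr_self, mul_sub, ← mul_assoc, ed_sq, zero_mul, sub_zero]
    · have h1 : ∃ i, e = Fin.tail u i := by
        obtain ⟨i, hi⟩ := h
        revert hi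
        refine Fin.cases ?_ (fun i => ?_) i
        · intro hi
          exact absurd hi h0
        · intro hi
          exact ⟨i, hi⟩
      rw [ctr_ne h0, mul_neg, ← mul_assoc, ed_mul_ed, neg_mul, neg_neg, mul_assoc, ih _ h1]

theorem cf_ctr (s : ℕ) (e : ℕ → Finset α) (f : (Finset α →₀ K) →ₗ[K] K) (x : Lx K α) :
    cf s e (ctr f x) = ((-1 : K) ^ s) • ctr f (cf s e x) := by
  induction s generalizing e x with
  | zero => rw [pow_zero, one_smul]; rfl
  | succ s ih =>
    show cf s (fun i => e (i + 1)) (ctr (Finsupp.lapply (e 0)) (ctr f x)) =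
      ((-1 : K) ^ (s + 1)) • ctr f (cf s (fun i => e (i + 1)) (ctr (Finsupp.lapply (e 0)) x))
    rw [ctr_ctr, map_neg, ih, pow_succ, mul_neg_one, neg_smul]

theorem cf_zero (s : ℕ) (e : ℕ → Finset α) (x : Lx K α)
    (h : ∃ i < s, ctr (Finsupp.lapply (e i)) x = 0) : cf s e x = 0 := by
  induction s generalizing e x with
  | zero =>
    obtain ⟨i, hi, _⟩ := h
    exact absurd hi (Nat.not_lt_zero i)
  | succ s ih =>
    obtain ⟨i, hi, h⟩ := h
    show cf s (fun i => e (i + 1)) (ctr (Finsupp.lapply (e 0)) x) = 0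
    rcases i with _ | i
    · rw [h, map_zero]
    · refine ih _ _ ⟨i, by omega, ?_⟩
      rw [ctr_ctr, h, map_zero, neg_zero]

theorem mo_cf (s : ℕ) (e : ℕ → Finset α) (hinj : ∀ i < s, ∀ k < s, e i = e k → i = k) {p : ℕ}
    (u : Fin p → Finset α) (h : ∀ i < s, ∃ k, e i = u k) :
    mo (fun i : Fin s => e (i : ℕ)) * cf s e (mo u : Lx K α) = mo u := by
  induction s generalizing e with
  | zero =>
    rw [mo_zero, one_mul]
    rfl
  | succ s ih =>
    have h1 : (mo (fun i : Fin (s + 1) => e (i : ℕ)) : Lx K α) =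
        ed (e 0) * mo (fun i : Fin s => e ((i : ℕ) + 1)) := by
      rw [mo_succ]
      rfl
    have h2 : cf (s + 1) e (mo u : Lx K α) =
        cf s (fun i => e (i + 1)) (ctr (Finsupp.lapply (e 0)) (mo u)) := rfl
    have h3 := ih (fun i => e (i + 1))
      (fun i hi k hk hik => by
        have := hinj (i + 1) (by omega) (k + 1) (by omega) hik
        omega)
      (fun i hi => h (i + 1) (by omega))
    have h4 := ctr_mo_ne (K := K) (e 0) (fun i : Fin s => e ((i : ℕ) + 1)) (fun i hi => by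
      have := hinj 0 (by omega) ((i : ℕ) + 1) (by omega) hi
      omega) (cf s (fun i => e (i + 1)) (mo u))
    rw [h1, h2, mul_assoc, cf_ctr, mul_smul_comm, ← h4, h3]
    exact proj_mo _ _ (h 0 (by omega))

/-- an enumeration of a family -/
noncomputable def tt (τ : Finset (Finset α)) (i : ℕ) : Finset α :=
  if h : i < τ.card then (τ.equivFin.symm ⟨i, h⟩ : τ).1 else ∅

theorem tt_mem (τ : Finset (Finset α)) {i : ℕ} (h : i < τ.card) : tt τ i ∈ τ := by
  unfold tt
  rw [dif_pos h]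
  exact (τ.equivFin.symm ⟨i, h⟩).2

theorem tt_inj (τ : Finset (Finset α)) : ∀ i < τ.card, ∀ k < τ.card, tt τ i = tt τ k → i = k := by
  intro i hi k hk h
  unfold tt at h
  rw [dif_pos hi, dif_pos hk] at h
  have h1 := τ.equivFin.symm.injective (Subtype.ext h)
  exact congrArg Fin.val h1

theorem tt_surj (τ : Finset (Finset α)) (e : Finset α) (he : e ∈ τ) :
    ∃ i < τ.card, tt τ i = e := by
  refine ⟨(τ.equivFin ⟨e, he⟩ : ℕ), (τ.equivFin ⟨e, he⟩).2, ?_⟩
  unfold tt
  rw [dif_pos (τ.equivFin ⟨e, he⟩).2]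
  simp

end formal

section cov
variable {K : Type} [Field K] {α : Type} [Fintype α] [DecidableEq α]

/-- the families of disjoint `d`-sets covering `X`, each meeting `X`. -/
def Good (d : ℕ) (P X : Finset α) (n : ℕ) (τ : Finset (Finset α)) : Prop :=
  τ.card ≤ n ∧ (∀ e ∈ τ, e.card = d ∧ e ⊆ P ∧ (e ∩ X).Nonempty) ∧
    (∀ e ∈ τ, ∀ e' ∈ τ, e ≠ e' → Disjoint e e') ∧ ∀ x ∈ X, ∃ e ∈ τ, x ∈ e

open Classical in
/-- the set of these families. -/
noncomputable def TT (d : ℕ) (P X : Finset α) (n : ℕ) : Finset (Finset (Finset α)) :=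
  univ.filter fun τ => Good d P X n τ

theorem mem_TT (d : ℕ) (P X : Finset α) (n : ℕ) (τ : Finset (Finset α)) :
    τ ∈ TT d P X n ↔ Good d P X n τ := by
  classical
  unfold TT
  rw [mem_filter]
  exact ⟨fun h => h.2, fun h => ⟨mem_univ _, h⟩⟩

omit [Fintype α] in
/-- contraction with a family covering `X` kills the chains not covering `X`. -/
theorem cf_unc {d n j : ℕ} {P X : Finset α} {τ : Finset (Finset α)} (hτ : Good d P X n τ)
    {x : Lx K α} (hx : x ∈ UncX K d X P j) : cf τ.card (tt τ) x = 0 := by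
  have h1 : UncX K d X P j ≤ LinearMap.ker (cf τ.card (tt τ) : Lx K α →ₗ[K] Lx K α) := by
    refine iSup₂_le fun y hy => ?_
    refine Submodule.span_le.2 ?_
    rintro _ ⟨u, hu, rfl⟩
    obtain ⟨e, he, hye⟩ := hτ.2.2.2 y hy
    obtain ⟨i, hi, rfl⟩ := tt_surj τ e he
    refine cf_zero _ _ _ ⟨i, hi, ctr_mo_zero _ _ fun k hk => ?_⟩
    rw [hk] at hye
    exact (mem_erase.1 ((hu.1 k).2 hye)).1 rfl
  exact h1 hx

/-- the part of the chain covering `X`. -/
noncomputable def Lo (K : Type) [Field K] (d n : ℕ) (P X : Finset α) : Lx K α →ₗ[K] Lx K α :=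
  ∑ τ ∈ TT d P X n, (LinearMap.mulLeft K (mo (fun i : Fin τ.card => tt τ (i : ℕ)) : Lx K α)).comp
    (cf τ.card (tt τ))

theorem Lo_apply (d n : ℕ) (P X : Finset α) (y : Lx K α) : Lo K d n P X y =
    ∑ τ ∈ TT d P X n, mo (fun i : Fin τ.card => tt τ (i : ℕ)) * cf τ.card (tt τ) y := by
  unfold Lo
  rw [LinearMap.sum_apply]
  rfl

theorem sub_mem {d n : ℕ} {P X : Finset α} {y : Lx K α} (hy : y ∈ Mt K d P n) :
    y - Lo K d n P X y ∈ UncX K d X P n := by
  have h1 : Mt K d P n ≤ (UncX K d X P n).comap (LinearMap.id - Lo K d n P X) := by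
    refine Submodule.span_le.2 ?_
    rintro _ ⟨u, hu, rfl⟩
    show (mo u : Lx K α) - Lo K d n P X (mo u) ∈ UncX K d X P n
    by_cases hc : ∀ x ∈ X, ∃ k, x ∈ u k
    · -- covering
      have h2 : Lo K d n P X (mo u) = mo u := by
        rw [Lo_apply]
        obtain ⟨τ0, hτ0⟩ : ∃ τ0, τ0 = (univ.image u).filter fun e => (e ∩ X).Nonempty := ⟨_, rfl⟩
        have hmem : ∀ e, e ∈ τ0 ↔ (∃ k, u k = e) ∧ (e ∩ X).Nonempty := by
          intro e
          rw [hτ0, mem_filter, mem_image]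
          constructor
          · rintro ⟨⟨k, _, hk⟩, h⟩
            exact ⟨⟨k, hk⟩, h⟩
          · rintro ⟨⟨k, hk⟩, h⟩
            exact ⟨⟨k, mem_univ _, hk⟩, h⟩
        have hG : Good d P X n τ0 := by
          refine ⟨?_, ?_, ?_, ?_⟩
          · rw [hτ0]
            refine le_trans (card_filter_le _ _) (le_trans card_image_le ?_)
            rw [card_univ, Fintype.card_fin]
          · intro e he
            obtain ⟨⟨k, rfl⟩, h⟩ := (hmem e).1 he
            exact ⟨(hu.1 k).1, (hu.1 k).2, h⟩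
          · intro e he e' he' hne
            obtain ⟨⟨k, rfl⟩, _⟩ := (hmem e).1 he
            obtain ⟨⟨k', rfl⟩, _⟩ := (hmem e').1 he'
            exact hu.2 k k' fun h => hne (by rw [h])
          · intro x hx
            obtain ⟨k, hk⟩ := hc x hx
            exact ⟨u k, (hmem _).2 ⟨⟨k, rfl⟩, ⟨x, mem_inter.2 ⟨hk, hx⟩⟩⟩, hk⟩
        rw [sum_eq_single τ0]
        · refine mo_cf _ _ (tt_inj τ0) _ fun i hi => ?_
          obtain ⟨⟨k, hk⟩, _⟩ := (hmem _).1 (tt_mem τ0 hi)
          exact ⟨k, hk.symm⟩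
        · intro τ hτ hne
          rw [mem_TT] at hτ
          have h3 : ∃ e ∈ τ, ∀ k, e ≠ u k := by
            by_contra hcon
            push Not at hcon
            apply hne
            ext e
            constructor
            · intro he
              obtain ⟨k, hk⟩ := hcon e he
              exact (hmem e).2 ⟨⟨k, hk.symm⟩, (hτ.2.1 e he).2.2⟩
            · intro he
              obtain ⟨⟨k, rfl⟩, ⟨x, hx⟩⟩ := (hmem e).1 he
              rw [mem_inter] at hx
              obtain ⟨e', he', hxe'⟩ := hτ.2.2.2 x hx.2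
              obtain ⟨k', rfl⟩ := hcon e' he'
              by_cases hkk : k = k'
              · rw [hkk]
                exact he'
              · exact absurd hxe' (Finset.disjoint_left.1 (hu.2 k k' hkk) hx.1)
          obtain ⟨e, he, h4⟩ := h3
          obtain ⟨i, hi, rfl⟩ := tt_surj τ e he
          rw [cf_zero _ _ _ ⟨i, hi, ctr_mo_zero _ _ h4⟩, mul_zero]
        · intro h
          exact absurd ((mem_TT _ _ _ _ _).2 hG) h
      rw [h2, sub_self]
      exact Submodule.zero_mem _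
    · -- not covering
      push Not at hc
      obtain ⟨x, hx, hxu⟩ := hc
      have h3 : (mo u : Lx K α) ∈ UncX K d X P n := by
        have h4 : (mo u : Lx K α) ∈ Mt K d (P.erase x) n := by
          refine mo_mem_Mt ⟨fun k => ⟨(hu.1 k).1, fun a ha => ?_⟩, hu.2⟩
          rw [mem_erase]
          refine ⟨fun h => hxu k (by rw [← h]; exact ha), (hu.1 k).2 ha⟩
        exact (le_iSup₂ (f := fun y (_ : y ∈ X) => Mt K d (P.erase y) n) x hx) h4
      have h2 : Lo K d n P X (mo u) = 0 := by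
        rw [Lo_apply]
        refine sum_eq_zero fun τ hτ => ?_
        rw [mem_TT] at hτ
        rw [cf_unc hτ h3, mul_zero]
      rw [h2, sub_zero]
      exact h3
  exact h1 hy

end cov

end ICov

/-- Item Cov. -/
theorem pr_Cov (h1 : S_CfM) (h2 : S_CfD) : S_Cov := by
  intro K _ _ α _ _ d j P X _ _ _ y hy hDy
  have h3 : y = (y - ICov.Lo K d (j + 1) P X y) + ICov.Lo K d (j + 1) P X y := by
    rw [sub_add_cancel]
  rw [h3]
  refine Submodule.add_mem_sup (ICov.sub_mem hy) ?_
  rw [ICov.Lo_apply]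
  refine Submodule.sum_mem _ fun τ hτ => ?_
  rw [ICov.mem_TT] at hτ
  refine Submodule.subset_span ⟨τ.card, ICov.tt τ, cf τ.card (ICov.tt τ) y, hτ.1, ?_, ?_, ?_, ?_,
    rfl⟩
  · intro i hi
    exact hτ.2.1 _ (ICov.tt_mem τ hi)
  · intro i hi k hk hne
    exact hτ.2.2.1 _ (ICov.tt_mem τ hi) _ (ICov.tt_mem τ hk)
      fun h => hne (ICov.tt_inj τ i hi k hk h)
  · intro x hx
    obtain ⟨e, he, hxe⟩ := hτ.2.2.2 x hx
    obtain ⟨i, hi, rfl⟩ := ICov.tt_surj τ e he
    rw [mem_biUnion]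
    exact ⟨i, mem_range.2 hi, hxe⟩
  · refine ⟨h1 K α d τ.card (j + 1) P (ICov.tt τ) hτ.1 y hy, ?_⟩
    show Dx (cf τ.card (ICov.tt τ) y) = 0
    rw [h2 K α τ.card (ICov.tt τ) y, ICov.cf_unc hτ hDy, smul_zero]

end Pool.Agent.Work.MP_1233f5_ag.LS
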