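import Pool.Agent.Work.MP_1233f5_ag.LS.Stmts

/-! MP_1233f5_ag, block LS, item Dlt: the structure theorem for all sets of points. -/

set_option autoImplicit false

namespace Pool.Agent.Work.MP_1233f5_ag.LS

open Finset
open Pool.Agent.Work.MP_1233f5_ag.V (vm ML theta rVan)
open Pool.Agent.Work.MP_1233f5_ag.Y
open Pool.Agent.Work.MP_1233f5_ag.Z
open Pool.Agent.Work.MP_1233f5_ag.Sec (Fk wd ct ee ff hh IsSec IsDeg swd brk)

theorem pr_Dlt (hMp : S_Mp) (hU : S_DltU) : S_Dlt := by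
  intro K _ _ r t s p δ ht htr hp hδ hnum α _ _ P χ hcard hχ z hz
  obtain ⟨f, hf⟩ : ∃ f : {x // x ∈ P} ↪ α, f = Function.Embedding.subtype _ := ⟨_, rfl⟩
  have hfx : ∀ x, f x = (x : α) := fun x => by rw [hf]; rfl
  have hPf : (univ : Finset {x // x ∈ P}).map f = P := by
    ext a
    rw [mem_map]
    constructor
    · rintro ⟨x, _, rfl⟩
      rw [hfx]
      exact x.2
    · intro ha
      exact ⟨⟨a, ha⟩, mem_univ _, by rw [hfx]⟩
  obtain ⟨m1, m2, m3, m4, m5, m6, m7⟩ := hMp K {x // x ∈ P} α f (r + 1) p univ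
  obtain ⟨-, -, k3, -⟩ := hMp K {x // x ∈ P} α f (r + 1) (p + 1) univ
  rw [hPf] at m3 m4 m6 k3
  have hzM : z ∈ Mt K (r + 1) P p := hz.1.1
  have hzD : Dx z = 0 := hz.1.2
  obtain ⟨z', hz'⟩ : ∃ z' : Lx K {x // x ∈ P}, z' =
    mpS K (fun e => univ.filter (fun b => f b ∈ e)) z := ⟨_, rfl⟩
  have hzz : mpS K (fun e => e.map f) z' = z := by
    rw [hz']
    exact m6 z hzM
  have hcy : z' ∈ Cy K (r + 1) (univ : Finset {x // x ∈ P}) p := by
    refine ⟨?_, ?_⟩
    · rw [hz']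
      exact m4 z hzM
    · show Dx z' = 0
      rw [hz', m2, hzD, map_zero]
  have halt : Alc (fun x => χ (f x)) (univ : Finset {x // x ∈ P}) z' := by
    intro σ _ hσχ
    have h1 : act K α (σ.viaFintypeEmbedding f) z =
        ((Equiv.Perm.sign (σ.viaFintypeEmbedding f) : ℤ) : K) • z := by
      refine hz.2 _ ?_ ?_
      · intro a ha
        refine Equiv.Perm.viaFintypeEmbedding_apply_notMem_range _ _ ?_
        rintro ⟨x, rfl⟩
        rw [hfx] at ha
        exact ha x.2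
      · intro a
        by_cases ha : a ∈ Set.range f
        · obtain ⟨x, rfl⟩ := ha
          rw [Equiv.Perm.viaFintypeEmbedding_apply_image]
          exact hσχ x
        · rw [Equiv.Perm.viaFintypeEmbedding_apply_notMem_range _ _ ha]
    have h2 := m7 σ z'
    rw [hzz, h1, Equiv.Perm.viaFintypeEmbedding_sign] at h2
    have h3 := congrArg (mpS K (fun e => univ.filter (fun b => f b ∈ e))) h2
    rw [m5, map_smul, ← hz'] at h3
    exact h3
  have hB := hU K {x // x ∈ P} (fun x => χ (f x)) r t s p δ ht htr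
    (by rw [Fintype.card_coe, hcard]) hp hδ hnum (le_trans (card_le_card (by
      intro c hc
      obtain ⟨x, _, rfl⟩ := mem_image.1 hc
      rw [hfx]
      exact mem_image_of_mem _ x.2)) hχ) ⟨hcy, halt⟩
  obtain ⟨w, hw, hwz⟩ := hB
  refine ⟨mpS K (fun e => e.map f) w, k3 w hw, ?_⟩
  rw [m1, hwz, hzz]

end Pool.Agent.Work.MP_1233f5_ag.LS
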