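import Pool.Agent.Work.MP_1233f5_ag.LS.Stmts
import Pool.Agent.Work.MP_1233f5_ag.Z.I_Av

/-! MP_1233f5_ag, block LS, item DltU: the structure theorem on all points. -/

set_option autoImplicit false

namespace Pool.Agent.Work.MP_1233f5_ag.LS

open Finset
open Pool.Agent.Work.MP_1233f5_ag.V (vm ML theta rVan)
open Pool.Agent.Work.MP_1233f5_ag.Y
open Pool.Agent.Work.MP_1233f5_ag.Z
open Pool.Agent.Work.MP_1233f5_ag.Sec (Fk wd ct ee ff hh IsSec IsDeg swd brk)

namespace IDltU

open Pool.Agent.Work.MP_1233f5_ag.Z.IAv (Gp gp_mul gp_inv avg avg_apply avg_alt sg_mul)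

variable {K : Type} [Field K] {α : Type} [Fintype α] [DecidableEq α]

/-- the average of a permuted element. -/
theorem avg_act (χ : α → ℕ) (R : Finset α) {τ : Equiv.Perm α} (hτ : Gp χ R τ) (h : Lx K α) :
    avg χ R (act K α τ h) = ((Equiv.Perm.sign τ : ℤ) : K) • avg χ R h := by
  classical
  rw [avg_apply, avg_apply, smul_sum]
  refine sum_nbij' (fun σ => σ * τ) (fun σ => σ * τ⁻¹) ?_ ?_ ?_ ?_ ?_
  · intro σ hσ
    simp only [mem_filter, mem_univ, true_and] at hσ ⊢
    exact gp_mul hσ hτ
  · intro σ hσ
    simp only [mem_filter, mem_univ, true_and] at hσ ⊢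
    exact gp_mul hσ (gp_inv hτ)
  · intro σ _
    exact mul_inv_cancel_right σ τ
  · intro σ _
    exact inv_mul_cancel_right σ τ
  · intro σ _
    have h1 : act K α (σ * τ) h = act K α σ (act K α τ h) := by
      rw [map_mul (act K α)]
      rfl
    rw [h1, smul_smul]
    congr 1
    rw [Equiv.Perm.sign_mul, Units.val_mul, Int.cast_mul, mul_comm ((Equiv.Perm.sign σ : ℤ) : K),
      ← mul_assoc, sg_mul, one_mul]

/-- the average maps boundaries to boundaries. -/
theorem avg_Bd (χ : α → ℕ) {d p : ℕ} {x : Lx K α} (hx : x ∈ Bd K d (univ : Finset α) p) :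
    avg χ (univ : Finset α) x ∈ Bd K d (univ : Finset α) p := by
  classical
  rw [avg_apply]
  refine Submodule.sum_mem _ fun σ _ => Submodule.smul_mem _ _ ?_
  exact act_Bd_sup (P := univ) (fun a ha => absurd (mem_univ a) ha) (subset_univ _) hx

/-- the average of an element invariant under the permutations of two points of the same
colour vanishes. -/
theorem avg_zero [CharZero K] (χ : α → ℕ) {x y : α} (hxy : x ≠ y) (hχ : χ x = χ y)
    {z : Lx K α} (hz : act K α (Equiv.swap x y) z = z) : avg χ (univ : Finset α) z = 0 := by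
  have hτ : Gp χ (univ : Finset α) (Equiv.swap x y) := by
    refine ⟨fun a ha => absurd (mem_univ a) ha, fun a => ?_⟩
    by_cases h1 : a = x
    · rw [h1, Equiv.swap_apply_left, hχ]
    · by_cases h2 : a = y
      · rw [h2, Equiv.swap_apply_right, hχ]
      · rw [Equiv.swap_apply_of_ne_of_ne h1 h2]
  have h1 := avg_act (K := K) χ univ hτ z
  rw [hz, Equiv.Perm.sign_swap hxy] at h1
  have h2 : avg χ univ z = -avg χ univ z := by
    rw [Units.val_neg, Units.val_one, Int.cast_neg, Int.cast_one, neg_smul, one_smul] at h1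
    exact h1
  have h3 : (2 : K) • avg χ univ z = 0 := by
    rw [two_smul]
    nth_rewrite 1 [h2]
    exact neg_add_cancel _
  exact (smul_eq_zero.1 h3).resolve_left two_ne_zero

end IDltU

open IDltU in
open Pool.Agent.Work.MP_1233f5_ag.Z.IAv (avg avg_alt) in
theorem pr_DltU (hBB : S_BBs) (hStep : S_WStepB) : S_DltU := by
  intro K _ _ α _ _ χ r t s p δ ht htr hcard hp hδ hnum hχ z hz
  obtain ⟨hB, hNS⟩ := hBB K α r p (s + 1)
  have hall : ∀ a, WdB r p a (BBs K α r p (s + 1)) := by
    intro a
    induction a using Nat.strong_induction_on with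
    | _ a ih =>
      exact hStep K α r t p a (s + 1) δ (BBs K α r p (s + 1)) hB ht htr hcard hp hδ (by omega)
        hNS ih
  have hLV : LV r (univ : Finset α) [] (fun _ => 0) (fun _ _ => Classical.choice (by
      have h1 : 0 < Fintype.card α := by rw [hcard]; omega
      exact Fintype.card_pos_iff.1 h1)) (fun _ => ∅) :=
    ⟨List.nodup_nil, fun j hj => absurd hj List.not_mem_nil,
      fun j hj => absurd hj List.not_mem_nil, fun j hj => absurd hj List.not_mem_nil⟩
  have hmem : z ∈ BBs K α r p (s + 1) := by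
    have h1 := hall p [] _ _ _ hLV (by simp) z (Cy_mono (fun x _ => by
      rw [mem_sdiff]
      refine ⟨mem_univ x, fun hc => ?_⟩
      unfold ls at hc
      simp at hc) hz.1)
    unfold pq at h1
    simpa using h1
  obtain ⟨N, hN, hNz⟩ := avg_alt (K := K) χ (univ : Finset α)
  have h1 : avg χ (univ : Finset α) z ∈ Bd K (r + 1) (univ : Finset α) p := by
    unfold BBs at hmem
    obtain ⟨y, hy, w, hw, rfl⟩ := Submodule.mem_sup.1 hmem
    rw [map_add]
    refine Submodule.add_mem _ (avg_Bd χ hy) ?_
    have h2 : avg χ (univ : Finset α) w = 0 := by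
      clear hmem hz
      induction hw using Submodule.span_induction with
      | mem x hx =>
        obtain ⟨_, A, hA, hinv⟩ := hx
        have h3 : ∃ x ∈ A, ∃ y ∈ A, x ≠ y ∧ χ x = χ y := by
          refine exists_ne_map_eq_of_card_lt_of_maps_to (t := univ.image χ) ?_ ?_
          · omega
          · intro a _
            exact mem_coe.2 (mem_image_of_mem _ (mem_univ a))
        obtain ⟨x1, hx1, y1, hy1, hne, he⟩ := h3
        refine avg_zero χ hne he (hinv _ ?_)
        intro a ha
        refine Equiv.swap_apply_of_ne_of_ne ?_ ?_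
        · rintro rfl
          exact ha hx1
        · rintro rfl
          exact ha hy1
      | zero => rw [map_zero]
      | add x y _ _ hx hy => rw [map_add, hx, hy, add_zero]
      | smul c x _ hx => rw [map_smul, hx, smul_zero]
    rw [h2]
    exact Submodule.zero_mem _
  rw [hNz z hz.2] at h1
  have h2 := Submodule.smul_mem _ N⁻¹ h1
  rwa [smul_smul, inv_mul_cancel₀ hN, one_smul] at h2

end Pool.Agent.Work.MP_1233f5_ag.LS
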