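import Pool.Agent.Work.MP_1233f5_ag.LS.Stmts

/-! MP_1233f5_ag, block LS, item ExtP: `ExtG` for all points of `P`. -/

set_option autoImplicit false

namespace Pool.Agent.Work.MP_1233f5_ag.LS

open Finset
open Pool.Agent.Work.MP_1233f5_ag.V (vm ML theta rVan Mo vw KV)
open Pool.Agent.Work.MP_1233f5_ag.Y
open Pool.Agent.Work.MP_1233f5_ag.Z
open Pool.Agent.Work.MP_1233f5_ag.Sec (Fk wd ct ee ff hh IsSec IsDeg swd brk)

namespace IExtP

section
variable {α : Type} [DecidableEq α] {r : ℕ} {I : Finset (ℕ × ℕ)} {P : Finset α}
  {n : ℕ × ℕ → Finset α} {i : ℕ × ℕ} {y w : α}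

theorem mem_rest {b : α} : b ∈ rest I P n ↔ b ∈ P ∧ ∀ j ∈ I, b ∉ n j := by
  unfold rest
  rw [mem_sdiff, mem_biUnion]
  constructor
  · rintro ⟨h1, h2⟩
    exact ⟨h1, fun j hj hc => h2 ⟨j, hj, hc⟩⟩
  · rintro ⟨h1, h2⟩
    exact ⟨h1, fun ⟨j, hj, hc⟩ => h2 j hj hc⟩

/-- Exchange of the point `y` of `n i` with the free point `w`. -/
theorem cf_upd (h : Cf r I P n) (hi : i ∈ I) (hy : y ∈ n i) (hw : w ∈ rest I P n) :
    Cf r I P (Function.update n i (insert w ((n i).erase y))) := by
  obtain ⟨hw1, hw2⟩ := mem_rest.1 hw
  have hwe : w ∉ (n i).erase y := fun hc => hw2 i hi (mem_of_mem_erase hc)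
  constructor
  · intro j hj
    by_cases hji : j = i
    · subst hji
      rw [Function.update_self]
      refine ⟨?_, insert_subset hw1 ((erase_subset _ _).trans (h.1 j hj).2)⟩
      rw [card_insert_of_notMem hwe, card_erase_of_mem hy, (h.1 j hj).1]
      have : 0 < r := by
        rw [← (h.1 j hj).1]
        exact card_pos.2 ⟨y, hy⟩
      omega
    · rw [Function.update_of_ne hji]
      exact h.1 j hj
  · have key : ∀ j ∈ I, j ≠ i → Disjoint (insert w ((n i).erase y)) (n j) := by
      intro j hj hji
      rw [disjoint_left]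
      intro b hb hb'
      rcases mem_insert.1 hb with hb | hb
      · exact hw2 j hj (hb ▸ hb')
      · exact disjoint_left.1 (h.2 i hi j hj (Ne.symm hji)) (mem_of_mem_erase hb) hb'
    intro j hj j' hj' hjj
    by_cases h1 : j = i
    · have h2 : j' ≠ i := fun h2 => hjj (h1.trans h2.symm)
      rw [h1, Function.update_self, Function.update_of_ne h2]
      exact key j' hj' h2
    · by_cases h2 : j' = i
      · rw [h2, Function.update_self, Function.update_of_ne h1]
        exact (key j hj h1).symm
      · rw [Function.update_of_ne h1, Function.update_of_ne h2]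
        exact h.2 j hj j' hj' hjj

theorem rest_upd (h : Cf r I P n) (hi : i ∈ I) (hy : y ∈ n i) (hw : w ∈ rest I P n) :
    rest I P (Function.update n i (insert w ((n i).erase y))) =
      insert y ((rest I P n).erase w) := by
  obtain ⟨hw1, hw2⟩ := mem_rest.1 hw
  ext b
  rw [mem_rest, mem_insert, mem_erase, mem_rest]
  constructor
  · rintro ⟨h1, h2⟩
    have h3 := h2 i hi
    rw [Function.update_self, mem_insert, mem_erase] at h3
    by_cases hb : b = y
    · exact Or.inl hb
    · refine Or.inr ⟨fun h4 => h3 (Or.inl h4), h1, fun j hj => ?_⟩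
      by_cases hji : j = i
      · rw [hji]
        exact fun hc => h3 (Or.inr ⟨hb, hc⟩)
      · have h4 := h2 j hj
        rw [Function.update_of_ne hji] at h4
        exact h4
  · rintro (rfl | ⟨h1, h2, h3⟩)
    · refine ⟨(h.1 i hi).2 hy, fun j hj => ?_⟩
      by_cases hji : j = i
      · rw [hji, Function.update_self, mem_insert, mem_erase]
        rintro (h4 | h4)
        · exact hw2 i hi (h4 ▸ hy)
        · exact h4.1 rfl
      · rw [Function.update_of_ne hji]
        exact fun hc => disjoint_left.1 (h.2 i hi j hj (Ne.symm hji)) hy hc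
    · refine ⟨h2, fun j hj => ?_⟩
      by_cases hji : j = i
      · rw [hji, Function.update_self, mem_insert, mem_erase]
        rintro (h4 | h4)
        · exact h1 h4
        · exact h3 i hi h4.2
      · rw [Function.update_of_ne hji]
        exact h3 j hj

end

end IExtP

open IExtP in
theorem pr_ExtP (h1 : S_Brs) : S_ExtP := by
  intro K _ _ α _ _ H _ _ ρ V J G r k I P Φ hA hE hC hcard n hn s hs y hy j hj
  by_cases hyR : y ∈ rest I P n
  · exact hE.ext n hn s hs y hyR j hj
  · obtain ⟨i, hi, hyi⟩ : ∃ i ∈ I, y ∈ n i := by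
      by_contra hc
      push Not at hc
      exact hyR (mem_rest.2 ⟨hy, hc⟩)
    have hcr := U.card_rest hn
    have hB := h1 K α r (k + 1) (rest I P n) (by
      rw [Nat.add_sub_cancel]
      omega)
    have hle : Sc K r (k + 1) (rest I P n) ≤
        LinearMap.ker ((asym ρ (insert y (G j))).comp (Φ n)) := by
      refine hB.trans ?_
      rw [Submodule.span_le]
      rintro t ⟨u, v, hu, hv, huv, x, hx, rfl⟩
      show asym ρ (insert y (G j)) (Φ n (brk u v x)) = 0
      have hrel := hC n hn i hi y hyi u hu v hv huv x hx
      have hyu : u ≠ y := fun h => hyR (h ▸ hu)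
      have hyv : v ≠ y := fun h => hyR (h ▸ hv)
      have hyR' : y ∉ ((rest I P n).erase u).erase v := fun h =>
        hyR (mem_of_mem_erase (mem_of_mem_erase h))
      have hv' : v ∉ ((rest I P n).erase u).erase v := fun h => (mem_erase.1 h).1 rfl
      have hu' : u ∉ ((rest I P n).erase u).erase v := fun h =>
        (mem_erase.1 (mem_of_mem_erase h)).1 rfl
      have e1 : insert v (insert y (((rest I P n).erase u).erase v)) =
          rest I P (Function.update n i (insert u ((n i).erase y))) := by
        rw [rest_upd hn hi hyi hu, Finset.insert_comm,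
          insert_erase (mem_erase.2 ⟨huv.symm, hv⟩)]
      have e2 : insert y (insert u (((rest I P n).erase u).erase v)) =
          rest I P (Function.update n i (insert v ((n i).erase y))) := by
        rw [rest_upd hn hi hyi hv, Finset.erase_right_comm, insert_erase (mem_erase.2 ⟨huv, hu⟩)]
      have m1 : brk v y x ∈ Sc K r (k + 1)
          (rest I P (Function.update n i (insert u ((n i).erase y)))) := by
        rw [← e1]
        exact U.brk_mem hyv hv' hyR' hx
      have m2 : brk y u x ∈ Sc K r (k + 1)
          (rest I P (Function.update n i (insert v ((n i).erase y)))) := by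
        rw [← e2]
        exact U.brk_mem hyu.symm hyR' hu' hx
      have z1 : asym ρ (insert y (G j))
          (Φ (Function.update n i (insert u ((n i).erase y))) (brk v y x)) = 0 :=
        hE.ext _ (cf_upd hn hi hyi hu) _ m1 y
          (by rw [rest_upd hn hi hyi hu]; exact mem_insert_self _ _) j hj
      have z2 : asym ρ (insert y (G j))
          (Φ (Function.update n i (insert v ((n i).erase y))) (brk y u x)) = 0 :=
        hE.ext _ (cf_upd hn hi hyi hv) _ m2 y
          (by rw [rest_upd hn hi hyi hv]; exact mem_insert_self _ _) j hj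
      have h5 := congrArg (asym ρ (insert y (G j))) hrel
      rw [map_add, map_add, z1, z2, add_zero, add_zero, map_zero] at h5
      exact h5
    exact hle hs

end Pool.Agent.Work.MP_1233f5_ag.LS
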