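import Pool.Agent.Work.MP_1233f5_ag.LS.Stmts

/-! MP_1233f5_ag, block LS, item FinC. -/

set_option autoImplicit false

namespace Pool.Agent.Work.MP_1233f5_ag.LS

open Finset
open Pool.Agent.Work.MP_1233f5_ag.V (vm ML theta rVan)
open Pool.Agent.Work.MP_1233f5_ag.Y
open Pool.Agent.Work.MP_1233f5_ag.Z
open Pool.Agent.Work.MP_1233f5_ag.Sec (Fk wd ct ee ff hh IsSec IsDeg swd brk)

theorem pr_FinC (hRep2 : S_Rep2) (hN : S_LemN) : S_FinC := by
  intro K _ _ α _ _ H _ _ ρ V J G P c Z hSt hNS hG hPn hc hZV hZP hAnt hT hE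
  refine hRep2 K α H ρ P Z ⊥ hZP ?_ ?_ ?_
  · intro σ _ z hz
    rw [(Submodule.mem_bot K).1 hz, map_zero]
    exact Submodule.zero_mem _
  · intro Y hY z hz hinv
    have hP0 : 0 < P.card := card_pos.2 hPn
    obtain ⟨A, hAP, hAY, hcard⟩ : ∃ A : Finset α, A ⊆ P ∧ (A = Y ∨ A = P \ Y) ∧
        P.card ≤ 2 * A.card := by
      by_cases h : P.card ≤ 2 * Y.card
      · exact ⟨Y, hY, Or.inl rfl, h⟩
      · refine ⟨P \ Y, sdiff_subset, Or.inr rfl, ?_⟩
        rw [card_sdiff_of_subset hY]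
        omega
    have hinv' : ∀ σ, Sup A σ → ρ σ z = z := by
      intro σ hσ
      refine hinv σ ⟨U.sup_mono hAP hσ, ?_⟩
      rcases hAY with rfl | rfl
      · exact U.sup_im hσ
      · exact U.sup_im_disj hσ disjoint_sdiff
    have h1 : z = 0 := hN K α H ρ V J G A c z hSt hNS
      ⟨hG.dis, fun j hj => (hG.out j hj).mono_right hAP⟩ (card_pos.1 (by omega)) (by omega)
      (hZV hz) hinv' (hAnt z hz) (fun y hy => hE z hz y (hAP hy))
    rw [h1]
    exact Submodule.zero_mem _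
  · intro Q hQ hQ3 z hz hanti
    obtain ⟨N, hN0, hNs⟩ := U.asym_of_anti ρ Q
    have h1 := hT z hz Q hQ hQ3
    rw [hNs z hanti] at h1
    exact (Submodule.mem_bot K).2 ((smul_eq_zero.1 h1).resolve_left hN0)

end Pool.Agent.Work.MP_1233f5_ag.LS
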