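import Pool.Agent.Work.MP_1233f5_ag.LS.I_MrgE

/-! MP_1233f5_ag, block LS, item FrzE: the extra properties after freezing. -/

set_option autoImplicit false
set_option linter.unusedSectionVars false

namespace Pool.Agent.Work.MP_1233f5_ag.LS

open Finset
open Pool.Agent.Work.MP_1233f5_ag.V (vm ML theta rVan)
open Pool.Agent.Work.MP_1233f5_ag.Y
open Pool.Agent.Work.MP_1233f5_ag.Z
open Pool.Agent.Work.MP_1233f5_ag.Sec (Fk wd ct ee ff hh IsSec IsDeg swd brk)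

namespace IFrzE

/-- one of the three terms. -/
theorem term {K : Type} [Field K] [CharZero K] {α : Type} [DecidableEq α]
    {r k : ℕ} {I : Finset (ℕ × ℕ)}
    {P P' : Finset α} {i : ℕ × ℕ} {u v l : α} {g : Finset α} {n : ℕ × ℕ → Finset α} (hi : i ∈ I)
    (hP' : ∀ a, a ∈ P' ↔ a ∈ P ∧ a ≠ u ∧ a ≠ v ∧ a ≠ l ∧ a ∉ g) (hu : u ∈ P) (hv : v ∈ P)
    (hl : l ∈ P) (hg : g ⊆ P) (huv : u ≠ v) (hul : u ≠ l) (hvl : v ≠ l) (hug : u ∉ g)
    (hvg : v ∉ g) (hlg : l ∉ g) (hgc : g.card + 1 = r) (hn : Cf r (I.erase i) P' n)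
    {s : Finset α → Fk K} (hs : s ∈ Sc K r (k + 1) (rest (I.erase i) P' n)) :
    Cf r I P (Function.update n i (insert l g)) ∧
      (∀ y ∈ rest (I.erase i) P' n, y ∈ rest I P (Function.update n i (insert l g))) ∧
      brk u v s ∈ Sc K r (k + 1) (rest I P (Function.update n i (insert l g))) := by
  have hsub : P' ⊆ P := fun a ha => ((hP' a).1 ha).1
  have hn' : Cf r (I.erase i) P n := ⟨fun j hj => ⟨(hn.1 j hj).1, (hn.1 j hj).2.trans hsub⟩, hn.2⟩
  have hm : insert l g ⊆ rest (I.erase i) P n := by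
    intro a ha
    rw [U.mem_rest]
    refine ⟨insert_subset hl hg ha, fun j hj hc => ?_⟩
    have h1 := (hP' a).1 ((hn.1 j hj).2 hc)
    rw [mem_insert] at ha
    rcases ha with ha | ha
    · exact h1.2.2.2.1 ha
    · exact h1.2.2.2.2 ha
  have h1 := U.cf_insert hn' hm (by rw [card_insert_of_notMem hlg, hgc])
  have h2 : rest I P (Function.update n i (insert l g)) =
      insert u (insert v (rest (I.erase i) P' n)) := by
    rw [U.rest_insert hi]
    ext a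
    simp only [mem_sdiff, mem_insert, U.mem_rest, hP', not_or]
    constructor
    · rintro ⟨⟨h3, h4⟩, h5, h6⟩
      by_cases hau : a = u
      · exact Or.inl hau
      · by_cases hav : a = v
        · exact Or.inr (Or.inl hav)
        · exact Or.inr (Or.inr ⟨⟨h3, hau, hav, h5, h6⟩, h4⟩)
    · rintro (rfl | rfl | ⟨⟨h3, h4, h5, h6, h7⟩, h8⟩)
      · exact ⟨⟨hu, fun j hj hc => ((hP' a).1 ((hn.1 j hj).2 hc)).2.1 rfl⟩, hul, hug⟩
      · exact ⟨⟨hv, fun j hj hc => ((hP' a).1 ((hn.1 j hj).2 hc)).2.2.1 rfl⟩, hvl, hvg⟩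
      · exact ⟨⟨h3, h8⟩, h6, h7⟩
  refine ⟨h1, fun y hy => ?_, ?_⟩
  · rw [h2, mem_insert, mem_insert]
    exact Or.inr (Or.inr hy)
  · rw [h2]
    refine U.brk_mem huv ?_ ?_ hs
    · intro hc
      exact ((hP' u).1 (U.rest_sub hc)).2.1 rfl
    · intro hc
      exact ((hP' v).1 (U.rest_sub hc)).2.2.1 rfl

end IFrzE

open IExx IFrzE in
theorem pr_FrzE : S_FrzE := by
  intro K _ _ α _ _ H _ _ ρ V J G r k I P i Φ Ψ hE hi u v l g hu hv hl hg huv hul hvl hug hvg hlg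
    hgc hΨ
  have hP' : ∀ a, a ∈ P \ (insert u (insert v (insert l g))) ↔
      a ∈ P ∧ a ≠ u ∧ a ≠ v ∧ a ≠ l ∧ a ∉ g := by
    intro a
    simp only [mem_sdiff, mem_insert, not_or]
  obtain ⟨P', hPP⟩ : ∃ P', P' = P \ (insert u (insert v (insert l g))) := ⟨_, rfl⟩
  rw [← hPP] at hP' ⊢
  have t1 : ∀ n, Cf r (I.erase i) P' n → ∀ s ∈ Sc K r (k + 1) (rest (I.erase i) P' n), _ :=
    fun n hn s hs => term (K := K) (k := k) hi hP' hu hv hl hg huv hul hvl hug hvg hlg hgc hn hs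
  have t2 : ∀ n, Cf r (I.erase i) P' n → ∀ s ∈ Sc K r (k + 1) (rest (I.erase i) P' n), _ :=
    fun n hn s hs => term (K := K) (k := k) (u := v) (v := l) (l := u) hi
      (fun a => (hP' a).trans (by tauto)) hv hl hu hg hvl huv.symm hul.symm hvg hlg hug hgc hn hs
  have t3 : ∀ n, Cf r (I.erase i) P' n → ∀ s ∈ Sc K r (k + 1) (rest (I.erase i) P' n), _ :=
    fun n hn s hs => term (K := K) (k := k) (u := l) (v := u) (l := v) hi
      (fun a => (hP' a).trans (by tauto)) hl hu hv hg hul.symm hvl.symm huv hlg hug hvg hgc hn hs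
  refine ⟨?_, ?_, ?_⟩
  · intro n hn s hs
    obtain ⟨a1, a2, a3⟩ := t1 n hn s hs
    obtain ⟨b1, b2, b3⟩ := t2 n hn s hs
    obtain ⟨c1, c2, c3⟩ := t3 n hn s hs
    rw [hΨ]
    unfold frz
    exact V.add_mem (V.add_mem (hE.val _ a1 _ a3) (hE.val _ b1 _ b3)) (hE.val _ c1 _ c3)
  · intro n hn s hs
    obtain ⟨a1, a2, a3⟩ := t1 n hn s hs
    obtain ⟨b1, b2, b3⟩ := t2 n hn s hs
    obtain ⟨c1, c2, c3⟩ := t3 n hn s hs
    rw [hΨ]
    unfold frz
    exact antG_add (antG_add (hE.ant _ a1 _ a3) (hE.ant _ b1 _ b3)) (hE.ant _ c1 _ c3)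
  · intro n hn s hs y hy
    obtain ⟨a1, a2, a3⟩ := t1 n hn s hs
    obtain ⟨b1, b2, b3⟩ := t2 n hn s hs
    obtain ⟨c1, c2, c3⟩ := t3 n hn s hs
    rw [hΨ]
    unfold frz
    exact extG_add (extG_add (hE.ext _ a1 _ a3 y (a2 y hy)) (hE.ext _ b1 _ b3 y (b2 y hy)))
      (hE.ext _ c1 _ c3 y (c2 y hy))

end Pool.Agent.Work.MP_1233f5_ag.LS
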