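import Pool.Agent.Work.MP_1233f5_ag.LS.StmtsR

/-! MP_1233f5_ag, block LS, item Inj: injectivity of the symmetrization over one more point. -/

set_option autoImplicit false

namespace Pool.Agent.Work.MP_1233f5_ag.LS

open Finset
open Pool.Agent.Work.MP_1233f5_ag.V (vm ML theta rVan Mo vw KV)
open Pool.Agent.Work.MP_1233f5_ag.Y
open Pool.Agent.Work.MP_1233f5_ag.Z

namespace IInj

section
variable {K : Type} [Field K] {α : Type} [DecidableEq α]

/-- kills the generators of the sets meeting `A` -/
noncomputable def La (K : Type) [Field K] {α : Type} [DecidableEq α] (A : Finset α) :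
    (Finset α →₀ K) →ₗ[K] (Finset α →₀ K) :=
  Finsupp.linearCombination K
    (fun e : Finset α => if Disjoint e A then Finsupp.single e (1 : K) else 0)

/-- the algebra endomorphism of `La` -/
noncomputable def pj (K : Type) [Field K] {α : Type} [DecidableEq α] (A : Finset α) :
    Lx K α →ₐ[K] Lx K α := ExteriorAlgebra.map (La K A)

theorem pj_ed (A e : Finset α) : pj K A (ed e : Lx K α) = if Disjoint e A then ed e else 0 := by
  unfold pj ed
  rw [ExteriorAlgebra.map_apply_ι]
  have h : La K A (Finsupp.single e (1 : K)) =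
      if Disjoint e A then Finsupp.single e (1 : K) else 0 := by
    unfold La
    rw [Finsupp.linearCombination_single, one_smul]
  rw [h]
  split_ifs with h1
  · rfl
  · rw [map_zero]

theorem pj_pj (A B : Finset α) (x : Lx K α) : pj K A (pj K B x) = pj K (A ∪ B) x := by
  induction x using Lx_induction with
  | h1 => rw [map_one, map_one, map_one]
  | hadd x y hx hy => rw [map_add, map_add, map_add, hx, hy]
  | hsmul c x hx => rw [map_smul, map_smul, map_smul, hx]
  | hed e x hx =>
    rw [map_mul, map_mul, map_mul, hx, pj_ed, pj_ed]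
    by_cases h1 : Disjoint e B
    · rw [if_pos h1, pj_ed]
      by_cases h2 : Disjoint e A
      · rw [if_pos h2, if_pos (disjoint_union_right.2 ⟨h2, h1⟩)]
      · rw [if_neg h2, if_neg (fun h => h2 (disjoint_union_right.1 h).1)]
    · rw [if_neg h1, map_zero, if_neg (fun h => h1 (disjoint_union_right.1 h).2)]

theorem pj_empty (x : Lx K α) : pj K ∅ x = x := by
  induction x using Lx_induction with
  | h1 => rw [map_one]
  | hadd x y hx hy => rw [map_add, hx, hy]
  | hsmul c x hx => rw [map_smul, hx]
  | hed e x hx => rw [map_mul, hx, pj_ed, if_pos (disjoint_empty_right e)]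

theorem pj_swap_mo {P : Finset α} {x0 : α} (h0 : x0 ∉ P) (y : α) {p : ℕ}
    (t : Fin p → Finset α) (ht : ∀ i, t i ⊆ P) :
    pj K {x0} (act K α (Equiv.swap x0 y) (mo t : Lx K α)) = pj K {y} (mo t) := by
  induction p with
  | zero => rw [mo_zero, act_one, map_one, map_one]
  | succ p ih =>
    rw [mo_succ, act_mul, map_mul, map_mul, ih (Fin.tail t) (fun i => ht i.succ), act_ed, pj_ed,
      pj_ed]
    congr 1
    have h1 : x0 ∉ t 0 := fun h => h0 (ht 0 h)
    by_cases hy : y ∈ t 0
    · rw [if_neg, if_neg]
      · rw [disjoint_singleton_right]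
        exact fun h => h hy
      · rw [disjoint_singleton_right]
        intro h
        refine h ?_
        rw [mem_im, Equiv.swap_inv, Equiv.swap_apply_left]
        exact hy
    · have h2 : im (Equiv.swap x0 y) (t 0) = t 0 := im_eq_self fun a ha =>
        Equiv.swap_apply_of_ne_of_ne (fun h => h1 (h ▸ ha)) (fun h => hy (h ▸ ha))
      rw [h2, if_pos (disjoint_singleton_right.2 h1), if_pos (disjoint_singleton_right.2 hy)]

theorem pj_swap {d j : ℕ} {P : Finset α} {x0 : α} (h0 : x0 ∉ P) (y : α) {w : Lx K α}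
    (hw : w ∈ Mt K d P j) :
    pj K {x0} (act K α (Equiv.swap x0 y) w) = pj K {y} w := by
  induction hw using Submodule.span_induction with
  | mem x hx =>
    obtain ⟨t, ht, rfl⟩ := hx
    exact pj_swap_mo h0 y t fun i => (ht.1 i).2
  | zero => rw [map_zero, map_zero, map_zero]
  | add x y _ _ hx hy => rw [map_add, map_add, map_add, hx, hy]
  | smul c x _ hx => rw [map_smul, map_smul, map_smul, hx]

theorem pj_fix {d j : ℕ} {P : Finset α} {x0 : α} (h0 : x0 ∉ P) {w : Lx K α}
    (hw : w ∈ Mt K d P j) : pj K {x0} w = w := by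
  have key : ∀ {p : ℕ} (t : Fin p → Finset α), (∀ i, t i ⊆ P) →
      pj K {x0} (mo t : Lx K α) = mo t := by
    intro p
    induction p with
    | zero => intro t _; rw [mo_zero, map_one]
    | succ p ih =>
      intro t ht
      rw [mo_succ, map_mul, ih (Fin.tail t) (fun i => ht i.succ), pj_ed,
        if_pos (disjoint_singleton_right.2 fun h => h0 (ht 0 h))]
  induction hw using Submodule.span_induction with
  | mem x hx =>
    obtain ⟨t, ht, rfl⟩ := hx
    exact key t fun i => (ht.1 i).2
  | zero => rw [map_zero]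
  | add x y _ _ hx hy => rw [map_add, hx, hy]
  | smul c x _ hx => rw [map_smul, hx]

/-- the relation gives zero -/
theorem zero_of_rel [CharZero K] (X : Finset α) (v : Lx K α)
    (h : v + ∑ y ∈ X, pj K {y} v = 0) : v = 0 := by
  have key : ∀ n : ℕ, ∀ A : Finset α, A ⊆ X → (X \ A).card = n → pj K A v = 0 := by
    intro n
    induction n using Nat.strong_induction_on with
    | _ n ih =>
      intro A hA hn
      have h1 : pj K A v + ∑ y ∈ X, pj K A (pj K {y} v) = 0 := by
        rw [← map_sum, ← map_add, h, map_zero]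
      have h2 : ∑ y ∈ X, pj K A (pj K {y} v) = A.card • pj K A v := by
        rw [← sum_sdiff hA, ← sum_const]
        have h3 : ∑ y ∈ X \ A, pj K A (pj K {y} v) = 0 := by
          refine sum_eq_zero fun y hy => ?_
          have hy1 := mem_sdiff.1 hy
          rw [pj_pj]
          refine ih (X \ (A ∪ {y})).card ?_ _ ?_ rfl
          · rw [← hn]
            refine card_lt_card ⟨sdiff_subset_sdiff (Subset.refl X) subset_union_left, ?_⟩
            intro hc
            have h4 := mem_sdiff.1 (hc hy)
            exact h4.2 (mem_union_right _ (mem_singleton_self y))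
          · exact union_subset hA (singleton_subset_iff.2 hy1.1)
        rw [h3, zero_add]
        refine sum_congr rfl fun y hy => ?_
        rw [pj_pj, union_eq_left.2 (singleton_subset_iff.2 hy)]
      rw [h2] at h1
      have h5 : ((A.card + 1 : ℕ) : K) • pj K A v = 0 := by
        rw [Nat.cast_smul_eq_nsmul, add_smul, one_smul, add_comm]
        exact h1
      exact (smul_eq_zero.1 h5).resolve_left (Nat.cast_ne_zero.2 (Nat.succ_ne_zero _))
  have h6 := key _ ∅ (empty_subset X) rfl
  rwa [pj_empty] at h6

end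

section
variable {K : Type} [Field K] {α : Type} [Fintype α] [DecidableEq α]

omit [Fintype α] [DecidableEq α] in
theorem sty_iff {X : Finset α} {σ : Equiv.Perm α} : StY X (∅ : Finset α) σ ↔ Sup X σ :=
  ⟨fun h => h.1, fun h => ⟨h, Y.U.im_empty σ⟩⟩

/-- the symmetrization over one more point of an invariant vector -/
theorem symm_insert {X : Finset α} {x0 : α} (h0 : x0 ∉ X) (v : Lx K α)
    (hv : ∀ σ, Sup X σ → act K α σ v = v) : ∃ N : ℕ, 0 < N ∧
    symm (act K α) (insert x0 X) ∅ v =
      N • ∑ y ∈ insert x0 X, act K α (Equiv.swap x0 y) v := by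
  have hI : ‹DecidableEq α› = fun a b => Classical.propDecidable (a = b) :=
    Subsingleton.elim _ _
  subst hI
  classical
  refine ⟨(univ.filter (fun σ : Equiv.Perm α => StY X ∅ σ)).card, ?_, ?_⟩
  · refine card_pos.2 ⟨1, ?_⟩
    simp only [mem_filter, mem_univ, true_and]
    exact Y.U.sty_one X ∅
  rw [Y.U.symm_apply]
  have h1 : ∑ σ ∈ univ.filter (fun σ : Equiv.Perm α => StY (insert x0 X) ∅ σ), act K α σ v =
      ∑ q ∈ (insert x0 X) ×ˢ univ.filter (fun σ : Equiv.Perm α => StY X ∅ σ),
        act K α (Equiv.swap x0 q.1) v := by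
    refine sum_nbij' (fun σ => (σ x0, Equiv.swap x0 (σ x0) * σ))
      (fun q => Equiv.swap x0 q.1 * q.2) ?_ ?_ ?_ ?_ ?_
    · intro σ hσ
      simp only [mem_filter, mem_univ, true_and, sty_iff] at hσ
      simp only [mem_product, mem_filter, mem_univ, true_and, sty_iff]
      refine ⟨Y.U.sup_mem hσ (mem_insert_self x0 X), fun a ha => ?_⟩
      rw [Equiv.Perm.mul_apply]
      by_cases hax : a = x0
      · rw [hax, Equiv.swap_apply_right]
      · have h2 : σ a = a := hσ a fun hc => (mem_insert.1 hc).elim hax ha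
        rw [h2]
        refine Equiv.swap_apply_of_ne_of_ne hax fun h3 => hax ?_
        exact σ.injective (h2.trans h3)
    · rintro ⟨y, τ⟩ hq
      simp only [mem_product, mem_filter, mem_univ, true_and, sty_iff] at hq
      simp only [mem_filter, mem_univ, true_and, sty_iff]
      exact Y.U.sup_mul (Y.U.sup_swap (mem_insert_self x0 X) hq.1)
        (Y.U.sup_mono (subset_insert x0 X) hq.2)
    · intro σ _
      show Equiv.swap x0 (σ x0) * (Equiv.swap x0 (σ x0) * σ) = σ
      rw [← mul_assoc, Equiv.swap_mul_self, one_mul]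
    · rintro ⟨y, τ⟩ hq
      simp only [mem_product, mem_filter, mem_univ, true_and, sty_iff] at hq
      have h2 : (Equiv.swap x0 y * τ) x0 = y := by
        rw [Equiv.Perm.mul_apply, hq.2 x0 h0, Equiv.swap_apply_left]
      show ((Equiv.swap x0 y * τ) x0, Equiv.swap x0 ((Equiv.swap x0 y * τ) x0) *
        (Equiv.swap x0 y * τ)) = (y, τ)
      rw [h2, ← mul_assoc, Equiv.swap_mul_self, one_mul]
    · intro σ hσ
      simp only [mem_filter, mem_univ, true_and, sty_iff] at hσ
      show act K α σ v = act K α (Equiv.swap x0 (σ x0)) v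
      have h3 : act K α (Equiv.swap x0 (σ x0) * σ) v = v := by
        refine hv _ fun a ha => ?_
        rw [Equiv.Perm.mul_apply]
        by_cases hax : a = x0
        · rw [hax, Equiv.swap_apply_right]
        · have h2 : σ a = a := hσ a fun hc => (mem_insert.1 hc).elim hax ha
          rw [h2]
          refine Equiv.swap_apply_of_ne_of_ne hax fun h3 => hax ?_
          exact σ.injective (h2.trans h3)
      calc act K α σ v = act K α (Equiv.swap x0 (σ x0)) (act K α (Equiv.swap x0 (σ x0) * σ) v) := by
            rw [← Module.End.mul_apply, ← map_mul, ← mul_assoc, Equiv.swap_mul_self, one_mul]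
        _ = _ := by rw [h3]
  rw [h1, sum_product, smul_sum]
  refine sum_congr rfl fun y _ => ?_
  show ∑ _τ ∈ univ.filter (fun σ : Equiv.Perm α => StY X ∅ σ), act K α (Equiv.swap x0 y) v = _
  rw [sum_const]

end

end IInj

open IInj in
theorem pr_Inj : S_Inj := by
  classical
  intro K _ _ α _ _ d j P X x0 h0 hX v hv hz
  have h0X : x0 ∉ X := fun h => h0 (hX h)
  have hv' : symm (act K α) X ∅ v ∈ Mt K d P j := by
    rw [Y.U.symm_apply]
    refine Submodule.sum_mem _ fun σ hσ => ?_
    have h1 := sty_iff.1 (mem_filter.1 hσ).2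
    have h2 := act_Mt σ hv
    rwa [im_sup (Y.U.sup_mono hX h1)] at h2
  have hinv : ∀ σ, Sup X σ → act K α σ (symm (act K α) X ∅ v) = symm (act K α) X ∅ v :=
    fun σ hσ => Y.U.rho_symm (act K α) (sty_iff.2 hσ) v
  have hz' : symm (act K α) (insert x0 X) ∅ (symm (act K α) X ∅ v) = 0 := by
    rw [Y.U.symm_apply (act K α) X ∅ v, map_sum]
    refine sum_eq_zero fun σ hσ => ?_
    have h1 := sty_iff.1 (mem_filter.1 hσ).2
    rw [Y.U.symm_rho (act K α) (sty_iff.2 (Y.U.sup_mono (subset_insert x0 X) h1)), hz]
  generalize symm (act K α) X ∅ v = w at hv' hinv hz' ⊢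
  obtain ⟨N, hN, hs⟩ := symm_insert h0X w hinv
  rw [hz'] at hs
  have h2 : ∑ y ∈ insert x0 X, act K α (Equiv.swap x0 y) w = 0 := by
    have h3 : (N : K) • ∑ y ∈ insert x0 X, act K α (Equiv.swap x0 y) w = 0 := by
      rw [Nat.cast_smul_eq_nsmul]
      exact hs.symm
    exact (smul_eq_zero.1 h3).resolve_left (Nat.cast_ne_zero.2 hN.ne')
  refine zero_of_rel X w ?_
  have h4 : pj K {x0} (∑ y ∈ insert x0 X, act K α (Equiv.swap x0 y) w) = 0 := by
    rw [h2, map_zero]
  rw [map_sum, sum_insert h0X, Equiv.swap_self] at h4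
  have h5 : act K α (Equiv.refl α) w = w := by
    have h6 : (Equiv.refl α : Equiv.Perm α) = 1 := rfl
    rw [h6, map_one, Module.End.one_apply]
  rw [h5, pj_fix h0 hv'] at h4
  rw [← h4]
  congr 1
  exact sum_congr rfl fun y _ => (pj_swap h0 y hv').symm

end Pool.Agent.Work.MP_1233f5_ag.LS
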