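import Mathlib
import Pool.Agent.Work.MP_1233f5_ag.LS.StmtsR
import Pool.Agent.Work.MP_1233f5_ag.Z.I_BrG

/-! MP_1233f5_ag, block LS, item KVm (helper39): the bridge for a fixed number of variables. -/

set_option autoImplicit false

namespace Pool.Agent.Work.MP_1233f5_ag.LS

open Finset
open Pool.Agent.Work.MP_1233f5_ag.V (vm ML theta rVan Mo vw KV Alt dd rCh rcyc tyv fib mu pb InvF
  S_PbD S_PbCh S_PbSurj S_LiftT S_TyW S_Bridge)
open Pool.Agent.Work.MP_1233f5_ag.Y
open Pool.Agent.Work.MP_1233f5_ag.Y.BrgX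
open Pool.Agent.Work.MP_1233f5_ag.Z
open Pool.Agent.Work.MP_1233f5_ag.Z.IBrG

namespace IKVm

/-- the group of fibre-preserving permutations. -/
def GG {α : Type} {n : ℕ} (π : α → Fin n) : Subgroup (Equiv.Perm α) where
  carrier := {σ | ∀ a, π (σ a) = π a}
  mul_mem' := by
    intro σ τ hσ hτ a
    show π (σ (τ a)) = π a
    rw [hσ, hτ]
  one_mem' := by intro a; rfl
  inv_mem' := by
    intro σ hσ a
    have h := hσ (σ⁻¹ a)
    have e : σ (σ⁻¹ a) = a := by simp
    rw [e] at h
    exact h.symm

theorem vm1 {α : Type} [Fintype α] [DecidableEq α] (d p : ℕ) (σ : Equiv.Perm α)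
    (t : Fin p → Finset α) (h : vm d univ p (fun i => (t i).map σ.toEmbedding)) :
    vm d univ p t := by
  refine ⟨fun i => ⟨?_, Finset.subset_univ _⟩, fun i j hij => ?_⟩
  · have := (h.1 i).1
    rwa [Finset.card_map] at this
  · exact (Finset.disjoint_map _).1 (h.2 i j hij)

theorem vm2 {α : Type} [Fintype α] [DecidableEq α] (d p : ℕ) (σ : Equiv.Perm α)
    (t : Fin p → Finset α) (h : vm d univ p t) :
    vm d univ p (fun i => (t i).map σ.toEmbedding) := by
  refine ⟨fun i => ⟨?_, Finset.subset_univ _⟩, fun i j hij => ?_⟩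
  · rw [Finset.card_map]; exact (h.1 i).1
  · exact (Finset.disjoint_map _).2 (h.2 i j hij)

theorem mu_ne {n : ℕ} (w : Fin n → ℕ) {p : ℕ} (s : Fin p → (Fin n → ℕ)) : mu w s ≠ 0 := by
  unfold mu
  refine mul_ne_zero ?_ ?_
  · exact Finset.prod_ne_zero_iff.2 (fun j _ => Nat.factorial_ne_zero _)
  · exact Finset.prod_ne_zero_iff.2 (fun j _ => Finset.prod_ne_zero_iff.2
      (fun j _ => Nat.factorial_ne_zero _))

/-- from the vanishing for invariant cycles to the multigraded vanishing. -/
theorem trB (hPbD : S_PbD) (hPbCh : S_PbCh) (hPbSurj : S_PbSurj) (hLiftT : S_LiftT)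
    (hTyW : S_TyW) (K : Type) [Field K] [CharZero K] (α : Type) [Fintype α] [DecidableEq α]
    (n d p : ℕ) (π : α → Fin n)
    (hvan : ∀ C : (Fin p → Finset α) → K, rCh (vm d univ) p C → rcyc univ (vm d univ) p C →
      InvF π C → ∃ g : (Fin (p + 1) → Finset α) → K, rCh (vm d univ) (p + 1) g ∧
        ∀ t, vm d univ p t → dd univ g t = C t) : rVan K (Mo n d) (vw d (fib π)) p := by
  intro c hc hcyc
  classical
  obtain ⟨hC, hCinv⟩ := hPbCh K α n d p π c hc
  have hCc : rcyc univ (vm d (univ : Finset α)) p (pb d π c) := by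
    cases p with
    | zero => trivial
    | succ p =>
      intro t ht
      rw [hPbD K α n d p π c hc t ht, hcyc _ (hTyW α n d p π t ht), mul_zero]
  obtain ⟨g, hg, hdg⟩ := hvan (pb d π c) hC hCc hCinv
  let G := GG π
  let N : K := (Fintype.card G : K)
  have hN : N ≠ 0 := by
    simp only [N]
    exact Nat.cast_ne_zero.2 Fintype.card_ne_zero
  let g' : (Fin (p + 1) → Finset α) → K := fun t =>
    N⁻¹ * ∑ σ : G, g (fun i => (t i).map (σ : Equiv.Perm α).toEmbedding)
  have hg'ch : rCh (vm d (univ : Finset α)) (p + 1) g' := by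
    constructor
    · intro τ t
      show N⁻¹ * ∑ σ : G, g (fun i => ((t ∘ τ) i).map (σ : Equiv.Perm α).toEmbedding) =
        ((Equiv.Perm.sign τ : ℤ) : K) * (N⁻¹ * ∑ σ : G,
          g (fun i => (t i).map (σ : Equiv.Perm α).toEmbedding))
      have h1 : ∀ σ : G, g (fun i => ((t ∘ τ) i).map (σ : Equiv.Perm α).toEmbedding) =
          ((Equiv.Perm.sign τ : ℤ) : K) *
            g (fun i => (t i).map (σ : Equiv.Perm α).toEmbedding) := fun σ =>
        hg.1 τ (fun i => (t i).map (σ : Equiv.Perm α).toEmbedding)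
      rw [Finset.sum_congr rfl fun σ _ => h1 σ, ← Finset.mul_sum]
      ring
    · intro t ht
      have h1 : (∑ σ : G, g (fun i => (t i).map (σ : Equiv.Perm α).toEmbedding)) ≠ 0 := by
        intro h0
        apply ht
        simp only [g', h0, mul_zero]
      obtain ⟨σ, _, hσ⟩ := Finset.exists_ne_zero_of_sum_ne_zero h1
      exact vm1 d _ σ t (hg.2 _ hσ)
  have hg'inv : InvF π g' := by
    intro τ hτ t
    simp only [g']
    congr 1
    let τ' : G := ⟨τ, hτ⟩
    refine Fintype.sum_equiv (Equiv.mulRight τ') _ _ (fun σ => ?_)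
    congr 1
    funext i
    rw [Finset.map_map]
    rfl
  have hdg' : ∀ t, vm d (univ : Finset α) p t → dd univ g' t = pb d π c t := by
    intro t ht
    have h1 : dd univ g' t = N⁻¹ * ∑ σ : G, dd univ g
        (fun i => (t i).map (σ : Equiv.Perm α).toEmbedding) := by
      simp only [dd, g']
      rw [← Finset.mul_sum, Finset.sum_comm]
      congr 1
      refine Finset.sum_congr rfl (fun σ _ => ?_)
      refine Fintype.sum_equiv (Equiv.finsetCongr (σ : Equiv.Perm α)) _ _ (fun b => ?_)
      congr 1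
      funext i
      refine Fin.cases ?_ (fun i => ?_) i
      · simp [Equiv.finsetCongr_apply]
      · simp
    rw [h1]
    have h2 : ∀ σ : G, dd univ g (fun i => (t i).map (σ : Equiv.Perm α).toEmbedding) =
        pb d π c t := by
      intro σ
      rw [hdg _ (vm2 d p σ t ht)]
      exact hCinv σ σ.2 t
    rw [Finset.sum_congr rfl (fun σ _ => h2 σ), Finset.sum_const, Finset.card_univ, nsmul_eq_mul,
      ← mul_assoc]
    have : N⁻¹ * (Fintype.card G : K) = 1 := inv_mul_cancel₀ hN
    rw [this, one_mul]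
  obtain ⟨h, hh, hhe⟩ := hPbSurj K α n d (p + 1) π g' hg'ch hg'inv
  refine ⟨h, hh, fun s hs => ?_⟩
  obtain ⟨t, ht, hts⟩ := hLiftT α n d p π s hs
  have hst : (fun i => tyv π (t i)) = s := funext hts
  have e1 := hPbD K α n d p π h hh t ht
  have e2 : dd univ (pb d π h) t = dd univ g' t := by
    have : (pb d π h) = g' := funext hhe
    rw [this]
  rw [e2, hdg' t ht, hst] at e1
  have e3 : pb d π c t = (mu (fib π) s : K) * c s := by
    unfold pb
    rw [if_pos ht, hst]
  rw [e3] at e1
  exact (mul_left_cancel₀ (Nat.cast_ne_zero.2 (mu_ne (fib π) s)) e1).symm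

/-- every vector of natural numbers is the vector of the fibre sizes of a map from `Fin N`. -/
theorem exists_fib {n : ℕ} (w : Fin n → ℕ) (N : ℕ) (h : ∑ a, w a = N) :
    ∃ π : Fin N → Fin n, fib π = w := by
  classical
  have hc : Fintype.card (Σ a : Fin n, Fin (w a)) = N := by simp [h]
  let e : Fin N ≃ (Σ a : Fin n, Fin (w a)) := (Fintype.equivFinOfCardEq hc).symm
  refine ⟨fun x => (e x).1, ?_⟩
  funext j
  unfold fib tyv
  have h1 : (univ.filter (fun x : Fin N => (e x).1 = j)).card =
      (univ.filter (fun y : (Σ a : Fin n, Fin (w a)) => y.1 = j)).card := by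
    apply Finset.card_bij (fun x _ => e x)
    · intro x hx
      simpa using hx
    · intro x _ y _ hxy
      exact e.injective hxy
    · intro y hy
      refine ⟨e.symm y, ?_, by simp⟩
      simpa using hy
  have h2 : (univ.filter (fun y : (Σ a : Fin n, Fin (w a)) => y.1 = j)) =
      (univ : Finset (Fin (w j))).map ⟨fun k => (⟨j, k⟩ : Σ a : Fin n, Fin (w a)), by
        intro a b hab
        simpa using hab⟩ := by
    ext ⟨a, k⟩
    simp only [mem_filter, mem_univ, true_and, mem_map, Function.Embedding.coeFn_mk]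
    constructor
    · rintro rfl
      exact ⟨k, rfl⟩
    · rintro ⟨k', hk'⟩
      exact (congrArg Sigma.fst hk').symm
  have h3 : (univ.filter (fun x : Fin N => (fun x => (e x).1) x = j)).card = w j := by
    have : (univ.filter (fun x : Fin N => (fun x => (e x).1) x = j)).card =
      (univ.filter (fun x : Fin N => (e x).1 = j)).card := rfl
    rw [this, h1, h2, card_map, card_univ, Fintype.card_fin]
  exact h3

/-- the element with invariant coefficients is invariant. -/
theorem act_el {K : Type} [Field K] [CharZero K] {α : Type} [Fintype α] [DecidableEq α] {n p : ℕ}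
    {π : α → Fin n} {C : (Fin p → Finset α) → K} (h : InvF π C) (σ : Equiv.Perm α)
    (hσ : ∀ a, π (σ a) = π a) : act K α σ (el p C) = el p C := by
  unfold el
  rw [map_smul, map_sum]
  congr 1
  refine Fintype.sum_equiv (Equiv.piCongrRight fun _ : Fin p => Equiv.finsetCongr σ) _ _
    fun t => ?_
  rw [map_smul, act_mo]
  have e : ((Equiv.piCongrRight fun _ : Fin p => Equiv.finsetCongr σ) t) =
      fun i => (t i).map σ.toEmbedding := rfl
  rw [e, h σ hσ t]
  rfl

end IKVm

open IKVm

/-- [KVm] -/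
theorem pr_KVm (hBr : S_Bridge) (hPbD : S_PbD) (hPbCh : S_PbCh) (hPbSurj : S_PbSurj)
    (hLiftT : S_LiftT) (hTyW : S_TyW) (hAv : S_AvM) : S_KVm := by
  intro n d p T hV
  apply hBr
  intro w hw
  obtain ⟨π, hπ⟩ := exists_fib w (p * d + T) hw
  rw [← hπ]
  refine trB hPbD hPbCh hPbSurj hLiftT hTyW ℂ (Fin (p * d + T)) n d p π ?_
  intro C hC hCc hCi
  have hyM : el p C ∈ Mt ℂ d (univ : Finset (Fin (p * d + T))) p := el_mem hC.2
  have hco : ∀ s, co p s (el p C) = C s := co_el hC.1
  have hDx : Dx (el p C) = 0 := by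
    cases p with
    | zero => exact Dx_zero_chain hyM
    | succ p =>
      refine co_inj (Dx_mem hyM) fun t ht => ?_
      rw [co_Dx]
      have h3 := hCc t ht
      unfold dd at h3
      rw [← h3]
      exact Finset.sum_congr rfl (fun e _ => hco _)
  have h1 := hV (Fin (p * d + T)) univ (by rw [card_univ, Fintype.card_fin])
    (show el p C ∈ Cy ℂ d univ p from ⟨hyM, hDx⟩)
  have h2 : el p C ∈ Bd ℂ d (univ : Finset (Fin (p * d + T))) p := by
    refine hAv ℂ (Fin (p * d + T)) n d p univ (fun a => (π a : ℕ)) ?_ _ h1 ?_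
    · have : (univ : Finset (Fin (p * d + T))).image (fun a => (π a : ℕ)) ⊆ range n := by
        intro c hc
        obtain ⟨a, -, rfl⟩ := mem_image.1 hc
        exact mem_range.2 (π a).2
      calc _ ≤ (range n).card := card_le_card this
        _ = n := card_range n
    · intro σ _ hσ
      exact act_el hCi σ fun a => Fin.ext (hσ a)
  obtain ⟨y, hy, hyx⟩ := h2
  refine ⟨fun t => co (p + 1) t y, ⟨fun σ t => co_alt hy σ t, fun t ht => ?_⟩, fun t _ => ?_⟩
  · by_contra h
    exact ht (co_supp hy t h)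
  · unfold dd
    rw [← co_Dx, hyx]
    exact hco t

end Pool.Agent.Work.MP_1233f5_ag.LS
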