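import Pool.Agent.Work.MP_1233f5_ag.LS.Stmts
import Pool.Agent.Work.MP_1233f5_ag.Bdx.B03

/-! MP_1233f5_ag, block LS, item LemLp: Lemma L'. -/

set_option autoImplicit false

namespace Pool.Agent.Work.MP_1233f5_ag.LS

open Finset
open Pool.Agent.Work.MP_1233f5_ag.Y
open Pool.Agent.Work.MP_1233f5_ag.Sec (Fk wd ct ee ff hh IsSec IsDeg swd brk)

namespace ILemLp

/-- the last step for `δ = 0`. -/
theorem fin {K : Type} [Field K] [CharZero K] {α : Type} [Fintype α] [DecidableEq α] {H : Type}
    [AddCommGroup H] [Module K H] (hTwo : S_Two) (hSAct : S_SAct) (h3 : S_ExtP) (h4 : S_FinC)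
    {ρ : Equiv.Perm α →* Module.End K H} {V : Submodule K H} {J : Finset ℕ} {G : ℕ → Finset α}
    {r k c : ℕ} {I : Finset (ℕ × ℕ)} {P : Finset α}
    {Φ : (ℕ × ℕ → Finset α) → ((Finset α → Fk K) →ₗ[K] H)} (hΦ : Adm ρ r k I P Φ)
    (hE : Exx ρ V J G r k I P Φ) (hV : Stb ρ V) (hN : NoSym ρ V c) (hG : Grp J G P)
    (hcyc : CycR r k I P Φ) (hP : P.Nonempty)
    (hb : r * I.card + (k + 1) * r < P.card + (k + 1) * k)
    (hc : 2 * c ≤ P.card + 1 + 2 * J.card) :
    ∀ n, Cf r I P n → ∀ s ∈ Sc K r (k + 1) (rest I P n), Φ n s = 0 := by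
  intro n hn s hs
  obtain ⟨Z, hZ⟩ : ∃ Z : Submodule K H, Z = Submodule.span K
    {z | ∃ n s, Cf r I P n ∧ s ∈ Sc K r (k + 1) (rest I P n) ∧ z = Φ n s} := ⟨_, rfl⟩
  have hmem : ∀ n s, Cf r I P n → s ∈ Sc K r (k + 1) (rest I P n) → Φ n s ∈ Z := by
    intro n s hn hs
    rw [hZ]
    exact Submodule.subset_span ⟨n, s, hn, hs, rfl⟩
  have hind : ∀ L : H →ₗ[K] H, (∀ n s, Cf r I P n → s ∈ Sc K r (k + 1) (rest I P n) →
      L (Φ n s) = 0) → ∀ z ∈ Z, L z = 0 := by
    intro L hL z hz
    rw [hZ] at hz
    have h1 : Submodule.span K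
        {z | ∃ n s, Cf r I P n ∧ s ∈ Sc K r (k + 1) (rest I P n) ∧ z = Φ n s} ≤
        LinearMap.ker L := by
      rw [Submodule.span_le]
      rintro _ ⟨n, s, hn, hs, rfl⟩
      exact hL n s hn hs
    exact h1 hz
  have hT := hTwo K α H ρ r k I P Φ hΦ hcyc hb
  have hX := h3 K α H ρ V J G r k I P Φ hΦ hE hcyc hb
  have key : Z ≤ ⊥ := by
    refine h4 K α H ρ V J G P c Z hV hN hG hP hc ?_ ?_ ?_ ?_ ?_
    · rw [hZ, Submodule.span_le]
      rintro _ ⟨n, s, hn, hs, rfl⟩
      exact hE.val n hn s hs
    · intro σ hσ z hz
      have h1 : Z ≤ Z.comap (ρ σ) := by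
        nth_rw 1 [hZ]
        rw [Submodule.span_le]
        rintro _ ⟨n, s, hn, hs, rfl⟩
        show ρ σ (Φ n s) ∈ Z
        rw [← hΦ.eqv σ hσ n hn s hs]
        refine hmem _ _ (U.cf_im hσ hn) ?_
        rw [U.rest_im hσ]
        exact hSAct K α r (k + 1) _ σ s hs
      exact h1 hz
    · intro z hz j hj σ hσ
      have h1 := hind (ρ σ - ((Equiv.Perm.sign σ : ℤ) : K) • LinearMap.id)
        (fun n s hn hs => by
          rw [LinearMap.sub_apply, LinearMap.smul_apply, LinearMap.id_apply,
            hE.ant n hn s hs j hj σ hσ, sub_self]) z hz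
      rw [LinearMap.sub_apply, LinearMap.smul_apply, LinearMap.id_apply, sub_eq_zero] at h1
      exact h1
    · intro z hz Q hQ hQ3
      exact hind (asym ρ Q) (fun n s hn hs => hT n hn s hs Q hQ hQ3) z hz
    · intro z hz y hy j hj
      exact hind (asym ρ (insert y (G j))) (fun n s hn hs => hX n hn s hs y hy j hj) z hz
  exact (Submodule.mem_bot K).1 (key (hmem n s hn hs))

end ILemLp

open LemLX in
theorem pr_LemLp (hSz : S_Sz) (hMrgA : S_MrgA) (hFrz : S_Frz) (hTwo : S_Two) (hSAct : S_SAct)
    (h1 : S_MrgE) (h2 : S_FrzE) (h3 : S_ExtP) (h4 : S_FinC) (h5 : S_FinB) : S_LemLp := by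
  intro K _ _ α _ _ H _ _ ρ V J G r k c δ I P Φ hΦ hE hV hNS hG hr hk hδ hcn hb
  induction hN : I.card generalizing k I P Φ with
  | zero =>
    intro n hn s hs
    have hI : I = ∅ := card_eq_zero.1 hN
    subst hI
    have hneed : need (∅ : Finset (ℕ × ℕ)) = 2 := by
      unfold need
      rw [if_neg]
      · simp
      · rintro ⟨j, hj, -⟩
        simp at hj
    rw [hneed, card_empty, mul_zero] at hb
    rw [image_empty, card_empty] at hδ hcn
    by_cases hkr : r < k
    · rw [hSz K α r (k + 1) (rest ∅ P n) (by omega), Submodule.mem_bot] at hs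
      rw [hs, map_zero]
    · have hk2 : k * (k - 1) ≤ k * r := Nat.mul_le_mul_left k (by omega)
      have hk3 : (k + 1) * r = k * r + r := by ring
      have hPr : r + 4 ≤ P.card := by omega
      rcases hδ with rfl | ⟨rfl, hkr2⟩
      · refine ILemLp.fin hTwo hSAct h3 h4 hΦ hE hV hNS hG ?_ ?_ ?_ ?_ n hn s hs
        · intro n hn i hi
          exact absurd hi (notMem_empty i)
        · exact card_pos.1 (by omega)
        · rw [card_empty, mul_zero]
          have hk4 : k * (k - 1) ≤ (k + 1) * k := by
            rw [mul_comm (k + 1) k]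
            exact Nat.mul_le_mul_left k (by omega)
          omega
        · omega
      · exact h5 K α H ρ V J G δ k c P Φ (by omega) hΦ hE hV hNS hG (by omega) (by omega) n s hs
  | succ N ih =>
    by_cases hone : ∃ j ∈ I.image Prod.fst, (sl I j).card = 1
    · -- a slot which is alone in its block
      obtain ⟨j, hj, hj1⟩ := hone
      obtain ⟨i, hi⟩ := card_eq_one.1 hj1
      have hiI : i ∈ I ∧ i.1 = j := (mem_sl _ _).1 (by rw [hi]; exact mem_singleton_self i)
      obtain ⟨hiI, rfl⟩ := hiI
      have hneed : need I = 1 + sm I := need_one ⟨i.1, hj, hj1⟩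
      have hb1 : r * I.card + (k + 1) * r + 2 ≤ P.card + k * (k - 1) := by omega
      obtain ⟨Ψ, hΨ, hΦΨ⟩ := hMrgA K α H ρ r k I P i Φ hΦ hiI hi hb1
      have hΨE := h1 K α H ρ V J G r k I P i Φ Ψ hΦ hE hiI hb1 hΨ hΦΨ
      intro n hn s hs
      rw [hΦΨ n hn s hs]
      have hc1 : ((I.erase i).image Prod.fst).card + 1 = (I.image Prod.fst).card := by
        rw [image_erase_one hi]
        exact card_erase_add_one hj
      have hc2 : (I.erase i).card = N := by
        rw [card_erase_of_mem hiI, hN]
        rfl
      have hc3 : need (I.erase i) ≤ need I + 1 := by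
        have h3 := need_le (I.erase i)
        rw [sm_erase_one hiI hi] at h3
        omega
      refine ih (k + 1) (I.erase i) P Ψ hΨ hΨE hG (by omega) ?_ ?_ ?_ hc2 n (U.cf_erase i hn) _ ?_
      · rcases hδ with h | ⟨h, h'⟩
        · exact Or.inl h
        · exact Or.inr ⟨h, by omega⟩
      · have hc4 : (I.erase i).card - ((I.erase i).image Prod.fst).card =
            I.card - (I.image Prod.fst).card := by omega
        rw [hc4]
        exact hcn
      · rw [hc2]
        rw [hN] at hb
        obtain ⟨k', rfl⟩ : ∃ k', k = k' + 1 := ⟨k - 1, by omega⟩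
        simp only [Nat.add_sub_cancel] at hb ⊢
        nlinarith
      · rw [U.rest_erase hiI hn]
        exact U.swd_mem (hn.1 i hiI).1 (U.rest_disj hiI) hs
    · -- all blocks have at least two slots
      have hne2 : ∀ i ∈ I, 2 ≤ (sl I i.1).card := by
        intro i hi
        have h3 : 0 < (sl I i.1).card := card_pos.2 ⟨i, (mem_sl _ _).2 ⟨hi, rfl⟩⟩
        have h4 : (sl I i.1).card ≠ 1 := fun h => hone ⟨i.1, mem_image_of_mem _ hi, h⟩
        omega
      have hneed : need I = 2 + sm I := need_two hone
      have hgap : ∀ i ∈ I, ((I.erase i).image Prod.fst).card + 1 ≤ I.card := by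
        intro i hi
        have h3 := card_image_le (s := I.erase i) (f := Prod.fst)
        have h4 := card_erase_add_one hi
        omega
      have hcyc : CycR r k I P Φ := by
        intro n hn i hi l hl u hu v hv huv x hx
        have hu' := (U.mem_rest u).1 hu
        have hv' := (U.mem_rest v).1 hv
        have hni := hn.1 i hi
        have hul : u ≠ l := fun h => hu'.2 i hi (h ▸ hl)
        have hvl : v ≠ l := fun h => hv'.2 i hi (h ▸ hl)
        have hug : u ∉ (n i).erase l := fun h => hu'.2 i hi (mem_of_mem_erase h)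
        have hvg : v ∉ (n i).erase l := fun h => hv'.2 i hi (mem_of_mem_erase h)
        have hlg : l ∉ (n i).erase l := notMem_erase l _
        have hgc : ((n i).erase l).card + 1 = r := by rw [card_erase_add_one hl, hni.1]
        have hins : insert l ((n i).erase l) = n i := insert_erase hl
        obtain ⟨Ψ, hΨ, hfr⟩ := hFrz K α H ρ r k I P i Φ hΦ hi u v l ((n i).erase l) hu'.1 hv'.1
          (hni.2 hl) ((erase_subset _ _).trans hni.2) huv hul hvl hug hvg hlg hgc
        have hΨE := h2 K α H ρ V J G r k I P i Φ Ψ hE hi u v l ((n i).erase l) hu'.1 hv'.1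
          (hni.2 hl) ((erase_subset _ _).trans hni.2) huv hul hvl hug hvg hlg hgc hfr
        rw [hins] at hΨ hΨE
        have hsub : insert u (insert v (n i)) ⊆ P := by
          intro a ha
          rw [mem_insert, mem_insert] at ha
          rcases ha with rfl | rfl | ha
          · exact hu'.1
          · exact hv'.1
          · exact hni.2 ha
        have hcard : (insert u (insert v (n i))).card = r + 2 := by
          rw [card_insert_of_notMem, card_insert_of_notMem, hni.1]
          · exact hv'.2 i hi
          · rw [mem_insert, not_or]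
            exact ⟨huv, hu'.2 i hi⟩
        have hPc : (P \ insert u (insert v (n i))).card + (r + 2) = P.card := by
          rw [← hcard]
          exact card_sdiff_add_card_eq_card hsub
        have hc2 : (I.erase i).card = N := by
          rw [card_erase_of_mem hi, hN]
          rfl
        have hc3 := need_erase_two hi hone (hne2 i hi)
        have hrest : rest (I.erase i) (P \ insert u (insert v (n i))) n =
            ((rest I P n).erase u).erase v := by
          ext a
          simp only [U.mem_rest, mem_erase, mem_sdiff, mem_insert, not_or]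
          constructor
          · rintro ⟨⟨a1, a2, a3, a4⟩, a5⟩
            refine ⟨a3, a2, a1, fun j hj => ?_⟩
            by_cases hji : j = i
            · rw [hji]
              exact a4
            · exact a5 j ⟨hji, hj⟩
          · rintro ⟨a3, a2, a1, a5⟩
            exact ⟨⟨a1, a2, a3, a5 i hi⟩, fun j hj => a5 j hj.2⟩
        have hcf : Cf r (I.erase i) (P \ insert u (insert v (n i))) n := by
          refine ⟨fun j hj => ⟨(hn.1 j (mem_of_mem_erase hj)).1, fun a ha => ?_⟩,
            fun j hj j' hj' hjj => hn.2 j (mem_of_mem_erase hj) j' (mem_of_mem_erase hj') hjj⟩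
          rw [mem_sdiff, mem_insert, mem_insert, not_or, not_or]
          refine ⟨(hn.1 j (mem_of_mem_erase hj)).2 ha, ?_, ?_, ?_⟩
          · rintro rfl
            exact hu'.2 j (mem_of_mem_erase hj) ha
          · rintro rfl
            exact hv'.2 j (mem_of_mem_erase hj) ha
          · intro hai
            exact Finset.disjoint_left.1
              (hn.2 j (mem_of_mem_erase hj) i hi (ne_of_mem_erase hj)) ha hai
        have him := image_erase_two hi (hne2 i hi)
        have hgi := hgap i hi
        rw [him] at hgi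
        have h0 : Ψ n x = 0 := by
          refine ih k (I.erase i) _ Ψ hΨ hΨE ⟨hG.dis, fun j hj =>
            (hG.out j hj).mono_right sdiff_subset⟩ hk ?_ ?_ ?_ hc2 n hcf x ?_
          · rw [him]
            exact hδ
          · rw [him]
            have hc4 : I.card - (I.image Prod.fst).card =
                ((I.erase i).card - (I.image Prod.fst).card) + 1 := by omega
            rw [hc4] at hcn
            have hc5 : (((I.erase i).card - (I.image Prod.fst).card) + 1) * (r + 2) =
                ((I.erase i).card - (I.image Prod.fst).card) * (r + 2) + (r + 2) := by ring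
            omega
          · rw [hc2]
            rw [hN] at hb
            have e1 : r * (N + 1) = r * N + r := by ring
            rw [e1] at hb
            omega
          · rw [hrest]
            exact hx
        rw [hfr n x] at h0
        unfold frz at h0
        rw [hins, Function.update_eq_self] at h0
        exact h0
      have hk2 : k * (k - 1) ≤ (k + 1) * k := by
        rw [mul_comm (k + 1) k]
        exact Nat.mul_le_mul_left k (by omega)
      by_cases hkr : r < k
      · intro n hn s hs
        rw [hSz K α r (k + 1) (rest I P n) (by omega), Submodule.mem_bot] at hs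
        rw [hs, map_zero]
      · have hk4 : k * (k - 1) ≤ k * r := Nat.mul_le_mul_left k (by omega)
        have hk3 : (k + 1) * r = k * r + r := by ring
        refine ILemLp.fin hTwo hSAct h3 h4 hΦ hE hV hNS hG hcyc (card_pos.1 (by omega))
          (by omega) ?_
        rcases hδ with rfl | ⟨rfl, _⟩
        · omega
        · obtain ⟨i, hi⟩ : I.Nonempty := card_pos.1 (by omega)
          have hgi := hgap i hi
          rw [image_erase_two hi (hne2 i hi)] at hgi
          have h6 : 1 * (δ + 2) ≤ (I.card - (I.image Prod.fst).card) * (δ + 2) :=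
            Nat.mul_le_mul_right _ (by omega)
          omega

end Pool.Agent.Work.MP_1233f5_ag.LS
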