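import Pool.Agent.Work.MP_1233f5_ag.LS.Stmts

/-! MP_1233f5_ag, block LS (captain helper4): item LemN (helper64). -/

set_option autoImplicit false

set_option linter.unusedSectionVars false

namespace Pool.Agent.Work.MP_1233f5_ag.LS.ILemN

open Finset
open Pool.Agent.Work.MP_1233f5_ag.Y

section gen

variable {K : Type} [Field K] {α : Type} [Fintype α] [DecidableEq α] {H : Type}
  [AddCommGroup H] [Module K H] (ρ : Equiv.Perm α →* Module.End K H)

theorem sgn_mul (σ τ : Equiv.Perm α) : ((Equiv.Perm.sign (σ * τ) : ℤ) : K) =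
    ((Equiv.Perm.sign σ : ℤ) : K) * ((Equiv.Perm.sign τ : ℤ) : K) := by
  rw [Equiv.Perm.sign_mul, Units.val_mul, Int.cast_mul]

theorem sgn_sq (σ : Equiv.Perm α) :
    ((Equiv.Perm.sign σ : ℤ) : K) * ((Equiv.Perm.sign σ : ℤ) : K) = 1 := by
  rw [← Int.cast_mul, Int.units_coe_mul_self, Int.cast_one]

theorem rho_mul (σ τ : Equiv.Perm α) (h : H) : ρ (σ * τ) h = ρ σ (ρ τ h) := by
  rw [map_mul, Module.End.mul_apply]

theorem asym_mem {V : Submodule K H} (hV : Stb ρ V) (Q : Finset α) {h : H} (hh : h ∈ V) :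
    asym ρ Q h ∈ V := by
  classical
  rw [U.asym_apply]
  exact Submodule.sum_mem _ fun σ _ => V.smul_mem _ (hV σ h hh)

/-- the antisymmetrization is antisymmetric. -/
theorem rho_asym {Q : Finset α} {τ : Equiv.Perm α} (hτ : Sup Q τ) (h : H) :
    ρ τ (asym ρ Q h) = ((Equiv.Perm.sign τ : ℤ) : K) • asym ρ Q h := by
  classical
  rw [U.asym_apply, map_sum, Finset.smul_sum]
  refine sum_nbij' (fun σ => τ * σ) (fun σ => τ⁻¹ * σ) ?_ ?_ ?_ ?_ ?_
  · intro σ hσ
    simp only [mem_filter, mem_univ, true_and] at hσ ⊢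
    exact U.sup_mul hτ hσ
  · intro σ hσ
    simp only [mem_filter, mem_univ, true_and] at hσ ⊢
    exact U.sup_mul (U.sup_inv hτ) hσ
  · intro σ _
    exact inv_mul_cancel_left τ σ
  · intro σ _
    exact mul_inv_cancel_left τ σ
  · intro σ _
    rw [map_smul, sgn_mul, smul_smul, ← mul_assoc, sgn_sq, one_mul, rho_mul]

/-- the antisymmetrization of a permuted vector. -/
theorem asym_rho {Q : Finset α} {τ : Equiv.Perm α} (hτ : Sup Q τ) (h : H) :
    asym ρ Q (ρ τ h) = ((Equiv.Perm.sign τ : ℤ) : K) • asym ρ Q h := by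
  classical
  rw [U.asym_apply, U.asym_apply, Finset.smul_sum]
  refine sum_nbij' (fun σ => σ * τ) (fun σ => σ * τ⁻¹) ?_ ?_ ?_ ?_ ?_
  · intro σ hσ
    simp only [mem_filter, mem_univ, true_and] at hσ ⊢
    exact U.sup_mul hσ hτ
  · intro σ hσ
    simp only [mem_filter, mem_univ, true_and] at hσ ⊢
    exact U.sup_mul hσ (U.sup_inv hτ)
  · intro σ _
    exact mul_inv_cancel_right σ τ
  · intro σ _
    exact inv_mul_cancel_right σ τ
  · intro σ _
    rw [sgn_mul, smul_smul, mul_comm ((Equiv.Perm.sign σ : ℤ) : K), ← mul_assoc, sgn_sq, one_mul,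
      rho_mul]

/-- conjugation. -/
theorem rho_asym_im (τ : Equiv.Perm α) (Q : Finset α) (h : H) :
    ρ τ (asym ρ Q h) = asym ρ (im τ Q) (ρ τ h) := by
  classical
  rw [U.asym_apply, U.asym_apply, map_sum]
  refine sum_nbij' (fun σ => τ * σ * τ⁻¹) (fun σ => τ⁻¹ * σ * τ) ?_ ?_ ?_ ?_ ?_
  · intro σ hσ
    simp only [mem_filter, mem_univ, true_and] at hσ ⊢
    intro a ha
    have h1 : τ⁻¹ a ∉ Q := fun hc => ha ((mem_im τ Q a).2 hc)
    rw [Equiv.Perm.mul_apply, Equiv.Perm.mul_apply, hσ _ h1, U.app_inv]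
  · intro σ hσ
    simp only [mem_filter, mem_univ, true_and] at hσ ⊢
    intro a ha
    have h1 : τ a ∉ im τ Q := fun hc => ha (by rw [mem_im, U.inv_app] at hc; exact hc)
    rw [Equiv.Perm.mul_apply, Equiv.Perm.mul_apply, hσ _ h1, U.inv_app]
  · intro σ _
    group
  · intro σ _
    group
  · intro σ _
    have h1 : Equiv.Perm.sign (τ * σ * τ⁻¹) = Equiv.Perm.sign σ := by
      rw [Equiv.Perm.sign_mul, Equiv.Perm.sign_mul, Equiv.Perm.sign_inv,
        mul_comm (Equiv.Perm.sign τ), mul_assoc, Int.units_mul_self, mul_one]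
    have h2 : τ * σ * τ⁻¹ * τ = τ * σ := by group
    rw [map_smul, ← rho_mul, ← rho_mul, h1, h2]

/-- permutations of other points commute with the antisymmetrization. -/
theorem rho_asym_comm {X Q : Finset α} {τ : Equiv.Perm α} (hτ : Sup X τ) (hd : Disjoint Q X)
    (h : H) : ρ τ (asym ρ Q h) = asym ρ Q (ρ τ h) := by
  rw [rho_asym_im, U.sup_im_disj hτ hd]

/-- antisymmetrizations over disjoint sets commute. -/
theorem asym_comm {X Y : Finset α} (hd : Disjoint X Y) (h : H) :
    asym ρ X (asym ρ Y h) = asym ρ Y (asym ρ X h) := by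
  classical
  rw [U.asym_apply ρ X, U.asym_apply ρ X, map_sum]
  refine sum_congr rfl fun σ hσ => ?_
  rw [map_smul, rho_asym_comm ρ (mem_filter.1 hσ).2 hd.symm]

/-- antisymmetrization over a smaller set first. -/
theorem asym_asym [CharZero K] {X Q : Finset α} (hQ : Q ⊆ X) : ∃ N : K, N ≠ 0 ∧ ∀ h : H,
    asym ρ X (asym ρ Q h) = N • asym ρ X h := by
  classical
  refine ⟨((univ.filter (fun σ : Equiv.Perm α => Sup Q σ)).card : K), ?_, ?_⟩
  · refine Nat.cast_ne_zero.2 (Nat.pos_iff_ne_zero.1 (card_pos.2 ⟨1, ?_⟩))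
    simp only [mem_filter, mem_univ, true_and]
    exact U.sup_one Q
  · intro h
    rw [U.asym_apply ρ Q, map_sum]
    have h1 : ∀ σ ∈ univ.filter (fun σ : Equiv.Perm α => Sup Q σ),
        asym ρ X (((Equiv.Perm.sign σ : ℤ) : K) • ρ σ h) = asym ρ X h := by
      intro σ hσ
      rw [map_smul, asym_rho ρ (U.sup_mono hQ (mem_filter.1 hσ).2), smul_smul, sgn_sq, one_smul]
    rw [sum_congr rfl h1, sum_const, Nat.cast_smul_eq_nsmul]

/-- permutations with disjoint supports commute. -/
theorem perm_comm {X Y : Finset α} {σ τ : Equiv.Perm α} (hσ : Sup X σ) (hτ : Sup Y τ)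
    (hd : Disjoint X Y) : σ * τ = τ * σ := by
  apply Equiv.ext
  intro a
  rw [Equiv.Perm.mul_apply, Equiv.Perm.mul_apply]
  by_cases h1 : a ∈ X
  · have h2 : a ∉ Y := fun h => (Finset.disjoint_left.1 hd) h1 h
    have h3 : σ a ∉ Y := fun h => (Finset.disjoint_left.1 hd) (U.sup_mem hσ h1) h
    rw [hτ a h2, hτ _ h3]
  · by_cases h2 : a ∈ Y
    · have h3 : τ a ∉ X := fun h => (Finset.disjoint_left.1 hd) h (U.sup_mem hτ h2)
      rw [hσ a h1, hσ _ h3]
    · rw [hσ a h1, hτ a h2, hσ a h1]

theorem rho_comm {X Y : Finset α} {σ τ : Equiv.Perm α} (hσ : Sup X σ) (hτ : Sup Y τ)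
    (hd : Disjoint X Y) (h : H) : ρ σ (ρ τ h) = ρ τ (ρ σ h) := by
  rw [← rho_mul, ← rho_mul, perm_comm hσ hτ hd]

end gen

/-! ### the hypotheses -/

section main

variable {K : Type} [Field K] {α : Type} [Fintype α] [DecidableEq α] {H : Type}
  [AddCommGroup H] [Module K H] (ρ : Equiv.Perm α →* Module.End K H)

/-- the hypotheses on the vector. -/
structure Hyp (V : Submodule K H) (J : Finset ℕ) (G : ℕ → Finset α) (A : Finset α) (h : H) :
    Prop where
  grp : Grp J G A
  mem : h ∈ V
  inv : ∀ σ, Sup A σ → ρ σ h = h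
  ant : AntG ρ J G h
  ext : ∀ y ∈ A, ExtG ρ J G y h

/-- expansion: the relation `(*)`. -/
theorem star [CharZero K] (hA : S_AsI) {V : Submodule K H} {J : Finset ℕ} {G : ℕ → Finset α}
    {A : Finset α} {h : H} (hh : Hyp ρ V J G A h) {j : ℕ} (hj : j ∈ J) {y : α} (hy : y ∈ A) :
    ∑ g ∈ G j, ρ (Equiv.swap g y) h = h := by
  have h1 : y ∉ G j := fun h => (Finset.disjoint_left.1 (hh.grp.out j hj)) h hy
  have h2 := hA K α H ρ (G j) y h h1 (hh.ant j hj)
  rw [hh.ext y hy j hj] at h2
  have h3 : ((G j).card.factorial : K) ≠ 0 := Nat.cast_ne_zero.2 (Nat.factorial_ne_zero _)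
  have h4 := (smul_eq_zero.1 h2.symm).resolve_left h3
  exact (sub_eq_zero.1 h4).symm

/-- the new groups. -/
def Gn (G : ℕ → Finset α) (i j : ℕ) (g : α) : ℕ → Finset α := fun k =>
  if k = j then insert g (G j) else if k = i then (G i).erase g else G k

theorem mem_Gn {G : ℕ → Finset α} {i j : ℕ} {g : α} {k : ℕ} {x : α} (h : x ∈ Gn G i j g k) :
    x ∈ G k ∨ (x = g ∧ k = j) := by
  unfold Gn at h
  split_ifs at h with h1 h2
  · rcases mem_insert.1 h with h3 | h3
    · exact Or.inr ⟨h3, h1⟩
    · exact Or.inl (by rw [h1]; exact h3)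
  · exact Or.inl (by rw [h2]; exact (mem_erase.1 h).2)
  · exact Or.inl h

theorem Gn_sub {G : ℕ → Finset α} {i j : ℕ} {g : α} {k : ℕ} (hk : k ≠ j) :
    Gn G i j g k ⊆ G k := fun _ hx =>
  (mem_Gn hx).resolve_right fun h => hk h.2

theorem mem_Gn_g {J : Finset ℕ} {G : ℕ → Finset α} {A : Finset α} (hG : Grp J G A) {i j : ℕ}
    {g : α} (hi : i ∈ J) (hg : g ∈ G i) {k : ℕ} (hk : k ∈ J) (h : g ∈ Gn G i j g k) : k = j := by
  unfold Gn at h
  split_ifs at h with h1 h2
  · exact h1
  · exact absurd rfl (mem_erase.1 h).1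
  · exact absurd hg fun h3 => (Finset.disjoint_left.1 (hG.dis k hk i hi h2)) h h3

theorem grp_Gn {J : Finset ℕ} {G : ℕ → Finset α} {A : Finset α} (hG : Grp J G A) {i j : ℕ}
    {g : α} (hi : i ∈ J) (hg : g ∈ G i) : Grp J (Gn G i j g) A := by
  refine ⟨fun a ha b hb hab => ?_, fun a ha => ?_⟩
  · rw [Finset.disjoint_left]
    intro x hx hx'
    by_cases h1 : x = g
    · rw [h1] at hx hx'
      exact hab ((mem_Gn_g hG hi hg ha hx).trans (mem_Gn_g hG hi hg hb hx').symm)
    · have h2 := (mem_Gn hx).resolve_right fun h => h1 h.1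
      have h3 := (mem_Gn hx').resolve_right fun h => h1 h.1
      exact (Finset.disjoint_left.1 (hG.dis a ha b hb hab)) h2 h3
  · rw [Finset.disjoint_left]
    intro x hx hx'
    rcases mem_Gn hx with h1 | h1
    · exact (Finset.disjoint_left.1 (hG.out a ha)) h1 hx'
    · rw [h1.1] at hx'
      exact (Finset.disjoint_left.1 (hG.out i hi)) hg hx'

theorem swap_conj {g g' y : α} (h1 : g' ≠ g) (h2 : g' ≠ y) :
    Equiv.swap g' g * Equiv.swap g y = Equiv.swap g y * Equiv.swap g' y := by
  rw [Equiv.mul_swap_eq_swap_mul (Equiv.swap g y) g' y, Equiv.swap_apply_of_ne_of_ne h1 h2,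
    Equiv.swap_apply_right]

/-- step (1): the new vector satisfies the hypotheses. -/
theorem hyp_new [CharZero K] (hA : S_AsI) {V : Submodule K H} (hV : Stb ρ V) {J : Finset ℕ}
    {G : ℕ → Finset α} {A : Finset α} {h : H} (hh : Hyp ρ V J G A h) {i j : ℕ} (hi : i ∈ J)
    (hj : j ∈ J) (hij : j ≠ i) {g : α} (hg : g ∈ G i) :
    Hyp ρ V J (Gn G i j g) A (asym ρ (insert g (G j)) h) := by
  have hG := grp_Gn (j := j) hh.grp hi hg
  have hGj : Gn G i j g j = insert g (G j) := by
    unfold Gn
    rw [if_pos rfl]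
  have hGi : Gn G i j g i = (G i).erase g := by
    unfold Gn
    rw [if_neg (Ne.symm hij), if_pos rfl]
  have hgj : g ∉ G j := fun h1 => (Finset.disjoint_left.1 (hh.grp.dis i hi j hj hij.symm)) hg h1
  have hdis : ∀ k ∈ J, k ≠ j → Disjoint (insert g (G j)) (Gn G i j g k) := by
    intro k hk hkj
    have h1 := hG.dis j hj k hk hkj.symm
    rwa [hGj] at h1
  have hant : AntG ρ J (Gn G i j g) (asym ρ (insert g (G j)) h) := by
    intro k hk σ hσ
    by_cases hkj : k = j
    · rw [hkj, hGj] at hσ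
      exact rho_asym ρ hσ h
    · rw [rho_asym_comm ρ hσ (hdis k hk hkj), hh.ant k hk σ (U.sup_mono (Gn_sub hkj) hσ),
        map_smul]
  refine ⟨hG, asym_mem ρ hV _ hh.mem, ?_, hant, ?_⟩
  · intro σ hσ
    have h1 : Disjoint (insert g (G j)) A := by
      have h2 := hG.out j hj
      rwa [hGj] at h2
    rw [rho_asym_comm ρ hσ h1, hh.inv σ hσ]
  · intro y hy k hk
    by_cases hkj : k = j
    · rw [hkj, hGj]
      obtain ⟨N, _, hN⟩ := asym_asym (K := K) ρ
        (subset_insert y (insert g (G j)) : insert g (G j) ⊆ insert y (insert g (G j)))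
      obtain ⟨N', hN', hN2⟩ := asym_asym (K := K) ρ
        (show insert y (G j) ⊆ insert y (insert g (G j)) from
          insert_subset_insert y (subset_insert g (G j)))
      have h1 := hN2 h
      rw [hh.ext y hy j hj, map_zero] at h1
      have h2 := (smul_eq_zero.1 h1.symm).resolve_left hN'
      rw [hN h, h2, smul_zero]
    · by_cases hki : k = i
      · rw [hki, hGi]
        have hyG : ∀ k ∈ J, y ∉ G k := fun k hk h1 =>
          (Finset.disjoint_left.1 (hh.grp.out k hk)) h1 hy
        have hy1 : y ∉ (G i).erase g := fun h1 => hyG i hi (mem_erase.1 h1).2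
        have h1 := hA K α H ρ ((G i).erase g) y (asym ρ (insert g (G j)) h) hy1
          (fun σ hσ => hant i hi σ (by rw [hGi]; exact hσ))
        rw [h1]
        have h2 : ∑ g2 ∈ (G i).erase g, ρ (Equiv.swap g2 y) (asym ρ (insert g (G j)) h) =
            asym ρ (insert g (G j)) h := by
          have hgy : g ≠ y := fun h3 => hyG i hi (h3 ▸ hg)
          have hS : ∑ g2 ∈ (G i).erase g, ρ (Equiv.swap g2 y) h = h - ρ (Equiv.swap g y) h := by
            rw [eq_sub_iff_add_eq, sum_erase_add _ _ hg]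
            exact star ρ hA hh hi hy
          have hE := hA K α H ρ (G j) g h hgj (hh.ant j hj)
          have hT : ∑ g1 ∈ G j, ρ (Equiv.swap g1 g) (ρ (Equiv.swap g y) h) =
              ρ (Equiv.swap g y) h := by
            have h3 : ∀ g1 ∈ G j, ρ (Equiv.swap g1 g) (ρ (Equiv.swap g y) h) =
                ρ (Equiv.swap g y) (ρ (Equiv.swap g1 y) h) := by
              intro g1 hg1
              have h5 : g1 ≠ g := fun h4 => hgj (h4 ▸ hg1)
              have h6 : g1 ≠ y := fun h4 => hyG j hj (h4 ▸ hg1)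
              rw [← rho_mul, ← rho_mul, swap_conj h5 h6]
            rw [sum_congr rfl h3, ← map_sum, star ρ hA hh hj hy]
          have hTT : ∑ g2 ∈ (G i).erase g, ρ (Equiv.swap g2 y)
              (∑ g1 ∈ G j, ρ (Equiv.swap g1 g) h) =
              (∑ g1 ∈ G j, ρ (Equiv.swap g1 g) h) - ρ (Equiv.swap g y) h := by
            have h3 : ∀ g2 ∈ (G i).erase g, ρ (Equiv.swap g2 y)
                (∑ g1 ∈ G j, ρ (Equiv.swap g1 g) h) =
                ∑ g1 ∈ G j, ρ (Equiv.swap g1 g) (ρ (Equiv.swap g2 y) h) := by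
              intro g2 hg2
              rw [map_sum]
              refine sum_congr rfl fun g1 hg1 => ?_
              have hg2' := mem_erase.1 hg2
              have h4 : Disjoint ({g2, y} : Finset α) {g1, g} := by
                rw [Finset.disjoint_left]
                intro x hx hx'
                rcases mem_insert.1 hx with h5 | h5
                · rcases mem_insert.1 hx' with h6 | h6
                  · rw [← h6, h5] at hg1
                    exact (Finset.disjoint_left.1 (hh.grp.dis i hi j hj hij.symm)) hg2'.2 hg1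
                  · exact hg2'.1 (h5.symm.trans (mem_singleton.1 h6))
                · have h7 := mem_singleton.1 h5
                  rcases mem_insert.1 hx' with h6 | h6
                  · rw [← h6, h7] at hg1
                    exact hyG j hj hg1
                  · exact hgy ((mem_singleton.1 h6).symm.trans h7)
              exact rho_comm ρ (U.sup_swap (mem_insert_self _ _)
                (mem_insert_of_mem (mem_singleton_self _))) (U.sup_swap (mem_insert_self _ _)
                (mem_insert_of_mem (mem_singleton_self _))) h4 h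
            rw [sum_congr rfl h3, sum_comm]
            have h5 : ∀ g1 ∈ G j, ∑ g2 ∈ (G i).erase g, ρ (Equiv.swap g1 g)
                (ρ (Equiv.swap g2 y) h) = ρ (Equiv.swap g1 g) h -
                ρ (Equiv.swap g1 g) (ρ (Equiv.swap g y) h) := by
              intro g1 _
              rw [← map_sum, hS, map_sub]
            rw [sum_congr rfl h5, sum_sub_distrib, hT]
          rw [hE]
          have h6 : ∀ g2 ∈ (G i).erase g, ρ (Equiv.swap g2 y) (((G j).card.factorial : K) •
              (h - ∑ g1 ∈ G j, ρ (Equiv.swap g1 g) h)) = ((G j).card.factorial : K) •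
              (ρ (Equiv.swap g2 y) h - ρ (Equiv.swap g2 y)
                (∑ g1 ∈ G j, ρ (Equiv.swap g1 g) h)) := by
            intro g2 _
            rw [map_smul, map_sub]
          rw [sum_congr rfl h6, ← Finset.smul_sum, sum_sub_distrib, hS, hTT]
          congr 1
          abel
        rw [h2, sub_self, smul_zero]
      · have h1 : Gn G i j g k = G k := by
          unfold Gn
          rw [if_neg hkj, if_neg hki]
        rw [h1]
        have h2 : Disjoint (insert y (G k)) (insert g (G j)) := by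
          rw [Finset.disjoint_left]
          intro x hx hx'
          rcases mem_insert.1 hx with h3 | h3
          · rw [h3] at hx'
            rcases mem_insert.1 hx' with h4 | h4
            · rw [h4] at hy
              exact (Finset.disjoint_left.1 (hh.grp.out i hi)) hg hy
            · exact (Finset.disjoint_left.1 (hh.grp.out j hj)) h4 hy
          · have h4 := hdis k hk hkj
            rw [h1] at h4
            exact (Finset.disjoint_left.1 h4) hx' h3
        rw [asym_comm ρ h2, hh.ext y hy k hk, map_zero]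

/-- step (2): the vector `h_g`. -/
noncomputable def hg (A : Finset α) (g : α) (h : H) : H := h + ∑ w ∈ A, ρ (Equiv.swap g w) h

theorem hg_eq {A : Finset α} {g : α} (hgA : g ∉ A) (h : H) :
    hg ρ A g h = ∑ w ∈ insert g A, ρ (Equiv.swap g w) h := by
  unfold hg
  rw [sum_insert hgA, Equiv.swap_self]
  congr 1
  exact (congrArg (fun f : Module.End K H => f h) (map_one ρ)).symm

theorem hg_inv {A : Finset α} {g : α} (hgA : g ∉ A) {h : H}
    (hinv : ∀ σ, Sup A σ → ρ σ h = h) {σ : Equiv.Perm α} (hσ : Sup (insert g A) σ) :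
    ρ σ (hg ρ A g h) = hg ρ A g h := by
  rw [hg_eq ρ hgA, map_sum]
  refine sum_nbij' (fun w => σ w) (fun w => σ⁻¹ w) ?_ ?_ ?_ ?_ ?_
  · intro w hw
    exact U.sup_mem hσ hw
  · intro w hw
    exact U.sup_mem (U.sup_inv hσ) hw
  · intro w _
    exact U.inv_app σ w
  · intro w _
    exact U.app_inv σ w
  · intro w hw
    have h1 : Sup A (Equiv.swap g (σ w) * σ * Equiv.swap g w) := by
      intro a ha
      rw [Equiv.Perm.mul_apply, Equiv.Perm.mul_apply]
      by_cases h2 : a = g
      · rw [h2, Equiv.swap_apply_left, Equiv.swap_apply_right]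
      · have h3 : a ∉ insert g A := fun h4 => (mem_insert.1 h4).elim h2 ha
        have h4 : a ≠ w := fun h5 => h3 (h5 ▸ hw)
        have h6 : a ≠ σ w := fun h5 => h3 (h5 ▸ U.sup_mem hσ hw)
        rw [Equiv.swap_apply_of_ne_of_ne h2 h4, hσ a h3, Equiv.swap_apply_of_ne_of_ne h2 h6]
    have h2 : σ * Equiv.swap g w = Equiv.swap g (σ w) *
        (Equiv.swap g (σ w) * σ * Equiv.swap g w) := by
      rw [← mul_assoc, ← mul_assoc, Equiv.swap_mul_self, one_mul]
    rw [← rho_mul, h2, rho_mul, hinv _ h1]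

/-- the antisymmetrization with another point of the other group vanishes. -/
theorem hyp_g [CharZero K] {V : Submodule K H} (hV : Stb ρ V) {J : Finset ℕ}
    {G : ℕ → Finset α} {A : Finset α} {h : H} (hh : Hyp ρ V J G A h) (hA0 : A.Nonempty) {i : ℕ}
    (hi : i ∈ J) {g : α} (hgi : g ∈ G i)
    (h0 : ∀ j ∈ J, j ≠ i → asym ρ (insert g (G j)) h = 0) :
    Hyp ρ V (J.erase i) G (insert g A) (hg ρ A g h) := by
  have hgA : g ∉ A := fun h1 => (Finset.disjoint_left.1 (hh.grp.out i hi)) hgi h1
  have hgj : ∀ j ∈ J, j ≠ i → g ∉ G j := fun j hj hji h1 =>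
    (Finset.disjoint_left.1 (hh.grp.dis j hj i hi hji)) h1 hgi
  have hAj : ∀ j ∈ J, ∀ w ∈ A, w ∉ G j := fun j hj w hw h1 =>
    (Finset.disjoint_left.1 (hh.grp.out j hj)) h1 hw
  have hinv : ∀ σ, Sup (insert g A) σ → ρ σ (hg ρ A g h) = hg ρ A g h := fun σ hσ =>
    hg_inv ρ hgA hh.inv hσ
  have hE : ∀ w0 ∈ A, ∀ j ∈ J.erase i, asym ρ (insert w0 (G j)) (hg ρ A g h) = 0 := by
    intro w0 hw0 j hj
    have hj' := mem_erase.1 hj
    unfold hg
    rw [map_add, map_sum, hh.ext w0 hw0 j hj'.2, zero_add]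
    refine sum_eq_zero fun w hw => ?_
    by_cases h1 : w = w0
    · have h2 : im (Equiv.swap g w0) (insert g (G j)) = insert w0 (G j) := by
        rw [U.im_insert, Equiv.swap_apply_left, U.im_eq_of_fix]
        intro a ha
        exact Equiv.swap_apply_of_ne_of_ne (fun h3 => hgj j hj'.2 hj'.1 (h3 ▸ ha))
          (fun h3 => hAj j hj'.2 w0 hw0 (h3 ▸ ha))
      rw [h1, ← h2, ← rho_asym_im, h0 j hj'.2 hj'.1, map_zero]
    · have h2 : Disjoint (insert w0 (G j)) ({g, w} : Finset α) := by
        rw [Finset.disjoint_left]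
        intro x hx hx'
        rcases mem_insert.1 hx' with h5 | h5
        · rcases mem_insert.1 hx with h6 | h6
          · exact hgA (h5.symm.trans h6 ▸ hw0)
          · exact hgj j hj'.2 hj'.1 (h5 ▸ h6)
        · have h7 := mem_singleton.1 h5
          rcases mem_insert.1 hx with h6 | h6
          · exact h1 (h7.symm.trans h6)
          · exact hAj j hj'.2 w hw (h7 ▸ h6)
      rw [← rho_asym_comm ρ (U.sup_swap (mem_insert_self _ _)
        (mem_insert_of_mem (mem_singleton_self _))) h2, hh.ext w0 hw0 j hj'.2, map_zero]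
  refine ⟨⟨fun a ha b hb hab => hh.grp.dis a (mem_of_mem_erase ha) b (mem_of_mem_erase hb) hab,
    fun j hj => ?_⟩, ?_, hinv, ?_, ?_⟩
  · have hj' := mem_erase.1 hj
    rw [Finset.disjoint_left]
    intro x hx hx'
    rcases mem_insert.1 hx' with h1 | h1
    · exact hgj j hj'.2 hj'.1 (h1 ▸ hx)
    · exact hAj j hj'.2 x h1 hx
  · unfold hg
    exact V.add_mem hh.mem (Submodule.sum_mem _ fun w _ => hV _ h hh.mem)
  · intro j hj σ hσ
    have hj' := mem_erase.1 hj
    unfold hg
    rw [map_add, map_sum, hh.ant j hj'.2 σ hσ, smul_add, Finset.smul_sum]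
    congr 1
    refine sum_congr rfl fun w hw => ?_
    have h2 : Disjoint (G j) ({g, w} : Finset α) := by
      rw [Finset.disjoint_left]
      intro x hx hx'
      rcases mem_insert.1 hx' with h5 | h5
      · exact hgj j hj'.2 hj'.1 (h5 ▸ hx)
      · exact hAj j hj'.2 w hw ((mem_singleton.1 h5) ▸ hx)
    rw [rho_comm ρ hσ (U.sup_swap (mem_insert_self _ _)
      (mem_insert_of_mem (mem_singleton_self _))) h2, hh.ant j hj'.2 σ hσ, map_smul]
  · intro y hy j hj
    rcases mem_insert.1 hy with h1 | h1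
    · obtain ⟨w0, hw0⟩ := hA0
      have hj' := mem_erase.1 hj
      have h2 : im (Equiv.swap g w0) (insert w0 (G j)) = insert g (G j) := by
        rw [U.im_insert, Equiv.swap_apply_right, U.im_eq_of_fix]
        intro a ha
        exact Equiv.swap_apply_of_ne_of_ne (fun h3 => hgj j hj'.2 hj'.1 (h3 ▸ ha))
          (fun h3 => hAj j hj'.2 w0 hw0 (h3 ▸ ha))
      rw [h1, ← h2, ← hinv (Equiv.swap g w0) (U.sup_swap (mem_insert_self _ _)
        (mem_insert_of_mem hw0)), ← rho_asym_im, hE w0 hw0 j hj, map_zero]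
    · exact hE y h1 j hj

/-- the main induction. -/
theorem lemN_main [CharZero K] (hA : S_AsI) {V : Submodule K H} (hV : Stb ρ V) {c : ℕ}
    (hc : NoSym ρ V c) : ∀ (n : ℕ) (J : Finset ℕ) (G : ℕ → Finset α) (A : Finset α) (h : H),
    J.card = n → A.Nonempty → c ≤ A.card + J.card → Hyp ρ V J G A h → h = 0 := by
  intro n
  induction n with
  | zero =>
    intro J G A h hn _ hcA hh
    rw [hn, add_zero] at hcA
    exact hc A hcA h hh.mem hh.inv
  | succ n ih =>
    intro J G A h hn hA0 hcA hh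
    obtain ⟨i, hi⟩ : J.Nonempty := card_pos.1 (by omega)
    have key : ∀ (m : ℕ) (G : ℕ → Finset α) (h : H), (G i).card = m → Hyp ρ V J G A h →
        h = 0 := by
      intro m
      induction m using Nat.strong_induction_on with
      | _ m ihm =>
        intro G h hm hh
        have h0 : ∀ g ∈ G i, ∀ j ∈ J, j ≠ i → asym ρ (insert g (G j)) h = 0 := by
          intro g hgi j hj hji
          have h1 : (Gn G i j g i).card < m := by
            unfold Gn
            rw [if_neg (Ne.symm hji), if_pos rfl, card_erase_of_mem hgi, hm]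
            have h2 := card_pos.2 ⟨g, hgi⟩
            omega
          exact ihm _ h1 (Gn G i j g) _ rfl (hyp_new ρ hA hV hh hi hj hji hgi)
        have h1 : ∀ g ∈ G i, hg ρ A g h = 0 := by
          intro g hgi
          have hgA : g ∉ A := fun h1 => (Finset.disjoint_left.1 (hh.grp.out i hi)) hgi h1
          have h2 : (J.erase i).card = n := by
            rw [card_erase_of_mem hi, hn, Nat.add_sub_cancel]
          refine ih (J.erase i) G (insert g A) _ h2 ⟨g, mem_insert_self _ _⟩ ?_
            (hyp_g ρ hV hh hA0 hi hgi (h0 g hgi))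
          rw [card_insert_of_notMem hgA, h2]
          omega
        have h2 : ∑ g ∈ G i, hg ρ A g h = 0 := sum_eq_zero h1
        unfold hg at h2
        rw [sum_add_distrib, sum_comm, sum_const] at h2
        have h3 : ∀ w ∈ A, ∑ g ∈ G i, ρ (Equiv.swap g w) h = h := fun w hw =>
          star ρ hA hh hi hw
        rw [sum_congr rfl h3, sum_const, ← add_nsmul, ← Nat.cast_smul_eq_nsmul K] at h2
        refine (smul_eq_zero.1 h2).resolve_left (Nat.cast_ne_zero.2 ?_)
        have h4 := card_pos.2 hA0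
        omega
    exact key _ G h rfl hh

end main

end Pool.Agent.Work.MP_1233f5_ag.LS.ILemN

namespace Pool.Agent.Work.MP_1233f5_ag.LS

theorem pr_LemN (h1 : S_AsI) : S_LemN := by
  intro K _ _ α _ _ H _ _ ρ V J G A c h hV hc hG hA0 hcA hh hinv hant hext
  exact ILemN.lemN_main ρ h1 hV hc J.card J G A h rfl hA0 hcA ⟨hG, hh, hinv, hant, hext⟩

end Pool.Agent.Work.MP_1233f5_ag.LS
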