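import Pool.Agent.Work.MP_1233f5_ag.LS.Stmts

/-! MP_1233f5_ag, block LS, item Mp (helper55): transport along an embedding of the points. -/

set_option autoImplicit false

namespace Pool.Agent.Work.MP_1233f5_ag.LS

open Finset
open Pool.Agent.Work.MP_1233f5_ag.V (vm ML)
open Pool.Agent.Work.MP_1233f5_ag.Y

namespace IMp

section formal
variable {K : Type} [Field K] {α β γ : Type}

theorem mpS_one (g : Finset α → Finset β) : mpS K g (1 : Lx K α) = 1 :=
  map_one (ExteriorAlgebra.map
    (Finsupp.lmapDomain K K g : (Finset α →₀ K) →ₗ[K] (Finset β →₀ K)))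

theorem mpS_mul (g : Finset α → Finset β) (x y : Lx K α) :
    mpS K g (x * y) = mpS K g x * mpS K g y :=
  map_mul (ExteriorAlgebra.map
    (Finsupp.lmapDomain K K g : (Finset α →₀ K) →ₗ[K] (Finset β →₀ K))) x y

theorem mpS_ed (g : Finset α → Finset β) (e : Finset α) :
    mpS K g (ed e : Lx K α) = ed (g e) := by
  have h : mpS K g (ed e : Lx K α) = ExteriorAlgebra.map
    (Finsupp.lmapDomain K K g : (Finset α →₀ K) →ₗ[K] (Finset β →₀ K)) (ed e) := rfl
  rw [h]
  unfold ed
  rw [ExteriorAlgebra.map_apply_ι]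
  simp [Finsupp.mapDomain_single]

theorem mpS_mo {p : ℕ} (g : Finset α → Finset β) (t : Fin p → Finset α) :
    mpS K g (mo t : Lx K α) = mo (fun i => g (t i)) := by
  induction p with
  | zero => rw [mo_zero, mo_zero, mpS_one]
  | succ p ih =>
    rw [mo_succ, mo_succ, mpS_mul, mpS_ed, ih]
    rfl

theorem mpS_Dx (g : Finset α → Finset β) (x : Lx K α) :
    Dx (mpS K g x) = mpS K g (Dx x) := by
  induction x using Lx_induction with
  | h1 => rw [Dx_one, map_zero, mpS_one, Dx_one]
  | hadd x y hx hy => rw [map_add, map_add, map_add, map_add, hx, hy]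
  | hsmul c x hx => rw [map_smul, map_smul, map_smul, map_smul, hx]
  | hed e x hx => rw [Dx_ed_mul, map_sub, mpS_mul, mpS_mul, mpS_ed, Dx_ed_mul, hx]

theorem mpS_comp (g : Finset β → Finset γ) (h : Finset α → Finset β) (x : Lx K α) :
    mpS K g (mpS K h x) = mpS K (fun e => g (h e)) x := by
  induction x using Lx_induction with
  | h1 => rw [mpS_one, mpS_one, mpS_one]
  | hadd x y hx hy => rw [map_add, map_add, map_add, hx, hy]
  | hsmul c x hx => rw [map_smul, map_smul, map_smul, hx]
  | hed e x hx => rw [mpS_mul, mpS_mul, mpS_mul, mpS_ed, mpS_ed, mpS_ed, hx]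

theorem mpS_id (x : Lx K α) : mpS K (fun e : Finset α => e) x = x := by
  induction x using Lx_induction with
  | h1 => rw [mpS_one]
  | hadd x y hx hy => rw [map_add, hx, hy]
  | hsmul c x hx => rw [map_smul, hx]
  | hed e x hx => rw [mpS_mul, mpS_ed, hx]

theorem act_eq (σ : Equiv.Perm α) (x : Lx K α) : act K α σ x = mpS K (im σ) x := rfl

end formal

section sets
variable {α β : Type} [Fintype β] [DecidableEq β] [Fintype α] [DecidableEq α]

theorem back (f : β ↪ α) (e : Finset β) : (univ.filter fun b => f b ∈ e.map f) = e := by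
  ext b
  simp

theorem forth (f : β ↪ α) (P : Finset β) (e : Finset α) (he : e ⊆ P.map f) :
    (univ.filter fun b => f b ∈ e).map f = e := by
  ext a
  simp only [mem_map, mem_filter, mem_univ, true_and]
  constructor
  · rintro ⟨b, hb, rfl⟩
    exact hb
  · intro ha
    obtain ⟨b, -, rfl⟩ := mem_map.1 (he ha)
    exact ⟨b, ha, rfl⟩

theorem vm_map (f : β ↪ α) (d p : ℕ) (P : Finset β) (t : Fin p → Finset β)
    (h : vm d P p t) : vm d (P.map f) p (fun i => (t i).map f) :=
  ⟨fun i => ⟨(card_map f).trans (h.1 i).1, map_subset_map.2 (h.1 i).2⟩,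
    fun i j hij => (disjoint_map f).2 (h.2 i j hij)⟩

theorem vm_comap (f : β ↪ α) (d p : ℕ) (P : Finset β) (t : Fin p → Finset α)
    (h : vm d (P.map f) p t) : vm d P p (fun i => univ.filter fun b => f b ∈ t i) := by
  refine ⟨fun i => ⟨?_, ?_⟩, fun i j hij => ?_⟩
  · rw [← card_map f, forth f P _ (h.1 i).2]
    exact (h.1 i).1
  · intro b hb
    rw [mem_filter] at hb
    exact (mem_map' f).1 ((h.1 i).2 hb.2)
  · rw [disjoint_left]
    intro b hb hb'
    rw [mem_filter] at hb hb'
    exact disjoint_left.1 (h.2 i j hij) hb.2 hb'.2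

theorem im_map (f : β ↪ α) (σ : Equiv.Perm β) (e : Finset β) :
    (im σ e).map f = im (σ.viaFintypeEmbedding f) (e.map f) := by
  unfold im
  rw [map_map, map_map]
  congr 1
  ext b
  exact (Equiv.Perm.viaFintypeEmbedding_apply_image σ f b).symm

end sets

end IMp

open IMp

theorem pr_Mp : S_Mp := by
  intro K _ β α _ _ _ _ f d p P
  refine ⟨fun x => mpS_Dx _ x, fun x => mpS_Dx _ x, fun x hx => ?_, fun x hx => ?_, fun x => ?_,
    fun x hx => ?_, fun σ x => ?_⟩
  · induction hx using Submodule.span_induction with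
    | mem x hx =>
      obtain ⟨t, ht, rfl⟩ := hx
      rw [mpS_mo]
      exact mo_mem_Mt (vm_map f d p P t ht)
    | zero => rw [map_zero]; exact Submodule.zero_mem _
    | add x y _ _ hx hy => rw [map_add]; exact Submodule.add_mem _ hx hy
    | smul c x _ hx => rw [map_smul]; exact Submodule.smul_mem _ _ hx
  · induction hx using Submodule.span_induction with
    | mem x hx =>
      obtain ⟨t, ht, rfl⟩ := hx
      rw [mpS_mo]
      exact mo_mem_Mt (vm_comap f d p P t ht)
    | zero => rw [map_zero]; exact Submodule.zero_mem _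
    | add x y _ _ hx hy => rw [map_add]; exact Submodule.add_mem _ hx hy
    | smul c x _ hx => rw [map_smul]; exact Submodule.smul_mem _ _ hx
  · rw [mpS_comp]
    have h : (fun e : Finset β => univ.filter fun b => f b ∈ e.map f) = fun e => e := by
      funext e
      exact back f e
    rw [h, mpS_id]
  · induction hx using Submodule.span_induction with
    | mem x hx =>
      obtain ⟨t, ht, rfl⟩ := hx
      rw [mpS_mo, mpS_mo]
      congr 1
      funext i
      exact forth f P _ (ht.1 i).2
    | zero => rw [map_zero, map_zero]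
    | add x y _ _ hx hy => rw [map_add, map_add, hx, hy]
    | smul c x _ hx => rw [map_smul, map_smul, hx]
  · rw [act_eq, act_eq, mpS_comp, mpS_comp]
    have h : (fun e : Finset β => (im σ e).map f) =
        fun e : Finset β => im (σ.viaFintypeEmbedding f) (e.map f) := by
      funext e
      exact im_map f σ e
    rw [h]

end Pool.Agent.Work.MP_1233f5_ag.LS
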