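import Pool.Agent.Work.MP_1233f5_ag.LS.Stmts

/-! MP_1233f5_ag, block LS, item MrgE: the extra properties after merging. -/

set_option autoImplicit false
set_option linter.unusedSectionVars false

namespace Pool.Agent.Work.MP_1233f5_ag.LS

open Finset
open Pool.Agent.Work.MP_1233f5_ag.V (vm ML theta rVan)
open Pool.Agent.Work.MP_1233f5_ag.Y
open Pool.Agent.Work.MP_1233f5_ag.Z
open Pool.Agent.Work.MP_1233f5_ag.Sec (Fk wd ct ee ff hh IsSec IsDeg swd brk)

namespace IExx

section
variable {K : Type} [Field K] {α : Type} [Fintype α] [DecidableEq α] {H : Type}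
  [AddCommGroup H] [Module K H] {ρ : Equiv.Perm α →* Module.End K H} {J : Finset ℕ}
  {G : ℕ → Finset α}

theorem antG_zero : AntG ρ J G (0 : H) := fun j _ σ _ => by rw [map_zero, smul_zero]

theorem antG_add {x y : H} (hx : AntG ρ J G x) (hy : AntG ρ J G y) : AntG ρ J G (x + y) :=
  fun j hj σ hσ => by rw [map_add, hx j hj σ hσ, hy j hj σ hσ, smul_add]

theorem antG_smul (c : K) {x : H} (hx : AntG ρ J G x) : AntG ρ J G (c • x) :=
  fun j hj σ hσ => by rw [map_smul, hx j hj σ hσ, smul_comm]

theorem extG_zero {y : α} : ExtG ρ J G y (0 : H) := fun j _ => by rw [map_zero]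

theorem extG_add {y : α} {h h' : H} (hx : ExtG ρ J G y h) (hy : ExtG ρ J G y h') :
    ExtG ρ J G y (h + h') :=
  fun j hj => by rw [map_add, hx j hj, hy j hj, add_zero]

theorem extG_smul {y : α} (c : K) {h : H} (hx : ExtG ρ J G y h) : ExtG ρ J G y (c • h) :=
  fun j hj => by rw [map_smul, hx j hj, smul_zero]

theorem extG_neg {y : α} {h : H} (hx : ExtG ρ J G y h) : ExtG ρ J G y (-h) :=
  fun j hj => by rw [map_neg, hx j hj, neg_zero]

theorem antG_neg {h : H} (hx : AntG ρ J G h) : AntG ρ J G (-h) :=
  fun j hj σ hσ => by rw [map_neg, hx j hj σ hσ, smul_neg]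

end

end IExx

open IExx in
theorem pr_MrgE (hWsp : S_Wsp) (hBrs : S_Brs) (hPlk : S_Plk) : S_MrgE := by
  intro K _ _ α _ _ H _ _ ρ V J G r k I P i Φ Ψ hA hE hi hcard hB hΨ
  have hI1 : (I.erase i).card + 1 = I.card := card_erase_add_one hi
  -- the size of the rest
  have hRc : ∀ n, Cf r (I.erase i) P n → (rest (I.erase i) P n).card + r * I.card =
      P.card + r := by
    intro n hn
    have h1 := U.card_rest hn
    rw [← hI1, mul_add, mul_one]
    omega
  -- products
  have key : ∀ n, Cf r (I.erase i) P n → ∀ g ⊆ rest (I.erase i) P n, g.card = r →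
      ∀ x ∈ Sc K r (k + 1) (rest (I.erase i) P n \ g),
        Cf r I P (Function.update n i g) ∧
        rest I P (Function.update n i g) = rest (I.erase i) P n \ g ∧
        Ψ n (swd g x) = Φ (Function.update n i g) x := by
    intro n hn g hg hgc x hx
    have h1 := U.cf_insert hn hg hgc
    have h2 : rest I P (Function.update n i g) = rest (I.erase i) P n \ g := U.rest_insert hi
    refine ⟨h1, h2, ?_⟩
    rw [hΨ _ h1 x (by rw [h2]; exact hx), Function.update_self]
    rw [hB.loc n (Function.update n i g) fun l hl => by
      rw [Function.update_of_ne (ne_of_mem_erase hl)]]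
  have hspan : ∀ n, Cf r (I.erase i) P n → ∀ C : H → Prop, C 0 → (∀ x y, C x → C y → C (x + y)) →
      (∀ (c : K) x, C x → C (c • x)) → (∀ g ⊆ rest (I.erase i) P n, g.card = r →
        ∀ x ∈ Sc K r (k + 1) (rest (I.erase i) P n \ g), C (Ψ n (swd g x))) →
      ∀ s ∈ Sc K r (k + 1 + 1) (rest (I.erase i) P n), C (Ψ n s) := by
    intro n hn C h0 hadd hsmul hg s hs
    have h1 := hRc n hn
    have h2 := hWsp K α r (k + 1) (rest (I.erase i) P n) (by
      have e1 : (k + 1 + 1) * r = (k + 1) * r + r := by ring
      have e2 : k * (k - 1) ≤ (k + 1) * (k + 1 - 1) := Nat.mul_le_mul (by omega) (by omega)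
      omega) hs
    clear hs
    induction h2 using Submodule.span_induction with
    | mem x hx =>
      obtain ⟨g, hgs, hgc, x, hx, rfl⟩ := hx
      exact hg g hgs hgc x hx
    | zero => rw [map_zero]; exact h0
    | add x y _ _ hx hy => rw [map_add]; exact hadd _ _ hx hy
    | smul c x _ hx => rw [map_smul]; exact hsmul c _ hx
  refine ⟨?_, ?_, ?_⟩
  · intro n hn s hs
    refine hspan n hn (fun h => h ∈ V) V.zero_mem (fun x y => V.add_mem) (fun c x => V.smul_mem c)
      (fun g hg hgc x hx => ?_) s hs
    obtain ⟨h1, h2, h3⟩ := key n hn g hg hgc x hx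
    show Ψ n (swd g x) ∈ V
    rw [h3]
    exact hE.val _ h1 x (by rw [h2]; exact hx)
  · intro n hn s hs
    refine hspan n hn (fun h => AntG ρ J G h) antG_zero (fun x y => antG_add)
      (fun c x => antG_smul c) (fun g hg hgc x hx => ?_) s hs
    obtain ⟨h1, h2, h3⟩ := key n hn g hg hgc x hx
    show AntG ρ J G (Ψ n (swd g x))
    rw [h3]
    exact hE.ant _ h1 x (by rw [h2]; exact hx)
  · intro n hn s hs y hy
    -- `y` outside the set
    have hout : ∀ g ⊆ rest (I.erase i) P n, g.card = r → y ∉ g →
        ∀ x ∈ Sc K r (k + 1) (rest (I.erase i) P n \ g), ExtG ρ J G y (Ψ n (swd g x)) := by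
      intro g hg hgc hyg x hx
      obtain ⟨h1, h2, h3⟩ := key n hn g hg hgc x hx
      rw [h3]
      refine hE.ext _ h1 x (by rw [h2]; exact hx) y ?_
      rw [h2, mem_sdiff]
      exact ⟨hy, hyg⟩
    refine hspan n hn (fun h => ExtG ρ J G y h) extG_zero (fun x y => extG_add)
      (fun c x => extG_smul c) (fun g hg hgc x hx => ?_) s hs
    show ExtG ρ J G y (Ψ n (swd g x))
    by_cases hyg : y ∈ g
    · have h1 := hRc n hn
      have h2 := hBrs K α r (k + 1) (rest (I.erase i) P n \ g) (by
        rw [card_sdiff_of_subset hg]
        have e2 : k * (k - 1) ≤ (k + 1) * (k + 1 - 1) := Nat.mul_le_mul (by omega) (by omega)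
        have e3 : r ≤ (rest (I.erase i) P n).card := hgc ▸ card_le_card hg
        omega) hx
      clear hx
      induction h2 using Submodule.span_induction with
      | mem x hx =>
        obtain ⟨u, v, hu, hv, huv, x', hx', rfl⟩ := hx
        rw [mem_sdiff] at hu hv
        have hyu : y ≠ u := by
          rintro rfl
          exact hu.2 hyg
        have hyv : y ≠ v := by
          rintro rfl
          exact hv.2 hyg
        have hue : u ∉ g.erase y := fun hc => hu.2 (mem_of_mem_erase hc)
        have hve : v ∉ g.erase y := fun hc => hv.2 (mem_of_mem_erase hc)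
        have h3 := hPlk K α u v y (g.erase y) x' huv hyu.symm hyv.symm hue hve
          (notMem_erase y g)
        rw [insert_erase hyg] at h3
        have h4 : swd g (brk u v x') = -swd (insert u (g.erase y)) (brk v y x') +
            -swd (insert v (g.erase y)) (brk y u x') := by
          rw [← sub_eq_zero, ← h3]
          abel
        rw [h4, map_add, map_neg, map_neg]
        have hsubg : g.erase y ⊆ rest (I.erase i) P n := (erase_subset _ _).trans hg
        have hxR : y ∉ ((rest (I.erase i) P n \ g).erase u).erase v := by
          intro hc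
          exact (mem_sdiff.1 (mem_of_mem_erase (mem_of_mem_erase hc))).2 hyg
        have huR : u ∉ ((rest (I.erase i) P n \ g).erase u).erase v := by
          intro hc
          exact (mem_erase.1 (mem_of_mem_erase hc)).1 rfl
        have hvR : v ∉ ((rest (I.erase i) P n \ g).erase u).erase v := by
          intro hc
          exact (mem_erase.1 hc).1 rfl
        refine extG_add (extG_neg ?_) (extG_neg ?_)
        · refine hout _ (insert_subset hu.1 hsubg) ?_ ?_ _ ?_
          · rw [card_insert_of_notMem hue, card_erase_add_one hyg, hgc]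
          · rw [mem_insert, not_or]
            exact ⟨hyu, notMem_erase y g⟩
          · have h5 := U.brk_mem hyv.symm hvR hxR hx'
            have h6 : insert v (insert y (((rest (I.erase i) P n \ g).erase u).erase v)) =
                rest (I.erase i) P n \ insert u (g.erase y) := by
              ext z
              simp only [mem_insert, mem_erase, mem_sdiff, not_or, not_and_or, not_not]
              constructor
              · rintro (rfl | rfl | ⟨h7, h8, h9, h10⟩)
                · exact ⟨hv.1, fun e => huv e.symm, Or.inr hv.2⟩
                · exact ⟨hy, hyu, Or.inl rfl⟩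
                · exact ⟨h9, h8, Or.inr h10⟩
              · rintro ⟨h7, h8, h9⟩
                by_cases hzv : z = v
                · exact Or.inl hzv
                · rcases h9 with h9 | h9
                  · exact Or.inr (Or.inl h9)
                  · exact Or.inr (Or.inr ⟨hzv, h8, h7, h9⟩)
            rw [h6] at h5
            exact h5
        · refine hout _ (insert_subset hv.1 hsubg) ?_ ?_ _ ?_
          · rw [card_insert_of_notMem hve, card_erase_add_one hyg, hgc]
          · rw [mem_insert, not_or]
            exact ⟨hyv, notMem_erase y g⟩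
          · have h5 := U.brk_mem hyu hxR huR hx'
            have h6 : insert y (insert u (((rest (I.erase i) P n \ g).erase u).erase v)) =
                rest (I.erase i) P n \ insert v (g.erase y) := by
              ext z
              simp only [mem_insert, mem_erase, mem_sdiff, not_or, not_and_or, not_not]
              constructor
              · rintro (rfl | rfl | ⟨h7, h8, h9, h10⟩)
                · exact ⟨hy, hyv, Or.inl rfl⟩
                · exact ⟨hu.1, huv, Or.inr hu.2⟩
                · exact ⟨h9, h7, Or.inr h10⟩
              · rintro ⟨h7, h8, h9⟩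
                rcases h9 with h9 | h9
                · exact Or.inl h9
                · by_cases hzu : z = u
                  · exact Or.inr (Or.inl hzu)
                  · exact Or.inr (Or.inr ⟨h8, hzu, h7, h9⟩)
            rw [h6] at h5
            exact h5
      | zero =>
        have e : swd g (0 : Finset α → Fk K) = 0 := (U.swdL (K := K) g).map_zero
        rw [e, map_zero]
        exact extG_zero
      | add x x' _ _ hx hx' =>
        have e : swd g (x + x') = swd g x + swd g x' := (U.swdL (K := K) g).map_add x x'
        rw [e, map_add]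
        exact extG_add hx hx'
      | smul c x _ hx =>
        have e : swd g (c • x) = c • swd g x := (U.swdL (K := K) g).map_smul c x
        rw [e, map_smul]
        exact extG_smul c hx
    · exact hout g hg hgc hyg x hx

end Pool.Agent.Work.MP_1233f5_ag.LS
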