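import Mathlib
import Pool.Agent.Work.MP_1233f5_ag.LS.StmtsR

/-! MP_1233f5_ag, block LS, item PgH (helper39). -/

set_option autoImplicit false

namespace Pool.Agent.Work.MP_1233f5_ag.LS

open Finset
open Pool.Agent.Work.MP_1233f5_ag.Y
open Pool.Agent.Work.MP_1233f5_ag.Z

theorem pr_PgH : S_PgH := by
  intro K _ m d T s c hlt α _ _ P χ hP hχ z hz
  obtain ⟨hz1, hz2⟩ := hz
  obtain ⟨k, -, hk⟩ := Finset.exists_lt_card_fiber_of_mul_lt_card_of_maps_to
    (s := P) (t := P.image χ) (f := χ) (n := m) (fun a ha => mem_image_of_mem χ ha) (by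
      rw [hP]
      calc (P.image χ).card * m ≤ s * m := Nat.mul_le_mul_right _ hχ
        _ = m * s := mul_comm _ _
        _ < c * d + T := hlt)
  obtain ⟨Q, hQ, hQc⟩ := Finset.exists_subset_card_eq (Nat.succ_le_of_lt hk)
  apply Submodule.mem_sup_right
  apply Submodule.subset_span
  have hQP : Q ⊆ P := hQ.trans (filter_subset _ _)
  refine ⟨hz1, Q, hQP, hQc, fun σ hσ => hz2 σ ?_ ?_⟩
  · intro a ha
    exact hσ a (fun h => ha (hQP h))
  · intro a
    by_cases ha : a ∈ Q
    · have hσa : σ a ∈ Q := by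
        by_contra h
        have h1 := hσ (σ a) h
        have h2 : σ a = a := σ.injective h1
        exact h (by rw [h2]; exact ha)
      rw [(mem_filter.1 (hQ ha)).2, (mem_filter.1 (hQ hσa)).2]
    · rw [hσ a ha]

end Pool.Agent.Work.MP_1233f5_ag.LS
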