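import Pool.Agent.Work.MP_1233f5_ag.LS.Stmts
import Pool.Agent.Work.MP_1233f5_ag.Y.C_EQ

/-! MP_1233f5_ag, block LS (captain helper4): item QU (helper59). -/

set_option autoImplicit false
set_option linter.unusedSectionVars false

namespace Pool.Agent.Work.MP_1233f5_ag.LS

open Finset
open Pool.Agent.Work.MP_1233f5_ag.Y

namespace IQU

variable {K : Type} [Field K]

theorem sgn_mul {β : Type} [Fintype β] [DecidableEq β] (σ τ : Equiv.Perm β) :
    ((Equiv.Perm.sign (σ * τ) : ℤ) : K) =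
    ((Equiv.Perm.sign σ : ℤ) : K) * ((Equiv.Perm.sign τ : ℤ) : K) := by
  rw [Equiv.Perm.sign_mul, Units.val_mul, Int.cast_mul]

theorem sgn_sq {β : Type} [Fintype β] [DecidableEq β] (σ : Equiv.Perm β) :
    ((Equiv.Perm.sign σ : ℤ) : K) * ((Equiv.Perm.sign σ : ℤ) : K) = 1 := by
  rw [← Int.cast_mul, Int.units_coe_mul_self, Int.cast_one]

variable {α : Type} [Fintype α] [DecidableEq α]

/-- a vector fixed by a transposition is killed, in all characteristics. -/
theorem asym_zero {H : Type} [AddCommGroup H] [Module K H] (ρ : Equiv.Perm α →* Module.End K H)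
    {Q : Finset α} {κ : Equiv.Perm α} (hκ : Sup Q κ) (h1 : Equiv.Perm.sign κ = -1)
    (h2 : κ * κ = 1) {h : H} (hh : ρ κ h = h) : asym ρ Q h = 0 := by
  classical
  rw [U.asym_apply]
  refine Finset.sum_involution (fun σ _ => σ * κ) ?_ ?_ ?_ ?_
  · intro σ _
    rw [sgn_mul, h1, map_mul, Module.End.mul_apply, hh]
    simp
  · intro σ _ _ hc
    have h3 : κ = 1 := by
      have h4 : σ * κ = σ * 1 := by
        rw [mul_one]
        exact hc
      exact mul_left_cancel h4
    rw [h3, Equiv.Perm.sign_one] at h1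
    exact absurd h1 (by decide)
  · intro σ hσ
    simp only [mem_filter, mem_univ, true_and] at hσ ⊢
    exact U.sup_mul hσ hκ
  · intro σ _
    rw [mul_assoc, h2, mul_one]

/-- the antisymmetrization as a sum over the permutations of the indices. -/
theorem asym_fin {H : Type} [AddCommGroup H] [Module K H] (ρ : Equiv.Perm α →* Module.End K H)
    {N : ℕ} {Q : Finset α} (ζ : ℕ → α) (hinj : ∀ i < N, ∀ j < N, ζ i = ζ j → i = j)
    (hQ : Q = (range N).image ζ) :
    ∃ V : Equiv.Perm (Fin N) → Equiv.Perm α,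
      (∀ τ (i : Fin N), V τ (ζ (i : ℕ)) = ζ ((τ i : Fin N) : ℕ)) ∧ (∀ τ, Sup Q (V τ)) ∧
      ∀ h, asym ρ Q h = ∑ τ : Equiv.Perm (Fin N), ((Equiv.Perm.sign τ : ℤ) : K) • ρ (V τ) h := by
  classical
  have hmem : ∀ i : Fin N, ζ (i : ℕ) ∈ Q := fun i => by
    rw [hQ]
    exact mem_image_of_mem _ (mem_range.2 i.2)
  obtain ⟨f, hf⟩ : ∃ f : Fin N ≃ {x // x ∈ Q}, ∀ i, (f i : α) = ζ (i : ℕ) := by
    refine ⟨Equiv.ofBijective (fun i => ⟨ζ (i : ℕ), hmem i⟩) ⟨?_, ?_⟩, fun i => rfl⟩
    · intro i j hij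
      exact Fin.ext (hinj i i.2 j j.2 (congrArg Subtype.val hij))
    · rintro ⟨x, hx⟩
      rw [hQ] at hx
      obtain ⟨i, hi, rfl⟩ := mem_image.1 hx
      exact ⟨⟨i, mem_range.1 hi⟩, rfl⟩
  have hV : ∀ (τ : Equiv.Perm (Fin N)) (i : Fin N),
      τ.extendDomain f (ζ (i : ℕ)) = ζ ((τ i : Fin N) : ℕ) := by
    intro τ i
    rw [← hf, ← hf, Equiv.Perm.extendDomain_apply_image]
  have hS : ∀ τ : Equiv.Perm (Fin N), Sup Q (τ.extendDomain f) := fun τ a ha =>
    Equiv.Perm.extendDomain_apply_not_subtype _ _ ha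
  refine ⟨fun τ => τ.extendDomain f, hV, hS, fun h => ?_⟩
  rw [U.asym_apply]
  symm
  refine Finset.sum_bij (fun τ _ => τ.extendDomain f) ?_ ?_ ?_ ?_
  · intro τ _
    simp only [mem_filter, mem_univ, true_and]
    exact hS τ
  · intro τ _ τ' _ h
    ext i
    have h1 := hV τ i
    rw [h, hV τ' i] at h1
    exact (hinj _ (τ' i).2 _ (τ i).2 h1).symm
  · intro σ hσ
    simp only [mem_filter, mem_univ, true_and] at hσ
    have h1 : ∀ x, σ x ∈ Q ↔ x ∈ Q := fun x => U.sup_mem_iff hσ x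
    refine ⟨(f.trans (σ.subtypePerm h1)).trans f.symm, mem_univ _, ?_⟩
    ext x
    by_cases hx : x ∈ Q
    · rw [Equiv.Perm.extendDomain_apply_subtype _ f hx]
      simp
    · rw [Equiv.Perm.extendDomain_apply_not_subtype _ f hx, hσ x hx]
  · intro τ _
    rw [Equiv.Perm.sign_extendDomain]

/-- a generator at the end. -/
theorem mo_last {p : ℕ} (T : Fin (p + 1) → Finset α) :
    (mo T : Lx K α) = mo (fun j : Fin p => T j.castSucc) * ed (T (Fin.last p)) := by
  have h := EQX.mo_at (K := K) (Fin.last p) T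
  rw [Fin.val_last, ← two_mul, pow_mul, neg_one_sq, one_pow, one_smul] at h
  rw [h]
  congr 2
  funext j
  rw [Fin.succAbove_last]

end IQU

open IQU in
theorem pr_QU : S_QU := by
  intro K _ α _ _ r b η u v n m hB huv hu hv hηm hum hvm hun hvn hmn
  obtain ⟨ζ, hζ⟩ : ∃ ζ : ℕ → α, ζ = Function.update η (b + 1) u := ⟨_, rfl⟩
  obtain ⟨n', hn'⟩ : ∃ n' : ℕ → Finset α, n' = Function.update n b m := ⟨_, rfl⟩
  have hζ1 : ∀ i ≤ b, ζ i = η i := fun i hi => by
    rw [hζ, Function.update_of_ne (by omega)]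
  have hζ2 : ζ (b + 1) = u := by rw [hζ, Function.update_self]
  have hn1 : ∀ i < b, n' i = n i := fun i hi => by
    rw [hn', Function.update_of_ne (by omega)]
  have hn2 : n' b = m := by rw [hn', Function.update_self]
  have hinj : ∀ i < b + 2, ∀ j < b + 2, ζ i = ζ j → i = j := by
    intro i hi j hj hij
    rcases Nat.lt_or_ge b i with h1 | h1
    · have e1 : i = b + 1 := by omega
      rcases Nat.lt_or_ge b j with h2 | h2
      · omega
      · rw [e1, hζ2, hζ1 j h2] at hij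
        exact absurd hij.symm (hu j h2)
    · rcases Nat.lt_or_ge b j with h2 | h2
      · have e1 : j = b + 1 := by omega
        rw [e1, hζ2, hζ1 i h1] at hij
        exact absurd hij (hu i h1)
      · rw [hζ1 i h1, hζ1 j h2] at hij
        exact hB.inj i h1 j h2 hij
  obtain ⟨Q, hQ⟩ : ∃ Q : Finset α, Q = insert u ((range (b + 1)).image η) := ⟨_, rfl⟩
  have hQ' : Q = (range (b + 2)).image ζ := by
    rw [hQ, range_add_one (n := b + 1), image_insert, hζ2]
    congr 1
    refine image_congr fun i hi => ?_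
    rw [hζ1 i (Nat.lt_succ_iff.1 (mem_range.1 (mem_coe.1 hi)))]
  have huQ : u ∈ Q := by
    rw [hQ]
    exact mem_insert_self _ _
  have hηQ : ∀ i ≤ b, η i ∈ Q := fun i hi => by
    rw [hQ]
    exact mem_insert_of_mem (mem_image_of_mem _ (mem_range.2 (Nat.lt_succ_iff.2 hi)))
  have hQmem : ∀ x ∈ Q, x = u ∨ ∃ i ≤ b, x = η i := by
    intro x hx
    rw [hQ, mem_insert] at hx
    rcases hx with hx | hx
    · exact Or.inl hx
    · obtain ⟨i, hi, rfl⟩ := mem_image.1 hx
      exact Or.inr ⟨i, Nat.lt_succ_iff.1 (mem_range.1 hi), rfl⟩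
  have hdn : ∀ i < b, Disjoint (n i) Q := by
    intro i hi
    rw [disjoint_left]
    intro x hx hxQ
    rcases hQmem x hxQ with rfl | ⟨j, hj, rfl⟩
    · exact hun i hi hx
    · exact hB.out j hj i hi hx
  have hdm : Disjoint m Q := by
    rw [disjoint_left]
    intro x hx hxQ
    rcases hQmem x hxQ with rfl | ⟨j, hj, rfl⟩
    · exact hum hx
    · exact hηm j hj hx
  have hvQ : v ∉ Q := by
    intro h
    rcases hQmem v h with h | ⟨j, hj, h⟩
    · exact huv h.symm
    · exact hv j hj h.symm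
  have hdn' : ∀ i ≤ b, Disjoint (n' i) Q := by
    intro i hi
    rcases Nat.lt_or_ge i b with h | h
    · rw [hn1 i h]
      exact hdn i h
    · have e1 : i = b := by omega
      rw [e1, hn2]
      exact hdm
  obtain ⟨V, hV1, hV2, hV3⟩ := asym_fin (act K α) ζ hinj hQ'
  -- the monomials
  have hM : ∀ π : Equiv.Perm (Fin (b + 2)), asym (act K α) Q
      (mo (fun i : Fin (b + 1) => insert (ζ ((π i.castSucc : Fin (b + 2)) : ℕ)) (n' (i : ℕ))) :
        Lx K α) = ((Equiv.Perm.sign π : ℤ) : K) • qn (b + 1) ζ n' := by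
    intro π
    have e : (qn (b + 1) ζ n' : Lx K α) = ∑ τ : Equiv.Perm (Fin (b + 2)),
        ((Equiv.Perm.sign (τ * π) : ℤ) : K) • mo (fun i : Fin (b + 1) =>
          insert (ζ (((τ * π) i.castSucc : Fin (b + 2)) : ℕ)) (n' (i : ℕ))) := by
      unfold qn
      exact (Equiv.sum_comp (Equiv.mulRight π) _).symm
    rw [hV3, e, Finset.smul_sum]
    refine Finset.sum_congr rfl fun τ _ => ?_
    rw [sgn_mul, smul_smul, mul_comm ((Equiv.Perm.sign τ : ℤ) : K),
      ← mul_assoc, sgn_sq, one_mul, act_mo]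
    congr 2
    funext i
    rw [im_insert, hV1, U.sup_im_disj (hV2 τ) (hdn' i (Nat.lt_succ_iff.1 i.2))]
    rfl
  obtain ⟨k, hk⟩ : ∃ k : Fin (b + 2), k = (Fin.last b).castSucc := ⟨_, rfl⟩
  have hmono : ∀ σ : Equiv.Perm (Fin (b + 1)),
      (mo (fun i : Fin b => insert (η ((σ i.castSucc : Fin (b + 1)) : ℕ)) (n (i : ℕ))) *
        ed (insert u m) : Lx K α) =
      mo (fun i : Fin (b + 1) => insert (ζ ((EQX.A k σ i.castSucc : Fin (b + 2)) : ℕ))
        (n' (i : ℕ))) := by
    intro σ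
    rw [mo_last]
    congr 1
    · congr 1
      funext j
      have h1 : k.succAbove j.castSucc = j.castSucc.castSucc := by
        rw [hk, Fin.succAbove_of_castSucc_lt]
        rw [Fin.lt_def]
        simp
      have h2 := EQX.A_succAbove k σ j.castSucc
      rw [h1] at h2
      rw [h2, Fin.val_castSucc, Fin.val_castSucc, hζ1 _ (Nat.lt_succ_iff.1 (σ j.castSucc).2),
        hn1 _ j.2]
    · have h2 := EQX.A_self k σ
      rw [← hk, h2, Fin.val_last, Fin.val_last, hζ2, hn2]
  refine ⟨∑ σ : Equiv.Perm (Fin (b + 1)), ((Equiv.Perm.sign σ : ℤ) : K) *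
    ((Equiv.Perm.sign (EQX.A k σ) : ℤ) : K), ?_⟩
  rw [← hζ, ← hn', ← hQ, mul_sub, map_sub]
  have hA : asym (act K α) Q (qn b η n * ed (insert u m)) =
      (∑ σ : Equiv.Perm (Fin (b + 1)), ((Equiv.Perm.sign σ : ℤ) : K) *
        ((Equiv.Perm.sign (EQX.A k σ) : ℤ) : K)) • (qn (b + 1) ζ n' : Lx K α) := by
    unfold qn
    rw [Finset.sum_mul, map_sum, Finset.sum_smul]
    refine Finset.sum_congr rfl fun σ _ => ?_
    rw [smul_mul_assoc, map_smul, hmono, hM, smul_smul]
    rfl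
  have hZ : asym (act K α) Q (qn b η n * ed (insert v m) : Lx K α) = 0 := by
    unfold qn
    rw [Finset.sum_mul, map_sum]
    refine Finset.sum_eq_zero fun σ _ => ?_
    rw [smul_mul_assoc, map_smul]
    have hle : ((σ (Fin.last b) : Fin (b + 1)) : ℕ) ≤ b := Nat.lt_succ_iff.1 (σ (Fin.last b)).2
    have hne : η ((σ (Fin.last b) : Fin (b + 1)) : ℕ) ≠ u := hu _ hle
    have hz : asym (act K α) Q
        (mo (fun i : Fin b => insert (η ((σ i.castSucc : Fin (b + 1)) : ℕ)) (n (i : ℕ))) *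
          ed (insert v m) : Lx K α) = 0 := by
      refine asym_zero (act K α) (κ := Equiv.swap (η ((σ (Fin.last b) : Fin (b + 1)) : ℕ)) u)
        (U.sup_swap (hηQ _ hle) huQ) (Equiv.Perm.sign_swap hne) (Equiv.swap_mul_self _ _) ?_
      have hsup := U.sup_swap (hηQ _ hle) huQ
      rw [act_mul, act_mo, act_ed, im_insert, U.sup_im_disj hsup hdm, hsup v hvQ]
      congr 2
      funext i
      have h1 : ((σ i.castSucc : Fin (b + 1)) : ℕ) ≤ b := Nat.lt_succ_iff.1 (σ i.castSucc).2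
      rw [im_insert, U.sup_im_disj hsup (hdn i i.2), Equiv.swap_apply_of_ne_of_ne]
      · intro h2
        have h3 := hB.inj _ h1 _ hle h2
        have h4 := σ.injective (Fin.ext h3)
        have h5 := congrArg Fin.val h4
        rw [Fin.val_castSucc, Fin.val_last] at h5
        have := i.2
        omega
      · exact hu _ h1
    rw [hz, smul_zero]
  rw [hA, hZ, sub_zero]

end Pool.Agent.Work.MP_1233f5_ag.LS
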