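import Mathlib
import Pool.Agent.Work.MP_1233f5_ag.LS.StmtsR

/-! MP_1233f5_ag, block LS, item RepU (helper39): the generation theorem for the permutations of a
finite set `R`. -/

set_option autoImplicit false

namespace Pool.Agent.Work.MP_1233f5_ag.LS

open Finset
open Pool.Agent.Work.MP_1233f5_ag.V (vm ML theta rVan)
open Pool.Agent.Work.MP_1233f5_ag.Y
open Pool.Agent.Work.MP_1233f5_ag.Z

namespace IRepU

/-- the representation restricted to `Perm R`. -/
noncomputable def rt {K : Type} [Field K] {α : Type} [DecidableEq α] {H : Type}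
    [AddCommGroup H] [Module K H] (ρ : Equiv.Perm α →* Module.End K H) (R : Finset α) :
    Equiv.Perm {x // x ∈ R} →* Module.End K H :=
  ρ.comp Equiv.Perm.ofSubtype

theorem rt_apply {K : Type} [Field K] {α : Type} [DecidableEq α] {H : Type}
    [AddCommGroup H] [Module K H] (ρ : Equiv.Perm α →* Module.End K H) (R : Finset α)
    (σ : Equiv.Perm {x // x ∈ R}) (z : H) :
    rt ρ R σ z = ρ (Equiv.Perm.ofSubtype σ) z := rfl

theorem sup_ofSubtype {α : Type} [DecidableEq α] (R : Finset α)
    (σ : Equiv.Perm {x // x ∈ R}) : Sup R (Equiv.Perm.ofSubtype σ) := by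
  intro a ha
  exact Equiv.Perm.ofSubtype_apply_of_not_mem σ ha

theorem sup_mem {α : Type} (R : Finset α) (σ : Equiv.Perm α)
    (h : Sup R σ) (a : α) : σ a ∈ R ↔ a ∈ R := by
  constructor
  · intro h1
    by_contra h2
    rw [h a h2] at h1
    exact h2 h1
  · intro h1
    by_contra h2
    have h3 := h _ h2
    have h4 := σ.injective h3
    rw [h4] at h2
    exact h2 h1

end IRepU

open IRepU

theorem pr_RepU (h : V.S_Rep) : S_RepU := by
  intro K _ _ α _ _ H _ _ ρ R Z B n hZ hB h1 h2
  refine h K {x // x ∈ R} H (rt ρ R) Z B ?_ ?_ n ?_ ?_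
  · intro σ z hz
    rw [rt_apply]
    exact hZ _ (sup_ofSubtype R σ) z hz
  · intro σ z hz
    rw [rt_apply]
    exact hB _ (sup_ofSubtype R σ) z hz
  · intro π z hz hinv
    rcases R.eq_empty_or_nonempty with hR | hR
    · refine h1 (fun _ => 0) ?_ z hz ?_
      · rw [hR]
        simp
      · intro σ hσ _
        have : σ = 1 := by
          ext a
          rw [hσ a (by rw [hR]; simp)]
          rfl
        rw [this]
        simp
    · let χ : α → ℕ := fun a => if ha : a ∈ R then (π ⟨a, ha⟩ : ℕ) else 0
      refine h1 χ ?_ z hz ?_
      · have : R.image χ ⊆ range n := by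
          intro c hc
          rw [mem_image] at hc
          obtain ⟨a, ha, rfl⟩ := hc
          rw [mem_range]
          simp only [χ, ha, dif_pos]
          exact (π ⟨a, ha⟩).2
        calc (R.image χ).card ≤ (range n).card := card_le_card this
          _ = n := card_range n
      · intro σ hσ hχ
        have hmem := sup_mem R σ hσ
        let τ : Equiv.Perm {x // x ∈ R} := σ.subtypePerm hmem
        have hτ : Equiv.Perm.ofSubtype τ = σ := by
          apply Equiv.Perm.ofSubtype_subtypePerm
          intro a ha
          by_contra hn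
          exact ha (hσ a hn)
        have h3 := hinv τ (by
          rintro ⟨a, ha⟩
          have h4 := hχ a
          have h5 : σ a ∈ R := (hmem a).2 ha
          simp only [χ, ha, h5, dif_pos] at h4
          apply Fin.ext
          exact h4)
        rw [rt_apply, hτ] at h3
        exact h3
  · intro Q hQ z hz hanti
    refine h2 (Q.map (Function.Embedding.subtype _)) ?_ ?_ z hz ?_
    · intro a ha
      rw [mem_map] at ha
      obtain ⟨b, _, rfl⟩ := ha
      exact b.2
    · rw [card_map]
      exact hQ
    · intro σ hσ
      have hσR : Sup R σ := by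
        intro a ha
        apply hσ
        intro hn
        rw [mem_map] at hn
        obtain ⟨b, _, rfl⟩ := hn
        exact ha b.2
      have hmem := sup_mem R σ hσR
      let τ : Equiv.Perm {x // x ∈ R} := σ.subtypePerm hmem
      have hτ : Equiv.Perm.ofSubtype τ = σ := by
        apply Equiv.Perm.ofSubtype_subtypePerm
        intro a ha
        by_contra hn
        exact ha (hσR a hn)
      have h3 := hanti τ (by
        rintro ⟨a, ha⟩ hQa
        apply Subtype.ext
        show σ a = a
        apply hσ
        intro hn
        rw [mem_map] at hn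
        obtain ⟨b, hb, hba⟩ := hn
        apply hQa
        have : b = ⟨a, ha⟩ := Subtype.ext hba
        rw [← this]
        exact hb)
      have hs : Equiv.Perm.sign τ = Equiv.Perm.sign σ := by
        conv_rhs => rw [← hτ]
        rw [Equiv.Perm.sign_ofSubtype]
      rw [rt_apply, hτ, hs] at h3
      exact h3

end Pool.Agent.Work.MP_1233f5_ag.LS
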