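import Pool.Agent.Work.MP_1233f5_ag.LS.Stmts

/-! MP_1233f5_ag, block LS, item SecF: the lowering operator on `Λ^r B`, `dim B = r + 1`, is onto
below the top weight. -/

set_option autoImplicit false

namespace Pool.Agent.Work.MP_1233f5_ag.LS

open Finset
open Pool.Agent.Work.MP_1233f5_ag.Sec (Fk wd ct ee ff hh IsDeg sg wt)

namespace ISecF

/-- the sets in degree `r`. -/
theorem erase_of {r : ℕ} {S : Finset ℕ} (h1 : S ⊆ range (r + 1)) (h2 : S.card = r) :
    ∃ i, i ≤ r ∧ S = (range (r + 1)).erase i := by
  have h3 : (range (r + 1) \ S).card = 1 := by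
    rw [card_sdiff_of_subset h1, card_range, h2]
    omega
  obtain ⟨i, hi⟩ := card_eq_one.1 h3
  have h4 : i ∈ range (r + 1) \ S := by
    rw [hi]
    exact mem_singleton_self i
  refine ⟨i, ?_, ?_⟩
  · have := mem_range.1 (mem_sdiff.1 h4).1
    omega
  · rw [← sdiff_singleton_eq_erase, ← hi, Finset.sdiff_sdiff_eq_self h1]

/-- the weight of the sets in degree `r`. -/
theorem wt_erase {K : Type} [Field K] (r i : ℕ) (hi : i ≤ r) :
    wt K r ((range (r + 1)).erase i) = (((r : ℤ) - 2 * i : ℤ) : K) := by
  have hm : i ∈ range (r + 1) := mem_range.2 (by omega)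
  rw [Sec.wt_int r r _ (erase_subset _ _) (by rw [card_erase_of_mem hm, card_range]; omega)]
  congr 1
  have h1 := add_sum_erase (range (r + 1)) (fun l => l) hm
  have h2 := Finset.sum_range_id_mul_two (r + 1)
  have h3 : r + 1 - 1 = r := by omega
  rw [h3] at h2
  zify at h1 h2 ⊢
  nlinarith only [h1, h2]

/-- the lowering operator on a basis vector. -/
theorem ff_single {K : Type} [Field K] (r i : ℕ) (hi : i < r) (c : K) (T : Finset ℕ) :
    ff K r (fun U => if U = (range (r + 1)).erase i then c else 0) T =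
      if T = (range (r + 1)).erase (i + 1) then
        ((i : K) + 1) * (sg K i ((range (r + 1)).erase (i + 1)) *
          (sg K (i + 1) (((range (r + 1)).erase (i + 1)).erase i) * c)) else 0 := by
  have hi0 : i ∈ range (r + 1) := mem_range.2 (by omega)
  have hi1 : i + 1 ∈ range (r + 1) := mem_range.2 (by omega)
  have hiS : i ∈ (range (r + 1)).erase (i + 1) := mem_erase.2 ⟨by omega, hi0⟩
  have hiS' : i + 1 ∈ (range (r + 1)).erase i := mem_erase.2 ⟨by omega, hi1⟩
  rw [Sec.ff_apply, Finset.sum_apply, Finset.sum_eq_single i]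
  · simp only [Pi.smul_apply, smul_eq_mul, Sec.wd_apply, Sec.ct_apply]
    by_cases hT : T = (range (r + 1)).erase (i + 1)
    · subst hT
      have h1 : i + 1 ∉ ((range (r + 1)).erase (i + 1)).erase i := fun h =>
        (mem_erase.1 (mem_erase.1 h).2).1 rfl
      have h2 : insert (i + 1) (((range (r + 1)).erase (i + 1)).erase i) =
          (range (r + 1)).erase i := by
        rw [erase_right_comm, insert_erase hiS']
      rw [if_pos hiS, if_neg h1, if_pos h2, if_pos rfl]
    · rw [if_neg hT]
      by_cases h1 : i ∈ T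
      · rw [if_pos h1]
        by_cases h2 : i + 1 ∈ T.erase i
        · rw [if_pos h2, mul_zero, mul_zero]
        · rw [if_neg h2]
          by_cases h3 : insert (i + 1) (T.erase i) = (range (r + 1)).erase i
          · exfalso
            apply hT
            have h4 : T.erase i = ((range (r + 1)).erase (i + 1)).erase i := by
              rw [← erase_insert h2, h3, erase_right_comm]
            rw [← insert_erase h1, h4, insert_erase hiS]
          · rw [if_neg h3, mul_zero, mul_zero, mul_zero]
      · rw [if_neg h1, mul_zero]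
  · intro j hj hji
    have hj' := mem_range.1 hj
    simp only [Pi.smul_apply, smul_eq_mul, Sec.wd_apply, Sec.ct_apply]
    by_cases h1 : j ∈ T
    · rw [if_pos h1]
      by_cases h2 : j + 1 ∈ T.erase j
      · rw [if_pos h2, mul_zero, mul_zero]
      · rw [if_neg h2]
        by_cases h3 : insert (j + 1) (T.erase j) = (range (r + 1)).erase i
        · exfalso
          have h4 : j ∈ (range (r + 1)).erase i := mem_erase.2 ⟨hji, mem_range.2 (by omega)⟩
          rw [← h3, mem_insert] at h4
          rcases h4 with h4 | h4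
          · omega
          · exact (mem_erase.1 h4).1 rfl
        · rw [if_neg h3, mul_zero, mul_zero, mul_zero]
    · rw [if_neg h1, mul_zero]
  · intro h
    exact absurd (mem_range.2 hi) h

end ISecF

theorem pr_SecF : S_SecF := by
  intro K _ _ r w ε hε hw hwt
  by_cases h0 : ε = 0
  · refine ⟨0, Sec.IsDeg.zero r r, ?_, ?_⟩
    · rw [map_zero, smul_zero]
    · rw [map_zero, h0]
  obtain ⟨S, hS⟩ : ∃ S, ε S ≠ 0 := by
    by_contra h
    push Not at h
    exact h0 (funext h)
  -- the weight equation
  have hwi : ∀ T, ε T ≠ 0 → ∃ i, i ≤ r ∧ T = (range (r + 1)).erase i ∧ (r : ℤ) - 2 * i = w := by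
    intro T hT
    obtain ⟨h1, h2⟩ := hε T hT
    obtain ⟨i, hi, hTi⟩ := ISecF.erase_of h1 h2
    refine ⟨i, hi, hTi, ?_⟩
    have h3 := congrFun hwt T
    have h4 : hh K r ε T = wt K r T * ε T := rfl
    rw [h4, Pi.smul_apply, smul_eq_mul, hTi, ISecF.wt_erase r i hi, ← hTi] at h3
    exact_mod_cast mul_right_cancel₀ hT h3
  obtain ⟨i, hi, hSi, hiw⟩ := hwi S hS
  obtain ⟨j, rfl⟩ : ∃ j, i = j + 1 := ⟨i - 1, by omega⟩
  have hsupp : ∀ T, T ≠ S → ε T = 0 := by
    intro T hT
    by_contra h
    obtain ⟨l, _, hTl, hlw⟩ := hwi T h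
    apply hT
    have : l = j + 1 := by omega
    rw [hTl, hSi, this]
  let N : K := sg K j S * sg K (j + 1) (S.erase j)
  have hN : N * N = 1 := by
    have h1 := Sec.sg_sq (K := K) j S
    have h2 := Sec.sg_sq (K := K) (j + 1) (S.erase j)
    calc N * N = (sg K j S * sg K j S) * (sg K (j + 1) (S.erase j) * sg K (j + 1) (S.erase j)) := by
          ring
      _ = 1 := by rw [h1, h2, one_mul]
  have hj : ((j : K) + 1) ≠ 0 := by exact_mod_cast Nat.succ_ne_zero j
  refine ⟨fun U => if U = (range (r + 1)).erase j then ((j : K) + 1)⁻¹ * (N * ε S) else 0,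
    ?_, ?_, ?_⟩
  · intro T hT
    by_cases h : T = (range (r + 1)).erase j
    · subst h
      refine ⟨erase_subset _ _, ?_⟩
      rw [card_erase_of_mem (mem_range.2 (by omega)), card_range]
      omega
    · exact absurd (if_neg h) hT
  · funext T
    by_cases h : T = (range (r + 1)).erase j
    · have h4 : ∀ x : Fk K, hh K r x T = wt K r T * x T := fun _ => rfl
      rw [h4, Pi.smul_apply, smul_eq_mul, h, ISecF.wt_erase r j (by omega)]
      congr 2
      omega
    · have h4 : ∀ x : Fk K, hh K r x T = wt K r T * x T := fun _ => rfl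
      rw [h4, Pi.smul_apply, smul_eq_mul, if_neg h, mul_zero, mul_zero]
  · funext T
    rw [ISecF.ff_single r j (by omega), ← hSi]
    by_cases h : T = S
    · rw [if_pos h, h]
      calc ((j : K) + 1) * (sg K j S * (sg K (j + 1) (S.erase j) * (((j : K) + 1)⁻¹ * (N * ε S))))
          = (((j : K) + 1) * ((j : K) + 1)⁻¹) * ((N * N) * ε S) := by
            show _ = _ * (((sg K j S * sg K (j + 1) (S.erase j)) * N) * ε S)
            ring
        _ = ε S := by rw [mul_inv_cancel₀ hj, hN, one_mul, one_mul]
    · rw [if_neg h, hsupp T h]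

end Pool.Agent.Work.MP_1233f5_ag.LS
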