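import Pool.Agent.Work.MP_1233f5_ag.LS.Defs

/-! MP_1233f5_ag, block LS (captain helper4): the statements of the items, with their proofs in the
docstrings.  Every item is a file `LS/I_<name>.lean` importing this file (and, if wanted, any file
of the finished blocks V, Y, Z, Sec) with a theorem `pr_<name> (h1 : S_..) ... : S_<name>`; any
statement of this file, of `Y.StmtsL`, `Y.StmtsC`, `Z.Stmts`, `V.Stmts` may be used as a hypothesis
(the statements of Y, Z, V are all proved). -/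

set_option autoImplicit false

namespace Pool.Agent.Work.MP_1233f5_ag.LS

open Finset
open Pool.Agent.Work.MP_1233f5_ag.V (vm ML theta rVan Mo vw KV)
open Pool.Agent.Work.MP_1233f5_ag.Y
open Pool.Agent.Work.MP_1233f5_ag.Z
open Pool.Agent.Work.MP_1233f5_ag.Sec (Fk wd ct ee ff hh IsSec IsDeg swd brk)

/-! ### part N: Lemma N -/

/-- [AsI] expansion of the antisymmetrizer.  Proof: every `σ` with `Sup (insert y Q) σ` is uniquely
`swap g y * τ` with `g = σ y ∈ insert y Q` and `Sup Q τ`; `ρ τ h = sign τ • h` and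
`sign σ = - sign τ` for `g ≠ y`; there are `Q.card !` permutations `τ`. -/
def S_AsI : Prop :=
  ∀ (K : Type) [Field K] (α : Type) [Fintype α] [DecidableEq α] (H : Type) [AddCommGroup H]
    [Module K H] (ρ : Equiv.Perm α →* Module.End K H) (Q : Finset α) (y : α) (h : H), y ∉ Q →
    (∀ σ, Sup Q σ → ρ σ h = ((Equiv.Perm.sign σ : ℤ) : K) • h) →
    asym ρ (insert y Q) h = (Q.card.factorial : K) • (h - ∑ g ∈ Q, ρ (Equiv.swap g y) h)

/-- [LemN] Proof: by `S_AsI`, `ExtG` for `j`, `y ∈ A` says `h = ∑ g ∈ G j, ρ (swap g y) h` (*).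
Induction on `J.card` (for all `G, A, h`).  `J = ∅`: `NoSym`.  Otherwise fix `i ∈ J`; inner strong
induction on `(G i).card` (for all `G, h`; `J, i, A` fixed).  (1) For `g ∈ G i`, `j ∈ J`, `j ≠ i`
put `h' = asym ρ (insert g (G j)) h` (`g ∉ G j`).  `h'` satisfies all hypotheses with
`G' = update (update G j (insert g (G j))) i ((G i).erase g)`: it lies in `V`, is invariant under
`Sup A` and antisymmetric in the groups (permutations of disjoint sets commute; `asym` over
`insert g (G j)` is antisymmetric in it; on `(G i).erase g` and the other groups commute).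
`ExtG`: for a third group clear (commute).  For `j`: `asym (insert y (insert g (G j)))` of `h'`
is a multiple of `asym (insert y (insert g (G j))) h`, a multiple of
`asym (insert y (insert g (G j))) (asym (insert y (G j)) h) = 0`.  For `i`: by `S_AsI`
`h' = N • (h - ∑_(g' ∈ G j) (g g') h)`, and `∑_(g'' ∈ G i, g'' ≠ g) (g'' y) h' = h'`: the left side
is `N • ((h - (g y) h) - ∑_(g') (g g') (h - (g y) h))` by (*) for `i`, and
`∑_(g') (g g') (g y) h = (g y) ∑_(g') (g' y) h = (g y) h` by (*) for `j`.  So `h' = 0` by the inner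
induction.  (2) For `g ∈ G i` put `h_g = h + ∑ w ∈ A, ρ (swap g w) h`; it is invariant under
`Sup (insert g A)`, lies in `V`, is antisymmetric in `G j`, `j ≠ i`.  `ExtG` for `J.erase i`,
`insert g A`: for `w0 ∈ A` all terms vanish: `h` and `(g w) h`, `w ≠ w0`, clear (commute), and
`asym (insert w0 (G j)) ((g w0) h) = (g w0) asym (insert g (G j)) h = 0` by (1); for `g` use
`(g w0) h_g = h_g`.  By the outer induction (`c ≤ (insert g A).card + (J.erase i).card`) `h_g = 0`.
(3) Summing over `g ∈ G i` and using (*): `0 = ∑ h_g = (|G i| + |A|) • h`, so `h = 0`. -/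
def S_LemN : Prop :=
  ∀ (K : Type) [Field K] [CharZero K] (α : Type) [Fintype α] [DecidableEq α] (H : Type)
    [AddCommGroup H] [Module K H] (ρ : Equiv.Perm α →* Module.End K H) (V : Submodule K H)
    (J : Finset ℕ) (G : ℕ → Finset α) (A : Finset α) (c : ℕ) (h : H),
    Stb ρ V → NoSym ρ V c → Grp J G A → A.Nonempty → c ≤ A.card + J.card → h ∈ V →
    (∀ σ, Sup A σ → ρ σ h = h) → AntG ρ J G h → (∀ y ∈ A, ExtG ρ J G y h) → h = 0

/-- [FinC] Proof: `Y.S_Rep2` with this `Z` and `B = ⊥`.  (i) `Y ⊆ P`, `z ∈ Z` invariant under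
`StY P Y`: let `A = Y` if `P.card ≤ 2 * Y.card`, else `A = P \ Y`; then `P.card ≤ 2 * A.card`,
`A` is nonempty, `Sup A σ` implies `StY P Y σ`, and `c ≤ A.card + J.card`: `S_LemN`.
(ii) `z` antisymmetric in `Q`, `Q.card = 3`: `0 = asym ρ Q z = N • z` (`Y.U.asym_of_anti`). -/
def S_FinC : Prop :=
  ∀ (K : Type) [Field K] [CharZero K] (α : Type) [Fintype α] [DecidableEq α] (H : Type)
    [AddCommGroup H] [Module K H] (ρ : Equiv.Perm α →* Module.End K H) (V : Submodule K H)
    (J : Finset ℕ) (G : ℕ → Finset α) (P : Finset α) (c : ℕ) (Z : Submodule K H),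
    Stb ρ V → NoSym ρ V c → Grp J G P → P.Nonempty → 2 * c ≤ P.card + 1 + 2 * J.card → Z ≤ V →
    (∀ σ, Sup P σ → ∀ z ∈ Z, ρ σ z ∈ Z) → (∀ z ∈ Z, AntG ρ J G z) →
    (∀ z ∈ Z, ∀ Q ⊆ P, Q.card = 3 → asym ρ Q z = 0) →
    (∀ z ∈ Z, ∀ y ∈ P, ExtG ρ J G y z) → Z ≤ ⊥

/-! ### part L: Lemma L' -/

/-- [ExtP] `ExtG` for all points of `P`.  Proof: for `y ∈ rest I P n` it is `Exx.ext`.  Let
`y ∈ n i`, `i ∈ I`.  By `Y.S_Brs` (`R = rest I P n`, `q = k + 1`, cardinality by `Y.U.card_rest`)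
`s` is a combination of brackets `brk u v x`; `ExtG` is linear in `s`.  `CycR` with `l = y`:
`Φ n (brk u v x) = - Φ (update n i (insert u ((n i).erase y))) (brk v y x) -
Φ (update n i (insert v ((n i).erase y))) (brk y u x)`, and `y` is in the rest of the two families on
the right (which are `Cf`; `brk v y x ∈ Sc` of the new rest by `Y.U.brk_mem`). -/
def S_ExtP : Prop :=
  ∀ (K : Type) [Field K] [CharZero K] (α : Type) [Fintype α] [DecidableEq α] (H : Type)
    [AddCommGroup H] [Module K H] (ρ : Equiv.Perm α →* Module.End K H) (V : Submodule K H)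
    (J : Finset ℕ) (G : ℕ → Finset α) (r k : ℕ) (I : Finset (ℕ × ℕ)) (P : Finset α)
    (Φ : (ℕ × ℕ → Finset α) → ((Finset α → Fk K) →ₗ[K] H)), Adm ρ r k I P Φ →
    Exx ρ V J G r k I P Φ → CycR r k I P Φ → r * I.card + (k + 1) * r < P.card + (k + 1) * k →
    ∀ n, Cf r I P n → ∀ s ∈ Sc K r (k + 1) (rest I P n), ∀ y ∈ P, ExtG ρ J G y (Φ n s)

/-- [MrgE] the extra properties after merging.  Proof: let `n` be `Cf r (I.erase i) P`,
`R = rest (I.erase i) P n`, `s ∈ Sc K r (k + 2) R`.  By `Y.S_Wsp` `s` is a combination of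
`swd g x`, `g ⊆ R`, `g.card = r`, `x ∈ Sc K r (k + 1) (R \ g)`; with `n' = update n i g`
(`Y.U.cf_insert`, `Y.U.rest_insert`) `Ψ n (swd g x) = Ψ n' (swd (n' i) x) = Φ n' x`
(`Adm.loc` of `Ψ`): `val` and `ant` follow, and `ext` for `y ∉ g`.  For `y ∈ g`: by `Y.S_Brs` `x` is
a combination of `brk u v x'`, `u, v ∈ R \ g`, and by `Y.S_Plk` with `l = y`, `n = g.erase y`:
`swd g (brk u v x') = - swd (insert u (g.erase y)) (brk v y x') -
swd (insert v (g.erase y)) (brk y u x')`, two sets not containing `y`. -/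
def S_MrgE : Prop :=
  ∀ (K : Type) [Field K] [CharZero K] (α : Type) [Fintype α] [DecidableEq α] (H : Type)
    [AddCommGroup H] [Module K H] (ρ : Equiv.Perm α →* Module.End K H) (V : Submodule K H)
    (J : Finset ℕ) (G : ℕ → Finset α) (r k : ℕ) (I : Finset (ℕ × ℕ)) (P : Finset α) (i : ℕ × ℕ)
    (Φ Ψ : (ℕ × ℕ → Finset α) → ((Finset α → Fk K) →ₗ[K] H)), Adm ρ r k I P Φ →
    Exx ρ V J G r k I P Φ → i ∈ I → r * I.card + (k + 1) * r + 2 ≤ P.card + k * (k - 1) →
    Adm ρ r (k + 1) (I.erase i) P Ψ →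
    (∀ n, Cf r I P n → ∀ s ∈ Sc K r (k + 1) (rest I P n), Φ n s = Ψ n (swd (n i) s)) →
    Exx ρ V J G r (k + 1) (I.erase i) P Ψ

/-- [FrzE] the extra properties after freezing.  Proof: for `n` with `Cf r (I.erase i) P'`,
`P' = P \ insert u (insert v (insert l g))`, and `s ∈ Sc K r (k + 1) R'`,
`R' = rest (I.erase i) P' n`, the three families in `frz` are `Cf r I P` (see `Y.U.cf_insert`) and
the three sections lie in `Sc K r (k + 1)` of their rests `R' + u + v`, `R' + v + l`, `R' + l + u`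
(`Y.U.brk_mem`), which contain `R'`. -/
def S_FrzE : Prop :=
  ∀ (K : Type) [Field K] [CharZero K] (α : Type) [Fintype α] [DecidableEq α] (H : Type)
    [AddCommGroup H] [Module K H] (ρ : Equiv.Perm α →* Module.End K H) (V : Submodule K H)
    (J : Finset ℕ) (G : ℕ → Finset α) (r k : ℕ) (I : Finset (ℕ × ℕ)) (P : Finset α) (i : ℕ × ℕ)
    (Φ Ψ : (ℕ × ℕ → Finset α) → ((Finset α → Fk K) →ₗ[K] H)), Exx ρ V J G r k I P Φ → i ∈ I →
    ∀ (u v l : α) (g : Finset α), u ∈ P → v ∈ P → l ∈ P → g ⊆ P → u ≠ v → u ≠ l → v ≠ l →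
    u ∉ g → v ∉ g → l ∉ g → g.card + 1 = r → (∀ n x, Ψ n x = frz i u v l g Φ n x) →
    Exx ρ V J G r k (I.erase i) (P \ (insert u (insert v (insert l g)))) Ψ

/-- [SecF] the lowering operator on `Λ^r B` (`dim B = r + 1`) is onto below the top weight.  Proof:
`ε` is supported on the sets `S_i = range (r + 1) \ {i}`, of weight `r - 2 i`; so `w = r - 2 i` for
the only `i` with `ε S_i ≠ 0` (if `ε = 0` take `ε' = 0`), `i ≥ 1` and
`ff K r` maps the basis vector of `S_(i-1)` to `± i` times the basis vector of `S_i`. -/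
def S_SecF : Prop :=
  ∀ (K : Type) [Field K] [CharZero K] (r : ℕ) (w : ℤ) (ε : Fk K), IsDeg r r ε → w < r →
    hh K r ε = (w : K) • ε →
    ∃ ε' : Fk K, IsDeg r r ε' ∧ hh K r ε' = ((w + 2 : ℤ) : K) • ε' ∧ ff K r ε' = ε

/-- [FinB] Proof: `R = rest ∅ P n = P`.  Claim: for `Y ⊆ P`, `P.card ≤ 2 * Y.card` and
`s ∈ Sc K r r P` invariant under `StY P Y`: `Φ n s = 0`; by descending induction on `Y.card`.
If `P.card + r ≤ 2 * Y.card`: `Φ n s` is invariant under `Sup Y` (`Adm.eqv`), in `V`, antisymmetric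
in the groups, `ExtG` for `y ∈ Y` (`Exx`), `c ≤ Y.card + J.card`: `S_LemN`.  Otherwise
`Y.card < P.card` (as `r ≤ P.card`); choose `a ∈ P \ Y`.  `s Y` has weight
`2 |Y| - |P| < r` (`Sec.IsSec.hh`), so `s Y = ff ε'` (`S_SecF`); by `Y.S_Exist` there is
`s1 ∈ Sc K r r P` with `s1 (insert a Y) = ε'`; symmetrize over `StY P (insert a Y)` and divide by the
number: `s1` invariant under it, same value.  By the claim for `insert a Y`, `Φ n s1 = 0`.  The
`ff`-relation of the section at `insert a Y` and the invariance give `(|Y| + 1) • s1 Y = ff ε' =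
s Y`.  `s2 = symm (sact K α) P Y s1` is invariant under `StY P Y` with `s2 Y = N • s1 Y`, so by
`Y.S_Det` `(|Y| + 1) • s2 = N • s` (both are invariant with the same value at `Y`), and
`Φ n s2 = symm ρ P Y (Φ n s1) = 0`.  Hence `Φ n s = 0`.
Conclusion by `Y.S_Rep2` for `sact K α`, `Z = Sc K r r P`, `B` = the kernel of `Φ n` in `Z`:
`StY P Y = StY P (P \ Y)` as conditions, so one of the two sets is large; vectors antisymmetric in
three points vanish (`Y.S_Tri`). -/
def S_FinB : Prop :=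
  ∀ (K : Type) [Field K] [CharZero K] (α : Type) [Fintype α] [DecidableEq α] (H : Type)
    [AddCommGroup H] [Module K H] (ρ : Equiv.Perm α →* Module.End K H) (V : Submodule K H)
    (J : Finset ℕ) (G : ℕ → Finset α) (r k c : ℕ) (P : Finset α)
    (Φ : (ℕ × ℕ → Finset α) → ((Finset α → Fk K) →ₗ[K] H)), k + 1 = r → Adm ρ r k ∅ P Φ →
    Exx ρ V J G r k ∅ P Φ → Stb ρ V → NoSym ρ V c → Grp J G P → r ≤ P.card →
    2 * c ≤ P.card + 1 + 2 * J.card + r →
    ∀ n, ∀ s ∈ Sc K r (k + 1) (rest ∅ P n), Φ n s = 0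

/-- [LemLp] Lemma L'.  Proof: port of `Y/L_LemL.lean` (induction on `I.card`).  If `r < k`:
`Y.S_Sz`.  Block with one slot: `Y.S_MrgA`, `S_MrgE`, induction (`k + 1 + B` and `I.card - B` are
unchanged).  All blocks with at least two slots or `I = ∅`: `CycR` by `Y.S_Frz`, `S_FrzE` and
induction (`I.card` drops by `1`, `P.card` by `r + 2`, `B` is unchanged), then two rows by
`Y.S_Two`, `ExtG` for all points of `P` by `S_ExtP`, and `S_FinC` for the span `Z` of the values
(as in `Y/L_Fin.lean`), if `δ = 0`, or if `δ = r` and `I ≠ ∅` (then `I.card - B ≥ 1`).  If `I = ∅`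
and `δ = r`: `k + 1 = r` and `S_FinB`.  (`P` is nonempty, and `r ≤ P.card` in the last case, by the
budget, since `k ≤ r`.) -/
def S_LemLp : Prop :=
  ∀ (K : Type) [Field K] [CharZero K] (α : Type) [Fintype α] [DecidableEq α] (H : Type)
    [AddCommGroup H] [Module K H] (ρ : Equiv.Perm α →* Module.End K H) (V : Submodule K H)
    (J : Finset ℕ) (G : ℕ → Finset α) (r k c δ : ℕ) (I : Finset (ℕ × ℕ)) (P : Finset α)
    (Φ : (ℕ × ℕ → Finset α) → ((Finset α → Fk K) →ₗ[K] H)), Adm ρ r k I P Φ →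
    Exx ρ V J G r k I P Φ → Stb ρ V → NoSym ρ V c → Grp J G P → 1 ≤ r → 1 ≤ k →
    (δ = 0 ∨ (δ = r ∧ k + 1 + (I.image Prod.fst).card = r)) →
    2 * c + (I.card - (I.image Prod.fst).card) * (r + 2) ≤ P.card + 1 + 2 * J.card + δ →
    r * I.card + (k + 1) * r + 2 * need I ≤ P.card + k * (k - 1) →
    ∀ n, Cf r I P n → ∀ s ∈ Sc K r (k + 1) (rest I P n), Φ n s = 0

/-! ### part W: the induction with target `B` -/

/-- [WTwoB] port of `Y/C_WTwo.lean` with `B` for `Bd K (r + 1) univ p` (`Tgt.bd`, `Tgt.st`). -/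
def S_WTwoB : Prop :=
  ∀ (K : Type) [Field K] [CharZero K] (α : Type) [Fintype α] [DecidableEq α] (r p a q : ℕ)
    (B : Submodule K (Lx K α)) (L : List ℕ) (b : ℕ → ℕ) (η : ℕ → ℕ → α) (n : ℕ × ℕ → Finset α)
    (R Q : Finset α) (u v : ℕ → α) (m : ℕ → Finset α), Tgt r p B → 1 ≤ r →
    (∀ a' < a, WdB r p a' B) → LV r univ L b η n → (L.map b).sum + a = p →
    Disjoint R (ls L b η n) → a ≤ q → VC r R a q u v m → Q ⊆ R → Q.card = 3 →
    asym (act K α) Q (pq L b η n * zz a u v m) ∈ B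

/-- [WXB] port of `Y/C_WX.lean` with `B` for `Bd K (r + 1) univ p`. -/
def S_WXB : Prop :=
  ∀ (K : Type) [Field K] [CharZero K] (α : Type) [Fintype α] [DecidableEq α] (r p a q : ℕ)
    (B : Submodule K (Lx K α)) (L : List ℕ) (b : ℕ → ℕ) (η : ℕ → ℕ → α) (n : ℕ × ℕ → Finset α)
    (R : Finset α) (u v : ℕ → α) (m : ℕ → Finset α) (m0 : Finset α) (j : ℕ), Tgt r p B →
    (∀ a' < a, WdB r p a' B) → LV r univ L b η n → (L.map b).sum + a = p → j ∈ L →
    Disjoint R (ls L b η n) → Disjoint m0 R → Disjoint m0 (ls L b η n) → m0.card = r → 1 ≤ a →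
    a ≤ q + 1 → VC r R a q u v m →
    (pq L b η n * zz a u v (cns m0 m) : Lx K α) + ∑ i ∈ range (b j),
      (pq L b η (Function.update n (j, i) m0) * zz a u v (cns (n (j, i)) m) : Lx K α) ∈ B

/-- [QU] antisymmetrization of `q_b(η; n) z_(uv)(m)` over `η + u`.  Proof: for fixed `σ` in the
definition of `qn`, `asym` of `mo(..) * ed (insert u m)` is the same up to `sign σ`; it is a sum over
all orderings, i.e. `± qn (b + 1)` with the points `η 0, .., η b, u` (and the sets `n 0, ..,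
n (b - 1), m`); the term with `ed (insert v m)` has two uncovered points among the antisymmetrized
ones, so it vanishes.  (`S_EQ`, `S_QX` of block Y and `Y/C_QZ.lean` are models.) -/
def S_QU : Prop :=
  ∀ (K : Type) [Field K] (α : Type) [Fintype α] [DecidableEq α] (r b : ℕ) (η : ℕ → α) (u v : α)
    (n : ℕ → Finset α) (m : Finset α), BV r univ b η n → u ≠ v → (∀ i ≤ b, η i ≠ u) →
    (∀ i ≤ b, η i ≠ v) → (∀ i ≤ b, η i ∉ m) → u ∉ m → v ∉ m → (∀ i < b, u ∉ n i) →
    (∀ i < b, v ∉ n i) → (∀ i < b, Disjoint m (n i)) → ∃ N : K,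
    asym (act K α) (insert u ((range (b + 1)).image η))
      (qn b η n * (ed (insert u m) - ed (insert v m))) =
      N • (qn (b + 1) (Function.update η (b + 1) u) (Function.update n b m) : Lx K α)

/-- [WE] Proof: `y = u i`: by the permutation rule in `Y.S_Zz` we may assume `i = 0`; move the factor
`qn (b j) (η j) ..` of `pq` next to `ed (insert (u 0) (m 0)) - ed (insert (v 0) (m 0))` (graded
commutation, `Y.mul_comm_graded`; all other factors are fixed by the permutations of `η_j + u_0`),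
and apply `S_QU`: the result is a multiple of `pq L b' η' n' * zz (a - 1)` with
`b' j = b j + 1`, `η' j (b j + 1) = u 0`, `n' (j, b j) = m 0`, a product with core `a - 1`: in `B`
by hypothesis (`LV` for the new data; the core cycle lies in the complement).  `y = v i`: by
`Y.S_Zz` exchange `u i` and `v i`.  `y ∈ m i`, `i < q`: `w = pq * zz` satisfies
`2 • (w - (u0 y) w - (v0 y) w) = asym {u0, v0, y} w ∈ B` (`S_WTwoB`; `w` is antisymmetric in
`u0, v0`), and in `(u0 y) w`, `(v0 y) w` (again of the form `pq * zz` with a valid configuration)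
`y` is one of the points of a pair, so `asym (insert y (η_j))` of them lies in `B` (the set `η_j` is
fixed by the transpositions). -/
def S_WE : Prop :=
  ∀ (K : Type) [Field K] [CharZero K] (α : Type) [Fintype α] [DecidableEq α] (r p a q : ℕ)
    (B : Submodule K (Lx K α)) (L : List ℕ) (b : ℕ → ℕ) (η : ℕ → ℕ → α) (n : ℕ × ℕ → Finset α)
    (R : Finset α) (u v : ℕ → α) (m : ℕ → Finset α) (j : ℕ) (y : α), Tgt r p B → 1 ≤ r →
    (∀ a' < a, WdB r p a' B) → LV r univ L b η n → (L.map b).sum + a = p →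
    Disjoint R (ls L b η n) → 1 ≤ a → a ≤ q → VC r R a q u v m → j ∈ L → y ∈ R →
    asym (act K α) (insert y ((range (b j + 1)).image (η j))) (pq L b η n * zz a u v m) ∈ B

/-- [WAdmB] port of `Y/C_WAdm.lean` with `Lx K α ⧸ B`; in addition the extra properties: for `Cf`
`n` the sections over the rest are combinations of the `sc a q u v m` (`Y.S_Csp`), with value the
class of `pq L b η n * zz a u v m`: a cycle (`Y.S_Pq`, `Y.S_Zz`), antisymmetric in each
`η_j` (the factor `qn` is, the others are fixed), and `S_WE` for `y` in the rest. -/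
def S_WAdmB : Prop :=
  ∀ (K : Type) [Field K] [CharZero K] (α : Type) [Fintype α] [DecidableEq α] (r p a q : ℕ)
    (B : Submodule K (Lx K α)) (hB : Tgt r p B) (L : List ℕ) (b : ℕ → ℕ) (η : ℕ → ℕ → α)
    (P0 : Finset α), 1 ≤ r → 1 ≤ a → (q = a ∨ q = a + 1) → (∀ a' < a, WdB r p a' B) → L.Nodup →
    (∀ j ∈ L, 2 ≤ b j) → (∀ j ∈ L, ∀ i ≤ b j, ∀ i' ≤ b j, η j i = η j i' → i = i') →
    (∀ j ∈ L, ∀ j' ∈ L, j ≠ j' → ∀ i ≤ b j, ∀ i' ≤ b j', η j i ≠ η j' i') →
    (∀ j ∈ L, ∀ i ≤ b j, η j i ∉ P0) → (L.map b).sum + a = p →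
    P0.card = r * (slots L b).card + 2 * a + q * r →
    ∃ Φ : (ℕ × ℕ → Finset α) → ((Finset α → Fk K) →ₗ[K] (Lx K α ⧸ B)),
      Adm (actB B hB.st) r (q - 1) (slots L b) P0 Φ ∧
      Exx (actB B hB.st) (VB r p B) L.toFinset (fun j => (range (b j + 1)).image (η j)) r (q - 1)
        (slots L b) P0 Φ ∧
      ∀ n, Cf r (slots L b) P0 n → ∀ u v m, VC r (rest (slots L b) P0 n) a q u v m →
        Φ n (sc a q u v m) = B.mkQ (pq L b η n * zz a u v m)

/-- [WStepB] port of `Y/C_WStep.lean`, with `S_LemLp` for `Y.S_LemL`.  `M = L.length`,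
`S = (L.map b).sum`, `S ≥ 2 M`.  `|univ \ ls| = a (r + 1) + r + 1 + t - M`; `Y.S_G1` applies since
`a + M ≤ p - M ≤ 2 t ≤ r + 1 + t`.  `a + M ≤ t`: cone.  `a + M = t + 1`: `|N| = r`, `q = a + 1`;
`a + M ≥ t + 2`: `q = a`.  `2 ≤ a` since `a + 2 M ≤ 2 t`.  Budget of `S_LemLp`:
`need = 2 + (S - 2 M) ≤ a` as `S - 2 M = p - a - 2 M ≤ 2 t - a - 2 M`.  Count:
`|I| = S`, `B = M`, `|P0| = r S + 2 a + q r`: to show
`2 c + (S - M)(r + 2) ≤ r S + 2 a + q r + 1 + 2 M + δ'`, i.e.
`2 c + 2 p ≤ r (M + q) + 4 (a + M) + 1 + δ'`: if `a + M ≤ t + 2` then `M + q = t + 2`, `δ' = δ`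
(`k + 1 + B = q + M = t + 2`); if `a + M ≥ t + 3` then `q = a`, `δ' = 0`,
`r (t + 3) ≥ r (t + 2) + δ`. -/
def S_WStepB : Prop :=
  ∀ (K : Type) [Field K] [CharZero K] (α : Type) [Fintype α] [DecidableEq α] (r t p a c δ : ℕ)
    (B : Submodule K (Lx K α)) (hB : Tgt r p B), 1 ≤ t → t + 1 ≤ r →
    Fintype.card α = p * (r + 1) + (r + 1 + t) → p ≤ 2 * t → (δ = 0 ∨ (δ = r ∧ t + 2 = r)) →
    2 * (p + c) ≤ (t + 2) * r + 4 * (t + 1) + 1 + δ → NoSym (actB B hB.st) (VB r p B) c →
    (∀ a' < a, WdB r p a' B) → WdB r p a B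

/-- [BBs] the target.  Proof: `Tgt` clear (`act σ` maps cycles invariant under `Sup A` to cycles
invariant under `Sup (im σ A)`).  `NoSym`: `h = mkQ z`, `z` a cycle, `h` invariant under `Sup A`,
`c ≤ A.card`; take `A' ⊆ A` with `A'.card = c`; the sum `z'` of the `act σ z`, `Sup A' σ`, is in
`BBs`, and `mkQ z' = N • h`, `N ≠ 0`. -/
def S_BBs : Prop :=
  ∀ (K : Type) [Field K] [CharZero K] (α : Type) [Fintype α] [DecidableEq α] (r p c : ℕ),
    ∃ hB : Tgt r p (BBs K α r p c), NoSym (actB (BBs K α r p c) hB.st) (VB r p (BBs K α r p c)) c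

/-- [Mp] transport along an embedding of the points.  Proof: `Lx_induction` / generators. -/
def S_Mp : Prop :=
  ∀ (K : Type) [Field K] (β α : Type) [Fintype β] [DecidableEq β] [Fintype α] [DecidableEq α]
    (f : β ↪ α) (d p : ℕ) (P : Finset β),
    (∀ x : Lx K β, Dx (mpS K (fun e => e.map f) x) = mpS K (fun e => e.map f) (Dx x)) ∧
    (∀ x : Lx K α, Dx (mpS K (fun e => univ.filter (fun b => f b ∈ e)) x) =
      mpS K (fun e => univ.filter (fun b => f b ∈ e)) (Dx x)) ∧
    (∀ x ∈ Mt K d P p, mpS K (fun e => e.map f) x ∈ Mt K d (P.map f) p) ∧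
    (∀ x ∈ Mt K d (P.map f) p, mpS K (fun e => univ.filter (fun b => f b ∈ e)) x ∈ Mt K d P p) ∧
    (∀ x : Lx K β, mpS K (fun e => univ.filter (fun b => f b ∈ e))
      (mpS K (fun e => e.map f) x) = x) ∧
    (∀ x ∈ Mt K d (P.map f) p, mpS K (fun e => e.map f)
      (mpS K (fun e => univ.filter (fun b => f b ∈ e)) x) = x) ∧
    (∀ (σ : Equiv.Perm β) (x : Lx K β), mpS K (fun e => e.map f) (act K β σ x) =
      act K α (σ.viaFintypeEmbedding f) (mpS K (fun e => e.map f) x))

/-- [DltU] Proof: `B = BBs K α r p (s + 1)` (`S_BBs`); `S_WStepB` with `c = s + 1` and strong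
induction give `WdB r p a B` for all `a`, in particular (`a = p`, `L = []`) every cycle lies in `B`.
Let `z ∈ CyA`; apply the alternating sum over the colour preserving permutations: it multiplies `z`
by a nonzero number, maps `Bd` to itself and kills a cycle invariant under `Sup A`,
`A.card = s + 1`, because two points of `A` have the same colour (their transposition `τ` fixes it
and is colour preserving of sign `-1`). -/
def S_DltU : Prop :=
  ∀ (K : Type) [Field K] [CharZero K] (α : Type) [Fintype α] [DecidableEq α] (χ : α → ℕ)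
    (r t s p δ : ℕ), 1 ≤ t → t + 1 ≤ r → Fintype.card α = p * (r + 1) + (r + 1 + t) →
    p ≤ 2 * t → (δ = 0 ∨ (δ = r ∧ t + 2 = r)) →
    2 * (p + s) < (t + 2) * r + 4 * (t + 1) + δ → ((univ : Finset α).image χ).card ≤ s →
    CyA K χ (r + 1) (univ : Finset α) p ≤ Bd K (r + 1) (univ : Finset α) p

/-- [Dlt] the structure theorem.  Proof: `S_Mp` for the inclusion of `↥P` in `α`, and `S_DltU`. -/
def S_Dlt : Prop :=
  ∀ (K : Type) [Field K] [CharZero K] (r t s p δ : ℕ), 1 ≤ t → t + 1 ≤ r → p ≤ 2 * t →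
    (δ = 0 ∨ (δ = r ∧ t + 2 = r)) → 2 * (p + s) < (t + 2) * r + 4 * (t + 1) + δ →
    ZV K (r + 1) (r + 1 + t) s p

end Pool.Agent.Work.MP_1233f5_ag.LS
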