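import Mathlib
import Pool.Agent.Work.MP_1233f5_ag.LS.Stmts
import Pool.Agent.Work.MP_1233f5_ag.LS.StmtsR

/-! MP_1233f5_ag, block LS, item StarM (helper39). -/

set_option autoImplicit false

namespace Pool.Agent.Work.MP_1233f5_ag.LS

open Finset
open Pool.Agent.Work.MP_1233f5_ag.V (vm ML theta rVan)
open Pool.Agent.Work.MP_1233f5_ag.Y
open Pool.Agent.Work.MP_1233f5_ag.Z

theorem StarM_Fx_top {K : Type} [Field K] {α : Type} [DecidableEq α] (r p : ℕ) (P : Finset α) :
    Fx K r P (p + 1) p = ⊥ := by
  rw [eq_bot_iff]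
  refine Submodule.span_le.2 ?_
  rintro _ ⟨x, w, κ, _, hap, _, _⟩
  omega

/-- transport along an embedding -/
theorem StarM_tr (hMp : S_Mp) {K : Type} [Field K] {β α : Type} [Fintype β] [DecidableEq β]
    [Fintype α] [DecidableEq α] (f : β ↪ α) (m d p : ℕ) (P : Finset β)
    (h : Cy K d (P.map f) p ≤ Bd K d (P.map f) p ⊔ Rw K m d (P.map f) p) :
    Cy K d P p ≤ Bd K d P p ⊔ Rw K m d P p := by
  obtain ⟨h1, h2, h3, h4, h5, h6, h7⟩ := hMp K β α f d p P
  obtain ⟨-, -, -, h4', -, -, -⟩ := hMp K β α f d (p + 1) P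
  have hle : Bd K d (P.map f) p ⊔ Rw K m d (P.map f) p ≤
      (Bd K d P p ⊔ Rw K m d P p).comap
        (mpS K (fun e => univ.filter (fun b => f b ∈ e)) : Lx K α →ₗ[K] Lx K β) := by
    refine sup_le ?_ (Submodule.span_le.2 ?_)
    · rintro _ ⟨y, hy, rfl⟩
      rw [Submodule.mem_comap, ← h2 y]
      exact Submodule.mem_sup_left ⟨_, h4' y hy, rfl⟩
    · rintro z ⟨hz, Q, hQ, hQc, hs⟩
      rw [SetLike.mem_coe, Submodule.mem_comap]
      apply Submodule.mem_sup_right
      apply Submodule.subset_span
      have hmemQ : ∀ a ∈ Q, ∃ b, b ∈ P ∧ f b = a := fun a ha => by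
        obtain ⟨b, hb, hba⟩ := mem_map.1 (hQ ha)
        exact ⟨b, hb, hba⟩
      refine ⟨⟨h4 z hz.1, ?_⟩, univ.filter (fun b => f b ∈ Q), ?_, ?_, ?_⟩
      · have e1 : Dx z = 0 := hz.2
        show Dx _ = 0
        rw [h2 z, e1, map_zero]
      · intro b hb
        obtain ⟨b', hb', e⟩ := hmemQ _ (mem_filter.1 hb).2
        rwa [← f.injective e]
      · rw [← hQc, ← card_map f]
        congr 1
        ext a
        rw [mem_map]
        constructor
        · rintro ⟨b, hb, rfl⟩
          exact (mem_filter.1 hb).2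
        · intro ha
          obtain ⟨b, hb, e⟩ := hmemQ a ha
          exact ⟨b, mem_filter.2 ⟨mem_univ _, by rw [e]; exact ha⟩, e⟩
      · intro τ hτ
        have hsup : Sup Q (τ.viaFintypeEmbedding f) := by
          intro a ha
          by_cases hr : a ∈ Set.range f
          · obtain ⟨b, rfl⟩ := hr
            rw [Equiv.Perm.viaFintypeEmbedding_apply_image]
            rw [hτ b (fun hb => ha (mem_filter.1 hb).2)]
          · exact Equiv.Perm.viaFintypeEmbedding_apply_notMem_range τ f hr
        have e1 := hs _ hsup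
        rw [Equiv.Perm.viaFintypeEmbedding_sign] at e1
        have e2 := h7 τ (mpS K (fun e => univ.filter (fun b => f b ∈ e)) z)
        rw [h6 z hz.1, e1] at e2
        have e3 := congrArg (mpS K (fun e => univ.filter (fun b => f b ∈ e)) :
          Lx K α →ₗ[K] Lx K β) e2
        rw [h5, map_smul] at e3
        exact e3
  intro z hz
  have hz1 : mpS K (fun e => e.map f) z ∈ Cy K d (P.map f) p := by
    refine ⟨h3 z hz.1, ?_⟩
    have e1 : Dx z = 0 := hz.2
    show Dx _ = 0
    rw [h1 z, e1, map_zero]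
  have hz2 := hle (h hz1)
  rw [Submodule.mem_comap, h5] at hz2
  exact hz2

/-- [StarM] -/
theorem pr_StarM (hMp : S_Mp) (hXA : S_XAm) (hXF : S_XFm) : S_StarM := by
  intro K _ _ r T p m hr hV hZ α _ _ P hP
  apply StarM_tr hMp (Function.Embedding.some : α ↪ Option α)
  have hP' : (P.map (Function.Embedding.some : α ↪ Option α)).card = p * (r + 1) + (T + r) := by
    rw [card_map]; exact hP
  have h0 := hXA K (Option α) r (T + r) p (m + 1)
    (P.map (Function.Embedding.some : α ↪ Option α)) none hr (by omega) (by simp) hP' hV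
  refine h0.trans (sup_le (sup_le le_sup_left ?_) le_sup_right)
  have hdown : ∀ n a, a + n = p + 1 →
      Fx K r (P.map (Function.Embedding.some : α ↪ Option α)) a p ≤
        Bd K (r + 1) (P.map (Function.Embedding.some : α ↪ Option α)) p ⊔
          Rw K (m + 1) (r + 1) (P.map (Function.Embedding.some : α ↪ Option α)) p := by
    intro n
    induction n with
    | zero =>
      intro a ha
      have : a = p + 1 := by omega
      rw [this, StarM_Fx_top]
      exact bot_le
    | succ n ih =>
      intro a ha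
      refine (hXF K (Option α) r T a p m _ hr hP' (fun h => hZ a h)).trans ?_
      exact sup_le (sup_le le_sup_left (ih (a + 1) (by omega))) le_sup_right
  refine iSup₂_le fun a ha => hdown (p + 1 - a) a ?_
  have := mem_range.1 ha
  omega

end Pool.Agent.Work.MP_1233f5_ag.LS
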