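import Pool.Agent.Work.MP_1233f5_ag.LS.StmtsR

/-! MP_1233f5_ag, block LS, item SymOm (helper91). -/

set_option autoImplicit false

namespace Pool.Agent.Work.MP_1233f5_ag.LS

open Finset
open Pool.Agent.Work.MP_1233f5_ag.V (vm ML theta rVan Mo vw KV)
open Pool.Agent.Work.MP_1233f5_ag.Y
open Pool.Agent.Work.MP_1233f5_ag.Z

namespace ISymOm

theorem skp_val {β : Type} (b : ℕ) (k : Fin (b + 1)) (i : Fin b) (n : ℕ → β) :
    n ((k.succAbove i : Fin (b + 1)) : ℕ) = skp (k : ℕ) n (i : ℕ) := by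
  unfold skp
  by_cases h : (i : ℕ) < (k : ℕ)
  · rw [if_pos h, Fin.succAbove_of_castSucc_lt _ _ (by
      rw [Fin.lt_def]
      exact h)]
    rfl
  · rw [if_neg h, Fin.succAbove_of_le_castSucc _ _ (by
      rw [Fin.le_def]
      exact not_lt.1 h)]
    rfl

section

variable {K : Type} [Field K] {α : Type}

theorem symm_Dx [Fintype α] (X : Finset α) (x : Lx K α) :
    symm (act K α) X ∅ (Dx x) = Dx (symm (act K α) X ∅ x) := by
  rw [U.symm_apply, U.symm_apply, map_sum]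
  exact sum_congr rfl fun σ _ => act_Dx σ x

theorem sgn_sq {p : ℕ} (σ : Equiv.Perm (Fin p)) :
    ((Equiv.Perm.sign σ : ℤ) : K) * ((Equiv.Perm.sign σ : ℤ) : K) = 1 := by
  rw [← Int.cast_mul, Int.units_coe_mul_self, Int.cast_one]

variable [DecidableEq α] {r a : ℕ} {P X : Finset α} {y : ℕ → α} {w : ℕ → Finset α}

theorem cx_congr {x x' : ℕ → α} {w' : ℕ → Finset α} (h1 : ∀ i < a, x i = x' i)
    (h2 : ∀ i ≤ a, w i = w' i) : (cx a x w : Lx K α) = cx a x' w' := by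
  unfold cx
  refine sum_congr rfl fun σ _ => ?_
  congr 2
  funext i
  rw [h1 i i.2, h2 _ (Nat.le_of_lt_succ (σ i.castSucc).2)]

/-- the embedding of the points -/
def emb (hE : EV r P a y w) : Fin (a + 1) ↪ α :=
  ⟨fun i => y (i : ℕ), fun i j h => Fin.ext (hE.inj i (Nat.le_of_lt_succ i.2) j
    (Nat.le_of_lt_succ j.2) h)⟩

/-- a permutation of the points -/
def pp (hE : EV r P a y w) (π : Equiv.Perm (Fin (a + 1))) : Equiv.Perm α :=
  π.viaFintypeEmbedding (emb hE)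

theorem pp_y (hE : EV r P a y w) (π : Equiv.Perm (Fin (a + 1))) (i : Fin (a + 1)) :
    pp hE π (y (i : ℕ)) = y ((π i : Fin (a + 1)) : ℕ) :=
  Equiv.Perm.viaFintypeEmbedding_apply_image π (emb hE) i

theorem pp_fix (hE : EV r P a y w) (π : Equiv.Perm (Fin (a + 1))) (b : α)
    (hb : ∀ i ≤ a, b ≠ y i) : pp hE π b = b := by
  refine Equiv.Perm.viaFintypeEmbedding_apply_notMem_range π (emb hE) ?_
  rintro ⟨i, hi⟩
  exact hb i (Nat.le_of_lt_succ i.2) hi.symm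

theorem pp_im (hE : EV r P a y w) (π : Equiv.Perm (Fin (a + 1))) (j : ℕ) (hj : j ≤ a) :
    im (pp hE π) (w j) = w j := by
  refine U.im_eq_of_fix fun b hb => pp_fix hE π b fun i hi h => ?_
  rw [h] at hb
  exact hE.out i hi j hj hb

theorem pp_sty (hE : EV r P a y w) (hX : ∀ i ≤ a, y i ∈ X) (π : Equiv.Perm (Fin (a + 1))) :
    StY X ∅ (pp hE π) := by
  refine ⟨fun b hb => pp_fix hE π b fun i hi h => ?_, U.im_empty _⟩
  rw [h] at hb
  exact hb (hX i hi)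

theorem pp_act (hE : EV r P a y w) (π : Equiv.Perm (Fin (a + 1))) {c d : ℕ} {κ : Lx K α}
    (hκ : κ ∈ Mt K d (P \ es a y w) c) : act K α (pp hE π) κ = κ := by
  refine act_eq_self (fun b hb => pp_fix hE π b fun i hi h => ?_) hκ
  rw [mem_sdiff] at hb
  apply hb.2
  rw [h, es, mem_union, mem_image]
  exact Or.inl ⟨i, mem_range.2 (by omega), rfl⟩

theorem term_mem (hE : EV r P a y w) (σ : Equiv.Perm (Fin (a + 1))) :
    (mo (fun i : Fin (a + 1) => insert (y (i : ℕ)) (w ((σ i : Fin (a + 1)) : ℕ))) : Lx K α) ∈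
      Mt K (r + 1) P (a + 1) := by
  refine mo_mem_Mt ⟨fun i => ⟨?_, ?_⟩, fun i j hij => ?_⟩
  · rw [card_insert_of_notMem (hE.out i (Nat.le_of_lt_succ i.2) _ (Nat.le_of_lt_succ (σ i).2)),
      hE.card _ (Nat.le_of_lt_succ (σ i).2)]
  · exact insert_subset (hE.mem i (Nat.le_of_lt_succ i.2)) (hE.sub _ (Nat.le_of_lt_succ (σ i).2))
  · rw [disjoint_insert_left, mem_insert, not_or, disjoint_insert_right]
    refine ⟨⟨fun h => ?_, hE.out _ (Nat.le_of_lt_succ i.2) _ (Nat.le_of_lt_succ (σ j).2)⟩,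
      hE.out _ (Nat.le_of_lt_succ j.2) _ (Nat.le_of_lt_succ (σ i).2), ?_⟩
    · exact hij (Fin.ext (hE.inj _ (Nat.le_of_lt_succ i.2) _ (Nat.le_of_lt_succ j.2) h))
    · refine hE.dis _ (Nat.le_of_lt_succ (σ i).2) _ (Nat.le_of_lt_succ (σ j).2) fun h => ?_
      exact hij (σ.injective (Fin.ext h))

theorem Om_mem (hE : EV r P a y w) : (Om a y w : Lx K α) ∈ Mt K (r + 1) P (a + 1) := by
  unfold Om
  exact Submodule.sum_mem _ fun σ _ => Submodule.smul_mem _ _ (term_mem hE σ)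

theorem m0_mem (hE : EV r P a y w) :
    (mo (fun i : Fin (a + 1) => insert (y (i : ℕ)) (w (i : ℕ))) : Lx K α) ∈
      Mt K (r + 1) P (a + 1) := term_mem hE 1

theorem symm_Om [Fintype α] (hE : EV r P a y w) (hX : ∀ i ≤ a, y i ∈ X) {c d : ℕ} {κ : Lx K α}
    (hκ : κ ∈ Mt K d (P \ es a y w) c) :
    symm (act K α) X ∅ (Om a y w * κ) = ((Nat.factorial (a + 1) : ℕ) : K) •
      symm (act K α) X ∅
        (mo (fun i : Fin (a + 1) => insert (y (i : ℕ)) (w (i : ℕ))) * κ) := by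
  unfold Om
  rw [sum_mul, map_sum]
  have h : ∀ σ ∈ (univ : Finset (Equiv.Perm (Fin (a + 1)))),
      symm (act K α) X ∅ ((((Equiv.Perm.sign σ : ℤ) : K) •
        mo (fun i : Fin (a + 1) => insert (y (i : ℕ)) (w ((σ i : Fin (a + 1)) : ℕ)))) * κ) =
      symm (act K α) X ∅
        (mo (fun i : Fin (a + 1) => insert (y (i : ℕ)) (w (i : ℕ))) * κ) := by
    intro σ _
    rw [← U.symm_rho (act K α) (pp_sty hE hX σ⁻¹)
      (mo (fun i : Fin (a + 1) => insert (y (i : ℕ)) (w (i : ℕ))) * κ)]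
    rw [act_mul, pp_act hE σ⁻¹ hκ, act_mo]
    have h1 : (fun i : Fin (a + 1) => insert (y (i : ℕ)) (w ((σ i : Fin (a + 1)) : ℕ))) =
        (fun j : Fin (a + 1) => im (pp hE σ⁻¹) (insert (y (j : ℕ)) (w (j : ℕ)))) ∘ σ := by
      funext i
      rw [Function.comp_apply, Y.im_insert, pp_y, pp_im hE _ _ (Nat.le_of_lt_succ (σ i).2)]
      rw [show σ⁻¹ (σ i) = i from σ.symm_apply_apply i]
    rw [h1, mo_perm, smul_smul, sgn_sq, one_smul]
  rw [sum_congr rfl h, sum_const, card_univ, Fintype.card_perm, Fintype.card_fin,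
    Nat.cast_smul_eq_nsmul]

theorem symm_cx [Fintype α] (h2 : S_Cx2) (hE : EV r P a y w) (hX : ∀ i ≤ a, y i ∈ X) {c d : ℕ}
    {κ : Lx K α} (hκ : κ ∈ Mt K d (P \ es a y w) c) (k : ℕ) (hk : k < a + 1) :
    symm (act K α) X ∅ (cx a (skp k y) w * κ) = symm (act K α) X ∅ (cx a (skp 0 y) w * κ) := by
  rw [← U.symm_rho (act K α) (pp_sty hE hX (Fin.cycleRange ⟨k, hk⟩)) (cx a (skp k y) w * κ)]
  rw [act_mul, pp_act hE _ hκ, (h2 K α a (skp k y) w).1]
  rw [cx_congr (x' := skp 0 y) (w' := w)]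
  · intro i hi
    have h3 := skp_val a ⟨k, hk⟩ ⟨i, hi⟩ y
    have h4 := skp_val a 0 ⟨i, hi⟩ y
    rw [show skp k y i = skp ((⟨k, hk⟩ : Fin (a + 1)) : ℕ) y ((⟨i, hi⟩ : Fin a) : ℕ) from rfl,
      ← h3, pp_y, Fin.cycleRange_succAbove]
    exact h4
  · intro i hi
    exact pp_im hE _ i hi

end

end ISymOm

open ISymOm in
theorem pr_SymOm (h1 : S_OmD) (h2 : S_Cx2) : S_SymOm := by
  intro K _ _ α _ _ r a c P X y w hE _ hX κ hκ _
  have hκ1 : κ ∈ Mt K (r + 1) (P \ es a y w) c := hκ.1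
  have hκ2 : Dx κ = 0 := hκ.2
  have hf : ((Nat.factorial (a + 1) : ℕ) : K) ≠ 0 :=
    Nat.cast_ne_zero.2 (Nat.factorial_ne_zero _)
  have e1 : symm (act K α) X ∅ (Dx (Om a y w * κ)) = ((Nat.factorial (a + 1) : ℕ) : K) •
      symm (act K α) X ∅
        (Dx (mo (fun i : Fin (a + 1) => insert (y (i : ℕ)) (w (i : ℕ))) * κ)) := by
    rw [symm_Dx, symm_Om hE hX hκ1, map_smul, ← symm_Dx]
  have e2 : Dx (Om a y w * κ) = ((-1 : K) ^ a) •
      ∑ k ∈ range (a + 1), (cx a (skp k y) w * κ) := by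
    rw [Dx_mul (Om_mem hE), hκ2, mul_zero, smul_zero, add_zero, h1 K α a y w, smul_mul_assoc,
      sum_mul]
  have e3 : Dx (mo (fun i : Fin (a + 1) => insert (y (i : ℕ)) (w (i : ℕ))) * κ : Lx K α) =
      Dx (mo (fun i : Fin (a + 1) => insert (y (i : ℕ)) (w (i : ℕ)))) * κ := by
    rw [Dx_mul (m0_mem hE), hκ2, mul_zero, smul_zero, add_zero]
  rw [e2, map_smul, map_sum, sum_congr rfl fun k hk => symm_cx h2 hE hX hκ1 k (mem_range.1 hk),
    sum_const, card_range, ← Nat.cast_smul_eq_nsmul K, smul_smul, e3] at e1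
  refine ⟨((Nat.factorial (a + 1) : ℕ) : K)⁻¹ * ((-1 : K) ^ a * ((a + 1 : ℕ) : K)), ?_⟩
  rw [mul_smul, e1, smul_smul, inv_mul_cancel₀ hf, one_smul, e3]

end Pool.Agent.Work.MP_1233f5_ag.LS
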