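import Pool.Agent.Work.MP_1233f5_ag.LS.StmtsR
import Pool.Agent.Work.MP_1233f5_ag.LS.Stmts

/-! MP_1233f5_ag, block LS: soundness of a table of lower bounds. -/

set_option autoImplicit false

namespace Pool.Agent.Work.MP_1233f5_ag.LS

open Finset
open Pool.Agent.Work.MP_1233f5_ag.V (vm ML theta rVan)
open Pool.Agent.Work.MP_1233f5_ag.Y
open Pool.Agent.Work.MP_1233f5_ag.Z

theorem pr_Tab (h1 : S_Dlt) (h2 : S_Chain) : S_Tab := by
  intro K _ _ r v N hr hv hN T
  induction T with
  | zero =>
    intro s n h
    have h0 := (hN 0 s n h).1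
    omega
  | succ T ihT =>
    intro s
    rcases s with _ | s
    · intro n _ α _ _ P χ hP hχ
      exfalso
      have h3 : (P.image χ).card = 0 := Nat.le_zero.1 hχ
      rw [Finset.card_eq_zero, Finset.image_eq_empty] at h3
      rw [h3, Finset.card_empty] at hP
      omega
    · intro c
      induction c using Nat.strong_induction_on with
      | _ c ihc =>
        intro h
        have chain : (c + 1 < (c * (r + 1) + (T + 1) + s) / (s + 1) ∨
            c + 1 - (c * (r + 1) + (T + 1) + s) / (s + 1) < N T s) →
            ZV K (r + 1) (T + 1) (s + 1) c := by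
          intro h3
          refine h2 K r T s c hr ?_ ?_
          · intro c' hc' α _ _ P χ hP hχ
            exact ihc c' hc' (hc'.trans h) α P χ hP (hχ.trans (Nat.le_succ s))
          · intro m hm hmc
            rcases h3 with h3 | h3
            · omega
            · exact ihT s _ (lt_of_le_of_lt (by omega) h3)
        obtain ⟨-, h3⟩ := hN (T + 1) (s + 1) c h
        rcases h3 with h3 | h3 | h3 | h3 | ⟨t, δ, hT, ht1, ht2, hn, hδ, hb⟩
        · omega
        · intro α _ _ P χ hP _ z hz
          exact hv (T + 1) c h3 α P hP hz.1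
        · exact chain (Or.inl h3)
        · exact chain (Or.inr h3)
        · rw [hT]
          exact h1 K r t (s + 1) c δ ht1 ht2 hn hδ hb

end Pool.Agent.Work.MP_1233f5_ag.LS
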