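import Mathlib
import Pool.Agent.Work.MP_1233f5_ag.LS.Stmts
import Pool.Agent.Work.MP_1233f5_ag.LS.StmtsR

/-! MP_1233f5_ag, block LS, item ThmA (helper39). -/

set_option autoImplicit false

namespace Pool.Agent.Work.MP_1233f5_ag.LS

open Finset
open Pool.Agent.Work.MP_1233f5_ag.Y
open Pool.Agent.Work.MP_1233f5_ag.Z

theorem ThmA_two (n : ℕ) : 2 * (n + 1).choose 2 = (n + 1) * n := by
  have h := Nat.choose_two_right (n + 1)
  have h2 : 2 ∣ (n + 1) * n := by
    have := (Nat.even_mul_succ_self n).two_dvd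
    rwa [mul_comm] at this
  rw [h, Nat.add_sub_cancel, Nat.mul_div_cancel' h2]

theorem ThmA_zv {K : Type} [Field K] {m d T s c : ℕ} (h : ZV K d T s c) : ZVm K m d T s c := by
  intro α _ _ P χ hP hχ
  exact (h α P χ hP hχ).trans le_sup_left

/-- first alternative of the pigeonhole count -/
theorem ThmA_num1 (d t a c : ℕ) (hd : 5 ≤ d) (ht : 2 ≤ t) (hc : 2 * t + 1 ≤ c)
    (h : 2 * (a + c) < (t + 2) * (d - 1) + 4 * (t + 1)) : 3 * a < c * d + (d + t) := by
  obtain ⟨e, rfl⟩ : ∃ e, d = e + 5 := ⟨d - 5, by omega⟩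
  obtain ⟨u, rfl⟩ : ∃ u, t = u + 2 := ⟨t - 2, by omega⟩
  obtain ⟨v, rfl⟩ : ∃ v, c = 2 * (u + 2) + 1 + v := ⟨c - (2 * (u + 2) + 1), by omega⟩
  have e1 : e + 5 - 1 = e + 4 := by omega
  rw [e1] at h
  nlinarith [Nat.zero_le (u * e), Nat.zero_le (v * e), Nat.zero_le e, Nat.zero_le u,
    Nat.zero_le v]

/-- second alternative of the pigeonhole count -/
theorem ThmA_num2 (t a c : ℕ) (ht : 2 ≤ t) (hc : 2 * t + 1 ≤ c)
    (h : 2 * (a + c) < (t + 3) * (t + 3 - 1) + 4 * (t + 1)) :
    3 * a < c * (t + 3) + (t + 3 + t) := by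
  obtain ⟨u, rfl⟩ : ∃ u, t = u + 2 := ⟨t - 2, by omega⟩
  obtain ⟨v, rfl⟩ : ∃ v, c = 2 * (u + 2) + 1 + v := ⟨c - (2 * (u + 2) + 1), by omega⟩
  have e1 : u + 2 + 3 - 1 = u + 4 := by omega
  rw [e1] at h
  nlinarith [Nat.zero_le (u * u), Nat.zero_le (v * u), Nat.zero_le u, Nat.zero_le v]

/-- [ThmA] -/
theorem pr_ThmA (hVL : S_VLm) (hSt : S_StarM) (hDl : S_Dlt) (hPg : S_PgH) : S_ThmA := by
  intro K _ _ d t p hd
  obtain ⟨n, hn⟩ : ∃ n, n = d - 2 - t := ⟨_, rfl⟩
  induction n generalizing t with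
  | zero =>
    intro ht htd hp
    have htd' : t = d - 2 := by omega
    obtain ⟨e, rfl⟩ : ∃ e, d = e + 5 := ⟨d - 5, by omega⟩
    have htt : t = e + 3 := by omega
    subst htt
    have hT : 2 * (e + 5) - 1 + (e + 3) = 3 * e + 12 := by omega
    rw [hT]
    refine hVL K 4 (e + 5) p (3 * e + 12) (e + 4) (by norm_num) (by omega) (by omega) ?_
    have h1 : (e + 5 + 4 - 1).choose (4 - 1) = (e + 7).choose 2 + (e + 7).choose 3 :=
      Nat.choose_succ_succ (e + 7) 2
    have h2 : (e + 4 + 4 - 1).choose (4 - 1) = (e + 7).choose 3 := rfl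
    rw [h1, h2]
    have h3 := ThmA_two (e + 6)
    have h3' : 2 * (e + 7).choose 2 = (e + 7) * (e + 6) := h3
    rcases hp with hp | ⟨hp, -⟩
    · have e1 : e + 5 - 1 = e + 4 := by omega
      rw [e1] at hp
      have h4 : 2 * p + 6 < 2 * (e + 7).choose 2 := by
        rw [h3']
        nlinarith
      omega
    · omega
  | succ n ih =>
    intro ht htd hp
    have htd3 : t + 3 ≤ d := by omega
    obtain ⟨r, rfl⟩ : ∃ r, d = r + 1 := ⟨d - 1, by omega⟩
    have e1 : 2 * (r + 1) - 1 + t = (r + 1 + t) + r := by omega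
    have e2 : 2 * (r + 1) - 1 + (t + 1) = (r + 1 + t) + r + 1 := by omega
    have er : r + 1 - 1 = r := by omega
    have hIH := ih (t + 1) (by omega) (by omega) (by omega) (Or.inl (by
      rw [er] at hp ⊢
      rcases hp with hp | ⟨h3, hp⟩
      · nlinarith
      · nlinarith))
    rw [e2] at hIH
    rw [e1]
    refine hSt K r (r + 1 + t) p 3 (by omega) hIH fun a ha => ?_
    obtain ⟨c, hc⟩ : ∃ c, c = p - a := ⟨_, rfl⟩
    rw [← hc]
    have hac : a + c = p := by omega
    rcases Nat.lt_or_ge (2 * t) c with hct | hct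
    · apply hPg
      rw [er] at hp
      rcases hp with hp | ⟨h3, hp⟩
      · have := ThmA_num1 (r + 1) t a c hd ht hct (by rw [er, hac]; exact hp)
        exact this
      · have hr : r + 1 = t + 3 := h3.symm
        have hr' : r = t + 2 := by omega
        subst hr'
        have := ThmA_num2 t a c ht hct (by
          rw [hac]
          have e3 : t + 3 - 1 = t + 2 := by omega
          rw [e3]
          exact hp)
        exact this
    · apply ThmA_zv
      rw [er] at hp
      rcases hp with hp | ⟨h3, hp⟩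
      · exact hDl K r t a c 0 (by omega) (by omega) hct (Or.inl rfl) (by
          have : c + a = p := by omega
          rw [this]
          omega)
      · exact hDl K r t a c r (by omega) (by omega) hct (Or.inr ⟨rfl, by omega⟩) (by
          have : c + a = p := by omega
          rw [this]
          nlinarith)

end Pool.Agent.Work.MP_1233f5_ag.LS
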