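import Mathlib
import Pool.Agent.Work.MP_1233f5_ag.LS.Stmts
import Pool.Agent.Work.MP_1233f5_ag.LS.StmtsR

/-! MP_1233f5_ag, block LS, item ThmB (helper39). -/

set_option autoImplicit false

namespace Pool.Agent.Work.MP_1233f5_ag.LS

open Finset
open Pool.Agent.Work.MP_1233f5_ag.V (ML)
open Pool.Agent.Work.MP_1233f5_ag.Y
open Pool.Agent.Work.MP_1233f5_ag.Z

theorem ThmB_two (n : ℕ) : 2 * (n + 1).choose 2 = (n + 1) * n := by
  have h := Nat.choose_two_right (n + 1)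
  have h2 : 2 ∣ (n + 1) * n := by
    have := (Nat.even_mul_succ_self n).two_dvd
    rwa [mul_comm] at this
  rw [h, Nat.add_sub_cancel, Nat.mul_div_cancel' h2]

theorem ThmB_zv {K : Type} [Field K] {m d T s c : ℕ} (h : ZV K d T s c) : ZVm K m d T s c := by
  intro α _ _ P χ hP hχ
  exact (h α P χ hP hχ).trans le_sup_left

theorem ThmB_vz {K : Type} [Field K] {d T s c : ℕ} (h : VV K d T c) : ZV K d T s c := by
  intro α _ _ P χ hP _ z hz
  exact h α P hP hz.1

theorem ThmB_vv {K : Type} [Field K] {m d T p : ℕ} (h : VV K d T p) : VVm K m d T p := by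
  intro α _ _ P hP
  exact (h α P hP).trans le_sup_left

/-- the pigeonhole count above `3 d - 3` -/
theorem ThmB_num1 (r a c T : ℕ) (hr : 2 ≤ r) (hc : 2 * r + 1 ≤ c) (hT : 2 * r + 1 ≤ T)
    (h : 2 * (a + c) + 6 < (r + 3) * (r + 2)) : 4 * a < c * (r + 1) + T := by
  obtain ⟨e, rfl⟩ : ∃ e, r = e + 2 := ⟨r - 2, by omega⟩
  obtain ⟨v, rfl⟩ : ∃ v, c = 2 * (e + 2) + 1 + v := ⟨c - (2 * (e + 2) + 1), by omega⟩
  nlinarith [Nat.zero_le (v * e), Nat.zero_le e, Nat.zero_le v]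

/-- the pigeonhole count at `3 d - 3` -/
theorem ThmB_num2 (r a c : ℕ) (hr : 2 ≤ r) (hc : 2 * r ≤ c + 1)
    (h : 2 * (a + c) + 8 ≤ (r + 3) * (r + 2)) : 4 * a < c * (r + 1) + 2 * r := by
  obtain ⟨e, rfl⟩ : ∃ e, r = e + 2 := ⟨r - 2, by omega⟩
  obtain ⟨v, rfl⟩ : ∃ v, c = 2 * e + 3 + v := ⟨c - (2 * e + 3), by omega⟩
  nlinarith [Nat.zero_le (v * e), Nat.zero_le e, Nat.zero_le v]

/-- [ThmB] -/
theorem pr_ThmB (hSt : S_StarM) (hDl : S_Dlt) (hPg : S_PgH) (hB3 : S_B3) (hBG : S_BGr)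
    (hM3 : S_Main3) (hRl : S_Rlb) : S_ThmB := by
  intro K _ _ d p hd hp
  obtain ⟨r, rfl⟩ : ∃ r, d = r + 1 := ⟨d - 1, by omega⟩
  have h2 : 2 * (r + 1 + 2).choose 2 = (r + 3) * (r + 2) := ThmB_two (r + 2)
  have hp2 : 2 * p + 6 < (r + 3) * (r + 2) := by omega
  have hp3 : 2 * p + 8 ≤ (r + 3) * (r + 2) := by omega
  have hvv : ∀ T c, c < bnd3 (r + 1) T → VV K (r + 1) T c := fun T c hc =>
    ((hRl K (r + 1) T c).1).1 (hM3 K (r + 1) T c hd hc)
  -- above `3 d - 3`
  have habove : ∀ n T, T + n = p + (3 * r + 1) → 3 * r + 1 ≤ T → VVm K 5 (r + 1) T p := by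
    intro n
    induction n with
    | zero =>
      intro T hT _
      apply ThmB_vv
      apply hvv
      have := hBG (r + 1) T hd
      omega
    | succ n ih =>
      intro T hT hT2
      obtain ⟨T', rfl⟩ : ∃ T', T = T' + r := ⟨T - r, by omega⟩
      refine hSt K r T' p 4 (by omega) (ih (T' + r + 1) (by omega) (by omega)) fun a ha => ?_
      obtain ⟨c, hc⟩ : ∃ c, c = p - a := ⟨_, rfl⟩
      rw [← hc]
      have hac : a + c = p := by omega
      rcases Nat.lt_or_ge c (2 * r + 1) with hct | hct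
      · apply ThmB_zv
        apply ThmB_vz
        apply hvv
        have := hB3 (r + 1) T' hd (by omega)
        omega
      · exact hPg K 4 (r + 1) T' a c (ThmB_num1 r a c T' (by omega) hct (by omega)
          (by rw [hac]; exact hp2))
  have e1 : 3 * (r + 1) - 3 = 2 * r + r := by omega
  rw [e1]
  refine hSt K r (2 * r) p 4 (by omega) (habove p (2 * r + r + 1) (by omega) (by omega))
    fun a ha => ?_
  obtain ⟨c, hc⟩ : ∃ c, c = p - a := ⟨_, rfl⟩
  rw [← hc]
  have hac : a + c = p := by omega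
  rcases Nat.lt_or_ge (2 * r) (c + 3) with hct | hct
  · rcases Nat.lt_or_ge (c + 1) (2 * r) with h3 | h3
    · -- `c = 2 r - 2`
      apply ThmB_zv
      obtain ⟨t, rfl⟩ : ∃ t, r = t + 1 := ⟨r - 1, by omega⟩
      have hT : 2 * (t + 1) = t + 1 + 1 + t := by omega
      rw [hT]
      refine hDl K (t + 1) t a c 0 (by omega) (by omega) (by omega) (Or.inl rfl) ?_
      have : c + a = p := by omega
      rw [this]
      nlinarith
    · exact hPg K 4 (r + 1) (2 * r) a c (ThmB_num2 r a c (by omega) h3 (by rw [hac]; exact hp3))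
  · apply ThmB_zv
    obtain ⟨t, rfl⟩ : ∃ t, r = t + 1 := ⟨r - 1, by omega⟩
    have hT : 2 * (t + 1) = t + 1 + 1 + t := by omega
    rw [hT]
    refine hDl K (t + 1) t a c 0 (by omega) (by omega) (by omega) (Or.inl rfl) ?_
    have : c + a = p := by omega
    rw [this]
    nlinarith

end Pool.Agent.Work.MP_1233f5_ag.LS
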