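import Pool.Agent.Work.MP_1233f5_ag.LS.Stmts
import Pool.Agent.Work.MP_1233f5_ag.LS.StmtsR

/-! MP_1233f5_ag, block LS: the uniform theorem on `C^(m+1)` (captain helper4, after
`LS/I_ThmA.lean` and `LS/I_ThmB.lean` of helper39). -/

set_option autoImplicit false

namespace Pool.Agent.Work.MP_1233f5_ag.LS

open Finset
open Pool.Agent.Work.MP_1233f5_ag.V (ML)
open Pool.Agent.Work.MP_1233f5_ag.Y
open Pool.Agent.Work.MP_1233f5_ag.Z

/-- [ThmC] on `C^(m+1)`.  Proof: descending induction on the place with `S_StarM`.  Places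
`T ≥ 3 d - 2`: `S_BGr`, `S_Main3` for large `T`; in `K_c(T')`, `T' ≥ 2 d - 1`, `S_B3` for
`c ≤ 2 d - 2` and `S_PgH` for `c ≥ 2 d - 1`.  Place `2 d - 1 + t`: in `K_c(d + t)` `S_Dlt` for
`c ≤ 2 t` and `S_PgH` for `c ≥ 2 t + 1`. -/
def S_ThmC : Prop :=
  ∀ (K : Type) [Field K] [CharZero K] (d t p m : ℕ), 3 ≤ d → 1 ≤ t → t + 2 ≤ d →
    (2 * p < (t + 2) * (d - 1) + 4 * (t + 1) ∨
      (t + 3 = d ∧ 2 * p < (t + 3) * (d - 1) + 4 * (t + 1))) →
    m * p < m * (2 * t + 1) + (2 * t + 2) * d + t → VVm K (m + 1) d (2 * d - 1 + t) p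

namespace IThmC

theorem zv {K : Type} [Field K] {m d T s c : ℕ} (h : ZV K d T s c) : ZVm K m d T s c := by
  intro α _ _ P χ hP hχ
  exact (h α P χ hP hχ).trans le_sup_left

theorem vz {K : Type} [Field K] {d T s c : ℕ} (h : VV K d T c) : ZV K d T s c := by
  intro α _ _ P χ hP _ z hz
  exact h α P hP hz.1

theorem vv {K : Type} [Field K] {m d T p : ℕ} (h : VV K d T p) : VVm K m d T p := by
  intro α _ _ P hP
  exact (h α P hP).trans le_sup_left

end IThmC

open IThmC in
theorem pr_ThmC (hSt : S_StarM) (hDl : S_Dlt) (hPg : S_PgH) (hB3 : S_B3) (hBG : S_BGr)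
    (hM3 : S_Main3) (hRl : S_Rlb) : S_ThmC := by
  intro K _ _ d t p m hd
  obtain ⟨r, rfl⟩ : ∃ r, d = r + 1 := ⟨d - 1, by omega⟩
  have er : r + 1 - 1 = r := by omega
  have hvv : ∀ T c, c < bnd3 (r + 1) T → VV K (r + 1) T c := fun T c hc =>
    ((hRl K (r + 1) T c).1).1 (hM3 K (r + 1) T c hd hc)
  -- the places above `3 d - 3`
  have habove : m * p < m * (2 * r + 1) + (2 * r + 1) * (r + 1) + (2 * r + 1) →
      ∀ n T, T + n = p + (3 * r + 1) → 3 * r + 1 ≤ T → VVm K (m + 1) (r + 1) T p := by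
    intro hm n
    induction n with
    | zero =>
      intro T hT _
      apply vv
      apply hvv
      have := hBG (r + 1) T hd
      omega
    | succ n ih =>
      intro T hT hT2
      obtain ⟨T', rfl⟩ : ∃ T', T = T' + r := ⟨T - r, by omega⟩
      refine hSt K r T' p m (by omega) (ih (T' + r + 1) (by omega) (by omega)) fun a ha => ?_
      obtain ⟨c, hc⟩ : ∃ c, c = p - a := ⟨_, rfl⟩
      rw [← hc]
      have hac : p = a + c := by omega
      rcases Nat.lt_or_ge c (2 * r + 1) with hct | hct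
      · apply zv
        apply vz
        apply hvv
        have := hB3 (r + 1) T' hd (by omega)
        omega
      · refine hPg K m (r + 1) T' a c ?_
        obtain ⟨e, rfl⟩ : ∃ e, c = 2 * r + 1 + e := ⟨c - (2 * r + 1), by omega⟩
        obtain ⟨T'', rfl⟩ : ∃ T'', T' = 2 * r + 1 + T'' := ⟨T' - (2 * r + 1), by omega⟩
        rw [hac] at hm
        nlinarith [Nat.zero_le (m * e), Nat.zero_le (e * r), Nat.zero_le e]
  obtain ⟨n, hn⟩ : ∃ n, n = r + 1 - 2 - t := ⟨_, rfl⟩
  induction n generalizing t with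
  | zero =>
    intro ht htd hp hm
    have htr : r = t + 1 := by omega
    subst htr
    have hp' : 2 * p < (t + 2) * (t + 1) + 4 * (t + 1) := by
      rcases hp with hp | ⟨h3, -⟩
      · rw [er] at hp
        exact hp
      · omega
    have hab := habove (by nlinarith) p (3 * (t + 1) + 1) (by omega) (by omega)
    have e1 : 2 * (t + 1 + 1) - 1 + t = (t + 1 + 1 + t) + (t + 1) := by omega
    have e2 : 3 * (t + 1) + 1 = (t + 1 + 1 + t) + (t + 1) + 1 := by omega
    rw [e1]
    rw [e2] at hab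
    refine hSt K (t + 1) (t + 1 + 1 + t) p m (by omega) hab fun a ha => ?_
    obtain ⟨c, hc⟩ : ∃ c, c = p - a := ⟨_, rfl⟩
    rw [← hc]
    have hac : p = a + c := by omega
    rcases Nat.lt_or_ge (2 * t) c with hct | hct
    · refine hPg K m (t + 1 + 1) _ a c ?_
      obtain ⟨e, rfl⟩ : ∃ e, c = 2 * t + 1 + e := ⟨c - (2 * t + 1), by omega⟩
      rw [hac] at hm
      nlinarith [Nat.zero_le (m * e), Nat.zero_le (e * t), Nat.zero_le e]
    · apply zv
      refine hDl K (t + 1) t a c 0 (by omega) (by omega) hct (Or.inl rfl) ?_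
      have h1 : c + a = p := by omega
      rw [h1]
      omega
  | succ n ih =>
    intro ht htd hp hm
    have htd3 : t + 2 ≤ r := by omega
    have hIH := ih (t + 1) (by omega) (by omega) (by omega) (Or.inl (by
      rw [er] at hp ⊢
      rcases hp with hp | ⟨h3, hp⟩
      · nlinarith
      · nlinarith)) (by nlinarith)
    have e1 : 2 * (r + 1) - 1 + t = (r + 1 + t) + r := by omega
    have e2 : 2 * (r + 1) - 1 + (t + 1) = (r + 1 + t) + r + 1 := by omega
    rw [e2] at hIH
    rw [e1]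
    refine hSt K r (r + 1 + t) p m (by omega) hIH fun a ha => ?_
    obtain ⟨c, hc⟩ : ∃ c, c = p - a := ⟨_, rfl⟩
    rw [← hc]
    have hac : p = a + c := by omega
    rcases Nat.lt_or_ge (2 * t) c with hct | hct
    · refine hPg K m (r + 1) _ a c ?_
      obtain ⟨e, rfl⟩ : ∃ e, c = 2 * t + 1 + e := ⟨c - (2 * t + 1), by omega⟩
      rw [hac] at hm
      nlinarith [Nat.zero_le (m * e), Nat.zero_le (e * r), Nat.zero_le e]
    · apply zv
      rw [er] at hp
      have h1 : c + a = p := by omega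
      rcases hp with hp | ⟨h3, hp⟩
      · exact hDl K r t a c 0 (by omega) (by omega) hct (Or.inl rfl) (by
          rw [h1]
          omega)
      · exact hDl K r t a c r (by omega) (by omega) hct (Or.inr ⟨rfl, by omega⟩) (by
          rw [h1]
          nlinarith)

end Pool.Agent.Work.MP_1233f5_ag.LS
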