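import Pool.Agent.Work.MP_1233f5_ag.LS.StmtsR
import Pool.Agent.Work.MP_1233f5_ag.LS.Stmts
import Pool.Agent.Work.MP_1233f5_ag.Z.I_BrG

/-! MP_1233f5_ag, block LS, item VLm (helper32): vanishing on `C^n` from `V.S_LemD`. -/

set_option autoImplicit false

namespace Pool.Agent.Work.MP_1233f5_ag.LS

open Finset
open Pool.Agent.Work.MP_1233f5_ag.V (vm vw Mo rVan rCh rcyc dd Alt)
open Pool.Agent.Work.MP_1233f5_ag.Y
open Pool.Agent.Work.MP_1233f5_ag.Y.BrgX (co co_mo co_Dx co_supp co_alt)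
open Pool.Agent.Work.MP_1233f5_ag.Z

namespace IVLm

variable {K : Type} [Field K] {α : Type} [Fintype α] [DecidableEq α]

omit [Fintype α] [DecidableEq α] in
theorem im_inj (σ : Equiv.Perm α) : Function.Injective (im σ) := Finset.map_injective _

omit [Fintype α] in
theorem co_act {d p : ℕ} {P : Finset α} {y : Lx K α} (hy : y ∈ Mt K d P p)
    (σ : Equiv.Perm α) (t : Fin p → Finset α) :
    co p (fun i => im σ (t i)) (act K α σ y) = co p t y := by
  induction hy using Submodule.span_induction with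
  | mem x hx =>
    obtain ⟨s, hs, rfl⟩ := hx
    rw [act_mo, co_mo, co_mo]
    refine Finset.sum_congr rfl (fun τ _ => ?_)
    have h : ((fun i => im σ (s i)) = (fun i => im σ (t i)) ∘ τ) ↔ s = t ∘ τ := by
      constructor
      · intro h
        funext i
        exact im_inj σ (congrFun h i)
      · intro h
        rw [h]
        rfl
    by_cases h1 : s = t ∘ τ
    · rw [if_pos (h.2 h1), if_pos h1]
    · rw [if_neg (fun h2 => h1 (h.1 h2)), if_neg h1]
  | zero => rw [map_zero, map_zero, map_zero]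
  | add x y _ _ hx hy => rw [map_add, map_add, map_add, hx, hy]
  | smul c x _ hx => rw [map_smul, map_smul, map_smul, hx]

theorem inv_univ [CharZero K] (h3 : Pool.Agent.Work.MP_1233f5_ag.V.S_TransA) {n d p : ℕ}
    (π : α → Fin n) (hV : rVan K (Mo n d) (vw d (V.fib π)) p) {y : Lx K α}
    (hy : y ∈ Cy K d (univ : Finset α) p)
    (hinv : ∀ σ : Equiv.Perm α, (∀ a, π (σ a) = π a) → act K α σ y = y) :
    y ∈ Bd K d (univ : Finset α) p := by
  have hyM : y ∈ Mt K d univ p := hy.1
  have hyD : Dx y = 0 := hy.2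
  obtain ⟨g, hg, hgc⟩ := h3 K α n d p π hV (fun t => co p t y)
    ⟨fun σ t => co_alt hyM σ t, fun t ht => by
      by_contra h
      exact ht (co_supp hyM t h)⟩ (by
      cases p with
      | zero => exact trivial
      | succ p =>
        intro t _
        change ∑ e : Finset α, co (p + 1) (Fin.cons e t : Fin (p + 1) → Finset α) y = 0
        rw [← co_Dx, hyD, map_zero]) (by
      intro σ hσ t
      change co p (fun i => im σ (t i)) y = co p t y
      have h4 := co_act hyM σ t
      rw [hinv σ hσ] at h4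
      exact h4)
  have hx : IBrG.el (p + 1) g ∈ Mt K d univ (p + 1) := IBrG.el_mem hg.2
  refine ⟨IBrG.el (p + 1) g, hx, ?_⟩
  have h0 : Dx (IBrG.el (p + 1) g) - y = 0 := by
    refine IBrG.co_inj (Submodule.sub_mem _ (Dx_mem hx) hyM) fun t ht => ?_
    rw [map_sub, co_Dx, sub_eq_zero, ← hgc t ht]
    exact Finset.sum_congr rfl fun e _ => IBrG.co_el hg.1 _
  exact sub_eq_zero.1 h0

omit [DecidableEq α] in
theorem sum_fib {n : ℕ} (π : α → Fin n) : ∑ a, V.fib π a = Fintype.card α := by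
  unfold V.fib V.tyv
  rw [← Finset.card_univ]
  exact (Finset.card_eq_sum_card_fiberwise (fun _ _ => Finset.mem_univ _)).symm

/-- invariant cycles are boundaries. -/
theorem inv_bd [CharZero K] (h2 : Pool.Agent.Work.MP_1233f5_ag.V.S_LemD)
    (h3 : Pool.Agent.Work.MP_1233f5_ag.V.S_TransA) (h5 : S_Mp) {n d p T T' : ℕ} (hn : 1 ≤ n)
    (hd : 2 ≤ d) (hT : T + T' = n * (d - 1))
    (hch : p + n + (T' + n - 1).choose (n - 1) ≤ (d + n - 1).choose (n - 1)) (P : Finset α)
    (hP : P.card = p * d + T) (χ : α → ℕ) (hχ : (P.image χ).card ≤ n) {z : Lx K α}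
    (hz : z ∈ Cy K d P p)
    (hinv : ∀ σ, Sup P σ → (∀ a, χ (σ a) = χ a) → act K α σ z = z) : z ∈ Bd K d P p := by
  have hemb : Nonempty (↥(P.image χ) ↪ Fin n) := by
    apply Function.Embedding.nonempty_of_card_le
    rw [Fintype.card_coe, Fintype.card_fin]
    exact hχ
  obtain ⟨e⟩ := hemb
  let f : ↥P ↪ α := Function.Embedding.subtype _
  have hf : (univ : Finset ↥P).map f = P := by
    ext a
    simp [f]
  let π : ↥P → Fin n := fun b => e ⟨χ b.1, Finset.mem_image_of_mem χ b.2⟩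
  have hπ : ∀ a b, π a = π b → χ a.1 = χ b.1 := by
    intro a b h
    have h1 := e.injective h
    exact congrArg Subtype.val h1
  have hV : rVan K (Mo n d) (vw d (V.fib π)) p := by
    refine h2 K n d p T T' (V.fib π) hn hd ?_ hT hch
    rw [sum_fib, Fintype.card_coe, hP]
  obtain ⟨m1, m2, m3, m4, m5, m6, m7⟩ := h5 K ↥P α f d p univ
  obtain ⟨-, -, k3, -, -, -, -⟩ := h5 K ↥P α f d (p + 1) univ
  rw [hf] at m3 m4 m6 k3
  have hzM : z ∈ Mt K d P p := hz.1
  have hzD : Dx z = 0 := hz.2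
  have hz' : mpS K (fun e => univ.filter (fun b => f b ∈ e)) z ∈
      Cy K d (univ : Finset ↥P) p := by
    refine ⟨m4 z hzM, ?_⟩
    change Dx (mpS K (fun e => univ.filter (fun b => f b ∈ e)) z) = 0
    rw [m2, hzD, map_zero]
  have hinv' : ∀ σ : Equiv.Perm ↥P, (∀ a, π (σ a) = π a) →
      act K ↥P σ (mpS K (fun e => univ.filter (fun b => f b ∈ e)) z) =
        mpS K (fun e => univ.filter (fun b => f b ∈ e)) z := by
    intro σ hσ
    have e1 := m7 σ (mpS K (fun e => univ.filter (fun b => f b ∈ e)) z)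
    rw [m6 z hzM] at e1
    have hsup : Sup P (σ.viaFintypeEmbedding f) := by
      intro a ha
      apply Equiv.Perm.viaFintypeEmbedding_apply_notMem_range
      rintro ⟨b, rfl⟩
      exact ha b.2
    have hcol : ∀ a, χ (σ.viaFintypeEmbedding f a) = χ a := by
      intro a
      by_cases ha : a ∈ P
      · have e2 : σ.viaFintypeEmbedding f (f ⟨a, ha⟩) = f (σ ⟨a, ha⟩) :=
          Equiv.Perm.viaFintypeEmbedding_apply_image _ _ _
        have e3 : f ⟨a, ha⟩ = a := rfl
        rw [e3] at e2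
        rw [e2]
        exact hπ _ _ (hσ ⟨a, ha⟩)
      · rw [hsup a ha]
    rw [hinv _ hsup hcol] at e1
    have e4 := congrArg (mpS K (fun e => univ.filter (fun b => f b ∈ e))) e1
    rw [m5] at e4
    exact e4
  obtain ⟨g, hg, hgz⟩ := inv_univ h3 π hV hz' hinv'
  refine ⟨mpS K (fun e => e.map f) g, k3 g hg, ?_⟩
  rw [m1, hgz, m6 z hzM]

omit [Fintype α] in
theorem act_Rw [Fintype α] {m d p : ℕ} {P : Finset α} {σ : Equiv.Perm α} (hσ : Sup P σ)
    {z : Lx K α} (hz : z ∈ Rw K m d P p) : act K α σ z ∈ Rw K m d P p := by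
  unfold Rw at hz
  induction hz using Submodule.span_induction with
  | mem x hx =>
    obtain ⟨hx1, Q, hQ, hQc, hx2⟩ := hx
    refine Submodule.subset_span ⟨act_Cy_sup hσ subset_rfl hx1, im σ Q, U.im_sub hσ hQ, ?_, ?_⟩
    · rw [card_im, hQc]
    · intro τ hτ
      have h1 : Sup Q (σ⁻¹ * τ * σ) := by
        intro a ha
        have h2 : σ a ∉ im σ Q := by
          rw [mem_im, U.inv_app]
          exact ha
        have h3 := hτ _ h2
        change σ⁻¹ (τ (σ a)) = a
        rw [h3, U.inv_app]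
      have h4 : act K α τ (act K α σ x) = act K α σ (act K α (σ⁻¹ * τ * σ) x) := by
        rw [← Module.End.mul_apply, ← Module.End.mul_apply, ← map_mul, ← map_mul]
        congr 2
        group
      rw [h4, hx2 _ h1, map_smul]
      congr 3
      rw [Equiv.Perm.sign_mul, Equiv.Perm.sign_mul, Equiv.Perm.sign_inv, mul_comm, ← mul_assoc,
        Int.units_mul_self, one_mul]
  | zero => rw [map_zero]; exact Submodule.zero_mem _
  | add x y _ _ hx hy => rw [map_add]; exact Submodule.add_mem _ hx hy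
  | smul c x _ hx => rw [map_smul]; exact Submodule.smul_mem _ _ hx

end IVLm

open IVLm in
theorem pr_VLm (h1 : S_RepU) (h2 : Pool.Agent.Work.MP_1233f5_ag.V.S_LemD)
    (h3 : Pool.Agent.Work.MP_1233f5_ag.V.S_TransA) (_h4 : S_BrG) (h5 : S_Mp) : S_VLm := by
  intro K _ _ n d p T T' hn hd hT hch α _ _ P hP
  refine h1 K α (Lx K α) (act K α) P (Cy K d P p) (Bd K d P p ⊔ Rw K n d P p) n ?_ ?_ ?_ ?_
  · intro σ hσ z hz
    exact act_Cy_sup hσ subset_rfl hz
  · intro σ hσ z hz
    obtain ⟨x, hx, y, hy, rfl⟩ := Submodule.mem_sup.1 hz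
    rw [map_add]
    exact Submodule.add_mem_sup (act_Bd_sup hσ subset_rfl hx) (act_Rw hσ hy)
  · intro χ hχ z hz hinv
    exact Submodule.mem_sup_left (inv_bd h2 h3 h5 hn hd hT hch P hP χ hχ hz hinv)
  · intro Y hY hYc z hz hanti
    exact Submodule.mem_sup_right (Submodule.subset_span ⟨hz, Y, hY, hYc, hanti⟩)

end Pool.Agent.Work.MP_1233f5_ag.LS
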