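import Pool.Agent.Work.MP_1233f5_ag.LS.Ex
import Pool.Agent.Work.MP_1233f5_ag.Bdx.B02

/-! MP_1233f5_ag, block LS, item WAdmB: the functional of a product of blocks is admissible, with
the extra properties, for a general target. -/

set_option autoImplicit false
set_option linter.unusedSectionVars false

namespace Pool.Agent.Work.MP_1233f5_ag.LS

open Finset
open Pool.Agent.Work.MP_1233f5_ag.V (vm ML theta rVan)
open Pool.Agent.Work.MP_1233f5_ag.Y
open Pool.Agent.Work.MP_1233f5_ag.Sec (Fk wd ct ee ff hh IsSec IsDeg swd brk)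

namespace IWAdmB

open WAdmX (EtaH lv ls_dis rest_ls)

section core
variable {K : Type} [Field K] [CharZero K] {α : Type} [Fintype α] [DecidableEq α]

theorem mk_zero {B : Submodule K (Lx K α)} {x : Lx K α} (hx : x ∈ B) : B.mkQ x = 0 := by
  rw [Submodule.mkQ_apply, Submodule.Quotient.mk_eq_zero]
  exact hx

theorem asym_mk (B : Submodule K (Lx K α)) (hB : ∀ σ, ∀ x ∈ B, act K α σ x ∈ B) (Q : Finset α)
    (x : Lx K α) : asym (actB B hB) Q (B.mkQ x) = B.mkQ (asym (act K α) Q x) := by
  rw [U.asym_apply, U.asym_apply, map_sum]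
  refine sum_congr rfl fun σ _ => ?_
  rw [map_smul, actB_mk]

variable {L : List ℕ} {b : ℕ → ℕ} {η : ℕ → ℕ → α} {n : ℕ × ℕ → Finset α} {P0 : Finset α}
  {r p a q : ℕ}

/-- a product of blocks is antisymmetric in the points of each block. -/
theorem pq_anti (hPq : S_Pq) (hL : LV r univ L b η n) {j : ℕ} (hj : j ∈ L) (σ : Equiv.Perm α)
    (hσ : Sup ((range (b j + 1)).image (η j)) σ) :
    act K α σ (pq L b η n) = ((Equiv.Perm.sign σ : ℤ) : K) • pq L b η n := by
  obtain ⟨L1, L2, rfl⟩ := List.append_of_mem hj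
  have hnd := hL.nod
  have hn2 := hnd
  rw [List.nodup_append, List.nodup_cons] at hn2
  have hL1 : LV r univ L1 b η n := WXX.LV_sub hL hn2.1 (fun l hl => by simp [hl])
  have hL2 : LV r univ L2 b η n := WXX.LV_sub hL hn2.2.1.2 (fun l hl => by simp [hl])
  have hne1 : ∀ l ∈ L1, j ≠ l := by
    intro l hl e
    exact hn2.2.2 l hl j (by simp) e.symm
  have hne2 : ∀ l ∈ L2, j ≠ l := by
    rintro l hl rfl
    exact hn2.2.1.1 hl
  have hfix : ∀ l ∈ L1 ++ j :: L2, j ≠ l → ∀ x ∈ bs (b l) (η l) (fun i => n (l, i)), σ x = x := by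
    intro l hl hjl x hx
    refine hσ x fun hc => ?_
    refine Finset.disjoint_left.1 (hL.dis j hj l hl hjl) ?_ hx
    exact mem_union_left _ hc
  have h1 : act K α σ (pq L1 b η n) = pq L1 b η n := by
    refine act_eq_self (P := ls L1 b η n) (fun x hx => ?_) ((hPq K α r univ L1 b η n).1 hL1).1
    obtain ⟨l, hl, hx⟩ := mem_biUnion.1 hx
    rw [List.mem_toFinset] at hl
    exact hfix l (by simp [hl]) (hne1 l hl) x hx
  have h2 : act K α σ (pq L2 b η n) = pq L2 b η n := by
    refine act_eq_self (P := ls L2 b η n) (fun x hx => ?_) ((hPq K α r univ L2 b η n).1 hL2).1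
    obtain ⟨l, hl, hx⟩ := mem_biUnion.1 hx
    rw [List.mem_toFinset] at hl
    exact hfix l (by simp [hl]) (hne2 l hl) x hx
  have hB := hL.blk j hj
  have h3 := Ex.qn_anti (K := K) (b j) (η j) (fun i => n (j, i)) hB.inj
    (fun i hi l hl => hB.out i hi l hl) σ hσ
  rw [WXX.pq_split, act_mul, act_mul, h1, h2, h3, smul_mul_assoc, mul_smul_comm]

theorem core (hCore : S_Core) (hZz : S_Zz) (hZzN : S_ZzN) (hPq : S_Pq) (hWTwo : S_WTwoB)
    {B : Submodule K (Lx K α)} (hB : Tgt r p B) (hr : 1 ≤ r) (hq : q = a ∨ q = a + 1)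
    (hW : ∀ a' < a, WdB r p a' B)
    (he : EtaH L b η P0) (hs : (L.map b).sum + a = p) (n : ℕ × ℕ → Finset α)
    (hc : Cf r (slots L b) P0 n) :
    ∃ Φ : (Finset α → Fk K) →ₗ[K] (Lx K α ⧸ B),
      ∀ u v m, VC r (rest (slots L b) P0 n) a q u v m → Φ (sc a q u v m) =
        B.mkQ (pq L b η n * zz a u v m) := by
  have hlv := lv he hc
  have hd : Disjoint (rest (slots L b) P0 n) (ls L b η n) := rest_ls he
  have haq : a ≤ q := by omega
  have hpc := (hPq K α r univ L b η n).1 hlv
  refine hCore K α ((Lx K α ⧸ B)) (actB B hB.st) r a q (rest (slots L b) P0 n)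
    (fun u v m => B.mkQ (pq L b η n * zz a u v m))
    ?_ ?_ ?_ ?_ ?_
  · intro u u' v v' m m' h1 h2 h3
    rw [zz_congr h1 h2 fun i hi => h3 i (by omega)]
  · intro σ hσ u v m _
    rw [actB_mk, act_mul, ← (hZz K α a u v m).2.1 σ]
    rw [act_eq_self (P := ls L b η n) (fun x hx => hσ x fun hx' =>
      (Finset.disjoint_left.1 hd) hx' hx) hpc.1]
  · intro i hi u v m _
    rw [(hZz K α a u v m).2.2.1 i hi, mul_neg, map_neg]
  · have hsw : ∀ i < a, ∀ u v m, VC r (rest (slots L b) P0 n) a (a + 1) u v m →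
        B.mkQ
          (pq L b η n * zz a u v (m ∘ (Equiv.swap i a))) =
        -B.mkQ (pq L b η n * zz a u v m) := by
      intro i hi u v m hV
      have h1 := hZzN K α r a _ u v m hV i hi
      have h2 := Bd_mono (subset_univ _) (Cy_mul_Bd hd.symm hpc h1)
      rw [hs] at h2
      have h3 := mk_zero (hB.bd h2)
      rw [mul_add, map_add] at h3
      exact (neg_eq_of_add_eq_zero_right h3).symm
    intro i hi j hj hij
    by_cases hia : i < a
    · by_cases hja : j < a
      · refine ⟨Equiv.swap i j, fun l => ?_, fun u v m _ => ?_⟩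
        · by_cases hli : l = i
          · rw [hli, Equiv.swap_apply_left]
            exact ⟨fun _ => hja, fun _ => hia⟩
          · by_cases hlj : l = j
            · rw [hlj, Equiv.swap_apply_right]
              exact ⟨fun _ => hia, fun _ => hja⟩
            · rw [Equiv.swap_apply_of_ne_of_ne hli hlj]
        · rw [(hZz K α a u v m).2.2.2.1 i hia j hja hij, mul_neg, map_neg]
      · have hja' : j = a := by omega
        have hqa : q = a + 1 := by omega
        subst hqa
        subst hja'
        refine ⟨1, fun l => Iff.rfl, fun u v m hV => ?_⟩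
        exact hsw i hia u v m hV
    · have hia' : i = a := by omega
      have hqa : q = a + 1 := by omega
      subst hqa
      subst hia'
      refine ⟨1, fun l => Iff.rfl, fun u v m hV => ?_⟩
      rw [Equiv.swap_comm]
      exact hsw j (by omega) u v m hV
  · intro Q hQ hQc u v m hV
    rw [asym_mk]
    exact mk_zero (hWTwo K α r p a q B L b η n _ Q u v m hB hr hW hlv hs hd haq hV hQ hQc)
end core

end IWAdmB

theorem pr_WAdmB (hCore : S_Core) (hCsp : S_Csp) (hSwSc : S_SwSc) (hScAct : S_ScAct)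
    (hZz : S_Zz) (hZzN : S_ZzN) (hPq : S_Pq) (hWTwo : S_WTwoB) (hWX : S_WXB) (hWE : S_WE) :
    S_WAdmB := by
  intro K _ _ α _ _ r p a q B hB L b η P0 hr ha hq hW hnod htwo hinj hdis hout hs hcard
  have he : WAdmX.EtaH L b η P0 := ⟨hnod, htwo, hinj, hdis, hout⟩
  have hne : Nonempty α := by
    have h1 : 0 < P0.card := by omega
    obtain ⟨x, _⟩ := card_pos.1 h1
    exact ⟨x⟩
  obtain ⟨k, rfl⟩ : ∃ k, q = k + 1 := ⟨q - 1, by omega⟩
  obtain ⟨I, hI⟩ : ∃ I, I = slots L b := ⟨_, rfl⟩
  have hcore := IWAdmB.core hCore hZz hZzN hPq hWTwo hB hr hq hW he hs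
  choose! Ψ hΨ using hcore
  obtain ⟨nh, hnh⟩ : ∃ nh : (ℕ × ℕ → Finset α) → (ℕ × ℕ → Finset α),
    nh = fun n s => if s ∈ slots L b then n s else ∅ := ⟨_, rfl⟩
  have hnh1 : ∀ n, ∀ s ∈ slots L b, n s = nh n s := fun n s hs' => by
    rw [hnh]
    beta_reduce
    rw [if_pos hs']
  have val : ∀ n, Cf r (slots L b) P0 n → ∀ u v m, VC r (rest (slots L b) P0 n) a (k + 1) u v m →
      Ψ (nh n) (sc a (k + 1) u v m) =
        B.mkQ (pq L b η n * zz a u v m) := by
    intro n hn u v m hV
    have h1 := U.cf_congr (hnh1 n) hn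
    have h2 : rest (slots L b) P0 n = rest (slots L b) P0 (nh n) := U.rest_congr (hnh1 n)
    rw [h2] at hV
    rw [hΨ (nh n) h1 u v m hV]
    congr 2
    exact pq_congr (fun _ _ => rfl) (fun _ _ _ _ => rfl) fun j hj i hi =>
      (hnh1 n _ (WAdmX.mem_slots.2 ⟨hj, hi⟩)).symm
  rw [Nat.add_sub_cancel]
  refine ⟨fun n => Ψ (nh n), ⟨?_, ?_, ?_⟩, ?_, val⟩
  · intro n n' h
    congr 1
    rw [hnh]
    funext s
    beta_reduce
    by_cases hs' : s ∈ slots L b
    · rw [if_pos hs', if_pos hs', h s hs']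
    · rw [if_neg hs', if_neg hs']
  · intro σ hσ n hn s hs'
    have hcR : (rest (slots L b) P0 n).card = 2 * a + (k + 1) * r := by
      have h1 := U.card_rest hn
      omega
    rw [hCsp K α r a (k + 1) _ hcR] at hs'
    induction hs' using Submodule.span_induction with
    | mem x hx =>
      obtain ⟨u, v, m, hV, rfl⟩ := hx
      obtain ⟨h1, h2⟩ := hScAct K α a (k + 1) u v m σ
      have h3 := h2 r _ hV
      rw [← U.rest_im hσ] at h3
      rw [h1, val _ (U.cf_im hσ hn) _ _ _ h3, val n hn u v m hV, actB_mk, act_mul,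
        (hPq K α r univ L b η n).2 σ, (hZz K α a u v m).2.1 σ]
      congr 2
      exact pq_congr (fun _ _ => rfl) (fun j hj i hi => (hσ _ (hout j hj i hi)).symm)
        fun _ _ _ _ => rfl
    | zero => rw [map_zero, map_zero, map_zero, map_zero]
    | add x y _ _ hx hy => rw [map_add, map_add, map_add, map_add, hx, hy]
    | smul c x _ hx => rw [map_smul, map_smul, map_smul, map_smul, hx]
  · intro j hj n hn m0 hm0 hm0c x hx
    have hjL : j ∈ L := by
      obtain ⟨s, hs', rfl⟩ := mem_image.1 hj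
      exact (WAdmX.mem_slots.1 hs').1
    have hcR : (rest (slots L b) P0 n \ m0).card = 2 * a + k * r := by
      have h1 := U.card_rest hn
      rw [card_sdiff_of_subset hm0]
      have h2 : (k + 1) * r = k * r + r := by ring
      omega
    obtain ⟨T, hT⟩ : ∃ T : (Finset α → Fk K) →ₗ[K] (Lx K α ⧸ B),
      T = (Ψ (nh n)).comp (U.swdL m0) + ∑ i ∈ sl (slots L b) j,
        (Ψ (nh (Function.update n i m0))).comp (U.swdL (n i)) := ⟨_, rfl⟩
    have hTx : ∀ x, T x = Ψ (nh n) (swd m0 x) + ∑ i ∈ sl (slots L b) j,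
        Ψ (nh (Function.update n i m0)) (swd (n i) x) := fun x => by
      rw [hT, LinearMap.add_apply, LinearMap.sum_apply]
      rfl
    rw [← hTx]
    rw [hCsp K α r a k _ hcR] at hx
    have hle : Submodule.span K {s | ∃ u v m, VC r (rest (slots L b) P0 n \ m0) a k u v m ∧
        s = sc a k u v m} ≤ LinearMap.ker T := by
      rw [Submodule.span_le]
      rintro _ ⟨u, v, m, hV, rfl⟩
      show T _ = 0
      rw [hTx]
      obtain ⟨h1, h2⟩ := hSwSc K α r a k _ m0 u v m hV disjoint_sdiff
      have h3 := h2 hm0c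
      rw [sdiff_union_of_subset hm0] at h3
      have h4 : ∀ i ∈ sl (slots L b) j, Ψ (nh (Function.update n i m0)) (swd (n i)
          (sc a k u v m)) = B.mkQ
            (pq L b η (Function.update n i m0) * zz a u v (cns (n i) m)) := by
        intro i hi
        have hiI : i ∈ slots L b := (mem_filter.1 hi).1
        obtain ⟨g1, g2⟩ := hSwSc K α r a k _ (n i) u v m hV
          ((U.rest_disj hiI).symm.mono_right sdiff_subset)
        have g3 := g2 (hn.1 i hiI).1
        rw [← U.rest_update hiI hn hm0] at g3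
        rw [g1, val _ (U.cf_update hn hm0 hm0c) _ _ _ g3]
      rw [sum_congr rfl h4, h1, val n hn _ _ _ h3, ← map_sum, ← map_add]
      refine IWAdmB.mk_zero ?_
      rw [WAdmX.sl_slots hjL, sum_image (fun i _ i' _ h => (Prod.ext_iff.1 h).2)]
      refine hWX K α r p a k B L b η n (rest (slots L b) P0 n \ m0) u v m m0 j hB hW
        (WAdmX.lv he hn) hs hjL ?_ disjoint_sdiff ?_ hm0c ha (by omega) hV
      · exact (WAdmX.rest_ls he).mono_left sdiff_subset
      · exact (WAdmX.rest_ls he).mono_left hm0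
    exact hle hx
  · have hcR : ∀ n, Cf r (slots L b) P0 n →
        (rest (slots L b) P0 n).card = 2 * a + (k + 1) * r := by
      intro n hn
      have h1 := U.card_rest hn
      omega
    have hspan : ∀ (n : ℕ × ℕ → Finset α), Cf r (slots L b) P0 n →
        ∀ (W : Submodule K (Lx K α ⧸ B)), (∀ u v m, VC r (rest (slots L b) P0 n) a (k + 1) u v m →
          B.mkQ (pq L b η n * zz a u v m) ∈ W) →
        ∀ s ∈ Sc K r (k + 1) (rest (slots L b) P0 n), Ψ (nh n) s ∈ W := by
      intro n hn W h s hs'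
      rw [hCsp K α r a (k + 1) _ (hcR n hn)] at hs'
      induction hs' using Submodule.span_induction with
      | mem x hx =>
        obtain ⟨u, v, m, hV, rfl⟩ := hx
        rw [val n hn u v m hV]
        exact h u v m hV
      | zero => rw [map_zero]; exact Submodule.zero_mem _
      | add x y _ _ hx hy => rw [map_add]; exact Submodule.add_mem _ hx hy
      | smul c x _ hx => rw [map_smul]; exact Submodule.smul_mem _ _ hx
    refine ⟨?_, ?_, ?_⟩
    · intro n hn s hs'
      refine hspan n hn (VB r p B) (fun u v m hV => ?_) s hs'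
      have h1 := (hPq K α r univ L b η n).1 (WAdmX.lv he hn)
      have h2 := (hZz K α a u v m).2.2.2.2 r (k + 1) _ hV (by omega)
      have h3 := Cy_mono (subset_univ _) (Cy_mul (WAdmX.rest_ls he).symm h1 h2)
      rw [hs] at h3
      exact Submodule.mem_map_of_mem h3
    · intro n hn s hs' j hj σ hσ
      rw [List.mem_toFinset] at hj
      have hW := hspan n hn (LinearMap.ker ((actB B hB.st σ : Module.End K (Lx K α ⧸ B)) -
        ((Equiv.Perm.sign σ : ℤ) : K) • (LinearMap.id : (Lx K α ⧸ B) →ₗ[K] (Lx K α ⧸ B))))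
        (fun u v m hV => ?_) s hs'
      · rw [LinearMap.mem_ker, LinearMap.sub_apply, LinearMap.smul_apply, LinearMap.id_apply,
          sub_eq_zero] at hW
        exact hW
      · have h2 := (hZz K α a u v m).2.2.2.2 r (k + 1) _ hV (by omega)
        have h3 : act K α σ (zz a u v m) = zz a u v m := by
          refine act_eq_self (fun x hx => hσ x fun hc => ?_) h2.1
          obtain ⟨i, hi, rfl⟩ := mem_image.1 hc
          exact hout j hj i (Nat.le_of_lt_succ (mem_range.1 hi)) (U.rest_sub hx)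
        rw [LinearMap.mem_ker, LinearMap.sub_apply, LinearMap.smul_apply, LinearMap.id_apply,
          sub_eq_zero, actB_mk, act_mul, h3, IWAdmB.pq_anti hPq (WAdmX.lv he hn) hj σ hσ,
          smul_mul_assoc, map_smul]
    · intro n hn s hs' y hy j hj
      rw [List.mem_toFinset] at hj
      have hW' := hspan n hn (LinearMap.ker (asym (actB B hB.st)
        (insert y ((range (b j + 1)).image (η j))))) (fun u v m hV => ?_) s hs'
      · exact hW'
      · rw [LinearMap.mem_ker, IWAdmB.asym_mk]
        exact IWAdmB.mk_zero (hWE K α r p a (k + 1) B L b η n _ u v m j y hB hr hW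
          (WAdmX.lv he hn) hs (WAdmX.rest_ls he) ha (by omega) hV hj hy)

end Pool.Agent.Work.MP_1233f5_ag.LS
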