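import Pool.Agent.Work.MP_1233f5_ag.LS.Ex
import Pool.Agent.Work.MP_1233f5_ag.Bdx.B02
import Pool.Agent.Work.MP_1233f5_ag.Bdx.B03

/-! MP_1233f5_ag, block LS, item WE: the antisymmetrization over the points of a block and a point
of the core lies in the target. -/

set_option autoImplicit false
set_option linter.unusedSectionVars false

namespace Pool.Agent.Work.MP_1233f5_ag.LS

open Finset
open Pool.Agent.Work.MP_1233f5_ag.V (vm ML theta rVan)
open Pool.Agent.Work.MP_1233f5_ag.Y
open Pool.Agent.Work.MP_1233f5_ag.Z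
open Pool.Agent.Work.MP_1233f5_ag.Sec (Fk wd ct ee ff hh IsSec IsDeg swd brk)

namespace IWE

section
variable {K : Type} [Field K] {α : Type} [Fintype α] [DecidableEq α]

open Classical in
/-- right multiplication by an element fixed by the permutations. -/
theorem asym_mul_right {Q : Finset α} {x : Lx K α} (y : Lx K α)
    (h : ∀ σ, Sup Q σ → act K α σ x = x) :
    asym (act K α) Q (y * x) = asym (act K α) Q y * x := by
  rw [U.asym_apply, U.asym_apply, Finset.sum_mul]
  refine Finset.sum_congr rfl fun σ hσ => ?_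
  have h1 : Sup Q σ := (mem_filter.1 hσ).2
  rw [act_mul, h σ h1, smul_mul_assoc]

/-- a stable submodule is stable under antisymmetrization. -/
theorem asym_mem {B : Submodule K (Lx K α)} (hB : ∀ σ, ∀ x ∈ B, act K α σ x ∈ B) (Q : Finset α)
    {x : Lx K α} (hx : x ∈ B) : asym (act K α) Q x ∈ B := by
  classical
  rw [U.asym_apply]
  exact Submodule.sum_mem _ fun σ _ => Submodule.smul_mem _ _ (hB σ x hx)

variable {r p a q : ℕ} {B : Submodule K (Lx K α)} {L : List ℕ} {b : ℕ → ℕ} {η : ℕ → ℕ → α}
  {n : ℕ × ℕ → Finset α} {R : Finset α} {j : ℕ}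

/-- the case of the point `u 0`. -/
theorem case_zero (hQU : S_QU) (hZz : S_Zz) (hPq : S_Pq) (hQCy : S_QCy)
    {u v : ℕ → α} {m : ℕ → Finset α}
    (hW : ∀ a' < a + 1, WdB r p a' B) (hL : LV r univ L b η n) (hp : (L.map b).sum + (a + 1) = p)
    (hRL : Disjoint R (ls L b η n)) (haq : a + 1 ≤ q) (hV : VC r R (a + 1) q u v m) (hj : j ∈ L) :
    asym (act K α) (insert (u 0) ((range (b j + 1)).image (η j)))
      (pq L b η n * zz (a + 1) u v m) ∈ B := by
  obtain ⟨L1, L2, rfl⟩ := List.append_of_mem hj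
  have hnd := hL.nod
  have hn2 := hnd
  rw [List.nodup_append, List.nodup_cons] at hn2
  obtain ⟨Q, hQ⟩ : ∃ Q : Finset α, Q = insert (u 0) ((range (b j + 1)).image (η j)) := ⟨_, rfl⟩
  obtain ⟨Z, hZ⟩ : ∃ Z : Lx K α, Z = zz a (fun i => u (i + 1)) (fun i => v (i + 1))
    (fun i => m (i + 1)) := ⟨_, rfl⟩
  have hz : (zz (a + 1) u v m : Lx K α) =
      (ed (insert (u 0) (m 0)) - ed (insert (v 0) (m 0))) * Z := by
    rw [hZ]
    exact (hZz K α a u v m).1
  obtain ⟨S, hS⟩ : ∃ S : Finset α, S = (range a).image (fun i => u (i + 1)) ∪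
        (range a).image (fun i => v (i + 1)) ∪ (range a).biUnion (fun i => m (i + 1)) := ⟨_, rfl⟩
  have hκ : Z ∈ Cy K (r + 1) S a := by
    rw [hZ, hS]
    refine (hZz K α a _ _ _).2.2.2.2 r a _ ?_ le_rfl
    refine ⟨fun i hi => hV.card (i + 1) (by omega),
      fun i hi l hl hil => hV.dis (i + 1) (by omega) (l + 1) (by omega) (by omega),
      fun i hi l hl e => ?_, fun i hi l hl e => ?_,
      fun i hi l hl => hV.uv (i + 1) (by omega) (l + 1) (by omega),
      fun i hi l hl => hV.uout (i + 1) (by omega) (l + 1) (by omega),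
      fun i hi l hl => hV.vout (i + 1) (by omega) (l + 1) (by omega), rfl⟩
    · have := hV.uinj (i + 1) (by omega) (l + 1) (by omega) e
      omega
    · have := hV.vinj (i + 1) (by omega) (l + 1) (by omega) e
      omega
  have hu0 : u 0 ∈ R := G1X.VC.u_mem hV (by omega)
  have hv0 : v 0 ∈ R := G1X.VC.v_mem hV (by omega)
  have hm0 : m 0 ⊆ R := G1X.VC.m_sub hV (by omega)
  have hSR : ∀ y ∈ S, y ∈ R ∧ y ≠ u 0 ∧ y ∉ m 0 := by
    intro y hy
    rw [hS, mem_union, mem_union, mem_image, mem_image, mem_biUnion] at hy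
    rcases hy with (⟨i, hi, rfl⟩ | ⟨i, hi, rfl⟩) | ⟨i, hi, hy⟩
    · rw [mem_range] at hi
      refine ⟨G1X.VC.u_mem hV (by omega), fun e => ?_, hV.uout (i + 1) (by omega) 0 (by omega)⟩
      have := hV.uinj (i + 1) (by omega) 0 (by omega) e
      omega
    · rw [mem_range] at hi
      exact ⟨G1X.VC.v_mem hV (by omega), fun e => hV.uv 0 (by omega) (i + 1) (by omega) e.symm,
        hV.vout (i + 1) (by omega) 0 (by omega)⟩
    · rw [mem_range] at hi
      refine ⟨G1X.VC.m_sub hV (i := i + 1) (by omega) hy, ?_, ?_⟩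
      · rintro rfl
        exact hV.uout 0 (by omega) (i + 1) (by omega) hy
      · intro hc
        exact Finset.disjoint_left.1 (hV.dis (i + 1) (by omega) 0 (by omega) (by omega)) hy hc
  have hRl : ∀ x ∈ R, x ∉ ls (L1 ++ j :: L2) b η n := fun x hx => disjoint_left.1 hRL hx
  have hlsb : ∀ l ∈ L1 ++ j :: L2, ∀ x ∈ bs (b l) (η l) (fun i => n (l, i)),
      x ∈ ls (L1 ++ j :: L2) b η n := fun l hl x hx => WXX.mem_ls.2 ⟨l, hl, hx⟩
  -- fixed elements
  have hfix : ∀ l ∈ L1 ++ j :: L2, j ≠ l → ∀ x ∈ bs (b l) (η l) (fun i => n (l, i)),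
      x ∉ Q := by
    intro l hl hjl x hx hc
    rw [hQ, mem_insert] at hc
    rcases hc with rfl | hc
    · exact hRl _ hu0 (hlsb l hl _ hx)
    · exact Finset.disjoint_left.1 (hL.dis j hj l hl hjl) (mem_union_left _ hc) hx
  have hL1 : LV r univ L1 b η n := WXX.LV_sub hL hn2.1 (fun l hl => by simp [hl])
  have hL2 : LV r univ L2 b η n := WXX.LV_sub hL hn2.2.1.2 (fun l hl => by simp [hl])
  have hne1 : ∀ l ∈ L1, j ≠ l := by
    intro l hl e
    exact hn2.2.2 l hl j (by simp) e.symm
  have hne2 : ∀ l ∈ L2, j ≠ l := by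
    rintro l hl rfl
    exact hn2.2.1.1 hl
  have hX1 := ((hPq K α r univ L1 b η n).1 hL1).1
  have hX2 := ((hPq K α r univ L2 b η n).1 hL2).1
  have h1 : ∀ σ, Sup Q σ → act K α σ (pq L1 b η n) = pq L1 b η n := by
    intro σ hσ
    refine act_eq_self (P := ls L1 b η n) (fun x hx => ?_) hX1
    obtain ⟨l, hl, hx⟩ := mem_biUnion.1 hx
    rw [List.mem_toFinset] at hl
    exact hσ x (hfix l (by simp [hl]) (hne1 l hl) x hx)
  have h2 : ∀ σ, Sup Q σ → act K α σ (pq L2 b η n) = pq L2 b η n := by
    intro σ hσ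
    refine act_eq_self (P := ls L2 b η n) (fun x hx => ?_) hX2
    obtain ⟨l, hl, hx⟩ := mem_biUnion.1 hx
    rw [List.mem_toFinset] at hl
    exact hσ x (hfix l (by simp [hl]) (hne2 l hl) x hx)
  have h3 : ∀ σ, Sup Q σ → act K α σ Z = Z := by
    intro σ hσ
    refine act_eq_self (P := S) (fun x hx => hσ x ?_) hκ.1
    intro hc
    rw [hQ, mem_insert] at hc
    rcases hc with hc | hc
    · exact (hSR x hx).2.1 hc
    · exact hRl x (hSR x hx).1 (hlsb j hj x (mem_union_left _ hc))
  have hBj := hL.blk j hj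
  -- the block and the first factor
  have hηR : ∀ i ≤ b j, η j i ∉ R := by
    intro i hi hc
    exact hRl _ hc (hlsb j hj _ (mem_union_left _ (mem_image_of_mem _
      (mem_range.2 (Nat.lt_succ_of_le hi)))))
  have hnR : ∀ i < b j, Disjoint R (n (j, i)) := by
    intro i hi
    rw [Finset.disjoint_left]
    intro x hx hc
    exact hRl _ hx (hlsb j hj _ (mem_union_right _ (mem_biUnion.2 ⟨i, mem_range.2 hi, hc⟩)))
  obtain ⟨N, hN⟩ := hQU K α r (b j) (η j) (u 0) (v 0) (fun i => n (j, i)) (m 0) hBj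
    (hV.uv 0 (by omega) 0 (by omega))
    (fun i hi e => hηR i hi (by rw [e]; exact hu0))
    (fun i hi e => hηR i hi (by rw [e]; exact hv0))
    (fun i hi hc => hηR i hi (hm0 hc))
    (hV.uout 0 (by omega) 0 (by omega)) (hV.vout 0 (by omega) 0 (by omega))
    (fun i hi hc => disjoint_left.1 (hnR i hi) hu0 hc)
    (fun i hi hc => disjoint_left.1 (hnR i hi) hv0 hc)
    (fun i hi => (hnR i hi).mono_left hm0)
  have hc0 := mul_comm_graded hX2 (hQCy K α r (b j) univ (η j) (fun i => n (j, i)) hBj).1
  obtain ⟨ε, hε⟩ : ∃ ε : K, (qn (b j) (η j) (fun i => n (j, i)) : Lx K α) * pq L2 b η n =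
      ε • (pq L2 b η n * qn (b j) (η j) (fun i => n (j, i))) := ⟨_, hc0⟩
  have key : (pq (L1 ++ j :: L2) b η n * zz (a + 1) u v m : Lx K α) =
      ε • (pq L1 b η n * (pq L2 b η n * ((qn (b j) (η j) (fun i => n (j, i)) *
        (ed (insert (u 0) (m 0)) - ed (insert (v 0) (m 0)))) * Z))) := by
    rw [WXX.pq_split, hz, hε, mul_smul_comm, smul_mul_assoc]
    simp only [mul_assoc]
  rw [← hQ, key, map_smul, WTwoX.asym_mul _ h1, WTwoX.asym_mul _ h2, asym_mul_right _ h3]
  rw [← hQ] at hN
  rw [hN, smul_mul_assoc, mul_smul_comm, mul_smul_comm]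
  refine Submodule.smul_mem _ _ (Submodule.smul_mem _ _ ?_)
  have hwL : u 0 ∉ ls (L1 ++ j :: L2) b η n := hRl _ hu0
  have hmL : Disjoint (m 0) (ls (L1 ++ j :: L2) b η n) := hRL.mono_left hm0
  have hfin := hW a (by omega) (L1 ++ L2 ++ [j]) (WXX.eb b j) (WXX.ep b η j (u 0))
    (WXX.en b n j (m 0))
    (WXX.LV_ext hL hwL (mem_univ _) hmL (subset_univ _) (hV.uout 0 (by omega) 0 (by omega))
      (hV.card 0 (by omega)))
    (by rw [WXX.sum_ext hL.nod]; omega) Z
    (Cy_mono (fun y hy => by
        rw [mem_sdiff]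
        refine ⟨mem_univ _, fun hc => ?_⟩
        rcases WXX.ls_ext hc with h4 | h4 | h4
        · exact (hSR y hy).2.1 h4
        · exact (hSR y hy).2.2 h4
        · exact hRl y (hSR y hy).1 h4) hκ)
  rw [WXX.pq_ext hL.nod] at hfin
  simpa only [mul_assoc] using hfin

/-- the case of a point `u i`. -/
theorem case_u (hQU : S_QU) (hZz : S_Zz) (hPq : S_Pq) (hQCy : S_QCy)
    {u v : ℕ → α} {m : ℕ → Finset α}
    (hW : ∀ a' < a, WdB r p a' B) (hL : LV r univ L b η n) (hp : (L.map b).sum + a = p)
    (hRL : Disjoint R (ls L b η n)) (haq : a ≤ q) (hV : VC r R a q u v m) (hj : j ∈ L)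
    {i : ℕ} (hi : i < a) :
    asym (act K α) (insert (u i) ((range (b j + 1)).image (η j)))
      (pq L b η n * zz a u v m) ∈ B := by
  obtain ⟨a, rfl⟩ : ∃ a', a = a' + 1 := ⟨a - 1, by omega⟩
  rcases Nat.eq_zero_or_pos i with rfl | hi0
  · exact case_zero hQU hZz hPq hQCy hW hL hp hRL haq hV hj
  · have hV' : VC r R (a + 1) q (u ∘ Equiv.swap 0 i) (v ∘ Equiv.swap 0 i)
        (m ∘ Equiv.swap 0 i) :=
      CoreX.VC_perm hV (fun l => (CoreX.swap_lt (by omega) hi l).symm) (by omega) (by omega)
    have h1 := case_zero hQU hZz hPq hQCy hW hL hp hRL haq hV' hj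
    have h2 := (hZz K α (a + 1) u v m).2.2.2.1 0 (by omega) i hi (by omega)
    rw [h2, mul_neg, map_neg, Function.comp_apply, Equiv.swap_apply_left] at h1
    exact (Submodule.neg_mem_iff _).1 h1

/-- the case of a point `v i`. -/
theorem case_v (hQU : S_QU) (hZz : S_Zz) (hPq : S_Pq) (hQCy : S_QCy)
    {u v : ℕ → α} {m : ℕ → Finset α}
    (hW : ∀ a' < a, WdB r p a' B) (hL : LV r univ L b η n) (hp : (L.map b).sum + a = p)
    (hRL : Disjoint R (ls L b η n)) (haq : a ≤ q) (hV : VC r R a q u v m) (hj : j ∈ L)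
    {i : ℕ} (hi : i < a) :
    asym (act K α) (insert (v i) ((range (b j + 1)).image (η j)))
      (pq L b η n * zz a u v m) ∈ B := by
  have h1 := case_u hQU hZz hPq hQCy hW hL hp hRL haq (CoreX.VC_flip hV hi) hj hi
  have h2 := (hZz K α a u v m).2.2.1 i hi
  rw [h2, mul_neg, map_neg, Function.update_self] at h1
  exact (Submodule.neg_mem_iff _).1 h1

end

end IWE

open IWE in
theorem pr_WE (hAsI : S_AsI) (hQU : S_QU) (hTwo : S_WTwoB) (hZz : S_Zz) (hPq : S_Pq)
    (hQCy : S_QCy) : S_WE := by
  intro K _ _ α _ _ r p a q B L b η n R u v m j y hB hr hW hL hp hRL ha haq hV hj hy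
  have hy' := hy
  rw [← hV.cov, mem_union, mem_union, mem_image, mem_image, mem_biUnion] at hy
  rcases hy with (⟨i, hi, rfl⟩ | ⟨i, hi, rfl⟩) | ⟨i, hi, hy⟩
  · exact case_u hQU hZz hPq hQCy hW hL hp hRL haq hV hj (mem_range.1 hi)
  · exact case_v hQU hZz hPq hQCy hW hL hp hRL haq hV hj (mem_range.1 hi)
  · rw [mem_range] at hi
    have hu0 : u 0 ∈ R := G1X.VC.u_mem hV (by omega)
    have hv0 : v 0 ∈ R := G1X.VC.v_mem hV (by omega)
    have hyu : y ≠ u 0 := by
      rintro rfl
      exact hV.uout 0 (by omega) i hi hy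
    have hyv : y ≠ v 0 := by
      rintro rfl
      exact hV.vout 0 (by omega) i hi hy
    have huv : u 0 ≠ v 0 := hV.uv 0 (by omega) 0 (by omega)
    obtain ⟨w, hw⟩ : ∃ w : Lx K α, w = pq L b η n * zz a u v m := ⟨_, rfl⟩
    have hnL : ∀ x ∈ R, x ∉ ls L b η n := fun x hx => disjoint_left.1 hRL hx
    have hpqf : ∀ σ : Equiv.Perm α, Sup R σ → act K α σ (pq L b η n) = pq L b η n := by
      intro σ hσ
      refine act_eq_self (P := ls L b η n) (fun x hx => hσ x fun hc => hnL x hc hx)
        ((hPq K α r univ L b η n).1 hL).1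
    have hsup : ∀ x ∈ R, ∀ x' ∈ R, Sup R (Equiv.swap x x') := by
      intro x hx x' hx' z hz
      refine Equiv.swap_apply_of_ne_of_ne ?_ ?_
      · rintro rfl
        exact hz hx
      · rintro rfl
        exact hz hx'
    have hact : ∀ σ : Equiv.Perm α, Sup R σ → act K α σ w =
        pq L b η n * zz a (fun i => σ (u i)) (fun i => σ (v i)) (fun i => im σ (m i)) := by
      intro σ hσ
      rw [hw, act_mul, hpqf σ hσ, (hZz K α a u v m).2.1 σ]
    have hVσ : ∀ σ : Equiv.Perm α, Sup R σ →
        VC r R a q (fun i => σ (u i)) (fun i => σ (v i)) (fun i => im σ (m i)) := by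
      intro σ hσ
      have h1 := G1X.VC.act hV σ
      rwa [U.sup_im hσ] at h1
    -- antisymmetry in `u 0, v 0`
    have hswap : act K α (Equiv.swap (u 0) (v 0)) w = -w := by
      rw [hact _ (hsup _ hu0 _ hv0)]
      have h1 := (hZz K α a u v m).2.2.1 0 (by omega)
      rw [hw, ← mul_neg, ← h1]
      congr 1
      refine zz_congr (fun l hl => ?_) (fun l hl => ?_) (fun l hl => ?_)
      · rcases Nat.eq_zero_or_pos l with rfl | hl0
        · rw [Function.update_self, Equiv.swap_apply_left]
        · rw [Function.update_of_ne (by omega)]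
          refine Equiv.swap_apply_of_ne_of_ne (fun e => ?_) (hV.uv l hl 0 (by omega))
          have := hV.uinj l hl 0 (by omega) e
          omega
      · rcases Nat.eq_zero_or_pos l with rfl | hl0
        · rw [Function.update_self, Equiv.swap_apply_right]
        · rw [Function.update_of_ne (by omega)]
          refine Equiv.swap_apply_of_ne_of_ne (fun e => hV.uv 0 (by omega) l hl e.symm)
            (fun e => ?_)
          have := hV.vinj l hl 0 (by omega) e
          omega
      · refine im_eq_self fun x hx => Equiv.swap_apply_of_ne_of_ne ?_ ?_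
        · rintro rfl
          exact hV.uout 0 (by omega) l (by omega) hx
        · rintro rfl
          exact hV.vout 0 (by omega) l (by omega) hx
    have hanti : ∀ σ, Sup ({u 0, v 0} : Finset α) σ →
        act K α σ w = ((Equiv.Perm.sign σ : ℤ) : K) • w := by
      intro σ hσ
      have hin : ∀ x ∈ ({u 0, v 0} : Finset α), σ x ∈ ({u 0, v 0} : Finset α) := by
        intro x hx
        by_contra hc
        have h1 := σ.injective (hσ _ hc)
        rw [h1] at hc
        exact hc hx
      have h1 := hin (u 0) (by simp)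
      have h2 := hin (v 0) (by simp)
      rw [mem_insert, mem_singleton] at h1 h2
      have hcase : σ = 1 ∨ σ = Equiv.swap (u 0) (v 0) := by
        rcases h1 with h1 | h1
        · left
          apply Equiv.ext
          intro z
          rw [Equiv.Perm.one_apply]
          by_cases hz : z ∈ ({u 0, v 0} : Finset α)
          · rw [mem_insert, mem_singleton] at hz
            rcases hz with rfl | rfl
            · exact h1
            · rcases h2 with h2 | h2
              · exact absurd (σ.injective (h2.trans h1.symm)) huv.symm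
              · exact h2
          · exact hσ z hz
        · right
          apply Equiv.ext
          intro z
          by_cases hz : z ∈ ({u 0, v 0} : Finset α)
          · rw [mem_insert, mem_singleton] at hz
            rcases hz with rfl | rfl
            · rw [Equiv.swap_apply_left, h1]
            · rw [Equiv.swap_apply_right]
              rcases h2 with h2 | h2
              · exact h2
              · exact absurd (σ.injective (h2.trans h1.symm)) huv.symm
          · rw [hσ z hz]
            rw [mem_insert, mem_singleton, not_or] at hz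
            rw [Equiv.swap_apply_of_ne_of_ne hz.1 hz.2]
      rcases hcase with rfl | rfl
      · rw [map_one, Equiv.Perm.sign_one]
        simp
      · rw [hswap, Equiv.Perm.sign_swap huv]
        simp
    have hyQ : y ∉ ({u 0, v 0} : Finset α) := by
      rw [mem_insert, mem_singleton, not_or]
      exact ⟨hyu, hyv⟩
    have h1 := hAsI K α (Lx K α) (act K α) {u 0, v 0} y w hyQ hanti
    have hsub : insert y ({u 0, v 0} : Finset α) ⊆ R := by
      intro x hx
      rw [mem_insert, mem_insert, mem_singleton] at hx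
      rcases hx with rfl | rfl | rfl
      · exact hy'
      · exact hu0
      · exact hv0
    have hc3 : (insert y ({u 0, v 0} : Finset α)).card = 3 := by
      rw [card_insert_of_notMem hyQ, card_pair huv]
    have h2 := hTwo K α r p a q B L b η n R (insert y {u 0, v 0}) u v m hB hr hW hL hp hRL haq hV
      hsub hc3
    rw [← hw, h1, card_pair huv, sum_pair huv] at h2
    have h3 : w - (act K α (Equiv.swap (u 0) y) w + act K α (Equiv.swap (v 0) y) w) ∈ B := by
      have h4 := Submodule.smul_mem _ ((Nat.factorial 2 : K)⁻¹) h2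
      rwa [smul_smul, inv_mul_cancel₀ (by simp), one_smul] at h4
    rw [← hw]
    have e1 : w = (w - (act K α (Equiv.swap (u 0) y) w + act K α (Equiv.swap (v 0) y) w)) +
        (act K α (Equiv.swap (u 0) y) w + act K α (Equiv.swap (v 0) y) w) := by abel
    rw [e1, map_add, map_add]
    refine Submodule.add_mem _ (asym_mem hB.st _ h3) (Submodule.add_mem _ ?_ ?_)
    · rw [hact _ (hsup _ hu0 _ hy')]
      have h5 := case_u hQU hZz hPq hQCy hW hL hp hRL haq (hVσ _ (hsup _ hu0 _ hy')) hj
        (i := 0) (by omega)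
      rwa [Equiv.swap_apply_left] at h5
    · rw [hact _ (hsup _ hv0 _ hy')]
      have h5 := case_v hQU hZz hPq hQCy hW hL hp hRL haq (hVσ _ (hsup _ hv0 _ hy')) hj
        (i := 0) (by omega)
      rwa [Equiv.swap_apply_left] at h5

end Pool.Agent.Work.MP_1233f5_ag.LS
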