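import Pool.Agent.Work.MP_1233f5_ag.LS.Stmts
import Pool.Agent.Work.MP_1233f5_ag.Bdx.B04

/-! MP_1233f5_ag, block LS, item WStepB: the induction step with target `B`. -/

set_option autoImplicit false
set_option linter.unusedSectionVars false

namespace Pool.Agent.Work.MP_1233f5_ag.LS

open Finset
open Pool.Agent.Work.MP_1233f5_ag.Y
open Pool.Agent.Work.MP_1233f5_ag.Sec (Fk wd ct ee ff hh IsSec IsDeg swd brk)

namespace IWStepB

section main
variable {K : Type} [Field K] [CharZero K] {α : Type} [Fintype α] [DecidableEq α]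
variable {r p a q : ℕ} {L : List ℕ} {b : ℕ → ℕ} {η : ℕ → ℕ → α} {n : ℕ × ℕ → Finset α}

/-- the main case. -/
theorem big (hLemL : S_LemLp) (hWAdm : S_WAdmB) (B : Submodule K (Lx K α)) (hB : Tgt r p B)
    (hr : 1 ≤ r) (hq : q = a ∨ q = a + 1)
    (hW : ∀ a' < a, WdB r p a' B) (h : LV r univ L b η n) (hs : (L.map b).sum + a = p)
    {R : Finset α} (hR : Disjoint R (ls L b η n)) {u v : ℕ → α} {m : ℕ → Finset α}
    (hV : VC r R a q u v m) (h1 : 2 + ∑ j ∈ L.toFinset, (b j - 2) ≤ a) (c δ : ℕ)
    (hNS : NoSym (actB B hB.st) (VB r p B) c)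
    (hδ : δ = 0 ∨ (δ = r ∧ q + L.toFinset.card = r))
    (h2 : 2 * c + 2 * p ≤ r * (L.toFinset.card + q) + 4 * (a + L.toFinset.card) + 1 + δ) :
    (pq L b η n * zz a u v m : Lx K α) ∈ B := by
  obtain ⟨k, rfl⟩ : ∃ k, q = k + 1 := ⟨q - 1, by omega⟩
  have hRls : ∀ x ∈ R, x ∉ ls L b η n := fun x hx hx' => (Finset.disjoint_left.1 hR) hx hx'
  have hbs : ∀ j ∈ L, ∀ x, x ∈ bs (b j) (η j) (fun i => n (j, i)) → x ∈ ls L b η n := by
    intro j hj x hx
    exact mem_biUnion.2 ⟨j, List.mem_toFinset.2 hj, hx⟩
  have hηb : ∀ j ∈ L, ∀ i ≤ b j, η j i ∈ bs (b j) (η j) (fun i => n (j, i)) :=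
    fun j hj i hi => WAdmX.mem_bs.2 (Or.inl ⟨i, hi, rfl⟩)
  have hnb : ∀ j ∈ L, ∀ i < b j, n (j, i) ⊆ bs (b j) (η j) (fun i => n (j, i)) :=
    fun j hj i hi x hx => WAdmX.mem_bs.2 (Or.inr ⟨i, hi, hx⟩)
  obtain ⟨P0, hP0⟩ : ∃ P0, P0 = R ∪ (slots L b).biUnion n := ⟨_, rfl⟩
  have hRn : ∀ s ∈ slots L b, Disjoint R (n s) := by
    intro s hs'
    obtain ⟨hj, hi⟩ := WAdmX.mem_slots.1 hs'
    exact hR.mono_right fun x hx => hbs s.1 hj x (hnb s.1 hj s.2 hi hx)
  have hRU : Disjoint R ((slots L b).biUnion n) := by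
    rw [disjoint_biUnion_right]
    exact hRn
  have hnn : ∀ s ∈ slots L b, ∀ s' ∈ slots L b, s ≠ s' → Disjoint (n s) (n s') := by
    rintro ⟨j, i⟩ hs' ⟨j', i'⟩ hs'' hne
    obtain ⟨hj, hi⟩ := WAdmX.mem_slots.1 hs'
    obtain ⟨hj', hi'⟩ := WAdmX.mem_slots.1 hs''
    by_cases hjj : j = j'
    · subst hjj
      exact (h.blk j hj).dis i hi i' hi' fun t => hne (by rw [t])
    · exact (h.dis j hj j' hj' hjj).mono (hnb j hj i hi) (hnb j' hj' i' hi')
  have hnc : ∀ s ∈ slots L b, (n s).card = r := by
    rintro ⟨j, i⟩ hs'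
    obtain ⟨hj, hi⟩ := WAdmX.mem_slots.1 hs'
    exact (h.blk j hj).card i hi
  have hCf : Cf r (slots L b) P0 n := by
    refine ⟨fun s hs' => ⟨hnc s hs', ?_⟩, hnn⟩
    rw [hP0]
    exact fun x hx => mem_union_right _ (mem_biUnion.2 ⟨s, hs', hx⟩)
  have hrest : rest (slots L b) P0 n = R := by
    unfold rest
    rw [hP0, union_sdiff_right]
    exact sdiff_eq_self_of_disjoint hRU
  have hcard : P0.card = r * (slots L b).card + 2 * a + (k + 1) * r := by
    have g1 := U.card_rest hCf
    rw [hrest, hV.card_eq] at g1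
    omega
  have hdis : ∀ j ∈ L, ∀ j' ∈ L, j ≠ j' → ∀ i ≤ b j, ∀ i' ≤ b j', η j i ≠ η j' i' := by
    intro j hj j' hj' hne i hi i' hi' he
    exact (Finset.disjoint_left.1 (h.dis j hj j' hj' hne)) (hηb j hj i hi)
      (he ▸ hηb j' hj' i' hi')
  have hout : ∀ j ∈ L, ∀ i ≤ b j, η j i ∉ P0 := by
    intro j hj i hi hm
    rw [hP0, mem_union] at hm
    rcases hm with hm | hm
    · exact hRls _ hm (hbs j hj _ (hηb j hj i hi))
    · obtain ⟨⟨j', i'⟩, hs', hx⟩ := mem_biUnion.1 hm
      obtain ⟨hj', hi'⟩ := WAdmX.mem_slots.1 hs'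
      by_cases hjj : j = j'
      · subst hjj
        exact (h.blk j hj).out i hi i' hi' hx
      · exact (Finset.disjoint_left.1 (h.dis j hj j' hj' hjj)) (hηb j hj i hi)
          (hnb j' hj' i' hi' hx)
  obtain ⟨Φ, hAdm, hExx, hval⟩ := hWAdm K α r p a (k + 1) B hB L b η P0 hr (by omega) hq hW h.nod
    h.two (fun j hj => (h.blk j hj).inj) hdis hout hs hcard
  rw [Nat.add_sub_cancel] at hAdm hExx
  have g1 := hval n hCf u v m (by rw [hrest]; exact hV)
  have hGrp : Grp L.toFinset (fun j => (range (b j + 1)).image (η j)) P0 := by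
    refine ⟨fun i hi j hj hij => ?_, fun j hj => ?_⟩
    · rw [Finset.disjoint_left]
      intro x hx hx'
      obtain ⟨e, he, rfl⟩ := mem_image.1 hx
      obtain ⟨e', he', h3⟩ := mem_image.1 hx'
      exact hdis i (List.mem_toFinset.1 hi) j (List.mem_toFinset.1 hj) hij e
        (by have := mem_range.1 he; omega) e' (by have := mem_range.1 he'; omega) h3.symm
    · rw [Finset.disjoint_left]
      intro x hx
      obtain ⟨e, he, rfl⟩ := mem_image.1 hx
      exact hout j (List.mem_toFinset.1 hj) e (by have := mem_range.1 he; omega)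
  have hSt : Stb (actB B hB.st) (VB r p B) := by
    rintro σ _ ⟨z, hz, rfl⟩
    refine ⟨act K α σ z, ?_, rfl⟩
    have h3 := act_Cy σ hz
    have h4 : im σ (univ : Finset α) = univ := U.sup_im (P := univ) fun x hx =>
      absurd (mem_univ x) hx
    rw [h4] at h3
    exact h3
  have hsl : (slots L b).card = (L.map b).sum := by
    rw [WStepX.sum_b h]
    have h3 := card_eq_sum_card_image Prod.fst (slots L b)
    rw [h3, WStepX.image_slots h]
    refine sum_congr rfl fun j hj => ?_
    exact WStepX.card_sl (List.mem_toFinset.1 hj)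
  have hb2 := WStepX.sum_b2 h
  have g2 := hLemL K α _ (actB B hB.st) (VB r p B) L.toFinset
    (fun j => (range (b j + 1)).image (η j)) r k c δ (slots L b) P0 Φ hAdm hExx hSt hNS hGrp hr
    (by omega) (by
      rw [WStepX.image_slots h]
      exact hδ) (by
      rw [WStepX.image_slots h, hcard, hsl]
      obtain ⟨S, hS⟩ : ∃ S, S = (L.map b).sum := ⟨_, rfl⟩
      obtain ⟨M, hM⟩ : ∃ M, M = L.toFinset.card := ⟨_, rfl⟩
      rw [← hS, ← hM] at hb2 ⊢
      rw [← hM] at h2
      rw [← hS] at hs
      obtain ⟨e, he⟩ : ∃ e, S = M + e := ⟨S - M, by omega⟩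
      have e1 : S - M = e := by omega
      rw [e1, he]
      rw [he] at hs
      have e2 : e * (r + 2) = r * e + 2 * e := by ring
      have e3 : r * (M + e) = r * M + r * e := by ring
      have e4 : r * (M + (k + 1)) = r * M + (k + 1) * r := by ring
      rw [e4] at h2
      rw [e2, e3]
      omega) (by
      rw [WStepX.need_slots h]
      have g3 : 2 * (2 + ∑ j ∈ L.toFinset, (b j - 2)) ≤ 2 * a := by omega
      omega) n hCf (sc a (k + 1) u v m) (by
      rw [hrest]
      exact CspX.sc_mem r (k + 1) u v m a R hV)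
  rw [g2] at g1
  have g3 := g1.symm
  rw [Submodule.mkQ_apply, Submodule.Quotient.mk_eq_zero] at g3
  exact g3

end main

end IWStepB

theorem pr_WStepB (hLemL : S_LemLp) (hWAdm : S_WAdmB) (hG1 : S_G1) (hPq : S_Pq) (hZz : S_Zz) :
    S_WStepB := by
  intro K _ _ α _ _ r t p a c δ B hB ht htr hcard hp hδ hc0 hNS hW L b η n h hs κ hκ
  have hpc := (hPq K α r univ L b η n).1 h
  have hls := WStepX.card_ls h
  have hb2 := WStepX.sum_b2 h
  obtain ⟨M, hM⟩ : ∃ M, M = L.toFinset.card := ⟨_, rfl⟩
  obtain ⟨S, hS⟩ : ∃ S, S = (L.map b).sum := ⟨_, rfl⟩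
  obtain ⟨B2, hB2⟩ : ∃ B2, B2 = ∑ j ∈ L.toFinset, (b j - 2) := ⟨_, rfl⟩
  rw [← hM, ← hS] at hls
  rw [← hM, ← hS, ← hB2] at hb2
  rw [← hS] at hs hpc
  have hcu : ((univ : Finset α) \ ls L b η n).card + S * (r + 1) + M =
      p * (r + 1) + (r + 1 + t) := by
    have h1 := card_sdiff_add_card_eq_card (subset_univ (ls L b η n))
    rw [card_univ, hcard, hls] at h1
    omega
  have hpS : p * (r + 1) = S * (r + 1) + a * (r + 1) := by rw [← hs]; ring
  have hne : Nonempty α := by
    rw [← Fintype.card_pos_iff, hcard]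
    omega
  have hr : 1 ≤ r := by omega
  have hcc : a * (r + 2) ≤ ((univ : Finset α) \ ls L b η n).card := by
    have h1 : a * (r + 2) = a * (r + 1) + a := by ring
    omega
  have h1 := hG1 K α r a ((univ : Finset α) \ ls L b η n) hr hcc hκ
  obtain ⟨κ1, hκ1, κ2, hκ2, rfl⟩ := Submodule.mem_sup.1 h1
  have hdl : Disjoint (ls L b η n) ((univ : Finset α) \ ls L b η n) := disjoint_sdiff
  rw [mul_add]
  refine Submodule.add_mem _ ?_ ?_
  · have h2 := Bd_mono (subset_univ _) (Cy_mul_Bd hdl hpc hκ1)
    rw [hs] at h2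
    exact hB.bd h2
  · clear h1 hκ hκ1
    induction hκ2 using Submodule.span_induction with
    | zero => rw [mul_zero]; exact Submodule.zero_mem _
    | add x y _ _ hx hy => rw [mul_add]; exact Submodule.add_mem _ hx hy
    | smul c x _ hx => rw [mul_smul_comm]; exact Submodule.smul_mem _ _ hx
    | mem x hx =>
      obtain ⟨R, u, v, m, hR, hV, rfl⟩ := hx
      have hRc := hV.card_eq
      have hRl : Disjoint R (ls L b η n) := (hdl.mono_right hR).symm
      have hNc := card_sdiff_add_card_eq_card hR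
      obtain ⟨N, hN⟩ : ∃ N, N = ((univ : Finset α) \ ls L b η n) \ R := ⟨_, rfl⟩
      rw [← hN] at hNc
      have hNR : Disjoint N R := by
        rw [hN]
        exact sdiff_disjoint
      have hNl : Disjoint N (ls L b η n) := by
        rw [hN]
        exact (hdl.mono_right sdiff_subset).symm
      have har : 2 * a + a * r = a * (r + 1) + a := by ring
      by_cases hc1 : a + M ≤ t
      · -- few points: a cone
        obtain ⟨e, he, hec⟩ : ∃ e ⊆ N, e.card = r + 1 :=
          Finset.exists_subset_card_eq (by omega)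
        have h3 : (pq L b η n * zz a u v m : Lx K α) ∈ Cy K (r + 1) (ls L b η n ∪ R) p := by
          have h4 := Cy_mul hRl.symm hpc ((hZz K α a u v m).2.2.2.2 r a R hV le_rfl)
          rw [hs] at h4
          exact h4
        refine hB.bd (cone (e := e) (P' := ls L b η n ∪ R) (subset_univ _) (subset_univ _) ?_
          hec h3)
        rw [disjoint_union_right]
        exact ⟨hNl.mono_left he, hNR.mono_left he⟩
      · have h5 : 2 + B2 ≤ a := by omega
        by_cases hc2 : a + M = t + 1
        · have hNr : N.card = r := by omega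
          have hV' := WStepX.VC_add hV hNr hNR
          have h6 : (zz a u v m : Lx K α) = zz a u v (Function.update m a N) :=
            zz_congr (fun _ _ => rfl) (fun _ _ => rfl) fun i hi =>
              (Function.update_of_ne (by omega) _ _).symm
          rw [h6]
          refine IWStepB.big hLemL hWAdm B hB hr (Or.inr rfl) hW h ?_ ?_ hV' ?_ c δ hNS ?_ ?_
          · rw [← hS]
            exact hs
          · rw [disjoint_union_left]
            exact ⟨hRl, hNl⟩
          · rw [← hB2]
            exact h5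
          · rcases hδ with h7 | ⟨h7, h8⟩
            · exact Or.inl h7
            · refine Or.inr ⟨h7, ?_⟩
              rw [← hM]
              omega
          · rw [← hM]
            have e1 : M + (a + 1) = t + 2 := by omega
            have e2 : a + M = t + 1 := hc2
            rw [e1, e2]
            have e3 : r * (t + 2) = (t + 2) * r := by ring
            rw [e3]
            omega
        · by_cases hc3 : a + M = t + 2
          · refine IWStepB.big hLemL hWAdm B hB hr (Or.inl rfl) hW h ?_ hRl hV ?_ c δ hNS ?_ ?_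
            · rw [← hS]
              exact hs
            · rw [← hB2]
              exact h5
            · rcases hδ with h7 | ⟨h7, h8⟩
              · exact Or.inl h7
              · refine Or.inr ⟨h7, ?_⟩
                rw [← hM]
                omega
            · rw [← hM]
              have e1 : M + a = t + 2 := by omega
              rw [e1, hc3]
              have e3 : r * (t + 2) = (t + 2) * r := by ring
              rw [e3]
              omega
          · refine IWStepB.big hLemL hWAdm B hB hr (Or.inl rfl) hW h ?_ hRl hV ?_ c 0 hNS ?_ ?_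
            · rw [← hS]
              exact hs
            · rw [← hB2]
              exact h5
            · exact Or.inl rfl
            · rw [← hM]
              obtain ⟨e, he⟩ : ∃ e, M + a = t + 3 + e := ⟨M + a - (t + 3), by omega⟩
              have e1 : a + M = t + 3 + e := by omega
              rw [he, e1]
              have e3 : r * (t + 3 + e) = (t + 2) * r + r + r * e := by ring
              have e4 : δ ≤ r := by
                rcases hδ with h7 | ⟨h7, _⟩
                · omega
                · omega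
              rw [e3]
              omega

end Pool.Agent.Work.MP_1233f5_ag.LS
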