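import Pool.Agent.Work.MP_1233f5_ag.LS.Stmts
import Pool.Agent.Work.MP_1233f5_ag.Bdx.B02

/-! MP_1233f5_ag, block LS, item WTwoB: port of `Y/C_WTwo.lean` with a general target. -/

set_option autoImplicit false

namespace Pool.Agent.Work.MP_1233f5_ag.LS

open Finset
open Pool.Agent.Work.MP_1233f5_ag.V (vm ML theta rVan)
open Pool.Agent.Work.MP_1233f5_ag.Y
open Pool.Agent.Work.MP_1233f5_ag.Z
open Pool.Agent.Work.MP_1233f5_ag.Sec (Fk wd ct ee ff hh IsSec IsDeg swd brk)

open Pool.Agent.Work.MP_1233f5_ag.Y.WTwoX in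
theorem pr_WTwoB (hG2 : S_G2) (hZz : S_Zz) (hPq : S_Pq) (hQCy : S_QCy) : S_WTwoB := by
  intro K _ _ α _ _ r p a q B L b η n R Q u v m hBt hr hW hL hp hR haq hV hQ hQc
  have _h0 := hQCy
  have hzz : (zz a u v m : Lx K α) ∈ Cy K (r + 1) R a :=
    (hZz K α a u v m).2.2.2.2 r q R hV haq
  have hpq : (pq L b η n : Lx K α) ∈ Cy K (r + 1) (ls L b η n) ((L.map b).sum) :=
    (hPq K α r univ L b η n).1 hL
  have hcard : a * (r + 2) ≤ R.card := by
    rw [hV.card_eq]
    calc a * (r + 2) = 2 * a + a * r := by ring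
      _ ≤ 2 * a + q * r := Nat.add_le_add_left (Nat.mul_le_mul_right r haq) _
  rw [asym_mul (zz a u v m) (fun σ hσ => act_eq_self (fun x hx => hσ x fun hc =>
    disjoint_left.1 hR (hQ hc) hx) hpq.1)]
  have hmem := hG2 K α r a R Q hr hcard hQ hQc _ hzz
  obtain ⟨y, hy, z, hz, hyz⟩ := Submodule.mem_sup.1 hmem
  rw [← hyz, mul_add]
  refine Submodule.add_mem _ ?_ ?_
  · have h1 := Cy_mul_Bd hR.symm hpq hy
    rw [hp] at h1
    exact hBt.bd (Bd_mono (subset_univ _) h1)
  · clear hyz hmem hy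
    unfold spB at hz
    induction hz using Submodule.span_induction with
    | mem x hx =>
      obtain ⟨b', η', n', κ, h2, hba, hB, hκ, rfl⟩ := hx
      obtain ⟨j, hj⟩ := Infinite.exists_notMem_finset L.toFinset
      rw [List.mem_toFinset] at hj
      rw [← mul_assoc, ← pq_app hj b b' η η' n n']
      refine hW (a - b') (by omega) _ _ _ _ (lv_app hj hL hR h2 hB) ?_ κ ?_
      · rw [sum_app hj]
        omega
      · refine Cy_mono ?_ hκ
        intro x hx
        rw [mem_sdiff] at hx ⊢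
        refine ⟨mem_univ x, fun hc => ?_⟩
        rcases mem_app hj b b' η η' n n' hc with hc | hc
        · exact disjoint_left.1 hR hx.1 hc
        · exact hx.2 hc
    | zero => rw [mul_zero]; exact Submodule.zero_mem _
    | add x y _ _ hx hy => rw [mul_add]; exact Submodule.add_mem _ hx hy
    | smul c x _ hx => rw [mul_smul_comm]; exact Submodule.smul_mem _ _ hx

end Pool.Agent.Work.MP_1233f5_ag.LS
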