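import Pool.Agent.Work.MP_1233f5_ag.LS.Stmts
import Pool.Agent.Work.MP_1233f5_ag.Bdx.B02

/-! MP_1233f5_ag, block LS, item WXB: port of `Y/C_WX.lean` with a general target. -/

set_option autoImplicit false

namespace Pool.Agent.Work.MP_1233f5_ag.LS

open Finset
open Pool.Agent.Work.MP_1233f5_ag.V (vm ML theta rVan)
open Pool.Agent.Work.MP_1233f5_ag.Y
open Pool.Agent.Work.MP_1233f5_ag.Z
open Pool.Agent.Work.MP_1233f5_ag.Sec (Fk wd ct ee ff hh IsSec IsDeg swd brk)

open Pool.Agent.Work.MP_1233f5_ag.Y.WXX in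
theorem pr_WXB (hQX : S_QX) (hZz : S_Zz) (hPq : S_Pq) (hQCy : S_QCy) : S_WXB := by
  intro K _ _ α _ _ r p a q B L b η n R u v m m0 j hBt hW hL hp hj hRL hmR hmL hmc ha haq hV
  obtain ⟨a, rfl⟩ : ∃ a', a = a' + 1 := ⟨a - 1, by omega⟩
  obtain ⟨L1, L2, rfl⟩ := List.append_of_mem hj
  have hz : ∀ g : Finset α, (zz (a + 1) u v (cns g m) : Lx K α) =
      (ed (insert (u 0) g) - ed (insert (v 0) g)) *
        zz a (fun i => u (i + 1)) (fun i => v (i + 1)) m := by
    intro g
    have h1 := (hZz K α a u v (cns g m)).1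
    have h2 : cns g m 0 = g := rfl
    have h3 : (fun i => cns g m (i + 1)) = m := by
      funext i
      rfl
    rw [h1, h2, h3]
  -- the core
  have hκ : (zz a (fun i => u (i + 1)) (fun i => v (i + 1)) m : Lx K α) ∈
      Cy K (r + 1) ((range a).image (fun i => u (i + 1)) ∪
        (range a).image (fun i => v (i + 1)) ∪ (range a).biUnion m) a := by
    refine (hZz K α a (fun i => u (i + 1)) (fun i => v (i + 1)) m).2.2.2.2 r a _ ?_ le_rfl
    refine ⟨fun i hi => hV.card i (by omega), fun i hi l hl => hV.dis i (by omega) l (by omega),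
      fun i hi l hl e => ?_, fun i hi l hl e => ?_,
      fun i hi l hl => hV.uv (i + 1) (by omega) (l + 1) (by omega),
      fun i hi l hl => hV.uout (i + 1) (by omega) l (by omega),
      fun i hi l hl => hV.vout (i + 1) (by omega) l (by omega), rfl⟩
    · have := hV.uinj (i + 1) (by omega) (l + 1) (by omega) e
      omega
    · have := hV.vinj (i + 1) (by omega) (l + 1) (by omega) e
      omega
  have hu0 : u 0 ∈ R := by
    rw [← hV.cov]
    exact mem_union_left _ (mem_union_left _ (mem_image_of_mem _ (mem_range.2 (by omega))))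
  have hv0 : v 0 ∈ R := by
    rw [← hV.cov]
    exact mem_union_left _ (mem_union_right _ (mem_image_of_mem _ (mem_range.2 (by omega))))
  have hR : ∀ y ∈ ((range a).image (fun i => u (i + 1)) ∪
        (range a).image (fun i => v (i + 1)) ∪ (range a).biUnion m), y ∈ R ∧ y ≠ u 0 ∧
        y ≠ v 0 := by
    intro y hy
    rw [mem_union, mem_union, mem_image, mem_image, mem_biUnion] at hy
    rcases hy with (⟨i, hi, rfl⟩ | ⟨i, hi, rfl⟩) | ⟨i, hi, hy⟩
    · rw [mem_range] at hi
      refine ⟨?_, fun e => ?_, hV.uv (i + 1) (by omega) 0 (by omega)⟩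
      · rw [← hV.cov]
        exact mem_union_left _ (mem_union_left _
          (mem_image_of_mem _ (mem_range.2 (by omega))))
      · have := hV.uinj (i + 1) (by omega) 0 (by omega) e
        omega
    · rw [mem_range] at hi
      refine ⟨?_, fun e => hV.uv 0 (by omega) (i + 1) (by omega) e.symm, fun e => ?_⟩
      · rw [← hV.cov]
        exact mem_union_left _ (mem_union_right _
          (mem_image_of_mem _ (mem_range.2 (by omega))))
      · have := hV.vinj (i + 1) (by omega) 0 (by omega) e
        omega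
    · rw [mem_range] at hi
      refine ⟨?_, ?_, ?_⟩
      · rw [← hV.cov]
        exact mem_union_right _ (mem_biUnion.2 ⟨i, mem_range.2 (by omega), hy⟩)
      · rintro rfl
        exact hV.uout 0 (by omega) i (by omega) hy
      · rintro rfl
        exact hV.vout 0 (by omega) i (by omega) hy
  have hmain : ∀ w : α, w ∈ R → (∀ y ∈ ((range a).image (fun i => u (i + 1)) ∪
        (range a).image (fun i => v (i + 1)) ∪ (range a).biUnion m), y ≠ w) →
      (pq L1 b η n * pq L2 b η n * qn (b j + 1) (Function.update (η j) (b j + 1) w)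
        (Function.update (fun i => n (j, i)) (b j) m0) *
        zz a (fun i => u (i + 1)) (fun i => v (i + 1)) m : Lx K α) ∈ B := by
    intro w hw hwy
    have hwL : w ∉ ls (L1 ++ j :: L2) b η n := disjoint_left.1 hRL hw
    have hwm : w ∉ m0 := fun h => disjoint_left.1 hmR h hw
    have h1 := hW a (by omega) (L1 ++ L2 ++ [j]) (eb b j) (ep b η j w) (en b n j m0)
      (LV_ext hL hwL (mem_univ _) hmL (subset_univ _) hwm hmc)
      (by rw [sum_ext hL.nod]; omega)
      (zz a (fun i => u (i + 1)) (fun i => v (i + 1)) m)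
      (Cy_mono (fun y hy => by
        rw [mem_sdiff]
        refine ⟨mem_univ _, fun hc => ?_⟩
        rcases ls_ext hc with h2 | h2 | h2
        · exact hwy y hy h2
        · exact disjoint_left.1 hmR h2 (hR y hy).1
        · exact disjoint_left.1 hRL (hR y hy).1 h2) hκ)
    rw [pq_ext hL.nod] at h1
    exact h1
  -- commutation
  have hBj := hL.blk j hj
  have hmj : Disjoint m0 (bs (b j) (η j) (fun i => n (j, i))) :=
    hmL.mono_right fun y hy => mem_ls.2 ⟨j, hj, hy⟩
  have hL2 : LV r univ L2 b η n := LV_sub hL (by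
    have := hL.nod
    rw [List.nodup_append, List.nodup_cons] at this
    exact this.2.1.2) (fun l hl => by simp [hl])
  have hX2 := ((hPq K α r univ L2 b η n).1 hL2).1
  have hc0 := mul_comm_graded hX2 (hQCy K α r (b j) univ (η j) (fun i => n (j, i)) hBj).1
  have hci : ∀ i ∈ range (b j), _ := fun i (_ : i ∈ range (b j)) =>
    mul_comm_graded hX2 (hQCy K α r (b j) univ (η j)
      (Function.update (fun i => n (j, i)) i m0)
      (BV_upd hBj hmj (subset_univ _) hmc i)).1
  have hX := hQX K α (b j) (η j) (u 0) (v 0) (fun i => n (j, i)) m0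
  have key := algebra (K := K) (range (b j)) _ (pq L1 b η n : Lx K α) (pq L2 b η n)
    _ _ (zz a (fun i => u (i + 1)) (fun i => v (i + 1)) m) _ _ _ _ hc0 hci hX
  have hgoal : (pq (L1 ++ j :: L2) b η n * zz (a + 1) u v (cns m0 m) : Lx K α) +
      ∑ i ∈ range (b j), (pq (L1 ++ j :: L2) b η (Function.update n (j, i) m0) *
        zz (a + 1) u v (cns (n (j, i)) m) : Lx K α) =
      (pq L1 b η n * (qn (b j) (η j) (fun i => n (j, i)) * pq L2 b η n)) *
        ((ed (insert (u 0) m0) - ed (insert (v 0) m0)) *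
          zz a (fun i => u (i + 1)) (fun i => v (i + 1)) m) +
      ∑ i ∈ range (b j), (pq L1 b η n *
        (qn (b j) (η j) (Function.update (fun i => n (j, i)) i m0) * pq L2 b η n)) *
        ((ed (insert (u 0) (n (j, i))) - ed (insert (v 0) (n (j, i)))) *
          zz a (fun i => u (i + 1)) (fun i => v (i + 1)) m) := by
    rw [pq_split, hz]
    congr 1
    refine sum_congr rfl fun i _ => ?_
    rw [pq_split_upd hL.nod, hz]
  rw [hgoal, key]
  refine Submodule.smul_mem _ _ (Submodule.sub_mem _ ?_ ?_)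
  · exact hmain (u 0) hu0 (fun y hy => (hR y hy).2.1)
  · exact hmain (v 0) hv0 (fun y hy => (hR y hy).2.2)

end Pool.Agent.Work.MP_1233f5_ag.LS
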