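import Pool.Agent.Work.MP_1233f5_ag.LS.StmtsR
import Pool.Agent.Work.MP_1233f5_ag.Z.I_Cx1

/-! MP_1233f5_ag, block LS, item XAc. -/

set_option autoImplicit false

namespace Pool.Agent.Work.MP_1233f5_ag.LS

open Finset
open Pool.Agent.Work.MP_1233f5_ag.V (vm ML theta rVan Mo vw KV)
open Pool.Agent.Work.MP_1233f5_ag.Y
open Pool.Agent.Work.MP_1233f5_ag.Z

namespace IXAc

section
variable {K : Type} [Field K] {α : Type} [Fintype α] [DecidableEq α]

/-- the symmetrization over the points of `X` -/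
noncomputable def S (K : Type) [Field K] {α : Type} [Fintype α] [DecidableEq α]
    (X : Finset α) : Lx K α →ₗ[K] Lx K α := symm (act K α) X ∅

omit [Fintype α] [DecidableEq α] in
theorem sty_iff {X : Finset α} {σ : Equiv.Perm α} : StY X (∅ : Finset α) σ ↔ Sup X σ :=
  ⟨fun h => h.1, fun h => ⟨h, Y.U.im_empty σ⟩⟩

theorem S_act {X : Finset α} {τ : Equiv.Perm α} (h : Sup X τ) (w : Lx K α) :
    S K X (act K α τ w) = S K X w := Y.U.symm_rho (act K α) (sty_iff.2 h) w

theorem act_S {X : Finset α} {τ : Equiv.Perm α} (h : Sup X τ) (w : Lx K α) :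
    act K α τ (S K X w) = S K X w := Y.U.rho_symm (act K α) (sty_iff.2 h) w

/-- a submodule stable under the permutations of `X` is stable under `S` -/
theorem S_mem {X : Finset α} {V : Submodule K (Lx K α)}
    (hV : ∀ σ, Sup X σ → ∀ v ∈ V, act K α σ v ∈ V) {v : Lx K α} (hv : v ∈ V) : S K X v ∈ V := by
  classical
  unfold S
  rw [Y.U.symm_apply]
  exact Submodule.sum_mem _ fun σ hσ => hV σ (sty_iff.1 (mem_filter.1 hσ).2) v hv

/-- `cx` is a cycle on its points -/
theorem cx_cy {r a : ℕ} {P : Finset α} {x : ℕ → α} {w : ℕ → Finset α} (h : CV r P a x w) :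
    (cx a x w : Lx K α) ∈ Cy K (r + 1) (cp a x w) a := by
  refine pr_Cx1 K α r a (cp a x w) x w ⟨h.inj, fun i hi => ?_, h.card, fun i hi => ?_, h.dis,
    h.out⟩
  · exact mem_union_left _ (mem_image_of_mem _ (mem_range.2 hi))
  · exact (subset_biUnion_of_mem w (mem_range.2 (by omega))).trans subset_union_right

omit [Fintype α] in
theorem cp_sub {r a : ℕ} {P : Finset α} {x : ℕ → α} {w : ℕ → Finset α} (h : CV r P a x w) :
    cp a x w ⊆ P := by
  refine union_subset ?_ ?_
  · intro b hb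
    obtain ⟨i, hi, rfl⟩ := mem_image.1 hb
    exact h.mem i (mem_range.1 hi)
  · refine biUnion_subset.2 fun i hi => h.sub i ?_
    have := mem_range.1 hi
    omega

theorem Fx_le {r a p : ℕ} {P : Finset α} : Fx K r P a p ≤ Mt K (r + 1) P p := by
  unfold Fx
  refine Submodule.span_le.2 ?_
  rintro _ ⟨x, w, κ, hv, hap, hκ, rfl⟩
  have h1 := Mt_mul (P' := P \ cp a x w) disjoint_sdiff (cx_cy (K := K) hv).1 hκ.1
  rw [show a + (p - a) = p by omega] at h1
  refine Mt_mono ?_ h1
  exact union_subset (cp_sub hv) sdiff_subset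

/-- the sum of the `Fx` -/
noncomputable def FF (K : Type) [Field K] {α : Type} [DecidableEq α] (r : ℕ) (P : Finset α)
    (p : ℕ) : Submodule K (Lx K α) := ⨆ a ∈ range (p + 1), Fx K r P a p

omit [Fintype α] in
theorem Fx_le_FF {r a p : ℕ} {P : Finset α} (ha : a ≤ p) : Fx K r P a p ≤ FF K r P p :=
  le_iSup₂_of_le a (mem_range.2 (by omega)) le_rfl

/-- claim A: a chain with an uncovered point of `insert x0 X` -/
theorem claimA {r p : ℕ} {P X : Finset α} {x0 : α} (hx0 : x0 ∉ P) (hX : X ⊆ P) :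
    UncX K (r + 1) (insert x0 X) (insert x0 P) (p + 1) ≤
      ((Mt K (r + 1) P (p + 1)).map ((S K (insert x0 X)).comp Dx)).comap
        ((S K (insert x0 X)).comp Dx) := by
  unfold UncX
  refine iSup₂_le fun y hy => ?_
  intro u hu
  rw [Submodule.mem_comap, Submodule.mem_map]
  have hτ : Sup (insert x0 X) (Equiv.swap x0 y) := Y.U.sup_swap (mem_insert_self _ _) hy
  have hyP : y ∈ insert x0 P := insert_subset_insert x0 hX hy
  refine ⟨act K α (Equiv.swap x0 y) u, ?_, ?_⟩
  · have h1 := act_Mt (Equiv.swap x0 y) hu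
    have h2 : im (Equiv.swap x0 y) ((insert x0 P).erase y) = P := by
      rw [Y.U.im_erase, Equiv.swap_apply_right]
      have h3 : im (Equiv.swap x0 y) (insert x0 P) = insert x0 P :=
        Y.U.sup_im (Y.U.sup_swap (mem_insert_self _ _) hyP)
      rw [h3, erase_insert hx0]
    rwa [h2] at h1
  · rw [LinearMap.comp_apply, LinearMap.comp_apply, ← act_Dx, S_act hτ]

/-- claim B, ordered form: `x0 ∈ t 0` -/
theorem claimB0 (h3 : S_SymOm) [CharZero K] {r p a : ℕ} {P X : Finset α} {x0 : α}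
    (hx0 : x0 ∉ P) (hX : X ⊆ P) (hap : a ≤ p) (t : ℕ → Finset α)
    (ht : ∀ i ≤ a, (t i).card = r + 1 ∧ t i ⊆ insert x0 P ∧ (t i ∩ insert x0 X).Nonempty)
    (hd : ∀ i ≤ a, ∀ i' ≤ a, i ≠ i' → Disjoint (t i) (t i'))
    (hc : insert x0 X ⊆ (range (a + 1)).biUnion t) (h0 : x0 ∈ t 0)
    (κ : Lx K α) (hκ : κ ∈ Cy K (r + 1) (insert x0 P \ (range (a + 1)).biUnion t) (p - a)) :
    ∃ f ∈ FF K r P p, S K (insert x0 X) (Dx (mo (fun i : Fin (a + 1) => t (i : ℕ)) * κ)) =
      S K (insert x0 X) f := by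
  classical
  -- the points
  have hex : ∀ i : ℕ, ∃ y : α, (i = 0 → y = x0) ∧ (i ≤ a → y ∈ t i ∧ y ∈ insert x0 X) := by
    intro i
    by_cases hi0 : i = 0
    · exact ⟨x0, fun _ => rfl, fun _ => ⟨by rw [hi0]; exact h0, mem_insert_self _ _⟩⟩
    · by_cases hi : i ≤ a
      · obtain ⟨y, hy⟩ := (ht i hi).2.2
        exact ⟨y, fun h => absurd h hi0, fun _ => ⟨(mem_inter.1 hy).1, (mem_inter.1 hy).2⟩⟩
      · exact ⟨x0, fun _ => rfl, fun h => absurd h hi⟩
  choose y hy0 hy using hex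
  have hy0' : y 0 = x0 := hy0 0 rfl
  set w : ℕ → Finset α := fun i => (t i).erase (y i) with hw
  have hins : ∀ i ≤ a, insert (y i) (w i) = t i := fun i hi => insert_erase (hy i hi).1
  have hEV : EV r (insert x0 P) a y w := by
    refine ⟨fun i hi j hj h => ?_, fun i hi => (ht i hi).2.1 (hy i hi).1, fun i hi => ?_,
      fun i hi => (erase_subset _ _).trans (ht i hi).2.1, fun i hi j hj hij => ?_,
      fun i hi j hj hc => ?_⟩
    · by_contra hne
      exact disjoint_left.1 (hd i hi j hj hne) (hy i hi).1 (by rw [h]; exact (hy j hj).1)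
    · rw [hw]
      change ((t i).erase (y i)).card = r
      rw [card_erase_of_mem (hy i hi).1, (ht i hi).1]
      rfl
    · exact (hd i hi j hj hij).mono (erase_subset _ _) (erase_subset _ _)
    · by_cases hij : i = j
      · rw [hij] at hc
        exact notMem_erase _ _ hc
      · exact disjoint_left.1 (hd i hi j hj hij) (hy i hi).1 (mem_of_mem_erase hc)
  have hes : es a y w = (range (a + 1)).biUnion t := by
    ext b
    unfold es
    rw [mem_union, mem_image, mem_biUnion, mem_biUnion]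
    constructor
    · rintro (⟨i, hi, rfl⟩ | ⟨i, hi, hb⟩)
      · exact ⟨i, hi, (hy i (by have := mem_range.1 hi; omega)).1⟩
      · exact ⟨i, hi, mem_of_mem_erase hb⟩
    · rintro ⟨i, hi, hb⟩
      by_cases hbi : b = y i
      · exact Or.inl ⟨i, hi, hbi.symm⟩
      · exact Or.inr ⟨i, hi, mem_erase.2 ⟨hbi, hb⟩⟩
  have hκ' : κ ∈ Cy K (r + 1) (insert x0 P \ es a y w) (p - a) := by
    rw [hes]
    exact hκ
  have hdis : Disjoint (insert x0 X) (insert x0 P \ es a y w) := by
    rw [hes]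
    exact disjoint_sdiff.mono_left hc
  obtain ⟨N, hN⟩ := h3 K α r a (p - a) (insert x0 P) (insert x0 X) y w hEV
    (insert_subset_insert x0 hX) (fun i hi => (hy i hi).2) κ hκ' hdis
  have hmo : (mo (fun i : Fin (a + 1) => insert (y (i : ℕ)) (w (i : ℕ))) : Lx K α) =
      mo (fun i : Fin (a + 1) => t (i : ℕ)) := by
    congr 1
    funext i
    exact hins _ (Nat.le_of_lt_succ i.2)
  rw [hmo] at hN
  have hskp : ∀ i, skp 0 y i = y (i + 1) := by
    intro i
    unfold skp
    rw [if_neg (Nat.not_lt_zero i)]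
  have hx0w : ∀ i ≤ a, x0 ∉ w i := by
    intro i hi
    rw [← hy0']
    exact hEV.out 0 (Nat.zero_le _) i hi
  have hCV : CV r P a (skp 0 y) w := by
    refine ⟨fun i hi j hj h => ?_, fun i hi => ?_, fun i hi => hEV.card i hi, fun i hi => ?_,
      fun i hi j hj hij => hEV.dis i hi j hj hij, fun i hi j hj => ?_⟩
    · rw [hskp, hskp] at h
      have := hEV.inj (i + 1) (by omega) (j + 1) (by omega) h
      omega
    · rw [hskp]
      have h4 := hEV.mem (i + 1) (by omega)
      rcases mem_insert.1 h4 with h5 | h5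
      · exfalso
        rw [← hy0'] at h5
        have := hEV.inj (i + 1) (by omega) 0 (Nat.zero_le _) h5
        omega
      · exact h5
    · intro b hb
      rcases mem_insert.1 (hEV.sub i hi hb) with h5 | h5
      · exact absurd (h5 ▸ hb) (hx0w i hi)
      · exact h5
    · rw [hskp]
      exact hEV.out (i + 1) (by omega) j hj
  have hfm : cx a (skp 0 y) w * κ ∈ Fx K r P a p := by
    unfold Fx
    refine Submodule.subset_span ⟨skp 0 y, w, κ, hCV, hap, ?_, rfl⟩
    refine Cy_mono ?_ hκ'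
    intro b hb
    obtain ⟨hb1, hb2⟩ := mem_sdiff.1 hb
    rw [mem_sdiff]
    constructor
    · rcases mem_insert.1 hb1 with h5 | h5
      · exfalso
        apply hb2
        rw [h5]
        refine mem_union_left _ (mem_image.2 ⟨0, mem_range.2 (by omega), hy0'⟩)
      · exact h5
    · intro hc'
      apply hb2
      unfold cp at hc'
      unfold es
      rcases mem_union.1 hc' with h5 | h5
      · obtain ⟨i, hi, rfl⟩ := mem_image.1 h5
        refine mem_union_left _ (mem_image.2 ⟨i + 1, mem_range.2 ?_, (hskp i).symm⟩)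
        have := mem_range.1 hi
        omega
      · exact mem_union_right _ h5
  refine ⟨N • (cx a (skp 0 y) w * κ), Submodule.smul_mem _ _ (Fx_le_FF hap hfm), ?_⟩
  rw [map_smul]
  exact hN

/-- claim B -/
theorem claimB (h3 : S_SymOm) [CharZero K] {r p : ℕ} {P X : Finset α} {x0 : α}
    (hx0 : x0 ∉ P) (hX : X ⊆ P) :
    CovX K (r + 1) (insert x0 X) (insert x0 P) (p + 1) ≤
      ((FF K r P p).map (S K (insert x0 X))).comap ((S K (insert x0 X)).comp Dx) := by
  classical
  unfold CovX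
  refine Submodule.span_le.2 ?_
  rintro _ ⟨s, t, κ, hs, ht, hd, hc, hκ, rfl⟩
  rw [SetLike.mem_coe, Submodule.mem_comap, Submodule.mem_map]
  obtain ⟨i0, hi0, hx⟩ : ∃ i0 ∈ range s, x0 ∈ t i0 := mem_biUnion.1 (hc (mem_insert_self _ _))
  obtain ⟨a, rfl⟩ : ∃ a, s = a + 1 := ⟨s - 1, by have := mem_range.1 hi0; omega⟩
  have hi0' := mem_range.1 hi0
  -- reorder
  set τ : Equiv.Perm ℕ := Equiv.swap 0 i0 with hτ
  have hτlt : ∀ i, i < a + 1 → τ i < a + 1 := by
    intro i hi
    by_cases h1 : i = 0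
    · rw [h1, hτ, Equiv.swap_apply_left]
      exact hi0'
    · by_cases h2 : i = i0
      · rw [h2, hτ, Equiv.swap_apply_right]
        omega
      · rw [hτ, Equiv.swap_apply_of_ne_of_ne h1 h2]
        exact hi
  have hbi : (range (a + 1)).biUnion (fun i => t (τ i)) = (range (a + 1)).biUnion t := by
    ext b
    rw [mem_biUnion, mem_biUnion]
    constructor
    · rintro ⟨i, hi, hb⟩
      exact ⟨τ i, mem_range.2 (hτlt i (mem_range.1 hi)), hb⟩
    · rintro ⟨i, hi, hb⟩
      refine ⟨τ i, mem_range.2 (hτlt i (mem_range.1 hi)), ?_⟩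
      change b ∈ t (τ (τ i))
      rw [hτ, Equiv.swap_apply_self]
      exact hb
  obtain ⟨f, hf, hfe⟩ := claimB0 (K := K) h3 (p := p) (a := a) hx0 hX (by omega) (fun i => t (τ i))
    (fun i hi => ht _ (hτlt i (by omega)))
    (fun i hi j hj hij => hd _ (hτlt i (by omega)) _ (hτlt j (by omega))
      fun h => hij (τ.injective h))
    (by rw [hbi]; exact hc) (by
      change x0 ∈ t (τ 0)
      rw [hτ, Equiv.swap_apply_left]
      exact hx) κ (by
      rw [hbi]
      rw [show p + 1 - (a + 1) = p - a by omega] at hκ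
      exact hκ)
  -- compare the products
  let ρ : Equiv.Perm (Fin (a + 1)) := Equiv.swap 0 ⟨i0, hi0'⟩
  have hρ : ∀ i : Fin (a + 1), ((ρ i : Fin (a + 1)) : ℕ) = τ (i : ℕ) := by
    intro i
    by_cases h1 : i = 0
    · rw [h1]
      change ((Equiv.swap (0 : Fin (a + 1)) ⟨i0, hi0'⟩ 0 : Fin (a + 1)) : ℕ) =
        Equiv.swap 0 i0 ((0 : Fin (a + 1)) : ℕ)
      rw [Equiv.swap_apply_left, Fin.val_zero, Equiv.swap_apply_left]
    · have h1' : (i : ℕ) ≠ 0 := fun h => h1 (Fin.ext h)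
      by_cases h2 : i = ⟨i0, hi0'⟩
      · rw [h2]
        change ((Equiv.swap (0 : Fin (a + 1)) ⟨i0, hi0'⟩ ⟨i0, hi0'⟩ : Fin (a + 1)) : ℕ) =
          Equiv.swap 0 i0 i0
        rw [Equiv.swap_apply_right, Equiv.swap_apply_right]
        rfl
      · have h2' : (i : ℕ) ≠ i0 := fun h => h2 (Fin.ext h)
        change ((Equiv.swap (0 : Fin (a + 1)) ⟨i0, hi0'⟩ i : Fin (a + 1)) : ℕ) =
          Equiv.swap 0 i0 (i : ℕ)
        rw [Equiv.swap_apply_of_ne_of_ne h1 h2, Equiv.swap_apply_of_ne_of_ne h1' h2']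
  have hmo : (mo (fun i : Fin (a + 1) => t (τ (i : ℕ))) : Lx K α) =
      ((Equiv.Perm.sign ρ : ℤ) : K) • mo (fun i : Fin (a + 1) => t (i : ℕ)) := by
    rw [← mo_perm]
    congr 1
    funext i
    change t (τ (i : ℕ)) = t ((ρ i : Fin (a + 1)) : ℕ)
    rw [hρ]
  have hsgn : ((Equiv.Perm.sign ρ : ℤ) : K) * ((Equiv.Perm.sign ρ : ℤ) : K) = 1 := by
    rw [← Int.cast_mul, Int.units_coe_mul_self, Int.cast_one]
  refine ⟨((Equiv.Perm.sign ρ : ℤ) : K) • f, Submodule.smul_mem _ _ hf, ?_⟩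
  rw [map_smul, ← hfe, hmo, smul_mul_assoc, map_smul, map_smul, smul_smul, hsgn, one_smul]
  rfl

end

end IXAc

open IXAc in
theorem pr_XAc (h1 : S_Inj) (h2 : S_Cov) (h3 : S_SymOm) (h4 : S_FxA) : S_XAc := by
  classical
  intro K _ _ α _ _ r p P X x0 hr hx0 hX z hz hinv hB
  change z ∈ Bd K (r + 1) P p ⊔ FF K r P p
  obtain ⟨y0, hy0, hy0e⟩ := hB
  have hX' : insert x0 X ⊆ insert x0 P := insert_subset_insert x0 hX
  have hSz : S K (insert x0 X) z = Dx y0 := hy0e.symm
  -- `S z` has an uncovered point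
  have hunc : Dx y0 ∈ UncX K (r + 1) (insert x0 X) (insert x0 P) p := by
    rw [← hSz]
    unfold S
    rw [Y.U.symm_apply]
    refine Submodule.sum_mem _ fun σ hσ => ?_
    have hσ' : Sup (insert x0 X) σ := sty_iff.1 (mem_filter.1 hσ).2
    unfold UncX
    have h5 : Mt K (r + 1) ((insert x0 P).erase (σ x0)) p ≤
        ⨆ y ∈ insert x0 X, Mt K (r + 1) ((insert x0 P).erase y) p :=
      le_iSup₂_of_le (σ x0) (Y.U.sup_mem hσ' (mem_insert_self _ _)) le_rfl
    refine h5 (Mt_mono ?_ (act_Mt σ hz.1))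
    intro b hb
    rw [mem_erase]
    constructor
    · intro h6
      rw [h6, mem_im, Y.U.inv_app] at hb
      exact hx0 hb
    · have h6 : im σ P ⊆ im σ (insert x0 P) := Y.U.im_sub_im (subset_insert _ _)
      have h7 := h6 hb
      rwa [Y.U.sup_im (Y.U.sup_mono hX' hσ')] at h7
  obtain ⟨u, hu, v, hv, huv⟩ := Submodule.mem_sup.1
    (h2 K α (r + 1) p (insert x0 P) (insert x0 X) (by omega) hX' (insert_nonempty _ _) y0 hy0 hunc)
  have hA := claimA hx0 hX hu
  rw [Submodule.mem_comap, Submodule.mem_map] at hA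
  obtain ⟨a', ha', hae⟩ := hA
  have hBm := claimB h3 hx0 hX hv
  rw [Submodule.mem_comap, Submodule.mem_map] at hBm
  obtain ⟨f, hf, hfe⟩ := hBm
  rw [LinearMap.comp_apply, LinearMap.comp_apply] at hae
  rw [LinearMap.comp_apply] at hfe
  obtain ⟨N, hN0, hN⟩ := Y.U.symm_of_inv (act K α) (insert x0 X) (∅ : Finset α)
  have hSS : S K (insert x0 X) (S K (insert x0 X) z) = N • S K (insert x0 X) z :=
    hN _ fun σ hσ => act_S (sty_iff.1 hσ) z
  have hzero : S K (insert x0 X) (N • z - Dx a' - f) = 0 := by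
    rw [map_sub, map_sub, map_smul, ← hSS, hSz, ← huv, map_add, map_add, hae, hfe]
    abel
  have hFM : FF K r P p ≤ Mt K (r + 1) P p := iSup₂_le fun a _ => Fx_le
  have hmem : N • z - Dx a' - f ∈ Mt K (r + 1) P p :=
    Submodule.sub_mem _ (Submodule.sub_mem _ (Submodule.smul_mem _ _ hz.1) (Dx_mem ha')) (hFM hf)
  have hT : S K X (N • z - Dx a' - f) = 0 :=
    h1 K α (r + 1) p P X x0 hx0 hX _ hmem hzero
  obtain ⟨M, hM0, hM⟩ := Y.U.symm_of_inv (act K α) X (∅ : Finset α)
  have hTz : S K X z = M • z := hM z fun σ hσ => hinv σ (sty_iff.1 hσ)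
  rw [map_sub, map_sub, map_smul, hTz] at hT
  have hBd : S K X (Dx a') ∈ Bd K (r + 1) P p :=
    S_mem (fun σ hσ v hv => act_Bd_sup hσ hX hv) ⟨a', ha', rfl⟩
  have hFS : S K X f ∈ FF K r P p := by
    have h5 : FF K r P p ≤ (FF K r P p).comap (S K X) := by
      refine iSup₂_le fun a ha => ?_
      intro v hv
      rw [Submodule.mem_comap]
      have hap : a ≤ p := by
        have := mem_range.1 ha
        omega
      refine Fx_le_FF hap ?_
      exact S_mem (fun σ hσ v hv => h4 K α r a p P σ (Y.U.sup_mono hX hσ) v hv) hv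
    exact h5 hf
  have hz2 : (N * M) • z = S K X (Dx a') + S K X f := by
    rw [smul_smul] at hT
    have h6 : (N * M) • z - (S K X (Dx a') + S K X f) = 0 := by
      rw [← hT]
      abel
    exact sub_eq_zero.1 h6
  have hNM : N * M ≠ 0 := mul_ne_zero hN0 hM0
  have hz3 : z = (N * M)⁻¹ • (S K X (Dx a') + S K X f) := by
    rw [← hz2, smul_smul, inv_mul_cancel₀ hNM, one_smul]
  rw [hz3]
  exact Submodule.smul_mem _ _ (Submodule.add_mem _ (Submodule.mem_sup_left hBd)
    (Submodule.mem_sup_right hFS))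

end Pool.Agent.Work.MP_1233f5_ag.LS
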