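import Mathlib
import Pool.Agent.Work.MP_1233f5_ag.LS.StmtsR

/-! MP_1233f5_ag, block LS, item XAm (helper39). -/

set_option autoImplicit false

namespace Pool.Agent.Work.MP_1233f5_ag.LS

open Finset
open Pool.Agent.Work.MP_1233f5_ag.V (vm ML theta rVan)
open Pool.Agent.Work.MP_1233f5_ag.Y
open Pool.Agent.Work.MP_1233f5_ag.Z

namespace IXAm

variable {K : Type} [Field K] {α : Type} [Fintype α] [DecidableEq α]

/-- `Rw` is stable under the permutations of `P`. -/
theorem act_Rw {m d p : ℕ} {P : Finset α} {σ : Equiv.Perm α} (hσ : Sup P σ) {z : Lx K α}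
    (hz : z ∈ Rw K m d P p) : act K α σ z ∈ Rw K m d P p := by
  have h : Rw K m d P p ≤ (Rw K m d P p).comap (act K α σ) := by
    refine Submodule.span_le.2 ?_
    rintro z ⟨hz, Q, hQ, hQc, hs⟩
    refine Submodule.subset_span ⟨act_Cy_sup hσ subset_rfl hz, Q.map σ.toEmbedding, ?_, ?_, ?_⟩
    · intro a ha
      obtain ⟨b, hb, rfl⟩ := mem_map.1 ha
      exact U.sup_mem hσ (hQ hb)
    · rw [card_map]
      exact hQc
    · intro τ hτ
      have hs' : Sup Q (σ⁻¹ * τ * σ) := by
        intro a ha
        have h1 : σ a ∉ Q.map σ.toEmbedding := by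
          intro hm
          obtain ⟨b, hb, hba⟩ := mem_map.1 hm
          have : b = a := σ.injective hba
          exact ha (this ▸ hb)
        have h2 := hτ _ h1
        show σ⁻¹ (τ (σ a)) = a
        rw [h2]
        exact σ.symm_apply_apply a
      have h3 := hs _ hs'
      have h4 : Equiv.Perm.sign (σ⁻¹ * τ * σ) = Equiv.Perm.sign τ := by
        rw [map_mul, map_mul, Equiv.Perm.sign_inv]
        rcases Int.units_eq_one_or (Equiv.Perm.sign σ) with h | h <;> simp [h]
      rw [h4] at h3
      have h5 : act K α τ (act K α σ z) = act K α σ (act K α (σ⁻¹ * τ * σ) z) := by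
        rw [← Module.End.mul_apply, ← Module.End.mul_apply, ← map_mul, ← map_mul]
        congr 2
        group
      rw [h5, h3, map_smul]
  exact h hz

/-- `symm` of an invariant vector is invariant for the enlarged colour class. -/
theorem symm_inv {P X : Finset α} {x0 : α} (hx0 : x0 ∉ P) (hXP : X ⊆ P) (χ : α → ℕ) (k : ℕ)
    (hX : X = P.filter (fun a => χ a = k)) (z : Lx K α)
    (hz : ∀ σ, Sup P σ → (∀ a, χ (σ a) = χ a) → act K α σ z = z) (σ : Equiv.Perm α)
    (hσ : Sup (insert x0 P) σ)
    (hχ : ∀ a, (fun a => if a = x0 then k else χ a) (σ a) =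
      (fun a => if a = x0 then k else χ a) a) :
    act K α σ (symm (act K α) (insert x0 X) ∅ z) = symm (act K α) (insert x0 X) ∅ z := by
  have hmem : ∀ a, a ∈ insert x0 X ↔ a ∈ insert x0 P ∧
      (fun a => if a = x0 then k else χ a) a = k := by
    intro a
    simp only [mem_insert, hX, mem_filter]
    by_cases ha : a = x0
    · simp [ha]
    · simp [ha]
  have hst : ∀ a, σ a ∈ insert x0 X ↔ a ∈ insert x0 X := by
    intro a
    rw [hmem, hmem, hχ a, U.sup_mem_iff hσ]
  let σ1 : Equiv.Perm α := Equiv.Perm.ofSubtype (σ.subtypePerm (p := fun a => a ∈ insert x0 X)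
    (fun a => hst a))
  have h1 : ∀ a ∈ insert x0 X, σ1 a = σ a := by
    intro a ha
    show Equiv.Perm.ofSubtype _ a = σ a
    rw [Equiv.Perm.ofSubtype_apply_of_mem _ ha]
    rfl
  have h1' : Sup (insert x0 X) σ1 := fun a ha =>
    Equiv.Perm.ofSubtype_apply_of_not_mem _ ha
  have hσ12 : σ = σ1 * (σ1⁻¹ * σ) := by group
  have h2 : ∀ a ∈ insert x0 X, (σ1⁻¹ * σ) a = a := by
    intro a ha
    show σ1⁻¹ (σ a) = a
    rw [← h1 a ha]
    exact U.inv_app σ1 a
  have h2' : ∀ a, a ∉ insert x0 X → (σ1⁻¹ * σ) a = σ a := by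
    intro a ha
    show σ1⁻¹ (σ a) = σ a
    exact (U.sup_inv h1') _ (fun h => ha ((hst a).1 h))
  have hz2 : act K α (σ1⁻¹ * σ) z = z := by
    apply hz
    · intro a ha
      by_cases hX' : a ∈ insert x0 X
      · exact h2 a hX'
      · rw [h2' a hX']
        apply hσ
        intro h
        rcases mem_insert.1 h with h | h
        · exact hX' (by rw [h]; exact mem_insert_self _ _)
        · exact ha h
    · intro a
      by_cases hX' : a ∈ insert x0 X
      · rw [h2 a hX']
      · rw [h2' a hX']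
        have h3 := hχ a
        have h4 : a ≠ x0 := fun h => hX' (by rw [h]; exact mem_insert_self _ _)
        have h5 : σ a ≠ x0 := fun h => hX' ((hst a).1 (by rw [h]; exact mem_insert_self _ _))
        simpa only [h4, h5, if_false] using h3
  conv_lhs => rw [hσ12, map_mul, Module.End.mul_apply]
  have h6 : act K α (σ1⁻¹ * σ) (symm (act K α) (insert x0 X) ∅ z) =
      symm (act K α) (insert x0 X) ∅ z := by
    classical
    rw [U.symm_apply, map_sum]
    refine sum_congr rfl fun τ hτ => ?_
    have hτ' : Sup (insert x0 X) τ := (mem_filter.1 hτ).2.1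
    have hcomm : (σ1⁻¹ * σ) * τ = τ * (σ1⁻¹ * σ) := by
      apply Equiv.Perm.Disjoint.commute
      intro a
      by_cases ha : a ∈ insert x0 X
      · exact Or.inl (h2 a ha)
      · exact Or.inr (hτ' a ha)
    rw [← Module.End.mul_apply, ← map_mul, hcomm, map_mul, Module.End.mul_apply, hz2]
  rw [h6]
  exact U.rho_symm (act K α) ⟨h1', im_empty' σ1⟩ z
where im_empty' (σ : Equiv.Perm α) : im σ (∅ : Finset α) = ∅ := Finset.map_empty _

end IXAm

open IXAm

/-- [XAm] -/
theorem pr_XAm (hRep : S_RepU) (hAc : S_XAc) (hAv : S_AvM) (hFxA : S_FxA) : S_XAm := by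
  intro K _ _ α _ _ r T p m P x0 hr hm hx0 hP hV
  refine hRep K α (Lx K α) (act K α) P (Cy K (r + 1) P p)
    ((Bd K (r + 1) P p ⊔ ⨆ a ∈ range (p + 1), Fx K r P a p) ⊔ Rw K m (r + 1) P p) m ?_ ?_ ?_ ?_
  · intro σ hσ z hz
    exact act_Cy_sup hσ subset_rfl hz
  · intro σ hσ z hz
    have hle : (Bd K (r + 1) P p ⊔ ⨆ a ∈ range (p + 1), Fx K r P a p) ⊔ Rw K m (r + 1) P p ≤
        ((Bd K (r + 1) P p ⊔ ⨆ a ∈ range (p + 1), Fx K r P a p) ⊔
          Rw K m (r + 1) P p).comap (act K α σ) := by
      refine sup_le (sup_le ?_ (iSup₂_le fun a ha => ?_)) ?_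
      · intro y hy
        exact Submodule.mem_sup_left (Submodule.mem_sup_left (act_Bd_sup hσ subset_rfl hy))
      · intro y hy
        exact Submodule.mem_sup_left (Submodule.mem_sup_right
          (Submodule.mem_iSup_of_mem a (Submodule.mem_iSup_of_mem ha
            (hFxA K α r a p P σ hσ y hy))))
      · intro y hy
        exact Submodule.mem_sup_right (act_Rw hσ hy)
    exact hle hz
  · intro χ hχ z hz hinv
    obtain ⟨k, hk⟩ : ∃ k, (insert k (P.image χ)).card ≤ m := by
      rcases P.eq_empty_or_nonempty with h | ⟨a, ha⟩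
      · refine ⟨0, ?_⟩
        rw [h, image_empty]
        simpa using hm
      · refine ⟨χ a, ?_⟩
        rw [insert_eq_of_mem (mem_image_of_mem χ ha)]
        exact hχ
    obtain ⟨X, hX⟩ : ∃ X, X = P.filter (fun a => χ a = k) := ⟨_, rfl⟩
    have hXP : X ⊆ P := by rw [hX]; exact filter_subset _ _
    apply Submodule.mem_sup_left
    refine hAc K α r p P X x0 hr hx0 hXP z hz ?_ ?_
    · intro σ hσ
      refine hinv σ (U.sup_mono hXP hσ) fun a => ?_
      by_cases ha : a ∈ X
      · have h1 := U.sup_mem hσ ha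
        rw [hX] at h1 ha
        rw [(mem_filter.1 h1).2, (mem_filter.1 ha).2]
      · rw [hσ a ha]
    · have hcy : symm (act K α) (insert x0 X) ∅ z ∈ Cy K (r + 1) (insert x0 P) p := by
        classical
        rw [U.symm_apply]
        refine Submodule.sum_mem _ fun τ hτ => ?_
        exact act_Cy_sup (mem_filter.1 hτ).2.1 (insert_subset_insert _ hXP)
          (Cy_mono (subset_insert _ _) hz)
      have h1 := hV α (insert x0 P) (by rw [card_insert_of_notMem hx0, hP]; ring) hcy
      refine hAv K α m (r + 1) p (insert x0 P) (fun a => if a = x0 then k else χ a) ?_ _ h1 ?_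
      · refine (card_le_card ?_).trans hk
        intro c hc
        obtain ⟨a, ha, rfl⟩ := mem_image.1 hc
        split_ifs with h
        · exact mem_insert_self _ _
        · exact mem_insert_of_mem (mem_image_of_mem χ ((mem_insert.1 ha).resolve_left h))
      · intro σ hσ hχσ
        exact symm_inv hx0 hXP χ k hX z hinv σ hσ hχσ
  · intro Y hY hYc z hz hanti
    exact Submodule.mem_sup_right (Submodule.subset_span ⟨hz, Y, hY, hYc, hanti⟩)

end Pool.Agent.Work.MP_1233f5_ag.LS
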