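import Mathlib
import Pool.Agent.Work.MP_1233f5_ag.LS.StmtsR
import Pool.Agent.Work.MP_1233f5_ag.Z.I_XF

/-! MP_1233f5_ag, block LS, item XFm (helper39). -/

set_option autoImplicit false

namespace Pool.Agent.Work.MP_1233f5_ag.LS

open Finset
open Pool.Agent.Work.MP_1233f5_ag.V (vm ML theta rVan)
open Pool.Agent.Work.MP_1233f5_ag.Y
open Pool.Agent.Work.MP_1233f5_ag.Z

namespace IXFm

variable {K : Type} [Field K] {α : Type} [Fintype α] [DecidableEq α]

/-- `Rw` is stable under the permutations of `P`. -/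
theorem act_Rw {m d p : ℕ} {P : Finset α} {σ : Equiv.Perm α} (hσ : Sup P σ) {z : Lx K α}
    (hz : z ∈ Rw K m d P p) : act K α σ z ∈ Rw K m d P p := by
  have h : Rw K m d P p ≤ (Rw K m d P p).comap (act K α σ) := by
    refine Submodule.span_le.2 ?_
    rintro z ⟨hz, Q, hQ, hQc, hs⟩
    refine Submodule.subset_span ⟨act_Cy_sup hσ subset_rfl hz, Q.map σ.toEmbedding, ?_, ?_, ?_⟩
    · intro a ha
      obtain ⟨b, hb, rfl⟩ := mem_map.1 ha
      have hbP := hQ hb
      by_contra hn
      have h1 : σ (σ b) = σ b := hσ _ hn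
      have h2 : σ b = b := σ.injective h1
      apply hn
      show σ b ∈ P
      rw [h2]
      exact hbP
    · rw [card_map]
      exact hQc
    · intro τ hτ
      have hs' : Sup Q (σ⁻¹ * τ * σ) := by
        intro a ha
        have h1 : σ a ∉ Q.map σ.toEmbedding := by
          intro hm
          obtain ⟨b, hb, hba⟩ := mem_map.1 hm
          have : b = a := σ.injective hba
          exact ha (this ▸ hb)
        have h2 := hτ _ h1
        show σ⁻¹ (τ (σ a)) = a
        rw [h2]
        exact σ.symm_apply_apply a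
      have h3 := hs _ hs'
      have h4 : Equiv.Perm.sign (σ⁻¹ * τ * σ) = Equiv.Perm.sign τ := by
        rw [map_mul, map_mul, Equiv.Perm.sign_inv]
        rcases Int.units_eq_one_or (Equiv.Perm.sign σ) with h | h <;> simp [h]
      rw [h4] at h3
      have h5 : act K α τ (act K α σ z) = act K α σ (act K α (σ⁻¹ * τ * σ) z) := by
        rw [← Module.End.mul_apply, ← Module.End.mul_apply, ← map_mul, ← map_mul]
        congr 2
        group
      rw [h5, h3, map_smul]
  exact h hz

end IXFm

open IXFm Z.IXF in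
theorem pr_XFm (hCx1 : S_Cx1) (hFxA : S_FxA) (hRepT : S_RepT) (hXSym : S_XSym)
    (hXRow : S_XRow) : S_XFm := by
  intro K _ _ α _ _ r T a p m P hr hP hZV
  refine Submodule.span_le.2 ?_
  rintro _ ⟨x, w, κ, hCV, hap, hκ, rfl⟩
  have hsub := cp_sub hCV
  have hcy : (cx a x w : Lx K α) ∈ Cy K (r + 1) (cp a x w) a :=
    hCx1 K α r a (cp a x w) x w (cv_cp hCV)
  have hpa : a + (p - a) = p := Nat.add_sub_cancel' hap
  obtain ⟨R, hR⟩ : ∃ R, R = P \ cp a x w := ⟨_, rfl⟩
  rw [← hR] at hκ
  have hRP : R ⊆ P := by rw [hR]; exact sdiff_subset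
  have hdis : Disjoint (cp a x w) R := by rw [hR]; exact disjoint_sdiff
  have hRc : R.card = (p - a) * (r + 1) + T := by
    have h3 := card_le_card hsub
    rw [cp_card hCV] at h3
    rw [hR, card_sdiff_of_subset hsub, cp_card hCV, hP, Nat.sub_mul]
    have h4 : a * (r + 1) ≤ p * (r + 1) := Nat.mul_le_mul_right _ hap
    omega
  let B : Submodule K (Lx K α) :=
    ((Bd K (r + 1) P p ⊔ Fx K r P (a + 1) p) ⊔ Rw K (m + 1) (r + 1) P p).comap
      (LinearMap.mulLeft K (cx a x w : Lx K α))
  have hB : ∀ z : Lx K α, z ∈ B ↔ cx a x w * z ∈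
      (Bd K (r + 1) P p ⊔ Fx K r P (a + 1) p) ⊔ Rw K (m + 1) (r + 1) P p :=
    fun z => Iff.rfl
  have hmain : Cy K (r + 1) R (p - a) ≤ B := by
    refine hRepT K α (Lx K α) (act K α) R (Cy K (r + 1) R (p - a)) B a ?_ ?_ ?_ ?_
    · intro σ hσ z hz
      exact act_Cy_sup hσ subset_rfl hz
    · intro σ hσ z hz
      rw [hB] at hz ⊢
      have hσ' : Sup P σ := fun b hb => hσ b fun hc => hb (hRP hc)
      have h1 : act K α σ (cx a x w : Lx K α) = cx a x w :=
        act_eq_self (fun b hb => hσ b (disjoint_left.1 hdis hb)) hcy.1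
      have h2 : cx a x w * act K α σ z = act K α σ (cx a x w * z) := by
        rw [act_mul, h1]
      rw [h2]
      obtain ⟨y, hy0, y3, hy3, hy⟩ := Submodule.mem_sup.1 hz
      obtain ⟨y1, hy1, y2, hy2, hy'⟩ := Submodule.mem_sup.1 hy0
      rw [← hy, ← hy', map_add, map_add]
      exact Submodule.add_mem_sup (Submodule.add_mem_sup (act_Bd_sup hσ' subset_rfl hy1)
        (hFxA K α r (a + 1) p P σ hσ' y2 hy2)) (act_Rw hσ' hy3)
    · intro χ hχ z hz hanti
      have h1 : z ∈ Bd K (r + 1) R (p - a) ⊔ Rw K m (r + 1) R (p - a) :=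
        hZV hap α R χ hRc hχ ⟨hz, hanti⟩
      have hle : Bd K (r + 1) R (p - a) ⊔ Rw K m (r + 1) R (p - a) ≤ B := by
        refine sup_le ?_ (Submodule.span_le.2 ?_)
        · intro b hb
          rw [hB]
          have h2 := Cy_mul_Bd hdis hcy hb
          rw [hpa] at h2
          exact Submodule.mem_sup_left (Submodule.mem_sup_left
            (Bd_mono (union_subset hsub hRP) h2))
        · rintro b ⟨hb, Q, hQ, hQc, hs⟩
          show b ∈ B
          rw [hB]
          rw [hR] at hb hQ
          have h2 := hXRow K α r a (p - a) m P x w hr hCV b hb Q hQ hQc hs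
          rw [hpa] at h2
          exact h2
      exact hle h1
    · intro Y hY hYc z hz hinv
      rw [hB]
      rw [hR] at hz hY
      have h1 := hXSym K α r a (p - a) P x w hr hCV z hz Y hY hYc hinv
      rw [hpa] at h1
      exact Submodule.mem_sup_left h1
  exact hmain hκ

end Pool.Agent.Work.MP_1233f5_ag.LS
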