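import Pool.Agent.Work.MP_1233f5_ag.Z.Glue
import Pool.Agent.Work.MP_1233f5_ag.LS.I_AsI
import Pool.Agent.Work.MP_1233f5_ag.LS.I_AvM
import Pool.Agent.Work.MP_1233f5_ag.LS.I_B3
import Pool.Agent.Work.MP_1233f5_ag.LS.I_BBs
import Pool.Agent.Work.MP_1233f5_ag.LS.I_Cov
import Pool.Agent.Work.MP_1233f5_ag.LS.I_Dlt
import Pool.Agent.Work.MP_1233f5_ag.LS.I_DltU
import Pool.Agent.Work.MP_1233f5_ag.LS.I_ExtP
import Pool.Agent.Work.MP_1233f5_ag.LS.I_FinB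
import Pool.Agent.Work.MP_1233f5_ag.LS.I_FinC
import Pool.Agent.Work.MP_1233f5_ag.LS.I_FrzE
import Pool.Agent.Work.MP_1233f5_ag.LS.I_Inj
import Pool.Agent.Work.MP_1233f5_ag.LS.I_KVm
import Pool.Agent.Work.MP_1233f5_ag.LS.I_LemLp
import Pool.Agent.Work.MP_1233f5_ag.LS.I_LemN
import Pool.Agent.Work.MP_1233f5_ag.LS.I_Mp
import Pool.Agent.Work.MP_1233f5_ag.LS.I_MrgE
import Pool.Agent.Work.MP_1233f5_ag.LS.I_PgH
import Pool.Agent.Work.MP_1233f5_ag.LS.I_Q78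
import Pool.Agent.Work.MP_1233f5_ag.LS.I_QU
import Pool.Agent.Work.MP_1233f5_ag.LS.I_RepU
import Pool.Agent.Work.MP_1233f5_ag.LS.I_SecF
import Pool.Agent.Work.MP_1233f5_ag.LS.I_StarM
import Pool.Agent.Work.MP_1233f5_ag.LS.I_SymOm
import Pool.Agent.Work.MP_1233f5_ag.LS.I_Tab
import Pool.Agent.Work.MP_1233f5_ag.LS.I_ThmA
import Pool.Agent.Work.MP_1233f5_ag.LS.I_ThmB
import Pool.Agent.Work.MP_1233f5_ag.LS.I_ThmC
import Pool.Agent.Work.MP_1233f5_ag.LS.I_ThmD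
import Pool.Agent.Work.MP_1233f5_ag.LS.I_VLm
import Pool.Agent.Work.MP_1233f5_ag.LS.I_WAdmB
import Pool.Agent.Work.MP_1233f5_ag.LS.I_WE
import Pool.Agent.Work.MP_1233f5_ag.LS.I_WStepB
import Pool.Agent.Work.MP_1233f5_ag.LS.I_WTwoB
import Pool.Agent.Work.MP_1233f5_ag.LS.I_WXB
import Pool.Agent.Work.MP_1233f5_ag.LS.I_XAc
import Pool.Agent.Work.MP_1233f5_ag.LS.I_XAm
import Pool.Agent.Work.MP_1233f5_ag.LS.I_XFm
import Pool.Agent.Work.MP_1233f5_ag.LS.I_XRow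

/-! MP_1233f5_ag: assembly of block LS (captain helper4). -/

set_option autoImplicit false

namespace Pool.Agent.Work.MP_1233f5_ag.LS

open Finset
open Pool.Agent.Work.MP_1233f5_ag.Y
open Pool.Agent.Work.MP_1233f5_ag.Z

theorem h_SymOm : S_SymOm := pr_SymOm pr_OmD pr_Cx2
theorem h_LemN : S_LemN := pr_LemN pr_AsI
theorem h_FinC : S_FinC := pr_FinC g_Rep2 h_LemN
theorem h_ExtP : S_ExtP := pr_ExtP g_Brs
theorem h_MrgE : S_MrgE := pr_MrgE g_Wsp g_Brs g_Plk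
theorem h_FinB : S_FinB := pr_FinB g_Rep2 g_SAct g_Tri g_Det g_Exist h_LemN pr_SecF
theorem h_LemLp : S_LemLp :=
  pr_LemLp g_Sz g_MrgA g_Frz g_Two g_SAct h_MrgE pr_FrzE h_ExtP h_FinC h_FinB
theorem h_WTwoB : S_WTwoB := pr_WTwoB h_G2 prf_Zz h_Pq prf_QCy
theorem h_WXB : S_WXB := pr_WXB h_QX prf_Zz h_Pq prf_QCy
theorem h_WE : S_WE := pr_WE pr_AsI pr_QU h_WTwoB prf_Zz h_Pq prf_QCy
theorem h_WAdmB : S_WAdmB :=
  pr_WAdmB g_Core g_Csp prf_SwSc prf_ScAct prf_Zz h_ZzN h_Pq h_WTwoB h_WXB h_WE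
theorem h_WStepB : S_WStepB := pr_WStepB h_LemLp h_WAdmB h_G1 h_Pq prf_Zz
theorem h_DltU : S_DltU := pr_DltU pr_BBs h_WStepB
theorem h_Dlt : S_Dlt := pr_Dlt pr_Mp h_DltU
theorem h_Cov : S_Cov := pr_Cov prf_CfM prf_CfD
theorem h_XAc : S_XAc := pr_XAc pr_Inj h_Cov h_SymOm pr_FxA
theorem h_RepU : S_RepU := pr_RepU Pool.Agent.Work.MP_1233f5_ag.V.h_Rep
theorem h_XAm : S_XAm := pr_XAm h_RepU h_XAc pr_AvM pr_FxA
theorem h_XRow : S_XRow := pr_XRow h_Rel pr_Cx2 pr_AsI pr_Cx1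
theorem h_XFm : S_XFm := pr_XFm pr_Cx1 pr_FxA h_RepT h_XSym h_XRow
theorem h_StarM : S_StarM := pr_StarM pr_Mp h_XAm h_XFm
theorem h_VLm : S_VLm := pr_VLm h_RepU Pool.Agent.Work.MP_1233f5_ag.V.h_LemD
  Pool.Agent.Work.MP_1233f5_ag.V.h_TransA pr_BrG pr_Mp
theorem h_KVm : S_KVm := pr_KVm Pool.Agent.Work.MP_1233f5_ag.V.h_Bridge
  Pool.Agent.Work.MP_1233f5_ag.V.h_PbD Pool.Agent.Work.MP_1233f5_ag.V.h_PbCh
  Pool.Agent.Work.MP_1233f5_ag.V.h_PbSurj Pool.Agent.Work.MP_1233f5_ag.V.pr_LiftT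
  Pool.Agent.Work.MP_1233f5_ag.V.pr_TyW pr_AvM
theorem h_B3 : S_B3 := pr_B3 pr_BGr
theorem h_ThmA : S_ThmA := pr_ThmA h_VLm h_StarM h_Dlt pr_PgH
theorem h_ThmB : S_ThmB := pr_ThmB h_StarM h_Dlt pr_PgH h_B3 pr_BGr h_Main3 h_Rlb
theorem h_ThmC : S_ThmC := pr_ThmC h_StarM h_Dlt pr_PgH h_B3 pr_BGr h_Main3 h_Rlb
theorem h_JJ : S_JJ := pr_JJ h_Chain h_Dlt h_B3 pr_BGr h_Main3 h_Rlb
theorem h_ThmD : S_ThmD := pr_ThmD h_StarM h_Dlt pr_PgH h_B3 pr_BGr h_Main3 h_Rlb h_JJ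
theorem h_Tab : S_Tab := pr_Tab h_Dlt h_Chain
theorem h_Q78 : S_Q78 := pr_Q78 h_Tab h_Star h_Main3 h_Rlb

/-- fewer points of antisymmetry. -/
theorem Rw_mono (K : Type) [Field K] {α : Type} [Fintype α] [DecidableEq α] {n m : ℕ}
    (h : n ≤ m) (d : ℕ) (P : Finset α) (p : ℕ) : Rw K m d P p ≤ Rw K n d P p := by
  refine Submodule.span_mono ?_
  rintro z ⟨hz, Q, hQ, hc, hanti⟩
  obtain ⟨Q', hQ', hc'⟩ := exists_subset_card_eq (show n + 1 ≤ Q.card by omega)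
  exact ⟨hz, Q', hQ'.trans hQ, hc', fun σ hσ => hanti σ (U.sup_mono hQ' hσ)⟩

theorem VVm_mono (K : Type) [Field K] {n m : ℕ} (h : n ≤ m) {d T p : ℕ} (hV : VVm K m d T p) :
    VVm K n d T p := fun α _ _ P hP => (hV α P hP).trans (sup_le_sup_left (Rw_mono K h d P p) _)

/-- on `C^4`: the values of Q1 with `q = 2` and `t = b + 1`. -/
theorem KV_four {n d t p : ℕ} (hn : n ≤ 4) (hd : 5 ≤ d) (ht : 2 ≤ t) (htd : t + 2 ≤ d)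
    (h : 2 * p < (t + 2) * (d - 1) + 4 * (t + 1) ∨
      (t + 3 = d ∧ 2 * p < (t + 3) * (d - 1) + 4 * (t + 1))) :
    Pool.Agent.Work.MP_1233f5_ag.V.KV n d p (2 * d - 1 + t) :=
  h_KVm n d p _ (VVm_mono ℂ hn (h_ThmA ℂ d t p hd ht htd h))

/-- on `C^5`. -/
theorem KV_five {n d p : ℕ} (hn : n ≤ 5) (hd : 3 ≤ d) (h : p + 3 < (d + 2).choose 2) :
    Pool.Agent.Work.MP_1233f5_ag.V.KV n d p (3 * d - 3) :=
  h_KVm n d p _ (VVm_mono ℂ hn (h_ThmB ℂ d p hd h))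

/-- on `C^(n+1)`, `t = b + 1`. -/
theorem KV_C {n d t p : ℕ} (hd : 3 ≤ d) (ht : 1 ≤ t) (htd : t + 2 ≤ d)
    (h : 2 * p < (t + 2) * (d - 1) + 4 * (t + 1) ∨
      (t + 3 = d ∧ 2 * p < (t + 3) * (d - 1) + 4 * (t + 1)))
    (hn : n * p < n * (2 * t + 1) + (2 * t + 2) * d + t) :
    Pool.Agent.Work.MP_1233f5_ag.V.KV (n + 1) d p (2 * d - 1 + t) :=
  h_KVm (n + 1) d p _ (h_ThmC ℂ d t p n hd ht htd h hn)

theorem KV_D {n d t p : ℕ} (hd : 3 ≤ d) (ht : 1 ≤ t) (htd : t + 2 ≤ d) (hn : 5 ≤ n)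
    (h : gg n * ((p : ℚ) - (2 * t + 1)) ≤ IThmD.AA d t) :
    Pool.Agent.Work.MP_1233f5_ag.V.KV (n + 1) d p (2 * d - 1 + t) :=
  h_KVm (n + 1) d p _ (h_ThmD ℂ d t p n hd ht htd hn h)

open Pool.Agent.Work.MP_1233f5_ag.LS.IThmD in
theorem gg_harmonic {n : ℕ} (hn : 4 ≤ n) : gg n = harmonic (n - 1) + 1 / 6 := by
  induction n, hn using Nat.le_induction with
  | base =>
    unfold gg harmonic
    norm_num [Finset.sum_range_succ]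
  | succ k hk ih =>
    obtain ⟨j, rfl⟩ : ∃ j, k = j + 1 := ⟨k - 1, by omega⟩
    rw [gg_succ hk, ih, Nat.add_sub_cancel, Nat.add_sub_cancel, harmonic_succ, one_div]
    ring

theorem KV_seven (n : ℕ) {p : ℕ} (h : p < 33) : Pool.Agent.Work.MP_1233f5_ag.V.KV n 7 p 18 :=
  Pool.Agent.Work.MP_1233f5_ag.V.KV_of_ML n 7 18 p (((h_Rlb ℂ 7 18 p).1).2 ((h_Q78 ℂ).1 p h))

theorem KV_eight (n : ℕ) {p : ℕ} (h : p < 42) : Pool.Agent.Work.MP_1233f5_ag.V.KV n 8 p 21 :=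
  Pool.Agent.Work.MP_1233f5_ag.V.KV_of_ML n 8 21 p (((h_Rlb ℂ 8 21 p).1).2 ((h_Q78 ℂ).2 p h))

end Pool.Agent.Work.MP_1233f5_ag.LS
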