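import Pool.Agent.Work.MP_1233f5_ag.LS.Stmts

/-! MP_1233f5_ag, block LS, item FinB: no slots and `k + 1 = r`. -/

set_option autoImplicit false

namespace Pool.Agent.Work.MP_1233f5_ag.LS

open Finset
open Pool.Agent.Work.MP_1233f5_ag.V (vm ML theta rVan Mo vw KV)
open Pool.Agent.Work.MP_1233f5_ag.Y
open Pool.Agent.Work.MP_1233f5_ag.Z
open Pool.Agent.Work.MP_1233f5_ag.Sec (Fk wd ct ee ff hh IsSec IsDeg swd brk)

namespace IFinB

section
variable {K : Type} [Field K] {α : Type} [Fintype α] [DecidableEq α]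

/-- The symmetrization of a section. -/
theorem symm_mem [CharZero K] (hSAct : S_SAct) {r q : ℕ} {P Y : Finset α}
    {s : Finset α → Fk K} (hs : s ∈ Sc K r q P) : symm (sact K α) P Y s ∈ Sc K r q P := by
  classical
  rw [U.symm_apply]
  refine Submodule.sum_mem _ fun σ hσ => ?_
  have hS : StY P Y σ := (mem_filter.1 hσ).2
  have h1 := hSAct K α r q P σ s hs
  rwa [U.sup_im hS.1] at h1

omit [DecidableEq α] in
/-- The value of the symmetrization at `Y`. -/
theorem symm_val [CharZero K] (P Y : Finset α) : ∃ N : K, N ≠ 0 ∧ ∀ s : Finset α → Fk K,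
    symm (sact K α) P Y s Y = N • s Y := by
  classical
  refine ⟨((univ.filter (fun σ : Equiv.Perm α => StY P Y σ)).card : K), ?_, fun s => ?_⟩
  · refine Nat.cast_ne_zero.2 (Nat.pos_iff_ne_zero.1 (card_pos.2 ⟨1, ?_⟩))
    rw [mem_filter]
    exact ⟨mem_univ _, U.sty_one P Y⟩
  · rw [U.symm_apply, Finset.sum_apply]
    have h1 : ∀ σ ∈ univ.filter (fun σ : Equiv.Perm α => StY P Y σ), sact K α σ s Y = s Y := by
      intro σ hσ
      have hS : StY P Y σ := (mem_filter.1 hσ).2
      rw [U.sact_apply, (U.sty_inv hS).2]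
    rw [sum_congr rfl h1, sum_const, Nat.cast_smul_eq_nsmul]

omit [Fintype α] in
/-- Invariant sections have the same value at the sets `Y + a - b`. -/
theorem inv_erase {P Y : Finset α} {a : α} (ha : a ∈ P) (haY : a ∉ Y) (hY : Y ⊆ P)
    {s : Finset α → Fk K} (hs : ∀ σ, StY P (insert a Y) σ → sact K α σ s = s) (b : α)
    (hb : b ∈ insert a Y) : s ((insert a Y).erase b) = s Y := by
  have hbP : b ∈ P := by
    rcases mem_insert.1 hb with h | h
    · rw [h]
      exact ha
    · exact hY h
  have hS : StY P (insert a Y) (Equiv.swap a b) :=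
    U.sty_swap ha hbP ⟨fun _ => hb, fun _ => mem_insert_self a Y⟩
  have h1 := congrFun (hs _ hS) ((insert a Y).erase b)
  rw [U.sact_apply] at h1
  rw [← h1]
  congr 1
  rw [U.im_erase, (U.sty_inv hS).2, Equiv.swap_inv, Equiv.swap_apply_right, erase_insert haY]

end

end IFinB

open IFinB in
/-- [FinB] -/
theorem pr_FinB (h1 : S_Rep2) (h2 : S_SAct) (h3 : S_Tri) (h4 : S_Det) (h5 : S_Exist)
    (h6 : S_LemN) (h7 : S_SecF) : S_FinB := by
  intro K _ _ α _ _ H _ _ ρ V J G r k c P Φ hkr hA hE hSt hNo hG hrP hc n s hs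
  subst hkr
  have hrest : ∀ n : ℕ × ℕ → Finset α, rest ∅ P n = P := by
    intro n
    unfold rest
    rw [biUnion_empty, sdiff_empty]
  have hcf : ∀ n : ℕ × ℕ → Finset α, Cf (k + 1) ∅ P n := fun n =>
    ⟨fun i hi => absurd hi (notMem_empty i), fun i hi => absurd hi (notMem_empty i)⟩
  have heqv : ∀ σ, Sup P σ → ∀ s ∈ Sc K (k + 1) (k + 1) P, Φ n (sact K α σ s) = ρ σ (Φ n s) := by
    intro σ hσ s hs
    have e1 := hA.eqv σ hσ n (hcf n) s (by rw [hrest n]; exact hs)
    rw [← e1]
    rw [hA.loc n (fun i => im σ (n i)) (fun i hi => absurd hi (notMem_empty i))]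
  have hval : ∀ s ∈ Sc K (k + 1) (k + 1) P, Φ n s ∈ V := fun s hs =>
    hE.val n (hcf n) s (by rw [hrest n]; exact hs)
  have hant : ∀ s ∈ Sc K (k + 1) (k + 1) P, AntG ρ J G (Φ n s) := fun s hs =>
    hE.ant n (hcf n) s (by rw [hrest n]; exact hs)
  have hext : ∀ s ∈ Sc K (k + 1) (k + 1) P, ∀ y ∈ P, ExtG ρ J G y (Φ n s) := fun s hs y hy =>
    hE.ext n (hcf n) s (by rw [hrest n]; exact hs) y (by rw [hrest n]; exact hy)
  -- the claim
  have claim : ∀ m : ℕ, ∀ Y : Finset α, Y ⊆ P → P.card - Y.card ≤ m → P.card ≤ 2 * Y.card →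
      ∀ s ∈ Sc K (k + 1) (k + 1) P, (∀ σ, StY P Y σ → sact K α σ s = s) → Φ n s = 0 := by
    intro m
    induction m with
    | zero =>
      intro Y hY hm hY2 s hs hinv
      have hcard : Y.card ≤ P.card := card_le_card hY
      refine h6 K α H ρ V J G Y c (Φ n s) hSt hNo ⟨hG.dis, fun j hj => (hG.out j hj).mono_right hY⟩
        (card_pos.1 (by omega)) (by omega) (hval s hs) ?_ (hant s hs)
        (fun y hy => hext s hs y (hY hy))
      intro σ hσ
      have hS : StY P Y σ := ⟨U.sup_mono hY hσ, U.sup_im hσ⟩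
      rw [← heqv σ hS.1 s hs, hinv σ hS]
    | succ m ih =>
      intro Y hY hm hY2 s hs hinv
      have hcard : Y.card ≤ P.card := card_le_card hY
      by_cases hbig : P.card + (k + 1) ≤ 2 * Y.card
      · refine h6 K α H ρ V J G Y c (Φ n s) hSt hNo
          ⟨hG.dis, fun j hj => (hG.out j hj).mono_right hY⟩
          (card_pos.1 (by omega)) (by omega) (hval s hs) ?_ (hant s hs)
          (fun y hy => hext s hs y (hY hy))
        intro σ hσ
        have hS : StY P Y σ := ⟨U.sup_mono hY hσ, U.sup_im hσ⟩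
        rw [← heqv σ hS.1 s hs, hinv σ hS]
      · have hlt : Y.card < P.card := by omega
        obtain ⟨a, haP, haY⟩ := exists_mem_notMem_of_card_lt_card hlt
        have hY' : insert a Y ⊆ P := insert_subset haP hY
        have hcard' : (insert a Y).card = Y.card + 1 := card_insert_of_notMem haY
        -- the weight
        have hw : hh K (k + 1) (s Y) = ((2 * (Y.card : ℤ) - P.card : ℤ) : K) • s Y := by
          rw [hs.1.hh (Sec.sl_fock (k + 1)) Y hY]
          push_cast
          rfl
        obtain ⟨ε', he1, he2, he3⟩ := h7 K (k + 1) (2 * (Y.card : ℤ) - P.card) (s Y) (hs.2 Y)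
          (by push_cast; omega) hw
        obtain ⟨s0, hs0, hs0v⟩ := h5 K α (k + 1) (k + 1) P (insert a Y) hY' (by
          have e1 : k + 1 - 1 = k := rfl
          rw [e1]
          nlinarith) ε' he1 (by
          rw [he2, hcard']
          push_cast
          congr 1
          ring)
        obtain ⟨N0, hN0, hN0v⟩ := symm_val (K := K) P (insert a Y)
        have hs1 : symm (sact K α) P (insert a Y) s0 ∈ Sc K (k + 1) (k + 1) P := symm_mem h2 hs0
        have hs1inv : ∀ σ, StY P (insert a Y) σ → sact K α σ (symm (sact K α) P (insert a Y) s0)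
            = symm (sact K α) P (insert a Y) s0 := fun σ hσ => U.rho_symm (sact K α) hσ s0
        have hs1v : symm (sact K α) P (insert a Y) s0 (insert a Y) = N0 • ε' := by
          rw [hN0v, hs0v]
        generalize symm (sact K α) P (insert a Y) s0 = s1 at hs1 hs1inv hs1v
        have hφ1 : Φ n s1 = 0 := ih (insert a Y) hY' (by omega) (by omega) s1 hs1 hs1inv
        -- the relation
        have hff : ((Y.card : K) + 1) • s1 Y = N0 • s Y := by
          have e1 := hs1.1.ff (insert a Y) hY'
          rw [hs1v, map_smul, he3, sum_congr rfl (fun b hb =>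
            inv_erase haP haY hY hs1inv b hb), sum_const, hcard', ← Nat.cast_smul_eq_nsmul K] at e1
          rw [e1]
          push_cast
          rfl
        obtain ⟨N1, hN1, hN1v⟩ := symm_val (K := K) P Y
        have hs2 : symm (sact K α) P Y s1 ∈ Sc K (k + 1) (k + 1) P := symm_mem h2 hs1
        have hs2inv : ∀ σ, StY P Y σ → sact K α σ (symm (sact K α) P Y s1)
            = symm (sact K α) P Y s1 := fun σ hσ => U.rho_symm (sact K α) hσ s1
        have hs2v := hN1v s1
        have hφ2 : Φ n (symm (sact K α) P Y s1) = 0 := by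
          classical
          rw [U.symm_apply, map_sum]
          refine sum_eq_zero fun σ hσ => ?_
          have hS : StY P Y σ := (mem_filter.1 hσ).2
          rw [heqv σ hS.1 s1 hs1, hφ1, map_zero]
        generalize symm (sact K α) P Y s1 = s2 at hs2 hs2inv hs2v hφ2
        have hdet := h4 K α (k + 1) (k + 1) P Y hY (((Y.card : K) + 1) • s2 - (N1 * N0) • s)
          (Submodule.sub_mem _ (Submodule.smul_mem _ _ hs2) (Submodule.smul_mem _ _ hs))
          (fun σ hσ => by rw [map_sub, map_smul, map_smul, hs2inv σ hσ, hinv σ hσ])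
          (by
            rw [Pi.sub_apply, Pi.smul_apply, Pi.smul_apply, hs2v, smul_comm, hff, smul_smul,
              sub_self])
        have hfin : (N1 * N0) • Φ n s = 0 := by
          rw [← map_smul, ← sub_eq_zero.1 hdet, map_smul, hφ2, smul_zero]
        exact (smul_eq_zero.1 hfin).resolve_left (mul_ne_zero hN1 hN0)
  -- conclusion
  have hfinal : Sc K (k + 1) (k + 1) P ≤ Sc K (k + 1) (k + 1) P ⊓ LinearMap.ker (Φ n) := by
    refine h1 K α (Finset α → Fk K) (sact K α) P (Sc K (k + 1) (k + 1) P) _ ?_ ?_ ?_ ?_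
    · intro σ hσ z hz
      have e1 := h2 K α (k + 1) (k + 1) P σ z hz
      rwa [U.sup_im hσ] at e1
    · rintro σ hσ z ⟨hz1, hz2⟩
      have e1 := h2 K α (k + 1) (k + 1) P σ z hz1
      rw [U.sup_im hσ] at e1
      refine ⟨e1, ?_⟩
      show Φ n (sact K α σ z) = 0
      have hz3 : Φ n z = 0 := hz2
      rw [heqv σ hσ z hz1, hz3, map_zero]
    · intro Y hY z hz hinv
      refine ⟨hz, ?_⟩
      show Φ n z = 0
      by_cases hc2 : P.card ≤ 2 * Y.card
      · exact claim _ Y hY le_rfl hc2 z hz hinv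
      · have e1 : (P \ Y).card = P.card - Y.card := card_sdiff_of_subset hY
        refine claim _ (P \ Y) sdiff_subset le_rfl (by omega) z hz ?_
        intro σ hσ
        refine hinv σ ⟨hσ.1, ?_⟩
        have e2 : P \ (P \ Y) = Y := Finset.sdiff_sdiff_eq_self hY
        calc im σ Y = im σ (P \ (P \ Y)) := by rw [e2]
          _ = P \ (P \ Y) := by rw [U.im_sdiff, U.sup_im hσ.1, hσ.2]
          _ = Y := e2
    · intro Q hQ hQ3 z hz hanti
      obtain ⟨N, hN, hNs⟩ := U.asym_of_anti (K := K) (sact K α) Q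
      have e1 : asym (sact K α) Q z = 0 := h3 K α (k + 1) (k + 1) P Q hQ3 z hz
      rw [hNs z hanti] at e1
      rw [(smul_eq_zero.1 e1).resolve_left hN]
      exact Submodule.zero_mem _
  rw [hrest n] at hs
  exact (hfinal hs).2

end Pool.Agent.Work.MP_1233f5_ag.LS
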