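import Pool.Agent.Work.MP_1233f5_ag.LS.StmtsR
import Pool.Agent.Work.MP_1233f5_ag.LS.Stmts

/-! MP_1233f5_ag, block LS: the tables for `d = 7` and `d = 8`. -/

set_option autoImplicit false

namespace Pool.Agent.Work.MP_1233f5_ag.LS

open Finset
open Pool.Agent.Work.MP_1233f5_ag.V (vm ML theta rVan)
open Pool.Agent.Work.MP_1233f5_ag.Y
open Pool.Agent.Work.MP_1233f5_ag.Z

namespace IQ78

/-- entry of a table -/
def tb (L : List (List ℕ)) (T s : ℕ) : ℕ := (L.getD T []).getD s 0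

/-- the check of one entry -/
def ck (r vT Np T s n : ℕ) : Bool :=
  decide (1 ≤ T) && (decide (s = 0) || (decide (n < vT) ||
    (decide (n + 1 < (n * (r + 1) + T + (s - 1)) / s) ||
    (decide (n + 1 - (n * (r + 1) + T + (s - 1)) / s < Np) ||
    (decide (r + 2 ≤ T) && (decide (T ≤ 2 * r) && (decide (n ≤ 2 * (T - (r + 1))) &&
      decide (2 * (n + s) < (T - (r + 1) + 2) * r + 4 * (T - (r + 1) + 1) +
        (if T - (r + 1) + 2 = r then r else 0)))))))))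

/-- the check of a table -/
def ckAll (r A B : ℕ) (v : List ℕ) (L : List (List ℕ)) : Bool :=
  (List.range A).all fun T => (List.range B).all fun s => (List.range (tb L T s)).all fun n =>
    ck r (v.getD T 0) (tb L (T - 1) (s - 1)) T s n

theorem ck_sound {r vT Np T s n : ℕ} (h : ck r vT Np T s n = true) :
    1 ≤ T ∧ (s = 0 ∨ n < vT ∨ n + 1 < (n * (r + 1) + T + (s - 1)) / s ∨
      n + 1 - (n * (r + 1) + T + (s - 1)) / s < Np ∨
      ∃ t δ, T = r + 1 + t ∧ 1 ≤ t ∧ t + 1 ≤ r ∧ n ≤ 2 * t ∧ (δ = 0 ∨ (δ = r ∧ t + 2 = r)) ∧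
        2 * (n + s) < (t + 2) * r + 4 * (t + 1) + δ) := by
  unfold ck at h
  rw [Bool.and_eq_true, Bool.or_eq_true, Bool.or_eq_true, Bool.or_eq_true, Bool.or_eq_true,
    Bool.and_eq_true, Bool.and_eq_true, Bool.and_eq_true, decide_eq_true_eq, decide_eq_true_eq,
    decide_eq_true_eq, decide_eq_true_eq, decide_eq_true_eq, decide_eq_true_eq,
    decide_eq_true_eq, decide_eq_true_eq, decide_eq_true_eq] at h
  obtain ⟨h1, h2⟩ := h
  refine ⟨h1, ?_⟩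
  rcases h2 with h2 | h2 | h2 | h2 | ⟨h2, h3, h4, h5⟩
  · exact Or.inl h2
  · exact Or.inr (Or.inl h2)
  · exact Or.inr (Or.inr (Or.inl h2))
  · exact Or.inr (Or.inr (Or.inr (Or.inl h2)))
  · refine Or.inr (Or.inr (Or.inr (Or.inr ⟨T - (r + 1),
      (if T - (r + 1) + 2 = r then r else 0), by omega, by omega, by omega, h4, ?_, h5⟩)))
    by_cases h6 : T - (r + 1) + 2 = r
    · exact Or.inr ⟨if_pos h6, h6⟩
    · exact Or.inl (if_neg h6)

theorem tb_bound {L : List (List ℕ)} {A B : ℕ} (hA : L.length ≤ A) (hB : ∀ l ∈ L, l.length ≤ B)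
    {T s n : ℕ} (h : n < tb L T s) : T < A ∧ s < B := by
  unfold tb at h
  have hT : T < L.length := by
    by_contra hcon
    rw [List.getD_eq_default _ _ (not_lt.1 hcon)] at h
    simp at h
  refine ⟨lt_of_lt_of_le hT hA, ?_⟩
  by_contra hcon
  have h1 : L.getD T [] ∈ L := by
    rw [List.getD_eq_getElem _ _ hT]
    exact List.getElem_mem hT
  rw [List.getD_eq_default _ _ ((hB _ h1).trans (not_lt.1 hcon))] at h
  exact absurd h (Nat.not_lt_zero n)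

theorem ckAll_sound {r A B : ℕ} {v : List ℕ} {L : List (List ℕ)} (hA : L.length ≤ A)
    (hB : ∀ l ∈ L, l.length ≤ B) (h : ckAll r A B v L = true) (T s n : ℕ) (hn : n < tb L T s) :
    1 ≤ T ∧ (s = 0 ∨ n < v.getD T 0 ∨ n + 1 < (n * (r + 1) + T + (s - 1)) / s ∨
      n + 1 - (n * (r + 1) + T + (s - 1)) / s < tb L (T - 1) (s - 1) ∨
      ∃ t δ, T = r + 1 + t ∧ 1 ≤ t ∧ t + 1 ≤ r ∧ n ≤ 2 * t ∧ (δ = 0 ∨ (δ = r ∧ t + 2 = r)) ∧
        2 * (n + s) < (t + 2) * r + 4 * (t + 1) + δ) := by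
  obtain ⟨h1, h2⟩ := tb_bound hA hB hn
  unfold ckAll at h
  rw [List.all_eq_true] at h
  have h3 := h T (List.mem_range.2 h1)
  rw [List.all_eq_true] at h3
  have h4 := h3 s (List.mem_range.2 h2)
  rw [List.all_eq_true] at h4
  exact ck_sound (h4 n (List.mem_range.2 hn))

/-- lower bounds for `d = 7` -/
def v7 : List ℕ := [0, 0, 0, 0, 0, 0, 0, 1, 2, 3, 4, 5, 6]

/-- lower bounds for `d = 8` -/
def v8 : List ℕ := [0, 0, 0, 0, 0, 0, 0, 0, 1, 2, 3, 4, 5, 6, 7, 15]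

/-- the table for `d = 7` -/
def L7 : List (List ℕ) := [[],
  [],
  [],
  [],
  [],
  [],
  [],
  [],
  [],
  [],
  [0, 0, 0, 0, 0, 0, 0, 0, 0, 0, 0, 0, 5, 5, 6, 6],
  [0, 0, 0, 0, 0, 0, 0, 3, 5, 7, 8, 9, 9, 10, 10, 10, 10, 9, 9, 9, 8],
  [33, 32, 31, 30, 29, 28, 27, 26, 25, 24, 23, 22, 21, 20, 19, 18, 17, 16, 15, 14, 13, 12, 11,
   10, 9, 8, 7, 6, 5, 4, 3, 2, 1]]

/-- the table for `d = 8` -/
def L8 : List (List ℕ) := [[],
  [],
  [],
  [],
  [],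
  [],
  [],
  [],
  [],
  [],
  [],
  [],
  [0, 0, 0, 0, 0, 0, 0, 0, 0, 0, 0, 0, 5, 6, 6, 7, 8, 8, 8, 8, 8, 9, 8, 8],
  [0, 0, 0, 0, 0, 0, 0, 0, 4, 6, 8, 10, 11, 12, 13, 13, 13, 14, 14, 13, 13, 13, 13, 12, 12, 11,
   11, 10],
  [42, 41, 40, 39, 38, 37, 36, 35, 34, 33, 32, 31, 30, 29, 28, 27, 26, 25, 24, 23, 22, 21, 20,
   19, 18, 17, 16, 15, 14, 13, 12, 11, 10, 9, 8, 7, 6, 5, 4, 3, 2, 1],
  [42, 41, 40, 39, 38, 37, 36, 35, 34, 33, 32, 31, 30, 29, 28, 27, 26, 25, 24, 23, 22, 21, 20,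
   19, 18, 17, 16, 15, 14, 13, 12, 11, 10, 9, 8, 7, 6, 5, 4, 3, 2, 1]]

theorem v7_le (T : ℕ) : v7.getD T 0 ≤ bnd3 7 T := by
  by_cases hT : T < 13
  · have h : ∀ T < 13, v7.getD T 0 ≤ bnd3 7 T := by decide +kernel
    exact h T hT
  · rw [List.getD_eq_default _ _ (show v7.length ≤ T from not_lt.1 hT)]
    exact Nat.zero_le _

theorem v8_le (T : ℕ) : v8.getD T 0 ≤ bnd3 8 T := by
  by_cases hT : T < 16
  · have h : ∀ T < 16, v8.getD T 0 ≤ bnd3 8 T := by decide +kernel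
    exact h T hT
  · rw [List.getD_eq_default _ _ (show v8.length ≤ T from not_lt.1 hT)]
    exact Nat.zero_le _

theorem ck7 : ckAll 6 13 33 v7 L7 = true := by decide +kernel

theorem ck8 : ckAll 7 16 42 v8 L8 = true := by decide +kernel

theorem len7 : L7.length ≤ 13 ∧ ∀ l ∈ L7, l.length ≤ 33 := by decide +kernel

theorem len8 : L8.length ≤ 16 ∧ ∀ l ∈ L8, l.length ≤ 42 := by decide +kernel

theorem top7 : ∀ p < 33, ∀ a < 33, a ≤ p → p - a < tb L7 12 a := by decide +kernel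

theorem top8 : ∀ p < 42, ∀ a < 42, a ≤ p → p - a < tb L8 14 a ∧ p - a < tb L8 15 a := by
  decide +kernel

theorem b7 : 33 ≤ bnd3 7 19 := by decide +kernel

theorem b8 : 42 ≤ bnd3 8 23 := by decide +kernel

end IQ78

theorem pr_Q78 (h1 : S_Tab) (h2 : S_Star) (h3 : S_Main3) (h4 : S_Rlb) : S_Q78 := by
  intro K _ _
  have hVV : ∀ d T n, 3 ≤ d → n < bnd3 d T → VV K d T n := fun d T n hd hn =>
    (h4 K d T n).1.1 (h3 K d T n hd hn)
  constructor
  · intro p hp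
    have hZ := h1 K 6 (fun T => IQ78.v7.getD T 0) (IQ78.tb IQ78.L7) (by norm_num)
      (fun T n hn => hVV 7 T n (by norm_num) (lt_of_lt_of_le hn (IQ78.v7_le T)))
      (IQ78.ckAll_sound IQ78.len7.1 IQ78.len7.2 IQ78.ck7) 12
    refine h2 K 6 12 p (by norm_num) (hVV 7 19 p (by norm_num) (lt_of_lt_of_le hp IQ78.b7)) ?_
    intro a ha
    exact hZ a (p - a) (IQ78.top7 p hp a (lt_of_le_of_lt ha hp) ha)
  · intro p hp
    have hZ := h1 K 7 (fun T => IQ78.v8.getD T 0) (IQ78.tb IQ78.L8) (by norm_num)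
      (fun T n hn => hVV 8 T n (by norm_num) (lt_of_lt_of_le hn (IQ78.v8_le T)))
      (IQ78.ckAll_sound IQ78.len8.1 IQ78.len8.2 IQ78.ck8)
    refine h2 K 7 14 p (by norm_num) ?_ ?_
    · refine h2 K 7 15 p (by norm_num) (hVV 8 23 p (by norm_num) (lt_of_lt_of_le hp IQ78.b8)) ?_
      intro a ha
      exact hZ 15 a (p - a) (IQ78.top8 p hp a (lt_of_le_of_lt ha hp) ha).2
    · intro a ha
      exact hZ 14 a (p - a) (IQ78.top8 p hp a (lt_of_le_of_lt ha hp) ha).1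

end Pool.Agent.Work.MP_1233f5_ag.LS
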