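import Pool.Agent.Work.MP_1233f5_ag.LS.I_ThmC

/-! MP_1233f5_ag, block LS: the theorem on `C^(n+1)`, `n ≥ 5` (captain helper4).  `y = c d + T`
points; `gg k = 2 + 1/4 + ... + 1/(k-1)`, `Γ_k = (gg k - 1) s + y / k`. -/

set_option autoImplicit false

namespace Pool.Agent.Work.MP_1233f5_ag.LS

open Finset
open Pool.Agent.Work.MP_1233f5_ag.V (ML)
open Pool.Agent.Work.MP_1233f5_ag.Y
open Pool.Agent.Work.MP_1233f5_ag.Z

/-- `2 + 1/4 + 1/5 + ... + 1/(k-1)`. -/
def gg (k : ℕ) : ℚ := 2 + ∑ j ∈ Ico 4 k, (1 : ℚ) / j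

/-- the potential. -/
def Gam (k : ℕ) (y s : ℚ) : ℚ := (gg k - 1) * s + y / k

namespace IThmD

theorem gg_succ {k : ℕ} (hk : 4 ≤ k) : gg (k + 1) = gg k + 1 / k := by
  unfold gg
  rw [Finset.sum_Ico_succ_top hk, add_assoc]

theorem gg_ge (k : ℕ) : 2 ≤ gg k := by
  unfold gg
  have : 0 ≤ ∑ j ∈ Ico 4 k, (1 : ℚ) / j := Finset.sum_nonneg fun j _ => by positivity
  linarith

theorem Gam_succ {k : ℕ} (hk : 4 ≤ k) (y s : ℚ) :
    Gam (k + 1) y s - Gam k y s = ((k + 1) * s - y) / (k * (k + 1)) := by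
  have h1 : (0 : ℚ) < k := by
    have : (4 : ℚ) ≤ k := by exact_mod_cast hk
    linarith
  unfold Gam
  rw [gg_succ hk]
  push_cast
  field_simp
  ring

/-- increasing for `k` with `y ≤ (k + 1) s`. -/
theorem Gam_up {k0 : ℕ} (hk : 4 ≤ k0) {y s : ℚ} (hs : 0 ≤ s) (h : y ≤ (k0 + 1) * s) {k : ℕ}
    (hkk : k0 ≤ k) : Gam k0 y s ≤ Gam k y s := by
  induction k, hkk using Nat.le_induction with
  | base => exact le_rfl
  | succ k hkk ih =>
    have h1 := Gam_succ (hk.trans hkk) y s
    have h2 : (k0 : ℚ) ≤ k := by exact_mod_cast hkk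
    have h3 : y ≤ (k + 1) * s := h.trans (mul_le_mul_of_nonneg_right (by linarith) hs)
    have h4 : (0 : ℚ) < k := by
      have : (4 : ℚ) ≤ k := by exact_mod_cast hk.trans hkk
      linarith
    have h5 : 0 ≤ ((k + 1) * s - y) / (k * (k + 1)) := div_nonneg (by linarith) (by positivity)
    linarith

/-- decreasing for `k` with `(k + 1) s ≤ y`. -/
theorem Gam_down {k : ℕ} (hk : 4 ≤ k) {y s : ℚ} (hs : 0 ≤ s) {k0 : ℕ} (h : k0 * s ≤ y)
    (hkk : k ≤ k0) : Gam k0 y s ≤ Gam k y s := by
  induction k0, hkk using Nat.le_induction with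
  | base => exact le_rfl
  | succ k0 hkk ih =>
    have h1 := Gam_succ (hk.trans hkk) y s
    push_cast at h
    have h3 : (k0 : ℚ) * s ≤ y := by linarith
    have h4 : (0 : ℚ) < k0 := by
      have : (4 : ℚ) ≤ k0 := by exact_mod_cast hk.trans hkk
      linarith
    have h5 : ((k0 + 1) * s - y) / (k0 * (k0 + 1)) ≤ 0 :=
      div_nonpos_of_nonpos_of_nonneg (by linarith) (by positivity)
    have h6 := ih h3
    linarith

theorem Gam_min {k0 : ℕ} (hk0 : 4 ≤ k0) {y s : ℚ} (hs : 0 ≤ s) (h1 : k0 * s ≤ y)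
    (h2 : y ≤ (k0 + 1) * s) {k : ℕ} (hk : 4 ≤ k) : Gam k0 y s ≤ Gam k y s := by
  rcases le_total k0 k with h | h
  · exact Gam_up hk0 hs h2 h
  · exact Gam_down hk hs h1 h

theorem Gam_mono {k : ℕ} {y y' s s' : ℚ} (hy : y' ≤ y) (hs : s' ≤ s) :
    Gam k y' s' ≤ Gam k y s := by
  unfold Gam
  have h1 := gg_ge k
  have h2 : (gg k - 1) * s' ≤ (gg k - 1) * s := mul_le_mul_of_nonneg_left hs (by linarith)
  have h3 : y' / (k : ℚ) ≤ y / k := div_le_div_of_nonneg_right hy (by positivity)
  linarith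

theorem Gam_four (y s : ℚ) : Gam 4 y s = s + y / 4 := by
  unfold Gam gg
  norm_num

/-- the bound. -/
def AA (d e : ℕ) : ℚ := (e + 1) * d - e / 4

/-- many points. -/
theorem four_lt {d e k s y : ℕ} (he : 1 ≤ e) (hk : 4 ≤ k) (hy : (2 * e + 2) * d + e ≤ y)
    (h : Gam k y s ≤ AA d e) : 4 * s < y := by
  by_contra hc
  have hc' : (y : ℚ) ≤ 4 * s := by exact_mod_cast not_lt.1 hc
  have hs : (0 : ℚ) ≤ s := by positivity
  have h1 : Gam 4 y s ≤ Gam k y s := Gam_up le_rfl hs (by push_cast; linarith) hk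
  rw [Gam_four] at h1
  have h2 : ((2 * e + 2) * d + e : ℚ) ≤ y := by exact_mod_cast hy
  have h3 : (1 : ℚ) ≤ e := by exact_mod_cast he
  unfold AA at h
  nlinarith

/-- few colours. -/
theorem two_lt {d e k s y : ℕ} (he : 1 ≤ e) (hed : e + 1 ≤ d) (hk : 4 ≤ k)
    (hy : (2 * e + 2) * d + e ≤ y) (h : Gam k y s ≤ AA d e) :
    2 * s < (e + 1) * (d - 1) + 6 := by
  by_contra hc
  obtain ⟨r, rfl⟩ : ∃ r, d = r + 1 := ⟨d - 1, by omega⟩
  rw [Nat.add_sub_cancel] at hc
  have hc' : ((e + 1) * r + 6 : ℚ) ≤ 2 * s := by exact_mod_cast not_lt.1 hc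
  have hs : (0 : ℚ) ≤ s := by positivity
  have her : (e : ℚ) ≤ r := by exact_mod_cast (by omega : e ≤ r)
  have h3 : (1 : ℚ) ≤ e := by exact_mod_cast he
  obtain ⟨Y0, hY0⟩ : ∃ Y0 : ℚ, Y0 = (2 * e + 2) * (r + 1) + e := ⟨_, rfl⟩
  have h5 : Y0 ≤ (4 + 1) * s := by
    rw [hY0]
    nlinarith [sq_nonneg ((e : ℚ) - 2), mul_le_mul_of_nonneg_left her (by linarith : (0 : ℚ) ≤ e)]
  have h1 : Gam 4 Y0 s ≤ Gam k Y0 s := Gam_up le_rfl hs (by push_cast; linarith) hk
  rw [Gam_four] at h1
  have h2 : Y0 ≤ y := by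
    rw [hY0]
    exact_mod_cast hy
  have h4 : Gam k Y0 s ≤ Gam k y s := Gam_mono h2 le_rfl
  unfold AA at h
  push_cast at h
  rw [hY0] at h1 h4
  nlinarith

/-- one step of the chain. -/
theorem step {d k0 : ℕ} (hk : 4 ≤ k0) {y s y' : ℚ} (h1 : y' + k0 * d + 1 ≤ y) :
    Gam k0 y' (s - 1) + (d + 1) ≤ Gam k0 y s := by
  have h4 : (0 : ℚ) < k0 := by
    have : (4 : ℚ) ≤ k0 := by exact_mod_cast hk
    linarith
  have h2 : Gam k0 y' (s - 1) ≤ Gam k0 (y - k0 * d - 1) (s - 1) :=
    Gam_mono (by linarith) le_rfl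
  have h3 : Gam k0 (y - k0 * d - 1) (s - 1) = Gam k0 y s - (gg k0 - 1) - d - 1 / k0 := by
    unfold Gam
    field_simp
    ring
  have h5 := gg_ge k0
  have h6 : (0 : ℚ) < 1 / k0 := by positivity
  linarith

theorem AA_mono {d e e' : ℕ} (hd : 1 ≤ d) (h : e ≤ e') : AA d e ≤ AA d e' := by
  unfold AA
  have h1 : (1 : ℚ) ≤ d := by exact_mod_cast hd
  have h2 : (e : ℚ) ≤ e' := by exact_mod_cast h
  nlinarith

theorem AA_succ (d e : ℕ) : AA d (e + 1) = AA d e + d - 1 / 4 := by
  unfold AA
  push_cast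
  ring

end IThmD

open IThmD

/-- [JJ] the excluded triples.  Proof: induction on `t`, `e = min t (d - 1)`.  `t = 0`: `s < d`, so
`S_Chain` with `m > c + 1` (`y = (c + 1) d`).  `t ≥ 1`: `4 s < y` (`four_lt`), let
`k0 < y / s ≤ k0 + 1`; `Gam k0 ≤ Gam k` (`Gam_min`); `S_Chain`: the smaller `c'` by induction (or
`c' ≤ 2 e`: `S_Dlt`, `S_B3`), and for `m ≥ k0 + 1` the place `t - 1` with `s - 1`, `c + 1 - m`:
`Gam k0` decreases by `d + 1`, `AA` by at most `d`. -/
def S_JJ : Prop :=
  ∀ (K : Type) [Field K] [CharZero K] (d t s c k : ℕ), 3 ≤ d → 4 ≤ k →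
    2 * min t (d - 1) + 1 ≤ c → Gam k ((c * d + (d + t) : ℕ) : ℚ) s ≤ AA d (min t (d - 1)) →
    ZV K d (d + t) s c

namespace IThmD

theorem zv_zero {K : Type} [Field K] {d T c : ℕ} (h : 0 < c * d + T) : ZV K d T 0 c := by
  intro α _ _ P χ hP hχ
  exfalso
  have h3 : (P.image χ).card = 0 := Nat.le_zero.1 hχ
  rw [Finset.card_eq_zero, Finset.image_eq_empty] at h3
  rw [h3, Finset.card_empty] at hP
  omega

theorem zv_mono {K : Type} [Field K] {d T s s' c : ℕ} (hs : s' ≤ s) (h : ZV K d T s c) :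
    ZV K d T s' c := fun α _ _ P χ hP hχ => h α P χ hP (hχ.trans hs)

/-- fewer than `d` colours at the place `d`. -/
theorem rows (hCh : S_Chain) {K : Type} [Field K] [CharZero K] {r : ℕ} (hr : 1 ≤ r)
    (h0 : VV K (r + 1) (r + 1) 0) : ∀ c s, s < r + 1 → ZV K (r + 1) (r + 1) s c := by
  intro c
  induction c using Nat.strong_induction_on with
  | _ c ih =>
    intro s hs
    rcases s with _ | s
    · exact zv_zero (by omega)
    · rcases Nat.eq_zero_or_pos c with rfl | hc
      · exact IThmC.vz h0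
      · refine hCh K r r s c hr (fun c' hc' => ih c' hc' s (by omega)) (fun m hm hmc => ?_)
        exfalso
        have h1 : c * (r + 1) + (r + 1) + s < (c + 2) * (s + 1) := by
          have h2 := Nat.lt_of_lt_of_le (Nat.lt_succ_of_le hm) (by omega : m + 1 ≤ c + 2)
          exact (Nat.div_lt_iff_lt_mul (by omega)).1 h2
        have h3 : (c + 1) * (s + 1) < (c + 1) * (r + 1) :=
          Nat.mul_lt_mul_of_pos_left hs (by omega)
        nlinarith

end IThmD

theorem pr_JJ (hCh : S_Chain) (hDl : S_Dlt) (hB3 : S_B3) (hBG : S_BGr)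
    (hM3 : S_Main3) (hRl : S_Rlb) : S_JJ := by
  intro K _ _ d t s c k hd
  obtain ⟨r, rfl⟩ : ∃ r, d = r + 1 := ⟨d - 1, by omega⟩
  have hvv : ∀ T c, c < bnd3 (r + 1) T → VV K (r + 1) T c := fun T c hc =>
    ((hRl K (r + 1) T c).1).1 (hM3 K (r + 1) T c hd hc)
  have er : r + 1 - 1 = r := by omega
  rw [er]
  induction t generalizing s c k with
  | zero =>
    intro hk hc h
    have h0 : VV K (r + 1) (r + 1) 0 := hvv _ _ (by
      have := hBG (r + 1) (r + 1) hd
      omega)
    have h1 : s < r + 1 := by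
      by_contra hcon
      have h2 : ((r + 1 : ℕ) : ℚ) ≤ s := by exact_mod_cast not_lt.1 hcon
      have h3 := gg_ge k
      have h4 : (0 : ℚ) < k := by
        have : (4 : ℚ) ≤ k := by exact_mod_cast hk
        linarith
      have h5 : (0 : ℚ) < ((c * (r + 1) + (r + 1 + 0) : ℕ) : ℚ) / k := by
        refine div_pos ?_ h4
        exact_mod_cast (by omega : 0 < c * (r + 1) + (r + 1 + 0))
      have h6 : (s : ℚ) ≤ (gg k - 1) * s := by
        have : (0 : ℚ) ≤ s := by positivity
        nlinarith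
      unfold Gam AA at h
      simp only [Nat.zero_min, Nat.cast_zero, zero_add, one_mul, zero_div, sub_zero] at h
      linarith
    exact rows hCh (by omega) h0 c s h1
  | succ t iht =>
    intro hk
    obtain ⟨e, he⟩ : ∃ e, e = min (t + 1) r := ⟨_, rfl⟩
    have he1 : 1 ≤ e := by omega
    rw [← he]
    have her : e + 1 ≤ r + 1 := by omega
    induction c using Nat.strong_induction_on generalizing s with
    | _ c ihc =>
      intro hc h
      rcases s with _ | s
      · exact zv_zero (by omega)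
      have hy : (2 * e + 2) * (r + 1) + e ≤ c * (r + 1) + (r + 1 + (t + 1)) := by
        obtain ⟨f, rfl⟩ : ∃ f, c = 2 * e + 1 + f := ⟨c - (2 * e + 1), by omega⟩
        have h1 : e ≤ t + 1 := by omega
        nlinarith [Nat.zero_le (f * (r + 1))]
      have h4 := four_lt he1 hk hy h
      have h2 := two_lt he1 her hk hy h
      rw [er] at h2
      -- few cycles: the structure theorem and the known vanishing
      have hsmall : ∀ u s' c', 1 ≤ u → c' ≤ 2 * min u r →
          2 * (c' + s') < (min u r + 2) * r + 4 * (min u r + 1) →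
          ZV K (r + 1) (r + 1 + u) s' c' := by
        intro u s' c' hu hc' hb
        rcases Nat.lt_or_ge u r with hur | hur
        · have hm : min u r = u := by omega
          rw [hm] at hc' hb
          exact hDl K r u s' c' 0 hu (by omega) hc' (Or.inl rfl) (by omega)
        · refine IThmC.vz (hvv _ _ ?_)
          have := hB3 (r + 1) (r + 1 + u) hd (by omega)
          omega
      refine hCh K r (r + 1 + t) s c (by omega) ?_ ?_
      · intro c' hc'
        rcases Nat.lt_or_ge c' (2 * e + 1) with h5 | h5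
        · refine hsmall (t + 1) s c' (by omega) (by omega) ?_
          rw [← he]
          nlinarith
        · refine ihc c' hc' s h5 (le_trans (Gam_mono ?_ ?_) h)
          · have h6 : c' * (r + 1) + (r + 1 + (t + 1)) ≤ c * (r + 1) + (r + 1 + (t + 1)) := by
              have := Nat.mul_le_mul_right (r + 1) hc'.le
              omega
            exact_mod_cast h6
          · exact_mod_cast Nat.le_succ s
      · intro m hm hmc
        obtain ⟨y, hyy⟩ : ∃ y, y = c * (r + 1) + (r + 1 + t + 1) := ⟨_, rfl⟩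
        have hy1 : c * (r + 1) + (r + 1 + (t + 1)) = y := by rw [hyy]; omega
        rw [← hyy] at hm
        rw [hy1] at h4 h hy
        obtain ⟨m0, hm0⟩ : ∃ m0, m0 = (y + s) / (s + 1) := ⟨_, rfl⟩
        rw [← hm0] at hm
        have hm1 : m0 * (s + 1) ≤ y + s := by
          rw [hm0]
          exact Nat.div_mul_le_self _ _
        have hm2 : y + s < (m0 + 1) * (s + 1) := by
          rw [hm0]
          exact (Nat.div_lt_iff_lt_mul (by omega)).1 (Nat.lt_succ_self _)
        have hm5 : 5 ≤ m0 := by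
          by_contra hcon
          have : m0 + 1 ≤ 5 := by omega
          have h7 := Nat.mul_le_mul_right (s + 1) this
          omega
        obtain ⟨k0, rfl⟩ : ∃ k0, m0 = k0 + 1 := ⟨m0 - 1, by omega⟩
        have hk0 : 4 ≤ k0 := by omega
        have hG : Gam k0 (y : ℚ) ((s + 1 : ℕ) : ℚ) ≤ Gam k (y : ℚ) ((s + 1 : ℕ) : ℚ) := by
          refine Gam_min hk0 (by positivity) ?_ ?_ hk
          · have h7 : k0 * (s + 1) ≤ y := by nlinarith
            exact_mod_cast h7
          · have h7 : y ≤ (k0 + 1) * (s + 1) := by nlinarith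
            exact_mod_cast h7
        obtain ⟨c', hc'⟩ : ∃ c', c' = c + 1 - m := ⟨_, rfl⟩
        rw [← hc']
        have hcm : c' + m = c + 1 := by omega
        obtain ⟨e', he'⟩ : ∃ e', e' = min t r := ⟨_, rfl⟩
        rcases Nat.lt_or_ge c' (2 * e' + 1) with h5 | h5
        · rcases Nat.eq_zero_or_pos t with rfl | ht
          · have h6 : c' = 0 := by omega
            rw [h6]
            refine IThmC.vz (hvv _ _ ?_)
            have := hBG (r + 1) (r + 1 + 0) hd
            omega
          · refine hsmall t s c' ht (by omega) ?_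
            rw [← he']
            rcases Nat.lt_or_ge t r with htr | htr
            · have h6 : e' = t := by omega
              have h7 : e = t + 1 := by omega
              rw [h6]
              rw [h7] at h2
              rw [h6] at h5
              nlinarith
            · have h6 : e' = r := by omega
              have h7 : e = r := by omega
              rw [h6]
              rw [h7] at h2
              rw [h6] at h5
              nlinarith
        · refine iht s c' k0 hk0 (by omega) ?_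
          rw [← he']
          have h6 := step (d := r + 1) hk0 (y := (y : ℚ)) (s := ((s + 1 : ℕ) : ℚ))
            (y' := ((c' * (r + 1) + (r + 1 + t) : ℕ) : ℚ)) (by
              have h7 : c' * (r + 1) + (r + 1 + t) + k0 * (r + 1) + 1 ≤ y := by
                have h8 : c' + k0 ≤ c := by omega
                have h9 := Nat.mul_le_mul_right (r + 1) h8
                rw [hyy]
                nlinarith
              exact_mod_cast h7)
          have h7 : (((s + 1 : ℕ) : ℚ) - 1) = s := by push_cast; ring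
          rw [h7] at h6
          have h8 : AA (r + 1) e ≤ AA (r + 1) e' + ((r + 1 : ℕ) : ℚ) := by
            rcases Nat.lt_or_ge t r with htr | htr
            · have h9 : e = e' + 1 := by omega
              rw [h9, AA_succ]
              linarith
            · have h9 : e = e' := by omega
              rw [h9]
              have : (0 : ℚ) ≤ ((r + 1 : ℕ) : ℚ) := by positivity
              linarith
          linarith

/-- [ThmD] on `C^(n+1)`, `n ≥ 5`.  Proof: descending induction with `S_StarM`; the triples by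
`S_Dlt`, `S_B3` (`c ≤ 2 e`), `S_PgH` (`n s < y`) and `S_JJ` with `k = n - 1` (`y ≤ n s` gives
`Gam (n - 1) y s ≤ gg n * s`). -/
def S_ThmD : Prop :=
  ∀ (K : Type) [Field K] [CharZero K] (d t p n : ℕ), 3 ≤ d → 1 ≤ t → t + 2 ≤ d → 5 ≤ n →
    gg n * ((p : ℚ) - (2 * t + 1)) ≤ AA d t → VVm K (n + 1) d (2 * d - 1 + t) p

theorem pr_ThmD (hSt : S_StarM) (hDl : S_Dlt) (hPg : S_PgH) (hB3 : S_B3) (hBG : S_BGr)
    (hM3 : S_Main3) (hRl : S_Rlb) (hJJ : S_JJ) : S_ThmD := by
  intro K _ _ d t p n hd ht htd hn hp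
  have hvv : ∀ T c, c < bnd3 d T → VV K d T c := fun T c hc =>
    ((hRl K d T c).1).1 (hM3 K d T c hd hc)
  obtain ⟨r, rfl⟩ : ∃ r, d = r + 1 := ⟨d - 1, by omega⟩
  have er : r + 1 - 1 = r := by omega
  have hg := gg_ge n
  have ht1 : (1 : ℚ) ≤ t := by exact_mod_cast ht
  have htr : (t : ℚ) + 1 ≤ r := by exact_mod_cast (by omega : t + 1 ≤ r)
  have hp2 : 2 * p < (t + 2) * r + 4 * (t + 1) := by
    have h1 : (2 * p : ℚ) < (t + 2) * r + 4 * (t + 1) := by
      rcases le_total (p : ℚ) (2 * t + 1) with h | h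
      · nlinarith
      · have h2 : 2 * ((p : ℚ) - (2 * t + 1)) ≤ gg n * ((p : ℚ) - (2 * t + 1)) :=
          mul_le_mul_of_nonneg_right hg (by linarith)
        unfold AA at hp
        push_cast at hp
        nlinarith
    exact_mod_cast h1
  -- the excluded triples
  have hz : ∀ u, t ≤ u → ∀ a ≤ p, ZVm K n (r + 1) (r + 1 + u) a (p - a) := by
    intro u hu a ha
    obtain ⟨c, hc⟩ : ∃ c, c = p - a := ⟨_, rfl⟩
    rw [← hc]
    have hac : a + c = p := by omega
    obtain ⟨e, he⟩ : ∃ e, e = min u r := ⟨_, rfl⟩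
    have hte : t ≤ e := by omega
    rcases Nat.lt_or_ge c (2 * e + 1) with h5 | h5
    · apply IThmC.zv
      rcases Nat.lt_or_ge u r with hur | hur
      · have h6 : e = u := by omega
        rw [h6] at h5
        refine hDl K r u a c 0 (by omega) (by omega) (by omega) (Or.inl rfl) ?_
        have h7 : c + a = p := by omega
        rw [h7]
        have h8 : (t + 2) * r ≤ (u + 2) * r := Nat.mul_le_mul_right r (by omega)
        omega
      · refine IThmC.vz (hvv _ _ ?_)
        have := hB3 (r + 1) (r + 1 + u) hd (by omega)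
        omega
    · rcases Nat.lt_or_ge (n * a) (c * (r + 1) + (r + 1 + u)) with h6 | h6
      · exact hPg K n (r + 1) _ a c h6
      · apply IThmC.zv
        refine hJJ K (r + 1) u a c (n - 1) hd (by omega) (by rw [er, ← he]; exact h5) ?_
        rw [er, ← he]
        obtain ⟨k, rfl⟩ : ∃ k, n = k + 1 := ⟨n - 1, by omega⟩
        rw [Nat.add_sub_cancel]
        have hk : 4 ≤ k := by omega
        have hk0 : (0 : ℚ) < k := by
          have : (4 : ℚ) ≤ k := by exact_mod_cast hk
          linarith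
        have h7 : ((c * (r + 1) + (r + 1 + u) : ℕ) : ℚ) ≤ (k + 1) * a := by exact_mod_cast h6
        have h8 : Gam k ((c * (r + 1) + (r + 1 + u) : ℕ) : ℚ) a ≤ gg (k + 1) * a := by
          have h9 : ((c * (r + 1) + (r + 1 + u) : ℕ) : ℚ) / k ≤ (k + 1) * a / k :=
            div_le_div_of_nonneg_right h7 hk0.le
          have h10 : ((k : ℚ) + 1) * a / k = a + 1 / k * a := by
            field_simp
          unfold Gam
          rw [gg_succ hk]
          rw [h10] at h9
          linarith
        have h11 : (a : ℚ) ≤ p - (2 * t + 1) := by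
          have h12 : a + (2 * t + 1) ≤ p := by omega
          have h13 : ((a : ℚ) + (2 * t + 1)) ≤ p := by exact_mod_cast h12
          linarith
        have h14 : gg (k + 1) * a ≤ gg (k + 1) * ((p : ℚ) - (2 * t + 1)) :=
          mul_le_mul_of_nonneg_left h11 (by linarith)
        have h15 : AA (r + 1) t ≤ AA (r + 1) e := AA_mono (by omega) hte
        linarith
  -- descending induction
  have hdesc : ∀ j u, u + j = t + p → t ≤ u →
      VVm K (n + 1) (r + 1) (2 * (r + 1) - 1 + u) p := by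
    intro j
    induction j with
    | zero =>
      intro u hu _
      apply IThmC.vv
      apply hvv
      have := hBG (r + 1) (2 * (r + 1) - 1 + u) hd
      omega
    | succ j ih =>
      intro u hu htu
      have h1 := ih (u + 1) (by omega) (by omega)
      have e1 : 2 * (r + 1) - 1 + u = (r + 1 + u) + r := by omega
      have e2 : 2 * (r + 1) - 1 + (u + 1) = (r + 1 + u) + r + 1 := by omega
      rw [e2] at h1
      rw [e1]
      exact hSt K r (r + 1 + u) p n (by omega) h1 fun a ha => hz u htu a ha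
  exact hdesc p t (by omega) le_rfl

end Pool.Agent.Work.MP_1233f5_ag.LS
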