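import Pool.Agent.Work.MP_1233f5_ag.LS.StmtsR
import Pool.Agent.Work.MP_1233f5_ag.LS.Stmts
import Pool.Agent.Work.MP_1233f5_ag.Z.I_XSym

/-! MP_1233f5_ag, block LS, item XRow: the antisymmetric case. -/

set_option autoImplicit false
set_option linter.unusedSectionVars false

namespace Pool.Agent.Work.MP_1233f5_ag.LS

open Finset
open Pool.Agent.Work.MP_1233f5_ag.V (vm ML theta rVan Mo vw KV)
open Pool.Agent.Work.MP_1233f5_ag.Y
open Pool.Agent.Work.MP_1233f5_ag.Z

namespace IXRow

section
variable {K : Type} [Field K] {α : Type} [Fintype α] [DecidableEq α]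

theorem sign_mul_self (τ : Equiv.Perm α) :
    ((Equiv.Perm.sign τ : ℤ) : K) * ((Equiv.Perm.sign τ : ℤ) : K) = 1 := by
  rw [← Int.cast_mul, Int.units_coe_mul_self, Int.cast_one]

/-- The antisymmetrizer is antisymmetric. -/
theorem act_asym (Q : Finset α) (τ : Equiv.Perm α) (hτ : Sup Q τ) (h : Lx K α) :
    act K α τ (asym (act K α) Q h) =
      ((Equiv.Perm.sign τ : ℤ) : K) • asym (act K α) Q h := by
  classical
  rw [U.asym_apply, map_sum, Finset.smul_sum]
  refine sum_nbij' (fun σ => τ * σ) (fun σ => τ⁻¹ * σ) ?_ ?_ ?_ ?_ ?_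
  · intro σ hσ
    simp only [mem_filter, mem_univ, true_and] at hσ ⊢
    exact U.sup_mul hτ hσ
  · intro σ hσ
    simp only [mem_filter, mem_univ, true_and] at hσ ⊢
    exact U.sup_mul (U.sup_inv hτ) hσ
  · intro σ _
    exact inv_mul_cancel_left τ σ
  · intro σ _
    exact mul_inv_cancel_left τ σ
  · intro σ _
    rw [map_smul, ← Module.End.mul_apply, ← map_mul, smul_smul]
    congr 1
    rw [Equiv.Perm.sign_mul, Units.val_mul, Int.cast_mul, ← mul_assoc, sign_mul_self, one_mul]

/-- The antisymmetrization of a cycle is in `Rw`. -/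
theorem asym_mem {m d p : ℕ} {P Q : Finset α} (hQ : Q ⊆ P) (hc : Q.card = m + 1) {h : Lx K α}
    (hh : h ∈ Cy K d P p) : asym (act K α) Q h ∈ Rw K m d P p := by
  classical
  refine Submodule.subset_span ⟨?_, Q, hQ, hc, fun σ hσ => act_asym Q σ hσ h⟩
  rw [U.asym_apply]
  refine Submodule.sum_mem _ fun σ hσ => Submodule.smul_mem _ _ ?_
  exact act_Cy_sup (U.sup_mono hQ (mem_filter.1 hσ).2) (Finset.Subset.refl P) hh

end

end IXRow

open IXRow in
theorem pr_XRow (h1 : S_Rel) (h2 : S_Cx2) (h3 : S_AsI) (h5 : S_Cx1) : S_XRow := by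
  intro K _ _ α _ _ r a c m P x w hr hV κ hκ Y hY hYc hant
  set g : Lx K α := cx a x w * κ with hg
  set B' : Submodule K (Lx K α) := (Bd K (r + 1) P (a + c) ⊔ Fx K r P (a + 1) (a + c)) ⊔
    Rw K (m + 1) (r + 1) P (a + c) with hB'
  have hcpP : cp a x w ⊆ P := by
    intro b hb
    rcases mem_union.1 hb with hb | hb
    · obtain ⟨i, hi, rfl⟩ := mem_image.1 hb
      exact hV.mem i (mem_range.1 hi)
    · obtain ⟨i, hi, hb⟩ := mem_biUnion.1 hb
      exact hV.sub i (Nat.lt_succ_iff.1 (mem_range.1 hi)) hb
  have hxcp : ∀ i < a, x i ∈ cp a x w := fun i hi =>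
    mem_union_left _ (mem_image_of_mem x (mem_range.2 hi))
  have hwcp : ∀ i ≤ a, w i ⊆ cp a x w := fun i hi b hb =>
    mem_union_right _ (mem_biUnion.2 ⟨i, mem_range.2 (by omega), hb⟩)
  have hYout : ∀ y ∈ Y, y ∉ cp a x w := fun y hy => (mem_sdiff.1 (hY hy)).2
  have hYP : Y ⊆ P := hY.trans sdiff_subset
  -- `g` is a cycle
  have hV' : CV r (cp a x w) a x w :=
    ⟨hV.inj, hxcp, hV.card, hwcp, hV.dis, hV.out⟩
  have hgC : g ∈ Cy K (r + 1) P (a + c) := by
    have h6 := Cy_mul (disjoint_sdiff (s := cp a x w) (t := P)) (h5 K α r a _ x w hV') hκ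
    exact Cy_mono (union_subset hcpP sdiff_subset) h6
  -- `g` is antisymmetric in `Y`
  have hgant : ∀ σ, Sup Y σ → act K α σ g = ((Equiv.Perm.sign σ : ℤ) : K) • g := by
    intro σ hσ
    have h6 : act K α σ (cx a x w) = cx a x w := by
      rw [(h2 K α a x w).1]
      refine XS.cx_congr (fun i hi => hσ _ fun hc => hYout _ hc (hxcp i hi)) fun i hi => ?_
      exact U.sup_im_disj hσ (disjoint_left.2 fun b hb hb' => hYout b hb' (hwcp i hi hb))
    rw [hg, act_mul, h6, hant σ hσ, mul_smul_comm]
  -- step 1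
  have step1 : ∀ y ∈ Y, g + ∑ k ∈ range a, act K α (Equiv.swap y (x k)) g ∈ B' := by
    intro y hy
    have hy' := hYout y hy
    have hyx : ∀ i < a, x i ≠ y := fun i hi h => hy' (h ▸ hxcp i hi)
    set z : ℕ → α := fun i => if i = a then y else x i with hz
    have hza : z a = y := if_pos rfl
    have hzi : ∀ i < a, z i = x i := fun i hi => if_neg (by omega)
    have hzinj : ∀ i < a + 1, ∀ j < a + 1, z i = z j → i = j := by
      intro i hi j hj hij
      rcases Nat.lt_succ_iff_lt_or_eq.1 hi with h | h <;>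
        rcases Nat.lt_succ_iff_lt_or_eq.1 hj with h' | h'
      · rw [hzi i h, hzi j h'] at hij
        exact hV.inj i h j h' hij
      · rw [hzi i h, h', hza] at hij
        exact absurd hij (hyx i h)
      · rw [h, hza, hzi j h'] at hij
        exact absurd hij.symm (hyx j h')
      · omega
    have hEV : EV r P a z w := by
      refine ⟨fun i hi j hj => hzinj i (by omega) j (by omega), ?_, hV.card, hV.sub, hV.dis, ?_⟩
      · intro i hi
        rcases Nat.lt_or_eq_of_le hi with h | h
        · rw [hzi i h]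
          exact hV.mem i h
        · rw [h, hza]
          exact hYP hy
      · intro i hi j hj
        rcases Nat.lt_or_eq_of_le hi with h | h
        · rw [hzi i h]
          exact hV.out i h j hj
        · rw [h, hza]
          exact fun hc => hy' (hwcp j hj hc)
    have hκ' : κ ∈ Cy K (r + 1) (insert (z a) (P \ es a z w)) c := by
      refine Cy_mono ?_ hκ
      intro b hb
      obtain ⟨hb1, hb2⟩ := mem_sdiff.1 hb
      by_cases hba : b = z a
      · rw [hba]
        exact mem_insert_self _ _
      · refine mem_insert_of_mem (mem_sdiff.2 ⟨hb1, fun hc => hb2 ?_⟩)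
        rcases mem_union.1 hc with hc | hc
        · obtain ⟨i, hi, rfl⟩ := mem_image.1 hc
          have hia : i < a := by
            rcases Nat.lt_succ_iff_lt_or_eq.1 (mem_range.1 hi) with h | h
            · exact h
            · exact absurd (by rw [h]) hba
          rw [hzi i hia]
          exact hxcp i hia
        · obtain ⟨i, hi, hbi⟩ := mem_biUnion.1 hc
          exact hwcp i (Nat.lt_succ_iff.1 (mem_range.1 hi)) hbi
    have h6 := h1 K α r a c P z w hr hEV κ hκ'
    rw [sum_range_succ] at h6
    have h7 : (cx a (skp a z) w * act K α (Equiv.swap (z a) (z a)) κ : Lx K α) = g := by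
      rw [Equiv.swap_self]
      have h8 : act K α (Equiv.refl α) κ = κ := by
        show act K α 1 κ = κ
        rw [map_one, Module.End.one_apply]
      rw [h8, hg]
      congr 1
      refine XS.cx_congr (fun i hi => ?_) fun i _ => rfl
      show (if i < a then z i else z (i + 1)) = x i
      rw [if_pos hi, hzi i hi]
    have h8 : ∀ k ∈ range a, (cx a (skp k z) w * act K α (Equiv.swap (z a) (z k)) κ : Lx K α) =
        act K α (Equiv.swap y (x k)) g := by
      intro k hk
      have hk' := mem_range.1 hk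
      rw [hza, hzi k hk', hg, act_mul]
      congr 1
      rw [(h2 K α a x w).1]
      have hfix : ∀ i ≤ a, im (Equiv.swap y (x k)) (w i) = w i := by
        intro i hi
        refine im_eq_self fun b hb => Equiv.swap_apply_of_ne_of_ne ?_ ?_
        · intro h
          exact hy' (h ▸ hwcp i hi hb)
        · intro h
          exact hV.out k hk' i hi (h ▸ hb)
      rw [XS.cx_congr (x' := fun i => (Equiv.swap y (x k)) (x i)) (w' := w)
        (fun i _ => rfl) (fun i hi => hfix i hi)]
      refine XS.cx_set h2 ?_ (XS.skp_inj hk'.le hzinj) ?_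
      · intro i hi j hj hij
        exact hV.inj i hi j hj ((Equiv.swap y (x k)).injective hij)
      · rw [XS.skp_image hk'.le hzinj]
        ext b
        rw [mem_erase, mem_image, mem_image]
        have hρx : ∀ i < a, (Equiv.swap y (x k)) (x i) = if i = k then y else x i := by
          intro i hi
          split_ifs with h
          · rw [h, Equiv.swap_apply_right]
          · exact Equiv.swap_apply_of_ne_of_ne (hyx i hi) fun h6 => h (hV.inj i hi k hk' h6)
        constructor
        · rintro ⟨h9, i, hi, rfl⟩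
          have hi' := mem_range.1 hi
          have hik : i ≠ k := fun h => h9 (by rw [h])
          rcases Nat.lt_succ_iff_lt_or_eq.1 hi' with h | h
          · refine ⟨i, mem_range.2 h, ?_⟩
            rw [hρx i h, if_neg hik, hzi i h]
          · refine ⟨k, hk, ?_⟩
            rw [hρx k hk', if_pos rfl, h, hza]
        · rintro ⟨i, hi, rfl⟩
          have hi' := mem_range.1 hi
          rw [hρx i hi']
          split_ifs with h
          · refine ⟨fun h9 => ?_, a, mem_range.2 (by omega), hza⟩
            rw [hzi k hk'] at h9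
            exact hyx k hk' h9.symm
          · refine ⟨fun h9 => ?_, i, mem_range.2 (by omega), hzi i hi'⟩
            rw [hzi k hk'] at h9
            exact h (hV.inj i hi' k hk' h9)
    rw [h7, sum_congr rfl h8] at h6
    rw [add_comm g]
    exact Submodule.mem_sup_left h6
  -- step 3
  have step3 : ∀ k < a, g - ∑ y ∈ Y, act K α (Equiv.swap y (x k)) g ∈ B' := by
    intro k hk
    have hxk : x k ∉ Y := fun hc => hYout _ hc (hxcp k hk)
    have h6 := h3 K α (Lx K α) (act K α) Y (x k) g hxk hgant
    have h7 : asym (act K α) (insert (x k) Y) g ∈ Rw K (m + 1) (r + 1) P (a + c) :=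
      asym_mem (insert_subset (hV.mem k hk) hYP) (by rw [card_insert_of_notMem hxk, hYc]) hgC
    rw [h6] at h7
    have h8 : (Y.card.factorial : K) ≠ 0 := Nat.cast_ne_zero.2 (Nat.factorial_ne_zero _)
    exact Submodule.mem_sup_right ((Submodule.smul_mem_iff _ h8).1 h7)
  -- conclusion
  have h6 : ∑ y ∈ Y, (g + ∑ k ∈ range a, act K α (Equiv.swap y (x k)) g) ∈ B' :=
    Submodule.sum_mem _ step1
  have h7 : ∑ k ∈ range a, (g - ∑ y ∈ Y, act K α (Equiv.swap y (x k)) g) ∈ B' :=
    Submodule.sum_mem _ fun k hk => step3 k (mem_range.1 hk)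
  have h8 := Submodule.add_mem _ h6 h7
  rw [sum_add_distrib, sum_sub_distrib, sum_comm (s := Y), sum_const, sum_const, hYc, card_range]
    at h8
  have h9 : (m + 1) • g + ∑ k ∈ range a, ∑ y ∈ Y, act K α (Equiv.swap y (x k)) g +
      (a • g - ∑ k ∈ range a, ∑ y ∈ Y, act K α (Equiv.swap y (x k)) g) =
      ((m + 1 + a : ℕ) : K) • g := by
    rw [Nat.cast_smul_eq_nsmul, add_smul (m + 1) a g]
    abel
  rw [h9] at h8
  have h10 : ((m + 1 + a : ℕ) : K) ≠ 0 := Nat.cast_ne_zero.2 (by omega)
  exact (Submodule.smul_mem_iff _ h10).1 h8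

end Pool.Agent.Work.MP_1233f5_ag.LS
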